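import Pool.Agent.Lib.MFE.HProps

/-!
# Thin attracting sets: a linear map to the plane without zeros on a small set
-/

set_option autoImplicit false

open Set Metric Filter Topology MeasureTheory
open scoped NNReal ENNReal

namespace MFE

theorem null_image {X Z : Type*} [EMetricSpace X] [EMetricSpace Z] [MeasurableSpace X]
    [BorelSpace X] [MeasurableSpace Z] [BorelSpace Z] {K : ℝ≥0} {f : X → Z} {s : Set X}
    (h : LipschitzOnWith K f s) {d : ℝ} (hd : 0 ≤ d) (h0 : μH[d] s = 0) : μH[d] (f '' s) = 0 := by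
  have := h.hausdorffMeasure_image_le hd
  rw [h0, mul_zero] at this
  exact nonpos_iff_eq_zero.1 this

/-- The plane has positive four-dimensional Hausdorff measure. -/
theorem plane_pos : (μH[4] : Measure (ℂ × ℂ)) univ ≠ 0 := by
  intro h
  have hfr : Module.finrank ℝ (ℂ × ℂ) = Module.finrank ℝ (Fin 4 → ℝ) := by
    simp [Module.finrank_prod]
  obtain ⟨L⟩ := FiniteDimensional.nonempty_continuousLinearEquiv_of_finrank_eq hfr
  have h1 := null_image (s := (univ : Set (ℂ × ℂ)))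
    (L : (ℂ × ℂ) →L[ℝ] (Fin 4 → ℝ)).lipschitz.lipschitzOnWith (d := 4) (by norm_num) h
  have h2 : ((L : (ℂ × ℂ) →L[ℝ] (Fin 4 → ℝ)) : (ℂ × ℂ) → (Fin 4 → ℝ)) '' univ = univ :=
    image_univ_of_surjective L.surjective
  rw [h2] at h1
  have h3 : (μH[4] : Measure (Fin 4 → ℝ)) = volume := by
    have := hausdorffMeasure_pi_real (ι := Fin 4)
    simpa using this
  rw [h3] at h1
  have h4 : (volume : Measure (Fin 4 → ℝ)) univ ≠ 0 :=
    (Measure.measure_univ_pos.2 (NeZero.ne _)).ne'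
  exact h4 h1

theorem avoid_quot {n : ℕ} (b1 : (Fin n → ℂ) →L[ℂ] ℂ × ℂ) (Y : Set (Fin (n + 1) → ℂ))
    (hY : (μH[4] : Measure (Fin (n + 1) → ℂ)) Y = 0) :
    (μH[4] : Measure (ℂ × ℂ))
      ((fun y : Fin (n + 1) → ℂ => -((y 0)⁻¹ • b1 (Fin.tail y))) '' {y ∈ Y | y 0 ≠ 0}) = 0 := by
  set f : (Fin (n + 1) → ℂ) → ℂ × ℂ := fun y => -((y 0)⁻¹ • b1 (Fin.tail y)) with hf
  set S : ℕ → Set (Fin (n + 1) → ℂ) := fun k => {y ∈ Y | (k + 1 : ℝ)⁻¹ ≤ ‖y 0‖ ∧ ‖y‖ ≤ k + 1}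
    with hS
  have hcov : f '' {y ∈ Y | y 0 ≠ 0} ⊆ ⋃ k, f '' S k := by
    rintro _ ⟨y, ⟨hy, hy0⟩, rfl⟩
    have hp : 0 < ‖y 0‖ := norm_pos_iff.2 hy0
    obtain ⟨k, hk⟩ := exists_nat_ge (max ‖y‖ ‖y 0‖⁻¹)
    refine mem_iUnion.2 ⟨k, ⟨y, ⟨hy, ?_, ?_⟩, rfl⟩⟩
    · have h1 : ‖y 0‖⁻¹ ≤ (k + 1 : ℝ) := (le_max_right _ _).trans (hk.trans (by linarith))
      exact inv_le_of_inv_le₀ hp h1
    · exact (le_max_left _ _).trans (hk.trans (by linarith))
  refine measure_mono_null hcov (measure_iUnion_null fun k => ?_)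
  have hnull : (μH[4] : Measure (Fin (n + 1) → ℂ)) (S k) = 0 :=
    measure_mono_null (fun y hy => hy.1) hY
  set K : ℝ := (k + 1 : ℝ) ^ 3 * ‖b1‖ + (k + 1 : ℝ) * ‖b1‖ with hK
  have hK0 : 0 ≤ K := by positivity
  have hlip : LipschitzOnWith ⟨K, hK0⟩ f (S k) := by
    refine LipschitzOnWith.of_dist_le_mul fun y hy z hz => ?_
    rw [dist_eq_norm, dist_eq_norm]
    have hk1 : (0 : ℝ) < k + 1 := by positivity
    have hy0 : 0 < ‖y 0‖ := lt_of_lt_of_le (by positivity) hy.2.1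
    have hz0 : 0 < ‖z 0‖ := lt_of_lt_of_le (by positivity) hz.2.1
    have hyi : ‖y 0‖⁻¹ ≤ k + 1 := by
      rw [inv_le_comm₀ hy0 hk1]
      exact hy.2.1
    have hzi : ‖z 0‖⁻¹ ≤ k + 1 := by
      rw [inv_le_comm₀ hz0 hk1]
      exact hz.2.1
    have htn : ∀ w : Fin (n + 1) → ℂ, ‖Fin.tail w‖ ≤ ‖w‖ := fun w =>
      (pi_norm_le_iff_of_nonneg (norm_nonneg _)).2 fun i => norm_le_pi_norm w i.succ
    have e1 : f y - f z = ((z 0)⁻¹ - (y 0)⁻¹) • b1 (Fin.tail y) +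
        (z 0)⁻¹ • b1 (Fin.tail (z - y)) := by
      have : Fin.tail (z - y) = Fin.tail z - Fin.tail y := rfl
      rw [this, map_sub, hf]
      simp only [smul_sub, sub_smul]
      abel
    have e2 : (z 0)⁻¹ - (y 0)⁻¹ = (z 0)⁻¹ * (y 0)⁻¹ * (y 0 - z 0) := by
      have h1 : y 0 ≠ 0 := norm_pos_iff.1 hy0
      have h2 : z 0 ≠ 0 := norm_pos_iff.1 hz0
      field_simp
    have h1 : ‖(z 0)⁻¹ - (y 0)⁻¹‖ ≤ (k + 1) ^ 2 * ‖y - z‖ := by
      rw [e2, norm_mul, norm_mul, norm_inv, norm_inv, sq]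
      have : ‖y 0 - z 0‖ ≤ ‖y - z‖ := norm_le_pi_norm (y - z) 0
      gcongr
    have h2 : ‖b1 (Fin.tail y)‖ ≤ ‖b1‖ * (k + 1) :=
      (b1.le_opNorm _).trans (by gcongr; exact (htn y).trans hy.2.2)
    have h3 : ‖b1 (Fin.tail (z - y))‖ ≤ ‖b1‖ * ‖y - z‖ :=
      (b1.le_opNorm _).trans (by gcongr; rw [norm_sub_rev y z]; exact htn _)
    calc ‖f y - f z‖ ≤ ‖(z 0)⁻¹ - (y 0)⁻¹‖ * ‖b1 (Fin.tail y)‖ +
        ‖z 0‖⁻¹ * ‖b1 (Fin.tail (z - y))‖ := by
          rw [e1]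
          refine (norm_add_le _ _).trans ?_
          rw [norm_smul, norm_smul, norm_inv]
      _ ≤ ((k + 1) ^ 2 * ‖y - z‖) * (‖b1‖ * (k + 1)) + (k + 1) * (‖b1‖ * ‖y - z‖) := by
          gcongr
      _ = K * ‖y - z‖ := by rw [hK]; ring
  exact null_image hlip (by norm_num) hnull

theorem avoid_pi : ∀ (n : ℕ) (Y : Set (Fin n → ℂ)), (0 : Fin n → ℂ) ∉ Y →
    (μH[4] : Measure (Fin n → ℂ)) Y = 0 →
    ∃ b : (Fin n → ℂ) →L[ℂ] ℂ × ℂ, ∀ x ∈ Y, b x ≠ 0 := by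
  intro n
  induction n with
  | zero =>
    intro Y h0 _
    refine ⟨0, fun x hx => ?_⟩
    exact absurd (by rwa [Subsingleton.elim x 0] at hx) h0
  | succ n ih =>
    intro Y h0 hY
    set Y0 : Set (Fin n → ℂ) := Fin.tail '' {y ∈ Y | y 0 = 0} with hY0
    have hY00 : (0 : Fin n → ℂ) ∉ Y0 := by
      rintro ⟨y, ⟨hy, hy0⟩, ht⟩
      refine h0 ?_
      have : y = 0 := by
        funext i
        refine Fin.cases hy0 (fun j => ?_) i
        exact congrFun ht j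
      rwa [this] at hy
    have htail : LipschitzWith 1 (Fin.tail : (Fin (n + 1) → ℂ) → (Fin n → ℂ)) := by
      refine LipschitzWith.of_dist_le_mul fun y z => ?_
      rw [NNReal.coe_one, one_mul, dist_pi_le_iff dist_nonneg]
      intro i
      exact dist_le_pi_dist y z i.succ
    have hY0n : (μH[4] : Measure (Fin n → ℂ)) Y0 = 0 :=
      null_image (htail.lipschitzOnWith) (by norm_num) (measure_mono_null (fun y hy => hy.1) hY)
    obtain ⟨b1, hb1⟩ := ih Y0 hY00 hY0n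
    have hW := avoid_quot b1 Y hY
    have hne : (fun y : Fin (n + 1) → ℂ => -((y 0)⁻¹ • b1 (Fin.tail y))) '' {y ∈ Y | y 0 ≠ 0}
        ≠ univ := by
      intro h
      rw [h] at hW
      exact plane_pos hW
    obtain ⟨w, hw⟩ := (ne_univ_iff_exists_notMem _).1 hne
    let tl : (Fin (n + 1) → ℂ) →L[ℂ] (Fin n → ℂ) :=
      ContinuousLinearMap.pi fun i => ContinuousLinearMap.proj i.succ
    refine ⟨(ContinuousLinearMap.proj (R := ℂ) (φ := fun _ : Fin (n + 1) => ℂ) 0).smulRight w +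
      b1.comp tl, fun y hy => ?_⟩
    have htl : tl y = Fin.tail y := rfl
    have hval : ((ContinuousLinearMap.proj (R := ℂ) (φ := fun _ : Fin (n + 1) => ℂ) 0).smulRight w +
      b1.comp tl) y = y 0 • w + b1 (Fin.tail y) := rfl
    rw [hval]
    intro hb
    by_cases hy0 : y 0 = 0
    · rw [hy0, zero_smul, zero_add] at hb
      exact hb1 _ ⟨y, ⟨hy, hy0⟩, rfl⟩ hb
    · refine hw ⟨y, ⟨hy, hy0⟩, ?_⟩
      show -((y 0)⁻¹ • b1 (Fin.tail y)) = w
      have h5 : b1 (Fin.tail y) = -(y 0 • w) := by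
        rw [eq_neg_iff_add_eq_zero, add_comm]
        exact hb
      rw [h5, smul_neg, neg_neg, smul_smul, inv_mul_cancel₀ hy0, one_smul]

theorem avoid (E : Type*) [NormedAddCommGroup E] [InnerProductSpace ℂ E]
    [FiniteDimensional ℂ E] : AvoidStmt E := by
  intro Y h0 hY
  letI : MeasurableSpace E := borel E
  haveI : BorelSpace E := ⟨rfl⟩
  have hfr : Module.finrank ℂ E = Module.finrank ℂ (Fin (Module.finrank ℂ E) → ℂ) := by simp
  obtain ⟨L⟩ := FiniteDimensional.nonempty_continuousLinearEquiv_of_finrank_eq hfr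
  have hL := (L : E →L[ℂ] (Fin (Module.finrank ℂ E) → ℂ)).lipschitz.lipschitzOnWith (s := Y)
  have hnull := null_image hL (d := 4) (by norm_num) hY
  obtain ⟨b, hb⟩ := avoid_pi _ _ (by
    rintro ⟨y, hy, hy0⟩
    have : y = 0 := by
      have h1 : L y = 0 := hy0
      simpa using h1
    exact h0 (this ▸ hy)) hnull
  exact ⟨b.comp (L : E →L[ℂ] (Fin (Module.finrank ℂ E) → ℂ)), fun x hx => hb _ ⟨x, hx, rfl⟩⟩

end MFE
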