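import Pool.Agent.Lib.MFE.Sd

/-!
# Row R10b: projective space with the chordal metric
-/

set_option autoImplicit false

open Set Metric Filter Topology
open scoped LinearAlgebra.Projectivization

namespace MFE

section iter

variable {E : Type*} [NormedAddCommGroup E] [InnerProductSpace ℂ E]

theorem pdist_mk {x y : E} (hx : x ≠ 0) (hy : y ≠ 0) :
    pdist (Projectivization.mk ℂ x hx) (Projectivization.mk ℂ y hy) = sd x y := by
  unfold pdist
  obtain ⟨a, ha⟩ := Projectivization.exists_smul_eq_mk_rep ℂ x hx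
  obtain ⟨b, hb⟩ := Projectivization.exists_smul_eq_mk_rep ℂ y hy
  have ha' : (a : ℂ) • x = (Projectivization.mk ℂ x hx).rep := ha
  have hb' : (b : ℂ) • y = (Projectivization.mk ℂ y hy).rep := hb
  rw [← ha', ← hb', sd_smul_left a.ne_zero, sd_smul_right b.ne_zero]

theorem HMap.map_mk (s : HMap E) {x : E} (hx : x ≠ 0) :
    s.map (Projectivization.mk ℂ x hx) = Projectivization.mk ℂ (s.F x) (s.ne x hx) := by
  rw [HMap.map, Projectivization.mk_eq_mk_iff']
  obtain ⟨a, ha⟩ := Projectivization.exists_smul_eq_mk_rep ℂ x hx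
  have ha' : (a : ℂ) • x = (Projectivization.mk ℂ x hx).rep := ha
  refine ⟨(a : ℂ) ^ s.d, ?_⟩
  rw [← s.hom, ha']

theorem HMap.iter_ne (s : HMap E) {x : E} (hx : x ≠ 0) (m : ℕ) : s.F^[m] x ≠ 0 := by
  induction m with
  | zero => exact hx
  | succ m ih =>
    rw [Function.iterate_succ_apply']
    exact s.ne _ ih

theorem HMap.iter_map_mk (s : HMap E) {x : E} (hx : x ≠ 0) (m : ℕ) :
    s.map^[m] (Projectivization.mk ℂ x hx) =
      Projectivization.mk ℂ (s.F^[m] x) (s.iter_ne hx m) := by
  induction m with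
  | zero => rfl
  | succ m ih =>
    rw [Function.iterate_succ_apply', ih, s.map_mk]
    congr 1
    rw [Function.iterate_succ_apply']

theorem HMap.iter_hom (s : HMap E) (c : ℂ) (x : E) (m : ℕ) :
    s.F^[m] (c • x) = c ^ (s.d ^ m) • s.F^[m] x := by
  induction m with
  | zero => simp
  | succ m ih =>
    rw [Function.iterate_succ_apply', ih, s.hom, Function.iterate_succ_apply', ← pow_mul,
      ← pow_succ]

theorem HMap.iter_an (s : HMap E) (m : ℕ) : AnalyticOnNhd ℂ (s.F^[m]) univ := by
  induction m with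
  | zero => exact analyticOnNhd_id
  | succ m ih =>
    rw [Function.iterate_succ']
    exact s.an.comp ih (mapsTo_univ _ _)

theorem HMap.F_zero (s : HMap E) : s.F 0 = 0 := by
  have h := s.hom 0 0
  have hd : s.d ≠ 0 := by
    have := s.pos
    omega
  rwa [smul_zero, zero_pow hd, zero_smul] at h

theorem HMap.continuous_F (s : HMap E) : Continuous s.F :=
  continuousOn_univ.1 s.an.continuousOn

theorem HMap.iter_cont (s : HMap E) (m : ℕ) : Continuous (s.F^[m]) :=
  s.continuous_F.iterate m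

theorem mk_mem_iff {S : Set (ℙ ℂ E)} {x : E} (hx : x ≠ 0) :
    x ∈ coneOf S ↔ Projectivization.mk ℂ x hx ∈ S :=
  ⟨fun ⟨_, h⟩ => h, fun h => ⟨hx, h⟩⟩

theorem isCone_coneOf (S : Set (ℙ ℂ E)) : IsCone (coneOf S) := by
  refine ⟨fun ⟨h, _⟩ => h rfl, ?_⟩
  rintro c hc x ⟨hx, h⟩
  have hcx : c • x ≠ 0 := smul_ne_zero hc hx
  refine ⟨hcx, ?_⟩
  have : Projectivization.mk ℂ (c • x) hcx = Projectivization.mk ℂ x hx := by
    rw [Projectivization.mk_eq_mk_iff']
    exact ⟨c, rfl⟩
  rwa [this]

omit [InnerProductSpace ℂ E] in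
theorem isOpen_ne_zero : IsOpen {x : E | x ≠ 0} := isOpen_ne

theorem isOpen_iff_coneOf (S : Set (ℙ ℂ E)) : IsOpen S ↔ IsOpen (coneOf S) := by
  have h1 : IsOpen S ↔ IsOpen ((fun v : {v : E // v ≠ 0} => Projectivization.mk ℂ v.1 v.2) ⁻¹' S) :=
    isOpen_coinduced
  have h2 : Subtype.val '' ((fun v : {v : E // v ≠ 0} => Projectivization.mk ℂ v.1 v.2) ⁻¹' S) =
      coneOf S := by
    ext x
    constructor
    · rintro ⟨v, hv, rfl⟩
      exact ⟨v.2, hv⟩
    · rintro ⟨hx, h⟩
      exact ⟨⟨x, hx⟩, h, rfl⟩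
  rw [h1, ← h2]
  have h3 : IsOpenEmbedding (Subtype.val : {v : E // v ≠ 0} → E) :=
    (isOpen_ne_zero (E := E)).isOpenEmbedding_subtypeVal
  exact h3.isOpen_iff_image_isOpen

theorem continuous_pmk : Continuous
    (fun v : {v : E // v ≠ 0} => Projectivization.mk ℂ v.1 v.2) :=
  continuous_coinduced_rng

theorem HMap.continuous_map (s : HMap E) : Continuous s.map := by
  rw [continuous_def]
  intro S hS
  rw [isOpen_iff_coneOf] at hS ⊢
  have h : coneOf (s.map ⁻¹' S) = s.F ⁻¹' (coneOf S) := by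
    ext x
    by_cases hx : x = 0
    · constructor
      · rintro ⟨h, -⟩
        exact absurd hx h
      · rintro ⟨h, -⟩
        rw [hx, s.F_zero] at h
        exact absurd rfl h
    · rw [mk_mem_iff hx, mem_preimage, s.map_mk, mem_preimage, mk_mem_iff (s.ne x hx)]
  rw [h]
  exact hS.preimage s.continuous_F

end iter

section metric

variable {E : Type*} [NormedAddCommGroup E] [InnerProductSpace ℂ E]

/-- the chordal metric, without the topology -/
@[reducible] noncomputable def premetric (E : Type*) [NormedAddCommGroup E]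
    [InnerProductSpace ℂ E] : MetricSpace (ℙ ℂ E) where
  dist := pdist
  dist_self p := sd_self p.rep_nonzero
  dist_comm p q := sd_comm _ _
  dist_triangle p q r := sd_triangle p.rep_nonzero q.rep_nonzero r.rep_nonzero
  eq_of_dist_eq_zero {p q} h := by
    obtain ⟨c, hc⟩ := (sd_eq_zero p.rep_nonzero q.rep_nonzero).1 h
    rw [← p.mk_rep, ← q.mk_rep, Projectivization.mk_eq_mk_iff']
    exact ⟨c, hc.symm⟩

theorem premetric_top (E : Type*) [NormedAddCommGroup E] [InnerProductSpace ℂ E] :
    (projTop : TopologicalSpace (ℙ ℂ E)) =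
      (premetric E).toPseudoMetricSpace.toUniformSpace.toTopologicalSpace := by
  apply TopologicalSpace.ext_iff.2
  intro S
  letI := premetric E
  have hm : IsOpen[(premetric E).toPseudoMetricSpace.toUniformSpace.toTopologicalSpace] S ↔
      ∀ p ∈ S, ∃ ε > 0, ∀ q, pdist q p < ε → q ∈ S := by
    exact Metric.isOpen_iff
  have hq : IsOpen[(projTop : TopologicalSpace (ℙ ℂ E))] S ↔ IsOpen (coneOf S) :=
    isOpen_iff_coneOf S
  rw [hm, hq]
  constructor
  · intro h p hp
    have hp' : p.rep ∈ coneOf S := ⟨p.rep_nonzero, by rwa [p.mk_rep]⟩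
    obtain ⟨ε, hε, hball⟩ := Metric.isOpen_iff.1 h _ hp'
    have hn : 0 < ‖p.rep‖ := norm_pos_iff.2 p.rep_nonzero
    refine ⟨min (ε / ‖p.rep‖) 1, by positivity, ?_⟩
    intro q hq
    obtain ⟨c, hc, -⟩ := exists_sd_eq p.rep_nonzero q.rep_nonzero
    have h1 : sd p.rep q.rep < min (ε / ‖p.rep‖) 1 := by
      rw [sd_comm]
      exact hq
    have h2 : ‖p.rep‖ * sd p.rep q.rep < ε := by
      have := h1.trans_le (min_le_left _ _)
      rwa [lt_div_iff₀' hn] at this
    have hc0 : c ≠ 0 := by
      intro h0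
      rw [h0, zero_smul, sub_zero] at hc
      have h3 := h1.trans_le (min_le_right _ _)
      nlinarith
    have h4 : c • q.rep ∈ ball p.rep ε := by
      rw [mem_ball, dist_eq_norm, ← norm_neg, neg_sub, ← hc]
      exact h2
    obtain ⟨h5, h6⟩ := hball h4
    have h7 : Projectivization.mk ℂ (c • q.rep) h5 = q := by
      conv_rhs => rw [← q.mk_rep]
      rw [Projectivization.mk_eq_mk_iff']
      exact ⟨c, rfl⟩
    rwa [h7] at h6
  · intro h
    rw [Metric.isOpen_iff]
    rintro x ⟨hx, hxS⟩
    obtain ⟨ε, hε, hball⟩ := h _ hxS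
    have hc : ContinuousAt (fun y : E => sd y x) x := by
      have h1 := sd_continuousAt (x := x) (y := x) hx hx
      exact ContinuousAt.comp (f := fun y : E => (y, x)) (g := fun t : E × E => sd t.1 t.2) h1
        (by fun_prop)
    have h2 : ∀ᶠ y in 𝓝 x, sd y x < ε := by
      refine hc.eventually_lt continuousAt_const ?_
      rw [sd_self hx]
      exact hε
    have h3 : ∀ᶠ y in 𝓝 x, y ≠ 0 := isOpen_ne_zero.mem_nhds hx
    have h4 : ∀ᶠ y in 𝓝 x, y ∈ coneOf S := by
      filter_upwards [h2, h3] with y hy hy0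
      refine ⟨hy0, hball _ ?_⟩
      rw [pdist_mk]
      exact hy
    exact Metric.mem_nhds_iff.1 h4

/-- the metric, with the quotient topology -/
@[reducible] noncomputable def projMetric (E : Type*) [NormedAddCommGroup E]
    [InnerProductSpace ℂ E] : MetricSpace (ℙ ℂ E) :=
  (premetric E).replaceTopology (premetric_top E)

theorem projMetric_dist (p q : ℙ ℂ E) : (projMetric E).dist p q = pdist p q := rfl

theorem projMetric_top :
    (projMetric E).toPseudoMetricSpace.toUniformSpace.toTopologicalSpace = projTop := rfl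

theorem compactSpace_proj [FiniteDimensional ℂ E] : CompactSpace (ℙ ℂ E) := by
  haveI : ProperSpace E := FiniteDimensional.proper ℂ E
  have h1 : IsCompact (sphere (0 : E) 1) := isCompact_sphere 0 1
  have h2 : Continuous (fun v : sphere (0 : E) 1 => Projectivization.mk ℂ v.1
      (ne_zero_of_mem_unit_sphere v)) := by
    have h3 : Continuous (fun v : sphere (0 : E) 1 =>
        (⟨v.1, ne_zero_of_mem_unit_sphere v⟩ : {v : E // v ≠ 0})) := by fun_prop
    exact continuous_pmk.comp h3
  haveI : CompactSpace (sphere (0 : E) 1) := isCompact_iff_compactSpace.1 h1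
  have h4 := isCompact_range h2
  have h5 : range (fun v : sphere (0 : E) 1 => Projectivization.mk ℂ v.1
      (ne_zero_of_mem_unit_sphere v)) = univ := by
    refine eq_univ_of_forall fun p => ?_
    obtain ⟨e, he, ⟨c, hc, hce⟩, -⟩ := sd_unit p.rep_nonzero
    refine ⟨⟨e, by simpa using he⟩, ?_⟩
    conv_rhs => rw [← p.mk_rep]
    rw [Projectivization.mk_eq_mk_iff']
    exact ⟨c, hce.symm⟩
  rw [h5] at h4
  exact ⟨h4⟩

end metric

end MFE
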