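import Pool.Agent.Lib.MFE.Props
import Pool.Agent.Lib.MFE.Proj
import Pool.Agent.Lib.MF7_T2

/-!
# Row R15: the basin of a trapping region, as a cone
-/

set_option autoImplicit false

open Set Metric Filter Topology
open scoped LinearAlgebra.Projectivization

namespace MFE

variable {E : Type*} [NormedAddCommGroup E] [InnerProductSpace ℂ E]

theorem coneOf_subset {S T : Set (ℙ ℂ E)} (h : S ⊆ T) : coneOf S ⊆ coneOf T := by
  rintro x ⟨hx, hxS⟩
  exact ⟨hx, h hxS⟩

/-- the separation inequality -/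
theorem sep_ineq {e y : E} (he : ‖e‖ = 1) (hy : y ≠ 0) {r : ℝ} (hr : 0 < r) (h : r ≤ sd y e) :
    ‖inner ℂ e y‖ < (2 / r) * ‖y - inner ℂ e y • e‖ := by
  have h1 := norm_mul_sd hy he
  have h2 : ‖inner ℂ e y‖ ≤ ‖y‖ := by
    have := norm_inner_le_norm (𝕜 := ℂ) e y
    rwa [he, one_mul] at this
  have hy' : 0 < ‖y‖ := norm_pos_iff.2 hy
  rw [← h1]
  have h3 : ‖y‖ * r ≤ ‖y‖ * sd y e := mul_le_mul_of_nonneg_left h hy'.le
  calc ‖inner ℂ e y‖ ≤ ‖y‖ := h2
    _ < 2 / r * (‖y‖ * r) := by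
      field_simp
      linarith
    _ ≤ 2 / r * (‖y‖ * sd y e) := mul_le_mul_of_nonneg_left h3 (by positivity)

theorem basin_of_trapping [FiniteDimensional ℂ E] (s : HMap E) {U : Set (ℙ ℂ E)}
    (hU : MF7.IsTrapping s.map U) : Basin s (coneOf {p | ∃ n, s.map^[n] p ∈ U}) := by
  classical
  haveI : CompactSpace (ℙ ℂ E) := compactSpace_proj
  letI := projMetric E
  have hf : Continuous s.map := s.continuous_map
  have hBopen : IsOpen {p | ∃ n, s.map^[n] p ∈ U} := by
    have : {p | ∃ n, s.map^[n] p ∈ U} = ⋃ n, (s.map^[n]) ⁻¹' U := by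
      ext p
      simp
    rw [this]
    exact isOpen_iUnion fun n => hU.2.1.preimage (hf.iterate n)
  have hfU : ∀ p ∈ U, s.map p ∈ U := fun p hp => hU.2.2 ⟨p, subset_closure hp, rfl⟩
  have hfn : ∀ (n : ℕ), ∀ p ∈ U, s.map^[n] p ∈ U := by
    intro n
    induction n with
    | zero => exact fun p hp => hp
    | succ n ih =>
      intro p hp
      rw [Function.iterate_succ_apply']
      exact hfU _ (ih p hp)
  refine ⟨(isOpen_iff_coneOf _).1 hBopen, isCone_coneOf _, coneOf (s.map '' closure U), ?_, ?_⟩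
  · intro K hK hKc
    -- increasing union of open sets
    have hV : ∀ n, IsOpen (coneOf ((s.map^[n]) ⁻¹' U)) := fun n =>
      (isOpen_iff_coneOf _).1 (hU.2.1.preimage (hf.iterate n))
    have hmono : Monotone fun n => coneOf ((s.map^[n]) ⁻¹' U) := by
      refine monotone_nat_of_le_succ fun n => coneOf_subset ?_
      intro p hp
      rw [mem_preimage, Function.iterate_succ_apply']
      exact hfU _ hp
    have hcov : K ⊆ ⋃ n, coneOf ((s.map^[n]) ⁻¹' U) := by
      intro x hx
      obtain ⟨hx0, n, hn⟩ := hK hx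
      exact mem_iUnion.2 ⟨n, hx0, hn⟩
    obtain ⟨n, hn⟩ := hKc.elim_directed_cover _ hV hcov hmono.directed_le
    refine ⟨n + 1, ?_⟩
    intro m hm x hx
    obtain ⟨hx0, hxn⟩ := hn hx
    refine ⟨s.iter_ne hx0 m, ?_⟩
    rw [← s.iter_map_mk hx0]
    obtain ⟨j, rfl⟩ := Nat.exists_eq_add_of_le hm
    have h1 : n + 1 + j = (j + n) + 1 := by ring
    rw [h1, Function.iterate_succ_apply']
    refine ⟨_, subset_closure ?_, rfl⟩
    rw [Function.iterate_add_apply]
    exact hfn j _ hxn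
  · have hKc : IsCompact (s.map '' closure U) := (isClosed_closure.isCompact).image hf
    obtain ⟨r, hr, hdist⟩ : ∃ r, 0 < r ∧ ∀ p ∈ s.map '' closure U, ∀ q ∉ U, r ≤ dist p q := by
      obtain ⟨δ, hδ, hδU⟩ := hKc.exists_thickening_subset_open hU.2.1 hU.2.2
      refine ⟨δ, hδ, ?_⟩
      intro p hp q hq
      by_contra hlt
      push Not at hlt
      exact hq (hδU (mem_thickening_iff.2 ⟨p, hp, by rwa [dist_comm]⟩))
    refine ⟨2 / r, by positivity, ?_⟩
    intro x hx hxB m c hc y hy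
    obtain ⟨hy0, hyL⟩ := hy
    have hcx : c • s.F^[m] x ≠ 0 := by
      intro h
      rw [h, norm_zero] at hc
      exact zero_ne_one hc
    have hc0 : c ≠ 0 := by
      intro h
      rw [h, zero_smul] at hcx
      exact hcx rfl
    refine sep_ineq hc hy0 hr ?_
    have hxm : Projectivization.mk ℂ (c • s.F^[m] x) hcx = s.map^[m] (Projectivization.mk ℂ x hx) := by
      rw [s.iter_map_mk hx, Projectivization.mk_eq_mk_iff']
      exact ⟨c, rfl⟩
    have hnot : Projectivization.mk ℂ (c • s.F^[m] x) hcx ∉ U := by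
      rw [hxm]
      intro h
      exact hxB ⟨hx, m, h⟩
    have h1 := hdist _ hyL _ hnot
    have h2 : dist (Projectivization.mk ℂ y hy0) (Projectivization.mk ℂ (c • s.F^[m] x) hcx) =
        sd y (c • s.F^[m] x) := pdist_mk hy0 hcx
    rwa [h2] at h1

end MFE
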