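import Pool.Agent.Lib.MFE.Defs

/-!
# Row R10a: the sine distance
-/

set_option autoImplicit false

open Set Metric Filter Topology

namespace MFE

variable {E : Type*} [NormedAddCommGroup E] [InnerProductSpace ℂ E]

theorem le_of_sq_le {a b t : ℝ} (h : b * b = t + a * a) (ht : 0 ≤ t) (hb : 0 ≤ b) :
    a ≤ b := by
  nlinarith

theorem sd_nonneg (x y : E) : 0 ≤ sd x y := Real.sqrt_nonneg _

theorem sd_comm (x y : E) : sd x y = sd y x := by
  unfold sd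
  rw [norm_inner_symm, mul_comm ‖x‖]

theorem sd_smul_left {c : ℂ} (hc : c ≠ 0) (x y : E) : sd (c • x) y = sd x y := by
  unfold sd
  congr 3
  rw [inner_smul_left, norm_mul, norm_smul, RCLike.norm_conj]
  have h : ‖c‖ ≠ 0 := norm_ne_zero_iff.2 hc
  rw [mul_assoc ‖c‖, mul_div_mul_left _ _ h]

theorem sd_smul_right {c : ℂ} (hc : c ≠ 0) (x y : E) : sd x (c • y) = sd x y := by
  rw [sd_comm, sd_smul_left hc, sd_comm]

theorem ratio_le_one (x y : E) : (‖inner ℂ x y‖ / (‖x‖ * ‖y‖)) ^ 2 ≤ 1 := by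
  have h0 : 0 ≤ ‖inner ℂ x y‖ / (‖x‖ * ‖y‖) := by positivity
  have h1 : ‖inner ℂ x y‖ / (‖x‖ * ‖y‖) ≤ 1 :=
    div_le_one_of_le₀ (norm_inner_le_norm x y) (by positivity)
  nlinarith

theorem sd_sq (x y : E) : sd x y ^ 2 = 1 - (‖inner ℂ x y‖ / (‖x‖ * ‖y‖)) ^ 2 := by
  unfold sd
  rw [Real.sq_sqrt]
  linarith [ratio_le_one x y]

theorem sd_le_one (x y : E) : sd x y ≤ 1 := by
  have h := sd_sq x y
  have h1 : 0 ≤ (‖inner ℂ x y‖ / (‖x‖ * ‖y‖)) ^ 2 := sq_nonneg _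
  have h2 := sd_nonneg x y
  nlinarith

/-- the rest is perpendicular to `e` -/
theorem inner_sub_proj {e : E} (he : ‖e‖ = 1) (x : E) :
    inner ℂ e (x - inner ℂ e x • e) = (0 : ℂ) := by
  rw [inner_sub_right, inner_smul_right, inner_self_eq_norm_sq_to_K, he]
  simp

/-- Pythagoras -/
theorem norm_sub_proj_sq {e : E} (he : ‖e‖ = 1) (x : E) :
    ‖x - inner ℂ e x • e‖ ^ 2 = ‖x‖ ^ 2 - ‖inner ℂ e x‖ ^ 2 := by
  have h0 : inner ℂ (inner ℂ e x • e) (x - inner ℂ e x • e) = (0 : ℂ) := by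
    rw [inner_smul_left, inner_sub_proj he, mul_zero]
  have h1 := norm_add_sq_eq_norm_sq_add_norm_sq_of_inner_eq_zero _ _ h0
  rw [add_sub_cancel, norm_smul, he, mul_one] at h1
  nlinarith

theorem norm_mul_sd {x e : E} (hx : x ≠ 0) (he : ‖e‖ = 1) :
    ‖x‖ * sd x e = ‖x - inner ℂ e x • e‖ := by
  have h1 := norm_sub_proj_sq he x
  have h2 := sd_sq x e
  have hx' : ‖x‖ ≠ 0 := norm_ne_zero_iff.2 hx
  have h3 : (‖x‖ * sd x e) ^ 2 = ‖x - inner ℂ e x • e‖ ^ 2 := by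
    rw [h1, mul_pow, h2, he, mul_one, norm_inner_symm]
    field_simp
  have h4 : 0 ≤ ‖x‖ * sd x e := mul_nonneg (norm_nonneg _) (sd_nonneg _ _)
  exact (pow_left_inj₀ h4 (norm_nonneg _) two_ne_zero).1 h3

/-- the best constant -/
theorem norm_sub_proj_le {e : E} (he : ‖e‖ = 1) (x : E) (c : ℂ) :
    ‖x - inner ℂ e x • e‖ ≤ ‖x - c • e‖ := by
  have h0 : inner ℂ ((inner ℂ e x - c) • e) (x - inner ℂ e x • e) = (0 : ℂ) := by
    rw [inner_smul_left, inner_sub_proj he, mul_zero]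
  have h1 := norm_add_sq_eq_norm_sq_add_norm_sq_of_inner_eq_zero _ _ h0
  have h2 : (inner ℂ e x - c) • e + (x - inner ℂ e x • e) = x - c • e := by
    rw [sub_smul]
    abel
  rw [h2] at h1
  have h3 : 0 ≤ ‖(inner ℂ e x - c) • e‖ * ‖(inner ℂ e x - c) • e‖ := by positivity
  exact le_of_sq_le h1 h3 (norm_nonneg _)

theorem sd_unit {y : E} (hy : y ≠ 0) :
    ∃ e : E, ‖e‖ = 1 ∧ (∃ c : ℂ, c ≠ 0 ∧ e = c • y) ∧ ∀ z, sd z y = sd z e := by
  have hy' : (‖y‖ : ℂ) ≠ 0 := by exact_mod_cast norm_ne_zero_iff.2 hy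
  refine ⟨((‖y‖ : ℂ)⁻¹) • y, ?_, ⟨_, inv_ne_zero hy', rfl⟩, fun z => ?_⟩
  · rw [norm_smul, norm_inv, Complex.norm_real, norm_norm]
    exact inv_mul_cancel₀ (norm_ne_zero_iff.2 hy)
  · rw [sd_smul_right (inv_ne_zero hy')]

theorem sd_le {x y : E} (hx : x ≠ 0) (hy : y ≠ 0) (c : ℂ) : ‖x‖ * sd x y ≤ ‖x - c • y‖ := by
  obtain ⟨e, he, ⟨c', hc', rfl⟩, h⟩ := sd_unit hy
  rw [h, norm_mul_sd hx he]
  have h1 := norm_sub_proj_le he x (c * c'⁻¹)
  rwa [smul_smul (c * c'⁻¹), mul_assoc c, inv_mul_cancel₀ hc', mul_one] at h1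

/-- the sine distance is attained -/
theorem exists_sd_eq {x y : E} (hx : x ≠ 0) (hy : y ≠ 0) :
    ∃ c : ℂ, ‖x‖ * sd x y = ‖x - c • y‖ ∧ ‖c • y‖ ≤ ‖x‖ := by
  obtain ⟨e, he, ⟨c', hc', hc⟩, h⟩ := sd_unit hy
  refine ⟨inner ℂ e x * c', ?_, ?_⟩
  · rw [mul_smul, ← hc, h, norm_mul_sd hx he]
  · rw [mul_smul, ← hc, norm_smul, he, mul_one]
    have := norm_inner_le_norm (𝕜 := ℂ) e x
    rwa [he, one_mul] at this

theorem sd_triangle {x y z : E} (hx : x ≠ 0) (hy : y ≠ 0) (hz : z ≠ 0) :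
    sd x z ≤ sd x y + sd y z := by
  obtain ⟨c, hc, hcy⟩ := exists_sd_eq hx hy
  have hx' : 0 < ‖x‖ := norm_pos_iff.2 hx
  by_cases hc0 : c = 0
  · rw [hc0, zero_smul, sub_zero] at hc
    have h1 : sd x y = 1 := by
      have := mul_left_cancel₀ hx'.ne' (hc.trans (mul_one _).symm)
      exact this
    rw [h1]
    linarith [sd_le_one x z, sd_nonneg y z]
  · obtain ⟨c', hc', -⟩ := exists_sd_eq (x := c • y) (smul_ne_zero hc0 hy) hz
    have h1 := sd_le hx hz c'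
    have h2 : ‖x - c' • z‖ ≤ ‖x - c • y‖ + ‖c • y - c' • z‖ := by
      have := norm_add_le (x - c • y) (c • y - c' • z)
      simpa using this
    rw [← hc, ← hc', sd_smul_left hc0] at h2
    have h3 : ‖c • y‖ * sd y z ≤ ‖x‖ * sd y z := mul_le_mul_of_nonneg_right hcy (sd_nonneg _ _)
    have h4 : ‖x‖ * sd x z ≤ ‖x‖ * (sd x y + sd y z) := by
      rw [mul_add]
      linarith
    exact le_of_mul_le_mul_left h4 hx'

theorem sd_eq_zero {x y : E} (hx : x ≠ 0) (hy : y ≠ 0) : sd x y = 0 ↔ ∃ c : ℂ, x = c • y := by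
  constructor
  · intro h
    obtain ⟨c, hc, -⟩ := exists_sd_eq hx hy
    refine ⟨c, ?_⟩
    rw [h, mul_zero] at hc
    exact sub_eq_zero.1 (norm_eq_zero.1 hc.symm)
  · rintro ⟨c, hc⟩
    have h1 := sd_le hx hy c
    rw [hc, sub_self, norm_zero, ← hc] at h1
    have hx' : 0 < ‖x‖ := norm_pos_iff.2 hx
    have h2 := sd_nonneg x y
    nlinarith

theorem sd_self {x : E} (hx : x ≠ 0) : sd x x = 0 :=
  (sd_eq_zero hx hx).2 ⟨1, (one_smul _ _).symm⟩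

theorem sd_continuousAt {x y : E} (hx : x ≠ 0) (hy : y ≠ 0) :
    ContinuousAt (fun t : E × E => sd t.1 t.2) (x, y) := by
  unfold sd
  have h : ‖x‖ * ‖y‖ ≠ 0 := mul_ne_zero (norm_ne_zero_iff.2 hx) (norm_ne_zero_iff.2 hy)
  have h1 : ContinuousAt (fun t : E × E => ‖inner ℂ t.1 t.2‖ / (‖t.1‖ * ‖t.2‖)) (x, y) :=
    ContinuousAt.div (continuous_fst.inner continuous_snd).norm.continuousAt
      (continuous_fst.norm.mul continuous_snd.norm).continuousAt h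
  exact (continuousAt_const.sub (h1.pow 2)).sqrt

section cone

variable {B : Set E}

theorem zero_mem_compl (hB : IsCone B) : (0 : E) ∈ Bᶜ := hB.1

theorem smul_mem_compl (hB : IsCone B) (c : ℂ) {z : E} (hz : z ∉ B) : c • z ∉ B := by
  by_cases hc : c = 0
  · rw [hc, zero_smul]
    exact hB.1
  · intro h
    apply hz
    have := hB.2 c⁻¹ (inv_ne_zero hc) _ h
    rwa [smul_smul, inv_mul_cancel₀ hc, one_smul] at this

theorem infDist_smul_le (hB : IsCone B) {c : ℂ} (hc : c ≠ 0) (x : E) :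
    infDist (c • x) Bᶜ ≤ ‖c‖ * infDist x Bᶜ := by
  have hne : (Bᶜ).Nonempty := ⟨0, zero_mem_compl hB⟩
  have hc' : 0 < ‖c‖ := norm_pos_iff.2 hc
  rw [← div_le_iff₀' hc']
  refine le_of_forall_gt_imp_ge_of_dense ?_
  intro a ha
  obtain ⟨z, hz, hza⟩ := (infDist_lt_iff hne).1 ha
  have h1 : infDist (c • x) Bᶜ ≤ dist (c • x) (c • z) :=
    infDist_le_dist_of_mem (smul_mem_compl hB c hz)
  rw [dist_smul₀] at h1
  rw [div_le_iff₀' hc']
  nlinarith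

theorem infDist_smul (hB : IsCone B) (c : ℂ) (x : E) :
    infDist (c • x) Bᶜ = ‖c‖ * infDist x Bᶜ := by
  by_cases hc : c = 0
  · rw [hc, zero_smul, norm_zero, zero_mul]
    exact infDist_zero_of_mem (zero_mem_compl hB)
  · refine le_antisymm (infDist_smul_le hB hc x) ?_
    have h1 := infDist_smul_le hB (inv_ne_zero hc) (c • x)
    rw [smul_smul, inv_mul_cancel₀ hc, one_smul, norm_inv] at h1
    have hc' : 0 < ‖c‖ := norm_pos_iff.2 hc
    rwa [inv_mul_eq_div, le_div_iff₀' hc'] at h1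

theorem infDist_le_sd (hB : IsCone B) {x z : E} (hx : x ≠ 0) (hz : z ≠ 0) (h : z ∉ B) :
    infDist x Bᶜ ≤ ‖x‖ * sd x z := by
  obtain ⟨c, hc, -⟩ := exists_sd_eq hx hz
  rw [hc, ← dist_eq_norm]
  exact infDist_le_dist_of_mem (smul_mem_compl hB c h)

/-- `r` is 1-Lipschitz -/
theorem infDist_div_le (hB : IsCone B) {x y : E} (hx : x ≠ 0) (hy : y ≠ 0) :
    infDist x Bᶜ / ‖x‖ ≤ infDist y Bᶜ / ‖y‖ + sd x y := by
  obtain ⟨c, hc, hcy⟩ := exists_sd_eq hx hy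
  have hx' : 0 < ‖x‖ := norm_pos_iff.2 hx
  have hy' : 0 < ‖y‖ := norm_pos_iff.2 hy
  have h1 : infDist x Bᶜ ≤ infDist (c • y) Bᶜ + dist x (c • y) := infDist_le_infDist_add_dist
  rw [infDist_smul hB, dist_eq_norm, ← hc] at h1
  rw [norm_smul] at hcy
  rw [div_le_iff₀ hx', add_mul, mul_comm (sd x y)]
  refine h1.trans (add_le_add_left ?_ _)
  rw [div_mul_eq_mul_div, le_div_iff₀ hy']
  nlinarith [infDist_nonneg (x := y) (s := Bᶜ)]

end cone

end MFE
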