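import Pool.Agent.Lib.MFE.HProps
import Pool.Agent.Lib.MFE.Sd

/-!
# Row F11: the affine chart is Lipschitz
-/

set_option autoImplicit false

open Set Metric Filter Topology

namespace MFE

variable {E : Type*} [NormedAddCommGroup E] [InnerProductSpace ℂ E]

theorem sq_inner_ge {e x : E} {r : ℝ} (he : ‖e‖ = 1) (hx : x ≠ 0) (h0 : 0 ≤ r) (h : sd x e ≤ r) :
    (1 - r ^ 2) * ‖x‖ ^ 2 ≤ ‖inner ℂ e x‖ ^ 2 := by
  have h1 := sd_sq x e
  rw [he, mul_one, norm_inner_symm, div_pow] at h1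
  have h2 : sd x e ^ 2 ≤ r ^ 2 := pow_le_pow_left₀ (sd_nonneg _ _) h 2
  have hx' : 0 < ‖x‖ ^ 2 := by
    have := norm_pos_iff.2 hx
    positivity
  have h3 : 1 - r ^ 2 ≤ ‖inner ℂ e x‖ ^ 2 / ‖x‖ ^ 2 := by linarith
  rwa [le_div_iff₀ hx'] at h3

theorem chart (E : Type*) [NormedAddCommGroup E] [InnerProductSpace ℂ E] : ChartStmt E := by
  intro e r x y he hr hx hy hxr hyr
  have h0 : 0 ≤ r := (sd_nonneg _ _).trans hxr
  have hr2 : 0 < 1 - r ^ 2 := by nlinarith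
  have hx' : 0 < ‖x‖ := norm_pos_iff.2 hx
  have hy' : 0 < ‖y‖ := norm_pos_iff.2 hy
  obtain ⟨c, hc, -⟩ := exists_sd_eq hx hy
  set a : ℂ := inner ℂ e x with ha
  set b : ℂ := inner ℂ e y with hb
  have ha2 := sq_inner_ge he hx h0 hxr
  have hb2 := sq_inner_ge he hy h0 hyr
  rw [← ha] at ha2
  rw [← hb] at hb2
  have ha0 : a ≠ 0 := by
    intro h
    rw [h, norm_zero] at ha2
    nlinarith [pow_pos hx' 2]
  have hb0 : b ≠ 0 := by
    intro h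
    rw [h, norm_zero] at hb2
    nlinarith [pow_pos hy' 2]
  have hab : (1 - r ^ 2) * (‖x‖ * ‖y‖) ≤ ‖a‖ * ‖b‖ := by
    have h1 : ((1 - r ^ 2) * (‖x‖ * ‖y‖)) ^ 2 ≤ (‖a‖ * ‖b‖) ^ 2 := by
      have := mul_le_mul ha2 hb2 (by positivity) (by positivity)
      calc ((1 - r ^ 2) * (‖x‖ * ‖y‖)) ^ 2 = (1 - r ^ 2) * ‖x‖ ^ 2 * ((1 - r ^ 2) * ‖y‖ ^ 2) := by
            ring
        _ ≤ ‖a‖ ^ 2 * ‖b‖ ^ 2 := this
        _ = _ := by ring
    exact (pow_le_pow_iff_left₀ (by positivity) (by positivity) two_ne_zero).1 h1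
  set w : E := x - c • y with hw
  have hab' : inner ℂ e w = a - c * b := by
    rw [hw, inner_sub_right, inner_smul_right]
  have hwn : ‖a - c * b‖ ≤ ‖w‖ := by
    rw [← hab']
    have := norm_inner_le_norm (𝕜 := ℂ) e w
    rwa [he, one_mul] at this
  have hbn : ‖b‖ ≤ ‖y‖ := by
    have := norm_inner_le_norm (𝕜 := ℂ) e y
    rwa [he, one_mul] at this
  have key : a⁻¹ • x - b⁻¹ • y = (a * b)⁻¹ • (b • w - (a - c * b) • y) := by
    have hx2 : x = w + c • y := by rw [hw]; abel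
    rw [hx2, smul_sub, smul_add, smul_smul, smul_smul, smul_smul]
    have e1 : (a * b)⁻¹ * b = a⁻¹ := by field_simp
    have e2 : (a * b)⁻¹ * (a - c * b) = b⁻¹ - a⁻¹ * c := by field_simp
    rw [e1, e2, sub_smul]
    abel
  have hn : ‖b • w - (a - c * b) • y‖ ≤ 2 * (‖w‖ * ‖y‖) := by
    refine (norm_sub_le _ _).trans ?_
    rw [norm_smul, norm_smul]
    have h1 : ‖b‖ * ‖w‖ ≤ ‖y‖ * ‖w‖ := mul_le_mul_of_nonneg_right hbn (norm_nonneg _)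
    have h2 : ‖a - c * b‖ * ‖y‖ ≤ ‖w‖ * ‖y‖ := mul_le_mul_of_nonneg_right hwn (norm_nonneg _)
    linarith
  rw [key, norm_smul, norm_inv, norm_mul, inv_mul_eq_div, div_mul_eq_mul_div]
  have hpos : 0 < ‖a‖ * ‖b‖ := mul_pos (norm_pos_iff.2 ha0) (norm_pos_iff.2 hb0)
  rw [div_le_div_iff₀ hpos hr2]
  calc ‖b • w - (a - c * b) • y‖ * (1 - r ^ 2) ≤ 2 * (‖w‖ * ‖y‖) * (1 - r ^ 2) :=
        mul_le_mul_of_nonneg_right hn hr2.le
    _ = 2 * sd x y * ((1 - r ^ 2) * (‖x‖ * ‖y‖)) := by rw [← hc]; ring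
    _ ≤ 2 * sd x y * (‖a‖ * ‖b‖) :=
        mul_le_mul_of_nonneg_left hab (mul_nonneg zero_le_two (sd_nonneg _ _))

end MFE
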