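import Pool.Agent.Lib.MFE.Props

/-!
# Row R4: Gram determinants
-/

set_option autoImplicit false

open Set Metric Filter Topology MeasureTheory
open scoped LinearAlgebra.Projectivization

namespace MFE

section
variable {E : Type*} [NormedAddCommGroup E] [InnerProductSpace ℂ E]

theorem G2_nonneg (a b : E) : 0 ≤ G2 a b := by
  have h := norm_inner_le_norm (𝕜 := ℂ) a b
  have h2 : ‖inner ℂ a b‖ ^ 2 ≤ (‖a‖ * ‖b‖) ^ 2 := pow_le_pow_left₀ (norm_nonneg _) h 2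
  unfold G2
  nlinarith [h2]

theorem G3_nonneg (x a b : E) : 0 ≤ G3 x a b := by
  have h := (Matrix.posSemidef_gram ℂ (![x, a, b] : Fin 3 → E)).det_nonneg
  have h2 : G3 x a b = (Matrix.gram ℂ (![x, a, b] : Fin 3 → E)).det.re := rfl
  rw [h2]
  exact (Complex.le_def.1 h).1

theorem G3_expand (x a b : E) : G3 x a b =
    (inner ℂ x x * inner ℂ a a * inner ℂ b b - inner ℂ x x * inner ℂ a b * inner ℂ b a
      - inner ℂ x a * inner ℂ a x * inner ℂ b b + inner ℂ x a * inner ℂ a b * inner ℂ b x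
      + inner ℂ x b * inner ℂ a x * inner ℂ b a - inner ℂ x b * inner ℂ a a * inner ℂ b x : ℂ).re := by
  unfold G3
  rw [Matrix.det_fin_three]
  simp

theorem G3_smul_add (x a b : E) (c0 c1 c2 c3 c4 c5 : ℂ) :
    G3 (c0 • x) (c1 • a + c2 • x) (c3 • b + c4 • a + c5 • x) =
      ‖c0‖ ^ 2 * ‖c1‖ ^ 2 * ‖c3‖ ^ 2 * G3 x a b := by
  rw [G3_expand, G3_expand]
  have key : ∀ c : ℂ, ((‖c‖ : ℂ)) ^ 2 = (starRingEnd ℂ) c * c := by
    intro c
    rw [Complex.conj_mul']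
  have h0 : ((‖c0‖ ^ 2 * ‖c1‖ ^ 2 * ‖c3‖ ^ 2 : ℝ) : ℂ) =
      ((starRingEnd ℂ) c0 * c0) * ((starRingEnd ℂ) c1 * c1) * ((starRingEnd ℂ) c3 * c3) := by
    push_cast
    rw [key, key, key]
  rw [← Complex.re_ofReal_mul]
  congr 1
  rw [h0]
  simp only [inner_add_left, inner_add_right, inner_smul_left, inner_smul_right]
  ring

theorem continuous_G3 : Continuous (fun t : E × E × E => G3 t.1 t.2.1 t.2.2) := by
  simp only [G3_expand]
  fun_prop

theorem G3_ge_of_orth {e x a b : E} (he : ‖e‖ = 1) (ha : inner ℂ e a = 0) (hb : inner ℂ e b = 0) :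
    ‖inner ℂ e x‖ ^ 2 * G2 a b ≤ G3 x a b := by
  have h0 := G3_nonneg (x - inner ℂ e x • e) a b
  have hae : inner ℂ a e = 0 := by
    rw [← inner_conj_symm, ha]; simp
  have hbe : inner ℂ b e = 0 := by
    rw [← inner_conj_symm, hb]; simp
  have hee : inner ℂ e e = 1 := by
    rw [inner_self_eq_norm_sq_to_K, he]; simp
  have hxe : inner ℂ x e = (starRingEnd ℂ) (inner ℂ e x) := by
    rw [inner_conj_symm]
  have hs : ((‖inner ℂ e x‖ ^ 2 : ℝ) : ℂ) = (starRingEnd ℂ) (inner ℂ e x) * inner ℂ e x := by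
    rw [Complex.conj_mul']; push_cast; rfl
  have hG2 : ((G2 a b : ℝ) : ℂ) = inner ℂ a a * inner ℂ b b - inner ℂ a b * inner ℂ b a := by
    unfold G2
    have h1 : inner ℂ b a = (starRingEnd ℂ) (inner ℂ a b) := by rw [inner_conj_symm]
    rw [h1, Complex.mul_conj', inner_self_eq_norm_sq_to_K, inner_self_eq_norm_sq_to_K]
    push_cast
    rfl
  have hmain : G3 x a b = ‖inner ℂ e x‖ ^ 2 * G2 a b + G3 (x - inner ℂ e x • e) a b := by
    rw [G3_expand, G3_expand]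
    have h2 : (‖inner ℂ e x‖ ^ 2 * G2 a b : ℝ) =
        (((starRingEnd ℂ) (inner ℂ e x) * inner ℂ e x) *
          (inner ℂ a a * inner ℂ b b - inner ℂ a b * inner ℂ b a) : ℂ).re := by
      rw [← hs, ← hG2, ← Complex.ofReal_mul, Complex.ofReal_re]
    rw [h2, ← Complex.add_re]
    congr 1
    simp only [inner_sub_left, inner_sub_right, inner_smul_left, inner_smul_right, ha, hb, hae,
      hbe, hee, hxe]
    ring
  linarith

theorem G2_smul (c : ℂ) (a b : E) : G2 (c • a) (c • b) = ‖c‖ ^ 4 * G2 a b := by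
  unfold G2
  rw [inner_smul_left, inner_smul_right, norm_smul, norm_smul, norm_mul, norm_mul,
    Complex.norm_conj]
  ring

theorem gram : GramStmt E := by
  intro x q e lam he hlam hx hs hw
  set s : ℂ := inner ℂ e (x q) with hsdef
  set w : ℂ × ℂ → E := fun q => (lam : ℂ) • ((inner ℂ e (x q))⁻¹ • x q - e) with hwdef
  -- derivative of w
  have hder : ∀ v : ℂ × ℂ, fderiv ℂ w q v = ((lam : ℂ) * s⁻¹) •
      (fderiv ℂ x q v - (inner ℂ e (fderiv ℂ x q v) * s⁻¹) • x q) := by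
    intro v
    have hx' : HasFDerivAt x (fderiv ℂ x q) q := hx.hasFDerivAt
    have hin : HasFDerivAt (fun q => inner ℂ e (x q))
        ((innerSL ℂ e).comp (fderiv ℂ x q)) q := (innerSL ℂ e).hasFDerivAt.comp q hx'
    have hinv : HasFDerivAt (fun q => (inner ℂ e (x q))⁻¹)
        ((-(s ^ 2)⁻¹) • ((innerSL ℂ e).comp (fderiv ℂ x q))) q := by
      have := (hasDerivAt_inv hs).comp_hasFDerivAt q hin
      exact this
    have hsm := (hinv.smul hx').sub_const e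
    have hw' := hsm.const_smul (lam : ℂ)
    have := hw'.fderiv
    have h2 : fderiv ℂ w q = _ := this
    rw [h2]
    simp only [ContinuousLinearMap.smul_apply, ContinuousLinearMap.add_apply,
      ContinuousLinearMap.smulRight_apply, ContinuousLinearMap.comp_apply, innerSL_apply_apply]
    rw [← hsdef]
    rw [smul_add, smul_sub, smul_smul, smul_smul, smul_smul, smul_eq_mul]
    have h3 : (lam : ℂ) * (-(s ^ 2)⁻¹ * inner ℂ e ((fderiv ℂ x q) v)) =
        -((lam : ℂ) * s⁻¹ * (inner ℂ e ((fderiv ℂ x q) v) * s⁻¹)) := by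
      rw [pow_two, mul_inv]; ring
    rw [h3, neg_smul]
    abel
  set a : E := dz x q with hadef
  set b : E := dt x q with hbdef
  set a' : E := a - (inner ℂ e a * s⁻¹) • x q with ha'def
  set b' : E := b - (inner ℂ e b * s⁻¹) • x q with hb'def
  have hdz : dz w q = ((lam : ℂ) * s⁻¹) • a' := hder (1, 0)
  have hdt : dt w q = ((lam : ℂ) * s⁻¹) • b' := hder (0, 1)
  have hs0 : 0 < ‖s‖ := norm_pos_iff.2 hs
  have hea : inner ℂ e a' = 0 := by
    rw [ha'def, inner_sub_right, inner_smul_right, ← hsdef, mul_assoc, inv_mul_cancel₀ hs]; ring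
  have heb : inner ℂ e b' = 0 := by
    rw [hb'def, inner_sub_right, inner_smul_right, ← hsdef, mul_assoc, inv_mul_cancel₀ hs]; ring
  have hG3 : G3 (x q) a' b' = G3 (x q) a b := by
    have h := G3_smul_add (x q) a b 1 1 (-(inner ℂ e a * s⁻¹)) 1 0 (-(inner ℂ e b * s⁻¹))
    simp only [one_smul, zero_smul, add_zero, norm_one, one_pow, one_mul, neg_smul] at h
    rw [← h, ha'def, hb'def, sub_eq_add_neg, sub_eq_add_neg]
  have h1 : ‖s‖ ^ 2 * G2 a' b' ≤ G3 (x q) a b := by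
    rw [← hG3]; exact G3_ge_of_orth he hea heb
  have h2 : G2 (dz w q) (dt w q) = (lam * ‖s‖⁻¹) ^ 4 * G2 a' b' := by
    rw [hdz, hdt, G2_smul, norm_mul, norm_inv]
    congr 2
    rw [Complex.norm_real, Real.norm_of_nonneg hlam.le]
  -- the norm of x
  have h3 : ‖x q‖ ^ 2 = ‖s‖ ^ 2 + ‖x q - s • e‖ ^ 2 := by
    have horth : inner ℂ (s • e) (x q - s • e) = 0 := by
      rw [inner_smul_left, inner_sub_right, inner_smul_right, ← hsdef,
        inner_self_eq_norm_sq_to_K, he]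
      simp
    have h := norm_add_sq_eq_norm_sq_add_norm_sq_of_inner_eq_zero (𝕜 := ℂ) (s • e) (x q - s • e) horth
    rw [add_sub_cancel, norm_smul, he, mul_one] at h
    nlinarith [h]
  have h4 : ‖x q - s • e‖ ≤ ‖s‖ * lam⁻¹ := by
    have h5 : (lam : ℂ) • (s⁻¹ • x q - e) = ((lam : ℂ) * s⁻¹) • (x q - s • e) := by
      rw [mul_smul, smul_sub s⁻¹, smul_smul s⁻¹ s, inv_mul_cancel₀ hs, one_smul]
    have h6 : ‖(lam : ℂ) • (s⁻¹ • x q - e)‖ < 1 := hw
    rw [h5, norm_smul, norm_mul, norm_inv, Complex.norm_real, Real.norm_of_nonneg hlam.le] at h6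
    have h7 : ‖x q - s • e‖ = (‖s‖ * lam⁻¹) * (lam * ‖s‖⁻¹ * ‖x q - s • e‖) := by
      field_simp
    rw [h7]
    have h8 : 0 ≤ ‖s‖ * lam⁻¹ := by positivity
    nlinarith [h6, h8]
  have h5 : ‖x q‖ ^ 2 ≤ ‖s‖ ^ 2 * (1 + 1 / lam ^ 2) := by
    have h6 : ‖x q - s • e‖ ^ 2 ≤ (‖s‖ * lam⁻¹) ^ 2 := pow_le_pow_left₀ (norm_nonneg _) h4 2
    rw [h3]
    calc ‖s‖ ^ 2 + ‖x q - s • e‖ ^ 2 ≤ ‖s‖ ^ 2 + (‖s‖ * lam⁻¹) ^ 2 := by linarith
      _ = ‖s‖ ^ 2 * (1 + 1 / lam ^ 2) := by field_simp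
  have h6 : ‖x q‖ ^ 6 ≤ ‖s‖ ^ 6 * (1 + 1 / lam ^ 2) ^ 3 := by
    calc ‖x q‖ ^ 6 = (‖x q‖ ^ 2) ^ 3 := by ring
      _ ≤ (‖s‖ ^ 2 * (1 + 1 / lam ^ 2)) ^ 3 := pow_le_pow_left₀ (by positivity) h5 3
      _ = ‖s‖ ^ 6 * (1 + 1 / lam ^ 2) ^ 3 := by ring
  have hG2nn := G2_nonneg a' b'
  calc ‖x q‖ ^ 6 * G2 (dz w q) (dt w q)
      ≤ (‖s‖ ^ 6 * (1 + 1 / lam ^ 2) ^ 3) * G2 (dz w q) (dt w q) :=
        mul_le_mul_of_nonneg_right h6 (G2_nonneg _ _)
    _ = lam ^ 4 * (1 + 1 / lam ^ 2) ^ 3 * (‖s‖ ^ 2 * G2 a' b') := by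
        rw [h2]; field_simp
    _ ≤ lam ^ 4 * (1 + 1 / lam ^ 2) ^ 3 * G3 (x q) a b :=
        mul_le_mul_of_nonneg_left h1 (by positivity)

end

end MFE
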