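import Pool.Agent.Lib.MFE.Props
import Pool.Agent.Lib.MFE.Gram

/-!
# Row R5: uniform contraction of area near the set
-/

set_option autoImplicit false

open Set Metric Filter Topology MeasureTheory
open scoped LinearAlgebra.Projectivization

namespace MFE

namespace R5

section
variable {E : Type*} [NormedAddCommGroup E] [InnerProductSpace ℂ E]

theorem it_an (s : HMap E) (m : ℕ) : AnalyticOnNhd ℂ (s.F^[m]) univ := by
  induction m with
  | zero => exact analyticOnNhd_id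
  | succ m ih =>
    rw [Function.iterate_succ']
    exact s.an.comp ih (fun _ _ => mem_univ _)

theorem it_hom (s : HMap E) (c : ℂ) (x : E) (m : ℕ) :
    s.F^[m] (c • x) = c ^ (s.d ^ m) • s.F^[m] x := by
  induction m with
  | zero => simp
  | succ m ih =>
    rw [Function.iterate_succ_apply', ih, s.hom, Function.iterate_succ_apply', pow_succ, pow_mul]

theorem it_ne (s : HMap E) {x : E} (hx : x ≠ 0) (m : ℕ) : s.F^[m] x ≠ 0 := by
  induction m with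
  | zero => simpa using hx
  | succ m ih =>
    rw [Function.iterate_succ_apply']
    exact s.ne _ ih

theorem it_diff (s : HMap E) (m : ℕ) (x : E) : DifferentiableAt ℂ (s.F^[m]) x :=
  (it_an s m x (mem_univ _)).differentiableAt

theorem der_hom (s : HMap E) (m : ℕ) (c : ℂ) (x v : E) :
    fderiv ℂ (s.F^[m]) (c • x) (c • v) = c ^ (s.d ^ m) • fderiv ℂ (s.F^[m]) x v := by
  have h1 : HasFDerivAt (fun y : E => s.F^[m] (c • y))
      ((fderiv ℂ (s.F^[m]) (c • x)).comp (c • ContinuousLinearMap.id ℂ E)) x := by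
    have h2 : HasFDerivAt (fun y : E => c • y) (c • ContinuousLinearMap.id ℂ E) x :=
      (hasFDerivAt_id x).const_smul c
    exact (it_diff s m (c • x)).hasFDerivAt.comp x h2
  have h3 : HasFDerivAt (fun y : E => s.F^[m] (c • y))
      (c ^ (s.d ^ m) • fderiv ℂ (s.F^[m]) x) x := by
    have h4 : (fun y : E => s.F^[m] (c • y)) = fun y => c ^ (s.d ^ m) • s.F^[m] y := by
      funext y
      exact it_hom s c y m
    rw [h4]
    exact (it_diff s m x).hasFDerivAt.const_smul _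
  have h5 := congrArg (fun L : E →L[ℂ] E => L v) (h1.unique h3)
  simpa using h5

theorem euler (s : HMap E) (m : ℕ) (x : E) :
    fderiv ℂ (s.F^[m]) x x = ((s.d ^ m : ℕ) : ℂ) • s.F^[m] x := by
  have h1 : HasDerivAt (fun t : ℂ => s.F^[m] (t • x)) (fderiv ℂ (s.F^[m]) ((1 : ℂ) • x) x) 1 := by
    have h2 : HasDerivAt (fun t : ℂ => t • x) x 1 := by
      have := (hasDerivAt_id (1 : ℂ)).smul_const x
      simpa using this
    exact (it_diff s m ((1 : ℂ) • x)).hasFDerivAt.comp_hasDerivAt 1 h2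
  have h3 : HasDerivAt (fun t : ℂ => s.F^[m] (t • x)) (((s.d ^ m : ℕ) : ℂ) • s.F^[m] x) 1 := by
    have h4 : (fun t : ℂ => s.F^[m] (t • x)) = fun t => t ^ (s.d ^ m) • s.F^[m] x := by
      funext t
      exact it_hom s t x m
    rw [h4]
    have h5 := (hasDerivAt_pow (s.d ^ m) (1 : ℂ)).smul_const (s.F^[m] x)
    simpa using h5
  have h6 := h1.unique h3
  rwa [one_smul] at h6

theorem G3_orth {x a b : E} (hx : ‖x‖ = 1) (ha : ‖a‖ = 1) (hb : ‖b‖ = 1)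
    (hxa : inner ℂ x a = 0) (hxb : inner ℂ x b = 0) (hab : inner ℂ a b = 0) : G3 x a b = 1 := by
  have hax : inner ℂ a x = 0 := by rw [← inner_conj_symm, hxa]; simp
  have hbx : inner ℂ b x = 0 := by rw [← inner_conj_symm, hxb]; simp
  have hba : inner ℂ b a = 0 := by rw [← inner_conj_symm, hab]; simp
  have h1 : inner ℂ x x = 1 := by rw [inner_self_eq_norm_sq_to_K, hx]; simp
  have h2 : inner ℂ a a = 1 := by rw [inner_self_eq_norm_sq_to_K, ha]; simp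
  have h3 : inner ℂ b b = 1 := by rw [inner_self_eq_norm_sq_to_K, hb]; simp
  rw [G3_expand, h1, h2, h3, hxa, hxb, hab, hax, hbx, hba]
  simp

/-- splitting off a direction -/
theorem split_dir {x : E} (hx : ‖x‖ = 1) (a : E) (h1 : a - inner ℂ x a • x ≠ 0) :
    ∃ (c : ℂ) (a0 : E), ‖a0‖ = 1 ∧ inner ℂ x a0 = 0 ∧ a = c • a0 + inner ℂ x a • x := by
  have hxx : inner ℂ x x = 1 := by rw [inner_self_eq_norm_sq_to_K, hx]; simp
  have hn1 : ‖a - inner ℂ x a • x‖ ≠ 0 := norm_ne_zero_iff.2 h1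
  have hn1c : ((‖a - inner ℂ x a • x‖ : ℝ) : ℂ) ≠ 0 := by exact_mod_cast hn1
  refine ⟨((‖a - inner ℂ x a • x‖ : ℝ) : ℂ),
    ((‖a - inner ℂ x a • x‖ : ℝ) : ℂ)⁻¹ • (a - inner ℂ x a • x), ?_, ?_, ?_⟩
  · rw [norm_smul, norm_inv, Complex.norm_real, norm_norm, inv_mul_cancel₀ hn1]
  · rw [inner_smul_right, inner_sub_right, inner_smul_right, hxx, mul_one, sub_self, mul_zero]
  · rw [smul_smul, mul_inv_cancel₀ hn1c, one_smul, sub_add_cancel]

/-- splitting off two directions -/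
theorem split_dir2 {x a0 : E} (hx : ‖x‖ = 1) (ha : ‖a0‖ = 1) (hxa0 : inner ℂ x a0 = 0) (b : E)
    (h1 : b - inner ℂ a0 b • a0 - inner ℂ x b • x ≠ 0) :
    ∃ (c : ℂ) (b0 : E), ‖b0‖ = 1 ∧ inner ℂ x b0 = 0 ∧ inner ℂ a0 b0 = 0 ∧
      b = c • b0 + inner ℂ a0 b • a0 + inner ℂ x b • x := by
  have hxx : inner ℂ x x = 1 := by rw [inner_self_eq_norm_sq_to_K, hx]; simp
  have haa0 : inner ℂ a0 a0 = 1 := by rw [inner_self_eq_norm_sq_to_K, ha]; simp
  have hax0 : inner ℂ a0 x = 0 := by rw [← inner_conj_symm, hxa0]; simp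
  have hxb1 : inner ℂ x (b - inner ℂ a0 b • a0 - inner ℂ x b • x) = 0 := by
    rw [inner_sub_right, inner_sub_right, inner_smul_right, inner_smul_right, hxx, hxa0]
    ring
  have hab1 : inner ℂ a0 (b - inner ℂ a0 b • a0 - inner ℂ x b • x) = 0 := by
    rw [inner_sub_right, inner_sub_right, inner_smul_right, inner_smul_right, haa0, hax0]
    ring
  have hn1 : ‖b - inner ℂ a0 b • a0 - inner ℂ x b • x‖ ≠ 0 := norm_ne_zero_iff.2 h1
  have hn1c : ((‖b - inner ℂ a0 b • a0 - inner ℂ x b • x‖ : ℝ) : ℂ) ≠ 0 := by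
    exact_mod_cast hn1
  refine ⟨((‖b - inner ℂ a0 b • a0 - inner ℂ x b • x‖ : ℝ) : ℂ),
    ((‖b - inner ℂ a0 b • a0 - inner ℂ x b • x‖ : ℝ) : ℂ)⁻¹ •
      (b - inner ℂ a0 b • a0 - inner ℂ x b • x), ?_, ?_, ?_, ?_⟩
  · rw [norm_smul, norm_inv, Complex.norm_real, norm_norm, inv_mul_cancel₀ hn1]
  · rw [inner_smul_right, hxb1, mul_zero]
  · rw [inner_smul_right, hab1, mul_zero]
  · rw [smul_smul, mul_inv_cancel₀ hn1c, one_smul]
    abel

/-- the general step -/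
theorem gs_key {x y a0 b0 a b : E} (L : E →L[ℂ] E) (κ : ℂ) (hL : L x = κ • y)
    {c1 c2 c3 c4 c5 : ℂ} (ha : a = c1 • a0 + c2 • x) (hb : b = c3 • b0 + c4 • a0 + c5 • x) :
      G3 y (L a) (L b) = ‖c1‖ ^ 2 * ‖c3‖ ^ 2 * G3 y (L a0) (L b0) ∧
      G3 x a b = ‖c1‖ ^ 2 * ‖c3‖ ^ 2 * G3 x a0 b0 := by
  have e1 := G3_smul_add y (L a0) (L b0) 1 c1 (c2 * κ) c3 c4 (c5 * κ)
  have e2 := G3_smul_add x a0 b0 1 c1 c2 c3 c4 c5
  have hLa : L a = c1 • L a0 + (c2 * κ) • y := by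
    rw [ha, map_add, map_smul, map_smul, hL, smul_smul]
  have hLb : L b = c3 • L b0 + c4 • L a0 + (c5 * κ) • y := by
    rw [hb, map_add, map_add, map_smul, map_smul, map_smul, hL, smul_smul]
  constructor
  · rw [hLa, hLb]
    rw [one_smul] at e1
    rw [e1]; simp
  · rw [one_smul, ← ha, ← hb] at e2
    rw [e2]; simp

/-- Gram-Schmidt reduction to orthonormal triples -/
theorem gs {x y : E} (hx : ‖x‖ = 1) (L : E →L[ℂ] E) (κ : ℂ) (hL : L x = κ • y) {M : ℝ}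
    (h : ∀ a b : E, ‖a‖ = 1 → ‖b‖ = 1 → inner ℂ x a = 0 → inner ℂ x b = 0 → inner ℂ a b = 0 →
      G3 y (L a) (L b) ≤ M) (a b : E) : G3 y (L a) (L b) ≤ M * G3 x a b := by
  by_cases h1 : a - inner ℂ x a • x = 0
  · have ha : a = (0 : ℂ) • (0 : E) + inner ℂ x a • x := by
      rw [zero_smul, zero_add]; exact sub_eq_zero.1 h1
    obtain ⟨k1, k2⟩ := gs_key (b0 := b) (c3 := 1) (c4 := 0) (c5 := 0) L κ hL ha
      (by rw [one_smul, zero_smul, zero_smul, add_zero, add_zero])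
    rw [k1, k2]; simp
  obtain ⟨c, a0, ha0n, hxa0, haeq⟩ := split_dir hx a h1
  by_cases h2 : b - inner ℂ a0 b • a0 - inner ℂ x b • x = 0
  · have hb : b = (0 : ℂ) • (0 : E) + inner ℂ a0 b • a0 + inner ℂ x b • x := by
      rw [zero_smul, zero_add]
      have h3 : b - (inner ℂ a0 b • a0 + inner ℂ x b • x) = 0 := by
        rw [← sub_sub]; exact h2
      exact sub_eq_zero.1 h3
    obtain ⟨k1, k2⟩ := gs_key L κ hL haeq hb
    rw [k1, k2]; simp
  obtain ⟨c', b0, hb0n, hxb0, hab0, hb⟩ := split_dir2 hx ha0n hxa0 b h2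
  obtain ⟨k1, k2⟩ := gs_key L κ hL haeq hb
  rw [k1, k2, G3_orth hx ha0n hb0n hxa0 hxb0 hab0]
  have h3 := h a0 b0 ha0n hb0n hxa0 hxb0 hab0
  have h4 : 0 ≤ ‖c‖ ^ 2 * ‖c'‖ ^ 2 := by positivity
  nlinarith [mul_le_mul_of_nonneg_left h3 h4]

/-- the bound for the `m`-th iterate at `x` -/
def Bd (s : HMap E) (m : ℕ) (x : E) (M : ℝ) : Prop := ∀ a b : E,
  ‖x‖ ^ 6 * G3 (s.F^[m] x) (fderiv ℂ (s.F^[m]) x a) (fderiv ℂ (s.F^[m]) x b) ≤
    M * (‖s.F^[m] x‖ ^ 6 * G3 x a b)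

/-- normalisation -/
noncomputable def nrm (x : E) : E := ((‖x‖⁻¹ : ℝ) : ℂ) • x

theorem norm_nrm {x : E} (hx : x ≠ 0) : ‖nrm x‖ = 1 := by
  unfold nrm
  rw [norm_smul, Complex.norm_real, norm_inv, norm_norm, inv_mul_cancel₀ (norm_ne_zero_iff.2 hx)]

theorem bd_of_unit (s : HMap E) (m : ℕ) {x : E} (hx : x ≠ 0) {M : ℝ}
    (h : ∀ a b : E, ‖a‖ = 1 → ‖b‖ = 1 → inner ℂ (nrm x) a = 0 → inner ℂ (nrm x) b = 0 →
      inner ℂ a b = 0 →
      G3 (s.F^[m] (nrm x)) (fderiv ℂ (s.F^[m]) (nrm x) a) (fderiv ℂ (s.F^[m]) (nrm x) b) ≤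
        M * ‖s.F^[m] (nrm x)‖ ^ 6) : Bd s m x M := by
  intro a b
  have h1 := gs (norm_nrm hx) (fderiv ℂ (s.F^[m]) (nrm x)) ((s.d ^ m : ℕ) : ℂ)
    (euler s m (nrm x)) h a b
  set r : ℝ := ‖x‖ with hr
  have hr0 : 0 < r := norm_pos_iff.2 hx
  have hrc : (r : ℂ) ≠ 0 := by exact_mod_cast hr0.ne'
  have hxr : x = (r : ℂ) • nrm x := by
    unfold nrm
    rw [smul_smul, ← hr]
    push_cast
    rw [mul_inv_cancel₀ hrc, one_smul]
  set ρ : ℂ := (r : ℂ) ^ (s.d ^ m) with hρ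
  have hF : s.F^[m] x = ρ • s.F^[m] (nrm x) := by
    conv_lhs => rw [hxr]
    rw [it_hom]
  have hD : ∀ v : E, fderiv ℂ (s.F^[m]) x v = (ρ * (r : ℂ)⁻¹) • fderiv ℂ (s.F^[m]) (nrm x) v := by
    intro v
    have h2 := der_hom s m (r : ℂ) (nrm x) ((r : ℂ)⁻¹ • v)
    rw [← hxr, smul_smul, mul_inv_cancel₀ hrc, one_smul, map_smul, smul_smul] at h2
    exact h2
  have e1 := G3_smul_add (s.F^[m] (nrm x)) (fderiv ℂ (s.F^[m]) (nrm x) a)
    (fderiv ℂ (s.F^[m]) (nrm x) b) ρ (ρ * (r : ℂ)⁻¹) 0 (ρ * (r : ℂ)⁻¹) 0 0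
  simp only [zero_smul, add_zero] at e1
  have e2 := G3_smul_add (nrm x) a b (r : ℂ) 1 0 1 0 0
  simp only [zero_smul, add_zero, one_smul, norm_one, one_pow, mul_one] at e2
  rw [← hxr] at e2
  rw [hF, hD a, hD b, e1, e2, norm_smul]
  have hrn : ‖(r : ℂ)‖ = r := by rw [Complex.norm_real, Real.norm_of_nonneg hr0.le]
  rw [norm_mul, norm_inv, hrn]
  have h3 : 0 ≤ ‖ρ‖ ^ 6 * r ^ 2 := by positivity
  calc r ^ 6 * (‖ρ‖ ^ 2 * (‖ρ‖ * r⁻¹) ^ 2 * (‖ρ‖ * r⁻¹) ^ 2 *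
        G3 (s.F^[m] (nrm x)) (fderiv ℂ (s.F^[m]) (nrm x) a) (fderiv ℂ (s.F^[m]) (nrm x) b))
      = (‖ρ‖ ^ 6 * r ^ 2) *
        G3 (s.F^[m] (nrm x)) (fderiv ℂ (s.F^[m]) (nrm x) a) (fderiv ℂ (s.F^[m]) (nrm x) b) := by
        field_simp
    _ ≤ (‖ρ‖ ^ 6 * r ^ 2) * (M * ‖s.F^[m] (nrm x)‖ ^ 6 * G3 (nrm x) a b) :=
        mul_le_mul_of_nonneg_left h1 h3
    _ = M * ((‖ρ‖ * ‖s.F^[m] (nrm x)‖) ^ 6 * (r ^ 2 * G3 (nrm x) a b)) := by ring

theorem chain (s : HMap E) {m n : ℕ} {x : E} (hx : x ≠ 0) {M M' : ℝ} (hM' : 0 ≤ M')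
    (h1 : Bd s m x M) (h2 : Bd s n (s.F^[m] x) M') : Bd s (m + n) x (M * M') := by
  intro a b
  have hF : s.F^[m + n] = s.F^[n] ∘ s.F^[m] := by
    rw [← Function.iterate_add, add_comm]
  have hD : ∀ v, fderiv ℂ (s.F^[m + n]) x v =
      fderiv ℂ (s.F^[n]) (s.F^[m] x) (fderiv ℂ (s.F^[m]) x v) := by
    intro v
    rw [hF, fderiv_comp x (it_diff s n _) (it_diff s m x)]
    rfl
  have hFx : s.F^[m + n] x = s.F^[n] (s.F^[m] x) := by rw [hF]; rfl
  rw [hD a, hD b, hFx]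
  set y := s.F^[m] x with hy
  set a' := fderiv ℂ (s.F^[m]) x a
  set b' := fderiv ℂ (s.F^[m]) x b
  have h3 := h1 a b
  have h4 := h2 a' b'
  have hy0 : 0 < ‖y‖ ^ 6 := pow_pos (norm_pos_iff.2 (it_ne s hx m)) 6
  have hx0 : 0 ≤ ‖x‖ ^ 6 := by positivity
  have hz0 : 0 ≤ M' * ‖s.F^[n] y‖ ^ 6 := by positivity
  refine le_of_mul_le_mul_left ?_ hy0
  calc ‖y‖ ^ 6 * (‖x‖ ^ 6 * G3 (s.F^[n] y) (fderiv ℂ (s.F^[n]) y a') (fderiv ℂ (s.F^[n]) y b'))
      = ‖x‖ ^ 6 * (‖y‖ ^ 6 *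
          G3 (s.F^[n] y) (fderiv ℂ (s.F^[n]) y a') (fderiv ℂ (s.F^[n]) y b')) := by ring
    _ ≤ ‖x‖ ^ 6 * (M' * (‖s.F^[n] y‖ ^ 6 * G3 y a' b')) := mul_le_mul_of_nonneg_left h4 hx0
    _ = (M' * ‖s.F^[n] y‖ ^ 6) * (‖x‖ ^ 6 * G3 y a' b') := by ring
    _ ≤ (M' * ‖s.F^[n] y‖ ^ 6) * (M * (‖y‖ ^ 6 * G3 x a b)) :=
        mul_le_mul_of_nonneg_left h3 hz0
    _ = ‖y‖ ^ 6 * (M * M' * (‖s.F^[n] y‖ ^ 6 * G3 x a b)) := by ring

theorem cont_it (s : HMap E) (m : ℕ) : Continuous (s.F^[m]) :=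
  continuous_iff_continuousAt.2 fun x => (it_diff s m x).continuousAt

theorem cont_der [CompleteSpace E] (s : HMap E) (m : ℕ) :
    Continuous (fun t : E × E => fderiv ℂ (s.F^[m]) t.1 t.2) := by
  have h1 : Continuous (fderiv ℂ (s.F^[m])) := by
    have h2 : ContDiff ℂ 1 (s.F^[m]) := by
      rw [← contDiffOn_univ]
      exact (it_an s m).contDiffOn uniqueDiffOn_univ
    exact h2.continuous_fderiv (by norm_num)
  exact (h1.comp continuous_fst).clm_apply continuous_snd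

theorem cont_G [CompleteSpace E] (s : HMap E) (m : ℕ) : Continuous (fun t : E × E × E =>
    G3 (s.F^[m] t.1) (fderiv ℂ (s.F^[m]) t.1 t.2.1) (fderiv ℂ (s.F^[m]) t.1 t.2.2)) := by
  have h1 : Continuous (fun t : E × E × E => s.F^[m] t.1) := (cont_it s m).comp continuous_fst
  have h2 : Continuous (fun t : E × E × E => fderiv ℂ (s.F^[m]) t.1 t.2.1) :=
    (cont_der s m).comp (continuous_fst.prodMk (continuous_fst.comp continuous_snd))
  have h3 : Continuous (fun t : E × E × E => fderiv ℂ (s.F^[m]) t.1 t.2.2) :=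
    (cont_der s m).comp (continuous_fst.prodMk (continuous_snd.comp continuous_snd))
  have h4 : Continuous (fun t : E × E × E => (s.F^[m] t.1, fderiv ℂ (s.F^[m]) t.1 t.2.1,
      fderiv ℂ (s.F^[m]) t.1 t.2.2)) := h1.prodMk (h2.prodMk h3)
  have h5 := (continuous_G3 (E := E)).comp h4
  exact h5

theorem exists_bound [FiniteDimensional ℂ E] (s : HMap E) :
    ∃ C : ℝ, 1 ≤ C ∧ ∀ x : E, x ≠ 0 → Bd s 1 x C := by
  haveI : ProperSpace E := FiniteDimensional.proper ℂ E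
  set K : Set (E × E × E) := sphere (0 : E) 1 ×ˢ (closedBall (0 : E) 1 ×ˢ closedBall (0 : E) 1)
    with hK
  have hKc : IsCompact K := (isCompact_sphere _ _).prod
    ((isCompact_closedBall _ _).prod (isCompact_closedBall _ _))
  have hcont : ContinuousOn (fun t : E × E × E =>
      G3 (s.F^[1] t.1) (fderiv ℂ (s.F^[1]) t.1 t.2.1) (fderiv ℂ (s.F^[1]) t.1 t.2.2) /
        ‖s.F^[1] t.1‖ ^ 6) K := by
    refine (cont_G s 1).continuousOn.div
      (((cont_it s 1).comp continuous_fst).norm.pow 6).continuousOn ?_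
    intro t ht
    have hne : t.1 ≠ 0 := by
      intro h0
      have h1 : t.1 ∈ sphere (0 : E) 1 := ht.1
      rw [h0] at h1
      simp at h1
    exact pow_ne_zero 6 (norm_ne_zero_iff.2 (it_ne s hne 1))
  obtain ⟨C, hC⟩ := (hKc.image_of_continuousOn hcont).bddAbove
  refine ⟨max C 1, le_max_right _ _, fun x hx => bd_of_unit s 1 hx ?_⟩
  intro a b ha hb _ _ _
  have hmem : (nrm x, a, b) ∈ K := by
    refine ⟨?_, ?_, ?_⟩
    · simp [norm_nrm hx]
    · simp [ha]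
    · simp [hb]
  have h1 := hC (mem_image_of_mem _ hmem)
  have hne : nrm x ≠ 0 := by
    intro h0
    have := norm_nrm hx
    rw [h0, norm_zero] at this
    exact zero_ne_one this
  have hpos : 0 < ‖s.F^[1] (nrm x)‖ ^ 6 := pow_pos (norm_pos_iff.2 (it_ne s hne 1)) 6
  have h2 : G3 (s.F^[1] (nrm x)) (fderiv ℂ (s.F^[1]) (nrm x) a) (fderiv ℂ (s.F^[1]) (nrm x) b) /
      ‖s.F^[1] (nrm x)‖ ^ 6 ≤ max C 1 := h1.trans (le_max_left _ _)
  rwa [div_le_iff₀ hpos] at h2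

theorem bd_pow (s : HMap E) {C : ℝ} (hC : 1 ≤ C) (h : ∀ x : E, x ≠ 0 → Bd s 1 x C) (i : ℕ) :
    ∀ x : E, x ≠ 0 → Bd s i x (C ^ i) := by
  induction i with
  | zero =>
    intro x hx a b
    have h1 : fderiv ℂ (s.F^[0]) x = ContinuousLinearMap.id ℂ E := by
      have : s.F^[0] = id := rfl
      rw [this]; exact fderiv_id
    rw [h1]
    simp
  | succ i ih =>
    intro x hx
    rw [pow_succ]
    exact chain s hx (by linarith) (ih x hx) (h _ (it_ne s hx i))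

theorem bd_mono (s : HMap E) {m : ℕ} {x : E} {M M' : ℝ} (h : M ≤ M') (hb : Bd s m x M) :
    Bd s m x M' := by
  intro a b
  have h0 : 0 ≤ ‖s.F^[m] x‖ ^ 6 * G3 x a b := mul_nonneg (by positivity) (G3_nonneg _ _ _)
  exact (hb a b).trans (mul_le_mul_of_nonneg_right h h0)

end

end R5

open R5

variable {E : Type*} [NormedAddCommGroup E] [InnerProductSpace ℂ E]

theorem contr_of_area [FiniteDimensional ℂ E] (s : HMap E) {Q : Set (ℙ ℂ E)}
    (hQ : IsClosed (coneOf Q ∪ {0})) (hA : AreaContr s Q) :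
    ∃ G : Set E, IsOpen G ∧ coneOf Q ⊆ G ∧ IsCone G ∧
      ∀ U : Set E, U ⊆ G → (∀ x ∈ U, s.F x ∈ U) → Contr s U := by
  haveI : ProperSpace E := FiniteDimensional.proper ℂ E
  obtain ⟨N, θ, hN, hθ, hAr⟩ := hA
  obtain ⟨θ', hθ'0, hθ'1, hθθ'⟩ : ∃ θ' : ℝ, 0 < θ' ∧ θ' < 1 ∧ θ < θ' := by
    refine ⟨(max θ 0 + 1) / 2, ?_, ?_, ?_⟩
    · have := le_max_right θ 0; linarith
    · have : max θ 0 < 1 := max_lt hθ one_pos
      linarith
    · have h1 := le_max_left θ 0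
      have : max θ 0 < 1 := max_lt hθ one_pos
      linarith
  -- the bad set
  set S : Set (E × E × E) := {t | (‖t.1‖ = 1 ∧ ‖t.2.1‖ = 1 ∧ ‖t.2.2‖ = 1) ∧
    (inner ℂ t.1 t.2.1 = 0 ∧ inner ℂ t.1 t.2.2 = 0 ∧ inner ℂ t.2.1 t.2.2 = 0) ∧
    θ' * ‖s.F^[N] t.1‖ ^ 6 ≤
      G3 (s.F^[N] t.1) (fderiv ℂ (s.F^[N]) t.1 t.2.1) (fderiv ℂ (s.F^[N]) t.1 t.2.2)} with hS
  have hSc : IsCompact S := by
    have h1 : IsClosed S := by
      refine IsClosed.inter (IsClosed.inter ?_ (IsClosed.inter ?_ ?_))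
        (IsClosed.inter (IsClosed.inter ?_ (IsClosed.inter ?_ ?_)) ?_)
      · exact isClosed_eq (by fun_prop) continuous_const
      · exact isClosed_eq (by fun_prop) continuous_const
      · exact isClosed_eq (by fun_prop) continuous_const
      · exact isClosed_eq (by fun_prop) continuous_const
      · exact isClosed_eq (by fun_prop) continuous_const
      · exact isClosed_eq (by fun_prop) continuous_const
      · exact isClosed_le (continuous_const.mul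
          (((cont_it s N).comp continuous_fst).norm.pow 6)) (cont_G s N)
    refine ((isCompact_closedBall (0 : E) 1).prod ((isCompact_closedBall (0 : E) 1).prod
      (isCompact_closedBall (0 : E) 1))).of_isClosed_subset h1 ?_
    rintro t ⟨⟨h2, h3, h4⟩, -⟩
    exact ⟨by simp [h2], by simp [h3], by simp [h4]⟩
  set Bad : Set E := (fun p : ℂ × (E × E × E) => p.1 • p.2.1) '' (sphere (0 : ℂ) 1 ×ˢ S) with hBad
  have hBc : IsClosed Bad := by
    refine (((isCompact_sphere (0 : ℂ) 1).prod hSc).image ?_).isClosed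
    fun_prop
  set G : Set E := {x | x ≠ 0 ∧ nrm x ∉ Bad} with hG
  have hBadu : ∀ u : ℂ, ‖u‖ = 1 → ∀ x : E, x ∈ Bad → u • x ∈ Bad := by
    rintro u hu x ⟨⟨v, t⟩, ⟨hv, ht⟩, rfl⟩
    refine ⟨(u * v, t), ⟨?_, ht⟩, ?_⟩
    · have hv' : ‖v‖ = 1 := by simpa using hv
      simp [hu, hv']
    · simp [mul_smul]
  have hbdG : ∀ x ∈ G, Bd s N x θ' := by
    rintro x ⟨hx, hnb⟩
    refine bd_of_unit s N hx ?_
    intro a b ha hb h1 h2 h3
    by_contra hcon
    push_neg at hcon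
    apply hnb
    refine ⟨(1, (nrm x, a, b)), ⟨by simp, ?_⟩, by simp⟩
    exact ⟨⟨norm_nrm hx, ha, hb⟩, ⟨h1, h2, h3⟩, hcon.le⟩
  refine ⟨G, ?_, ?_, ⟨?_, ?_⟩, ?_⟩
  · -- open
    have h1 : ContinuousOn (fun x : E => nrm x) {x | x ≠ 0} := by
      unfold nrm
      refine ContinuousOn.smul ?_ continuousOn_id
      refine Complex.continuous_ofReal.comp_continuousOn ?_
      refine ContinuousOn.inv₀ continuous_norm.continuousOn ?_
      intro x hx
      exact norm_ne_zero_iff.2 hx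
    have h2 := h1.isOpen_inter_preimage isOpen_ne hBc.isOpen_compl
    exact h2
  · -- contains the cone
    rintro x ⟨hx, hxQ⟩
    refine ⟨hx, ?_⟩
    rintro ⟨⟨u, t⟩, ⟨hu, ⟨⟨h1, h2, h3⟩, ⟨h4, h5, h6⟩, h7⟩⟩, h8⟩
    have hu1 : ‖u‖ = 1 := by simpa using hu
    have hu0 : u ≠ 0 := by
      intro h0; rw [h0, norm_zero] at hu1; exact zero_ne_one hu1
    have ht0 : t.1 ≠ 0 := by
      intro h0; rw [h0, norm_zero] at h1; exact zero_ne_one h1
    have hmk : Projectivization.mk ℂ t.1 ht0 ∈ Q := by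
      have h9 : Projectivization.mk ℂ t.1 ht0 = Projectivization.mk ℂ x hx := by
        rw [Projectivization.mk_eq_mk_iff']
        refine ⟨u⁻¹ * ((‖x‖⁻¹ : ℝ) : ℂ), ?_⟩
        have h10 : u • t.1 = ((‖x‖⁻¹ : ℝ) : ℂ) • x := h8
        rw [mul_smul, ← h10, smul_smul, inv_mul_cancel₀ hu0, one_smul]
      rw [h9]; exact hxQ
    have h9 := hAr t.1 ht0 hmk t.2.1 t.2.2
    rw [h1, G3_orth h1 h2 h3 h4 h5 h6] at h9
    have h10 : 0 < ‖s.F^[N] t.1‖ ^ 6 := pow_pos (norm_pos_iff.2 (it_ne s ht0 N)) 6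
    nlinarith [h7, h9, mul_lt_mul_of_pos_right hθθ' h10]
  · -- the origin
    rintro ⟨h, -⟩
    exact h rfl
  · -- cone
    rintro c hc x ⟨hx, hnb⟩
    refine ⟨smul_ne_zero hc hx, ?_⟩
    intro hb
    apply hnb
    have hcn : ‖c‖ ≠ 0 := norm_ne_zero_iff.2 hc
    have hcc : ((‖c‖ : ℝ) : ℂ) ≠ 0 := by exact_mod_cast hcn
    have h1 : nrm x = (((‖c‖ : ℝ) : ℂ) * c⁻¹) • nrm (c • x) := by
      unfold nrm
      rw [norm_smul, smul_smul, smul_smul]
      congr 1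
      push_cast
      rw [mul_inv]
      field_simp
    rw [h1]
    refine hBadu _ ?_ _ hb
    rw [norm_mul, norm_inv, Complex.norm_real, norm_norm, mul_inv_cancel₀ hcn]
  · -- contraction
    intro U hUG hUF
    obtain ⟨C, hC1, hC⟩ := exists_bound s
    have hC0 : 0 ≤ C := by linarith
    have hUne : ∀ x ∈ U, x ≠ 0 := fun x hx => (hUG hx).1
    have hUit : ∀ (m : ℕ), ∀ x ∈ U, s.F^[m] x ∈ U := by
      intro m
      induction m with
      | zero => intro x hx; simpa using hx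
      | succ m ih =>
        intro x hx
        rw [Function.iterate_succ_apply']
        exact hUF _ (ih x hx)
    have hj : ∀ j : ℕ, ∀ x ∈ U, Bd s (j * N) x (θ' ^ j) := by
      intro j
      induction j with
      | zero =>
        intro x hx
        have h1 := bd_pow s hC1 hC 0 x (hUne x hx)
        simpa using h1
      | succ j ih =>
        intro x hx
        have h1 := chain s (hUne x hx) hθ'0.le (ih x hx) (hbdG _ (hUG (hUit (j * N) x hx)))
        have h2 : (j + 1) * N = j * N + N := by ring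
        rw [h2, pow_succ]
        exact h1
    intro ε hε
    have hCN : 0 < C ^ N := by positivity
    obtain ⟨j0, hj0⟩ := exists_pow_lt_of_lt_one (div_pos hε hCN) hθ'1
    refine ⟨j0 * N, ?_⟩
    intro m hm x hx
    have hNpos : 0 < N := hN
    have hdm := Nat.div_add_mod m N
    have h1 : j0 ≤ m / N := (Nat.le_div_iff_mul_le hNpos).2 hm
    have h2 : m % N < N := Nat.mod_lt _ hNpos
    have h3 := chain s (hUne x hx) (pow_nonneg hC0 (m % N)) (hj (m / N) x hx)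
      (bd_pow s hC1 hC (m % N) _ (it_ne s (hUne x hx) _))
    have h4 : m / N * N + m % N = m := by rw [mul_comm]; exact hdm
    rw [h4] at h3
    have h5 : θ' ^ (m / N) * C ^ (m % N) ≤ ε := by
      have h6 : θ' ^ (m / N) ≤ θ' ^ j0 := pow_le_pow_of_le_one hθ'0.le hθ'1.le h1
      have h7 : C ^ (m % N) ≤ C ^ N := pow_le_pow_right₀ hC1 h2.le
      have h8 : θ' ^ j0 * C ^ N < ε := by rwa [lt_div_iff₀ hCN] at hj0
      calc θ' ^ (m / N) * C ^ (m % N) ≤ θ' ^ j0 * C ^ N :=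
            mul_le_mul h6 h7 (pow_nonneg hC0 _) (by positivity)
        _ ≤ ε := h8.le
    exact bd_mono s h5 h3

end MFE
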