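import Pool.Agent.Lib.MFE.HProps
import Pool.Agent.Lib.MFE.Sd

/-!
# Theorem F, row F2b: the curve argument in the polydisc
-/

set_option autoImplicit false

open Set Metric Filter Topology

namespace MFE

section core

variable {E : Type*} [NormedAddCommGroup E] [InnerProductSpace ℂ E]

/-- at distance less than one the inner product does not vanish -/
private theorem core_inner_ne {x e : E} (h : sd x e < 1) : inner ℂ e x ≠ 0 := by
  intro h0
  have h1 := sd_sq x e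
  have h2 := sd_nonneg x e
  rw [norm_inner_symm, h0, norm_zero, zero_div] at h1
  nlinarith

private theorem core_sd_cont {x e : E} (hx : x ≠ 0) (he : ‖e‖ = 1) :
    ContinuousAt (fun y : E => sd y e) x := by
  unfold sd
  have h : ‖x‖ * ‖e‖ ≠ 0 := by
    rw [he, mul_one]
    exact norm_ne_zero_iff.2 hx
  have h1 : ContinuousAt (fun y : E => ‖inner ℂ y e‖) x :=
    (Continuous.norm (by fun_prop : Continuous fun y : E => inner ℂ y e)).continuousAt
  have h2 : ContinuousAt (fun y : E => ‖y‖ * ‖e‖) x :=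
    (by fun_prop : Continuous fun y : E => ‖y‖ * ‖e‖).continuousAt
  have h3 : ContinuousAt (fun y : E => 1 - (‖inner ℂ y e‖ / (‖y‖ * ‖e‖)) ^ 2) x :=
    continuousAt_const.sub ((h1.div h2 h).pow 2)
  exact h3.sqrt

/-- the elementary inequality at the edge `|t| = ρ` -/
private theorem core_edge {p c1 κ A B : ℝ} (hA : 0 < A) (hp : 0 < c1 * p)
    (h1 : c1 * p * B ≤ A) (h2 : κ * A < B) : c1 * p * κ < 1 := by
  have h3 : c1 * p * (κ * A) < c1 * p * B := mul_lt_mul_of_pos_left h2 hp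
  have h4 : c1 * p * κ * A < 1 * A := by nlinarith
  exact lt_of_mul_lt_mul_right h4 hA.le

theorem core (E : Type*) [NormedAddCommGroup E] [InnerProductSpace ℂ E] (h : CurveStmt) :
    CoreStmt E := by
  intro x a R ρ s0 r κ t e β γ q0 M hs0 hr hr1 hκ ht he hx hne hsep hT hq1 hq2 hq3 hq4 hq5 hq6
    hM1 hM2
  set P := closedBall a R ×ˢ closedBall (0 : ℂ) ρ with hP
  set α : ℂ × ℂ → ℂ := fun q => inner ℂ e (x q) with hα
  have hαq : ∀ q, inner ℂ e (x q) = α q := fun q => rfl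
  simp only [hαq] at hT hq5 hq6
  set Δ : ℂ × ℂ → ℂ := fun q => β (x q) - (t : ℂ) * α q with hΔ
  have hΔq : ∀ q, β (x q) - (t : ℂ) * α q = Δ q := fun q => rfl
  simp only [hΔq] at hT
  have hq0 : 0 < ‖q0.2‖ := hs0.trans hq2
  have hq0P : q0 ∈ P := by
    refine ⟨?_, ?_⟩
    · rw [mem_closedBall, dist_eq_norm]; exact hq1.le
    · rw [mem_closedBall_zero_iff]; exact hq3.le
  have hα0 : α q0 ≠ 0 := core_inner_ne (hq4.trans hr1)
  have hα0' : 0 < ‖α q0‖ := norm_pos_iff.2 hα0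
  have hαan : AnalyticOnNhd ℂ α P := fun q hq => ((innerSL ℂ e).analyticAt (x q)).comp (hx q hq)
  have hγan : AnalyticOnNhd ℂ (fun q => γ (x q)) P := fun q hq => (γ.analyticAt (x q)).comp (hx q hq)
  have hβan : AnalyticOnNhd ℂ (fun q => β (x q)) P := fun q hq => (β.analyticAt (x q)).comp (hx q hq)
  have hΔan : AnalyticOnNhd ℂ Δ P := fun q hq =>
    (hβan q hq).fun_sub (analyticAt_const.fun_mul (hαan q hq))
  set c : ℂ := γ (x q0) / α q0 with hc
  have hcκ : ‖c‖ ≤ κ := by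
    rw [hc, norm_div, div_le_iff₀ hα0']
    exact hq5
  set G : ℂ × ℂ → ℂ := fun q => γ (x q) - c * α q with hG
  have hGan : AnalyticOnNhd ℂ G P := fun q hq =>
    (hγan q hq).fun_sub (analyticAt_const.fun_mul (hαan q hq))
  set c1 : ℝ := (‖q0.2‖ ^ M)⁻¹ / (6 / 5 * t) with hc1
  have hc1' : 0 < c1 := by positivity
  set Q : ℂ × ℂ → ℂ := fun q => α q / ((c1 : ℂ) * q.2 ^ M * Δ q) with hQ
  set D : Set (ℂ × ℂ) := {q | q ∈ ball a R ×ˢ ball (0 : ℂ) ρ ∧ q.2 ≠ 0 ∧ Δ q ≠ 0 ∧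
    sd (x q) e < r} with hD
  have hballP : ball a R ×ˢ ball (0 : ℂ) ρ ⊆ P :=
    prod_mono ball_subset_closedBall ball_subset_closedBall
  have hDP : D ⊆ P := fun q hq => hballP hq.1
  have hxc : ContinuousOn x P := hx.continuousOn
  have hsdc : ContinuousOn (fun q => sd (x q) e) P := fun q hq =>
    (core_sd_cont (hne q hq) he).comp_continuousWithinAt (hxc q hq)
  have hD_open : IsOpen D := by
    have hB : IsOpen (ball a R ×ˢ ball (0 : ℂ) ρ) := isOpen_ball.prod isOpen_ball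
    have h1 : IsOpen ((ball a R ×ˢ ball (0 : ℂ) ρ) ∩ {q | Δ q ≠ 0}) :=
      ContinuousOn.isOpen_inter_preimage (hΔan.continuousOn.mono hballP) hB
        (isOpen_compl_singleton (x := (0 : ℂ)))
    have h2 : IsOpen ((ball a R ×ˢ ball (0 : ℂ) ρ) ∩ {q | sd (x q) e < r}) :=
      ContinuousOn.isOpen_inter_preimage (hsdc.mono hballP) hB isOpen_Iio
    have h3 : IsOpen {q : ℂ × ℂ | q.2 ≠ 0} := isOpen_ne_fun continuous_snd continuous_const
    have : D = (((ball a R ×ˢ ball (0 : ℂ) ρ) ∩ {q | Δ q ≠ 0}) ∩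
        ((ball a R ×ˢ ball (0 : ℂ) ρ) ∩ {q | sd (x q) e < r})) ∩ {q : ℂ × ℂ | q.2 ≠ 0} := by
      ext q
      simp only [hD, mem_ofPred_eq, mem_inter_iff]
      tauto
    rw [this]
    exact (h1.inter h2).inter h3
  -- the norm of `Q`
  have hQn : ∀ q, q.2 ≠ 0 → Δ q ≠ 0 → ‖Q q‖ = ‖α q‖ / (c1 * ‖q.2‖ ^ M * ‖Δ q‖) := by
    intro q _ _
    rw [hQ]
    simp only [norm_div, norm_mul, norm_pow, Complex.norm_real, Real.norm_of_nonneg hc1'.le]
  have hQan : AnalyticOnNhd ℂ Q D := by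
    intro q hq
    refine (hαan q (hDP hq)).fun_div ?_ ?_
    · exact (analyticAt_const.fun_mul (analyticAt_snd.fun_pow M)).fun_mul (hΔan q (hDP hq))
    · refine mul_ne_zero (mul_ne_zero ?_ (pow_ne_zero _ hq.2.1)) hq.2.2.1
      exact_mod_cast hc1'.ne'
  -- the compact set
  have hKeq : {q | q ∈ D ∧ G q = 0 ∧ 1 ≤ ‖Q q‖} = {q | q ∈ P ∧ (sd (x q) e ≤ r ∧ G q = 0 ∧
      c1 * ‖q.2‖ ^ M * ‖Δ q‖ ≤ ‖α q‖)} := by
    ext q
    simp only [mem_ofPred_eq]
    constructor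
    · rintro ⟨hqD, hG0, hQ1⟩
      refine ⟨hDP hqD, hqD.2.2.2.le, hG0, ?_⟩
      rw [hQn q hqD.2.1 hqD.2.2.1] at hQ1
      have hpos : 0 < c1 * ‖q.2‖ ^ M * ‖Δ q‖ :=
        mul_pos (mul_pos hc1' (pow_pos (norm_pos_iff.2 hqD.2.1) _)) (norm_pos_iff.2 hqD.2.2.1)
      rwa [le_div_iff₀ hpos, one_mul] at hQ1
    · rintro ⟨hqP, hsd, hG0, hK⟩
      have hα1 : α q ≠ 0 := core_inner_ne (hsd.trans_lt hr1)
      have hα1' : 0 < ‖α q‖ := norm_pos_iff.2 hα1
      have hno : ¬ (‖q.1 - a‖ = R ∨ ‖q.2‖ ≤ s0) := fun hh => not_lt.2 hsd (hsep q hqP hh)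
      rw [not_or, not_le] at hno
      obtain ⟨hno1, hno2⟩ := hno
      have hq2' : 0 < ‖q.2‖ := hs0.trans hno2
      have hγ : ‖γ (x q)‖ ≤ κ * ‖α q‖ := by
        rw [hG] at hG0
        simp only at hG0
        rw [sub_eq_zero.1 hG0, norm_mul]
        exact mul_le_mul_of_nonneg_right hcκ (norm_nonneg _)
      obtain ⟨hT1, hT2⟩ := hT q hqP hsd hγ
      have hΔ1 : 0 < ‖Δ q‖ := lt_of_le_of_lt (by positivity) hT2
      have hP1 : ‖q.1 - a‖ < R := by
        refine lt_of_le_of_ne ?_ hno1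
        have := hqP.1
        rwa [mem_closedBall, dist_eq_norm] at this
      have hpM : 0 < ‖q.2‖ ^ M := pow_pos hq2' M
      have hqM : 0 < ‖q0.2‖ ^ M := pow_pos hq0 M
      have hP2 : ‖q.2‖ < ρ := by
        refine lt_of_le_of_ne (mem_closedBall_zero_iff.1 hqP.2) fun heq => ?_
        have h1 := core_edge hα1' (mul_pos hc1' hpM) hK hT2
        rw [hc1, heq] at h1
        rw [div_pow, div_lt_div_iff₀ hκ hqM] at hM1
        have h2 : (‖q0.2‖ ^ M)⁻¹ / (6 / 5 * t) * ρ ^ M * κ =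
            (ρ ^ M * κ) / (6 / 5 * t * ‖q0.2‖ ^ M) := by
          field_simp
        rw [h2, div_lt_one (by positivity)] at h1
        linarith
      have hsd' : sd (x q) e < r := by
        refine lt_of_le_of_ne hsd fun heq => ?_
        have h1 := hT1 heq
        have h2 : 5 / 2 * t * ‖α q‖ < ‖Δ q‖ := by
          have h3 : ‖β (x q)‖ ≤ ‖Δ q‖ + t * ‖α q‖ := by
            have h4 : β (x q) = Δ q + (t : ℂ) * α q := by rw [hΔ]; ring
            calc ‖β (x q)‖ = ‖Δ q + (t : ℂ) * α q‖ := by rw [← h4]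
              _ ≤ ‖Δ q‖ + ‖(t : ℂ) * α q‖ := norm_add_le _ _
              _ = ‖Δ q‖ + t * ‖α q‖ := by
                rw [norm_mul, Complex.norm_real, Real.norm_of_nonneg ht.le]
          linarith
        have h5 := core_edge hα1' (mul_pos hc1' hpM) hK h2
        have h6 : (‖q0.2‖ ^ M)⁻¹ / (6 / 5 * t) * ‖q.2‖ ^ M * (5 / 2 * t) =
            (25 / 12) * (‖q.2‖ ^ M / ‖q0.2‖ ^ M) := by
          field_simp
          ring
        rw [hc1, h6] at h5
        have h7 : ‖q0.2‖ ^ M < 2 * s0 ^ M := by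
          rwa [div_pow, div_lt_iff₀ (pow_pos hs0 M)] at hM2
        have h8 : s0 ^ M ≤ ‖q.2‖ ^ M := pow_le_pow_left₀ hs0.le hno2.le M
        have h9 : (25 / 12) * ‖q.2‖ ^ M < ‖q0.2‖ ^ M := by
          rw [mul_div_assoc', div_lt_one hqM] at h5
          exact h5
        linarith
      refine ⟨⟨⟨?_, ?_⟩, norm_pos_iff.1 hq2', norm_pos_iff.1 hΔ1, hsd'⟩, hG0, ?_⟩
      · rw [mem_ball, dist_eq_norm]; exact hP1
      · rw [mem_ball_zero_iff]; exact hP2
      · rw [hQn q (norm_pos_iff.1 hq2') (norm_pos_iff.1 hΔ1),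
          le_div_iff₀ (mul_pos (mul_pos hc1' hpM) hΔ1), one_mul]
        exact hK
  have hPc : IsCompact P := (isCompact_closedBall a R).prod (isCompact_closedBall 0 ρ)
  have hK : IsCompact {q | q ∈ D ∧ G q = 0 ∧ 1 ≤ ‖Q q‖} := by
    rw [hKeq]
    have h1 : IsClosed (P ∩ {q | sd (x q) e ≤ r}) :=
      hsdc.preimage_isClosed_of_isClosed hPc.isClosed isClosed_Iic
    have h2 : IsClosed (P ∩ {q | G q = 0}) :=
      hGan.continuousOn.preimage_isClosed_of_isClosed hPc.isClosed (isClosed_singleton (x := (0 : ℂ)))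
    have h3 : IsClosed (P ∩ {q | c1 * ‖q.2‖ ^ M * ‖Δ q‖ - ‖α q‖ ≤ 0}) := by
      refine ContinuousOn.preimage_isClosed_of_isClosed (f := fun q : ℂ × ℂ =>
        c1 * ‖q.2‖ ^ M * ‖Δ q‖ - ‖α q‖) ?_ hPc.isClosed isClosed_Iic
      exact ((continuousOn_const.mul ((continuous_snd.norm.pow M).continuousOn)).mul
        hΔan.continuousOn.norm).sub hαan.continuousOn.norm
    have : {q | q ∈ P ∧ (sd (x q) e ≤ r ∧ G q = 0 ∧ c1 * ‖q.2‖ ^ M * ‖Δ q‖ ≤ ‖α q‖)} =
        P ∩ (((P ∩ {q | sd (x q) e ≤ r}) ∩ (P ∩ {q | G q = 0})) ∩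
          (P ∩ {q | c1 * ‖q.2‖ ^ M * ‖Δ q‖ - ‖α q‖ ≤ 0})) := by
      ext q
      simp only [mem_ofPred_eq, mem_inter_iff, sub_nonpos]
      tauto
    rw [this]
    exact hPc.inter_right ((h1.inter h2).inter h3)
  -- the curve lemma
  have hΔ0 : 0 < ‖Δ q0‖ := lt_of_le_of_lt (by positivity) (hT q0 hq0P hq4.le hq5).2
  have hq0D : q0 ∈ D := by
    refine ⟨⟨?_, ?_⟩, norm_pos_iff.1 hq0, norm_pos_iff.1 hΔ0, hq4⟩
    · rw [mem_ball, dist_eq_norm]; exact hq1
    · rw [mem_ball_zero_iff]; exact hq3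
  have hG0 : G q0 = 0 := by
    rw [hG, hc]
    simp only
    rw [div_mul_cancel₀ _ hα0, sub_self]
  have hfin := h D G Q hD_open (hGan.mono hDP) hQan hK q0 hq0D hG0
  rw [hQn q0 hq0D.2.1 hq0D.2.2.1,
    div_le_one (mul_pos (mul_pos hc1' (pow_pos hq0 _)) hΔ0)] at hfin
  have h1 : c1 * ‖q0.2‖ ^ M = (6 / 5 * t)⁻¹ := by
    rw [hc1]
    field_simp
  rw [h1, inv_mul_eq_div, le_div_iff₀ (by positivity)] at hfin
  have h2 : ‖Δ q0‖ ≤ 11 / 10 * t * ‖α q0‖ := by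
    calc ‖Δ q0‖ ≤ ‖β (x q0)‖ + ‖(t : ℂ) * α q0‖ := norm_sub_le _ _
      _ = ‖β (x q0)‖ + t * ‖α q0‖ := by
        rw [norm_mul, Complex.norm_real, Real.norm_of_nonneg ht.le]
      _ ≤ t / 10 * ‖α q0‖ + t * ‖α q0‖ := by linarith
      _ = _ := by ring
  have h3 : 0 < t * ‖α q0‖ := by positivity
  nlinarith

end core

end MFE
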