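import Pool.Agent.Lib.MFE.Peak

/-!
# The curve lemma (row F04 of theorem F)
-/

set_option autoImplicit false

open Set Metric Filter Topology

namespace MFE

open Pk

theorem curve (h : PeakStmt) : CurveStmt := by
  intro D G q hD hG hq hK x hxD hxG
  by_contra hx
  push Not at hx
  set K : Set (ℂ × ℂ) := {x | x ∈ D ∧ G x = 0 ∧ 1 ≤ ‖q x‖} with hKdef
  have hxK : x ∈ K := ⟨hxD, hxG, hx.le⟩
  obtain ⟨C, hC0, hC⟩ : ∃ C : ℝ, 0 < C ∧ ∀ y ∈ K, nn y ≤ C := by
    obtain ⟨z, hz, hzm⟩ := hK.exists_isMaxOn ⟨x, hxK⟩ continuous_nn.continuousOn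
    exact ⟨nn z + 1, by have := nn_nonneg z; linarith, fun y hy => by
      have : nn y ≤ nn z := hzm hy
      linarith⟩
  set ε : ℝ := Real.log ‖q x‖ / (2 * C) with hε
  have hlog : 0 < Real.log ‖q x‖ := Real.log_pos hx
  have hε0 : 0 < ε := by positivity
  have hεC : Real.exp (ε * C) < ‖q x‖ := by
    have h1 : ε * C = Real.log ‖q x‖ / 2 := by rw [hε]; field_simp
    rw [h1]
    calc Real.exp (Real.log ‖q x‖ / 2) < Real.exp (Real.log ‖q x‖) :=
          Real.exp_lt_exp.2 (by linarith)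
      _ = ‖q x‖ := Real.exp_log (by linarith)
  have hφc : ContinuousOn (fun y => ‖q y‖ * Real.exp (ε * nn y)) K :=
    (ContinuousOn.norm fun y hy => (hq y hy.1).continuousAt.continuousWithinAt).mul
      (Real.continuous_exp.comp (continuous_const.mul continuous_nn)).continuousOn
  obtain ⟨x1, hx1K, hx1m⟩ := hK.exists_isMaxOn ⟨x, hxK⟩ hφc
  have hmax : ∀ y ∈ K, ‖q y‖ * Real.exp (ε * nn y) ≤ ‖q x1‖ * Real.exp (ε * nn x1) :=
    fun y hy => hx1m hy
  have hq1 : 1 < ‖q x1‖ := by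
    by_contra hcon
    push Not at hcon
    have h1 : ‖q x‖ ≤ ‖q x‖ * Real.exp (ε * nn x) :=
      le_mul_of_one_le_right (norm_nonneg _) (Real.one_le_exp (mul_nonneg hε0.le (nn_nonneg _)))
    have h2 : ‖q x1‖ * Real.exp (ε * nn x1) ≤ 1 * Real.exp (ε * C) :=
      mul_le_mul hcon (Real.exp_le_exp.2 (mul_le_mul_of_nonneg_left (hC x1 hx1K) hε0.le))
        (Real.exp_pos _).le zero_le_one
    have h3 := hmax x hxK
    linarith
  have hq1' : q x1 ≠ 0 := by
    intro h0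
    rw [h0, norm_zero] at hq1
    linarith
  have hadd : AnalyticAt ℂ (fun y : ℂ × ℂ => x1 + y) 0 := analyticAt_const.add analyticAt_id
  have hG1 : AnalyticAt ℂ (fun y => G (x1 + y)) 0 :=
    AnalyticAt.comp (g := G) (by simpa using hG x1 hx1K.1) hadd
  have hq1a : AnalyticAt ℂ (fun y => q (x1 + y)) 0 :=
    AnalyticAt.comp (g := q) (by simpa using hq x1 hx1K.1) hadd
  have hL : AnalyticAt ℂ (fun y : ℂ × ℂ => 2 * (ε : ℂ) * hl x1 y) 0 := by
    unfold hl
    exact analyticAt_const.mul ((analyticAt_const.mul analyticAt_fst).add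
      (analyticAt_const.mul analyticAt_snd))
  refine h (fun y => G (x1 + y)) (fun y => q (x1 + y) / q x1 * Complex.exp (2 * ε * hl x1 y)) ε hε0
    hG1 ((hq1a.div analyticAt_const hq1').mul hL.cexp) (by simpa using hx1K.2.1)
    (by simp [hl, hq1']) ?_
  have hcont : ContinuousAt (fun y : ℂ × ℂ => x1 + y) 0 := hadd.continuousAt
  have hin : ∀ᶠ y in 𝓝 (0 : ℂ × ℂ), x1 + y ∈ D :=
    hcont.eventually_mem (by simpa using hD.mem_nhds hx1K.1)
  have hgt : ∀ᶠ y in 𝓝 (0 : ℂ × ℂ), 1 < ‖q (x1 + y)‖ :=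
    hq1a.continuousAt.norm.eventually_const_lt (by simpa using hq1)
  filter_upwards [hin, hgt] with y hy1 hy2 hy3
  have hm := hmax (x1 + y) ⟨hy1, hy3, hy2.le⟩
  have hq1p : 0 < ‖q x1‖ := by linarith
  have e1 : ‖q (x1 + y) / q x1 * Complex.exp (2 * ε * hl x1 y)‖ =
      ‖q (x1 + y)‖ / ‖q x1‖ * Real.exp (2 * ε * (hl x1 y).re) := by
    simp only [norm_mul, norm_div, Complex.norm_exp]
    congr 2
    have : (2 * (ε : ℂ) * hl x1 y) = ((2 * ε : ℝ) : ℂ) * hl x1 y := by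
      push_cast; ring
    rw [this, Complex.re_ofReal_mul]
  have e2 := nn_add x1 y
  change ‖q (x1 + y) / q x1 * Complex.exp (2 * ε * hl x1 y)‖ ≤ Real.exp (-(ε * nn y))
  rw [e1, div_mul_eq_mul_div, div_le_iff₀ hq1p]
  have e3 : Real.exp (2 * ε * (hl x1 y).re) =
      Real.exp (ε * nn (x1 + y)) * Real.exp (-(ε * nn x1)) * Real.exp (-(ε * nn y)) := by
    rw [← Real.exp_add, ← Real.exp_add]; congr 1; rw [e2]; ring
  have e4 : ‖q (x1 + y)‖ * Real.exp (ε * nn (x1 + y)) * Real.exp (-(ε * nn x1)) ≤ ‖q x1‖ := by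
    calc _ ≤ ‖q x1‖ * Real.exp (ε * nn x1) * Real.exp (-(ε * nn x1)) := by gcongr
      _ = ‖q x1‖ := by rw [mul_assoc, ← Real.exp_add]; simp
  calc _ = ‖q (x1 + y)‖ * Real.exp (ε * nn (x1 + y)) * Real.exp (-(ε * nn x1)) *
        Real.exp (-(ε * nn y)) := by rw [e3]; ring
    _ ≤ ‖q x1‖ * Real.exp (-(ε * nn y)) := by gcongr
    _ = _ := mul_comm _ _

end MFE
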