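import Pool.Agent.Lib.MFE.TMain

/-!
# R14: choice of the basin (helper10)
-/

set_option autoImplicit false

open Set Metric Filter Topology

namespace MFE

/-- If a minimal quasi-attractor is not attracting, there are a trapping region `U` around it and a
point near it whose orbit never enters `U`. -/
theorem data_exists {X : Type*} [MetricSpace X] [CompactSpace X] {f : X → X} (hf : Continuous f)
    {Q : Set X} (hQ : MF7.IsMinimalQuasi f Q) (hna : ¬ MF7.IsAttracting f Q) {r0 : ℝ}
    (hr0 : 0 < r0) : ∃ (U : Set X) (z0 : X), MF7.IsTrapping f U ∧ Q ⊆ U ∧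
      (∀ n : ℕ, f^[n] z0 ∉ U) ∧ infDist z0 Q < r0 := by
  obtain ⟨hcl, hfQ, hnh⟩ := hQ.nhds hf
  obtain ⟨U1, hU1, hQU1, hU1r⟩ := hnh (thickening r0 Q) isOpen_thickening
    (self_subset_thickening hr0 Q)
  set A : Set X := ⋂ n : ℕ, f^[n] '' U1 with hA
  have hQA : Q ⊆ A := subset_attr hf hQ hU1 hQU1
  have hAcl : IsClosed A := MF7.attr_isClosed hf hU1
  have hAU : A ⊆ U1 := attr_subset
  by_contra hcon
  push Not at hcon
  apply hna
  have hAQ : A ⊆ Q := by
    intro x hx
    by_contra hxQ
    obtain ⟨U, hU, hQU, hUx⟩ := hnh {x}ᶜ isOpen_compl_singleton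
      (fun q hq hqx => hxQ (hqx ▸ hq))
    -- every point of `A` enters `U`
    have henter : ∀ z ∈ A, ∃ n : ℕ, f^[n] z ∈ U := by
      intro z hz
      by_contra hzn
      push Not at hzn
      have h1 := hcon U z hU hQU hzn
      have h2 := hU1r (hAU hz)
      rw [mem_thickening_iff_infDist_lt hQ.1.1] at h2
      exact absurd h2 (not_lt.2 h1)
    have hmono : Monotone fun n : ℕ => f^[n] ⁻¹' U := by
      refine monotone_nat_of_le_succ fun n z hz => ?_
      rw [mem_preimage, Function.iterate_succ_apply']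
      exact hU.image_subset ⟨_, hz, rfl⟩
    obtain ⟨n, hn⟩ := hAcl.isCompact.elim_directed_cover (fun n : ℕ => f^[n] ⁻¹' U)
      (fun n => hU.2.1.preimage (hf.iterate n))
      (fun z hz => mem_iUnion.2 (henter z hz)) (hmono.directed_le)
    obtain ⟨b, hb, hbx⟩ := exists_preimage_iter hf hU1 hx n
    have h3 : f^[n] b ∈ U := hn hb
    rw [hbx] at h3
    exact hUx h3 rfl
  have heq : Q = A := Subset.antisymm hQA hAQ
  exact ⟨U1, hU1, heq⟩

end MFE
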