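import Mathlib

/-!
# Area-contracting minimal quasi-attractors: definitions
-/

set_option autoImplicit false

open Set Metric Filter Topology
open scoped LinearAlgebra.Projectivization

namespace MFE

section basic

variable {E : Type*} [NormedAddCommGroup E] [InnerProductSpace ℂ E]

/-- Gram determinant of two vectors -/
noncomputable def G2 (a b : E) : ℝ := ‖a‖ ^ 2 * ‖b‖ ^ 2 - ‖inner ℂ a b‖ ^ 2

/-- Gram determinant of three vectors -/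
noncomputable def G3 (x a b : E) : ℝ :=
  (Matrix.det (Matrix.of fun i j : Fin 3 => inner ℂ (![x, a, b] i) (![x, a, b] j))).re

/-- the sine of the angle between the complex lines through `x` and `y` -/
noncomputable def sd (x y : E) : ℝ := Real.sqrt (1 - (‖inner ℂ x y‖ / (‖x‖ * ‖y‖)) ^ 2)

/-- derivative in the first variable -/
noncomputable def dz (w : ℂ × ℂ → E) (q : ℂ × ℂ) : E := fderiv ℂ w q (1, 0)

/-- derivative in the second variable -/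
noncomputable def dt (w : ℂ × ℂ → E) (q : ℂ × ℂ) : E := fderiv ℂ w q (0, 1)

/-- homogeneous entire map without zeros outside the origin -/
structure HMap (E : Type*) [NormedAddCommGroup E] [InnerProductSpace ℂ E] where
  F : E → E
  d : ℕ
  pos : 1 ≤ d
  an : AnalyticOnNhd ℂ F univ
  hom : ∀ (c : ℂ) (x : E), F (c • x) = c ^ d • F x
  ne : ∀ x, x ≠ 0 → F x ≠ 0

/-- a cone: invariant under nonzero scalars, without the origin -/
def IsCone (B : Set E) : Prop := (0 : E) ∉ B ∧ ∀ c : ℂ, c ≠ 0 → ∀ x ∈ B, c • x ∈ B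

/-- uniform contraction of complex 2-dimensional area on the cone `U0` along the iterates -/
def Contr (s : HMap E) (U0 : Set E) : Prop :=
  ∀ ε : ℝ, 0 < ε → ∃ m0 : ℕ, ∀ m, m0 ≤ m → ∀ x ∈ U0, ∀ a b : E,
    ‖x‖ ^ 6 * G3 (s.F^[m] x) (fderiv ℂ (s.F^[m]) x a) (fderiv ℂ (s.F^[m]) x b) ≤
      ε * (‖s.F^[m] x‖ ^ 6 * G3 x a b)

/-- a basin, as an open cone -/
structure Basin (s : HMap E) (B : Set E) : Prop where
  op : IsOpen B
  cone : IsCone B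
  deep : ∃ L : Set E,
    (∀ K : Set E, K ⊆ B → IsCompact K → ∃ m0 : ℕ, ∀ m, m0 ≤ m → ∀ x ∈ K, s.F^[m] x ∈ L) ∧
    ∃ lam : ℝ, 0 < lam ∧ ∀ x : E, x ≠ 0 → x ∉ B → ∀ (m : ℕ) (c : ℂ), ‖c • s.F^[m] x‖ = 1 →
      ∀ y ∈ L, ‖inner ℂ (c • s.F^[m] x) y‖ <
        lam * ‖y - inner ℂ (c • s.F^[m] x) y • (c • s.F^[m] x)‖

/-- the set `N` lies in the basin and well inside `U0` -/
structure Thick (U0 B N : Set E) (r0 : ℝ) : Prop where
  pos : 0 < r0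
  lt : r0 < 1
  sub : N ⊆ B
  thick : ∀ x ∈ N, ∀ y : E, ‖y - x‖ < r0 * ‖x‖ → y ∈ U0

/-- comparison property (subharmonicity of the logarithm, in weak form) -/
def LS (W : ℂ → ℝ) (a : ℂ) : Prop :=
  ∃ R0 : ℝ, 0 < R0 ∧ ∀ R : ℝ, 0 < R → R < R0 → ∀ (k : ℂ → ℂ) (R' : ℝ), R < R' →
    DifferentiableOn ℂ k (ball a R') → (∀ z ∈ ball a R', k z ≠ 0) →
    (∀ z ∈ sphere a R, W z < ‖k z‖) → W a < ‖k a‖

end basic

section proj

variable {E : Type*} [NormedAddCommGroup E] [InnerProductSpace ℂ E]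

/-- the quotient topology on complex projective space -/
noncomputable instance projTop : TopologicalSpace (ℙ ℂ E) :=
  TopologicalSpace.coinduced
    (fun v : {v : E // v ≠ 0} => Projectivization.mk ℂ v.1 v.2) inferInstance

/-- the chordal distance -/
noncomputable def pdist (p q : ℙ ℂ E) : ℝ := sd p.rep q.rep

/-- the induced map of projective space -/
noncomputable def HMap.map (s : HMap E) (p : ℙ ℂ E) : ℙ ℂ E :=
  Projectivization.mk ℂ (s.F p.rep) (s.ne _ p.rep_nonzero)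

/-- the cone over a set in projective space -/
def coneOf (S : Set (ℙ ℂ E)) : Set E := {x | ∃ h : x ≠ 0, Projectivization.mk ℂ x h ∈ S}

/-- contraction of complex 2-dimensional area by some iterate, on `Q` -/
def AreaContr (s : HMap E) (Q : Set (ℙ ℂ E)) : Prop :=
  ∃ (N : ℕ) (θ : ℝ), 1 ≤ N ∧ θ < 1 ∧ ∀ (x : E) (hx : x ≠ 0), Projectivization.mk ℂ x hx ∈ Q →
    ∀ a b : E, ‖x‖ ^ 6 * G3 (s.F^[N] x) (fderiv ℂ (s.F^[N]) x a) (fderiv ℂ (s.F^[N]) x b) ≤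
      θ * (‖s.F^[N] x‖ ^ 6 * G3 x a b)

end proj

section abstract

variable {X : Type*}

/-- rigidity near the minimum of `r` (`D` is a distance) -/
def Rig (D : X → X → ℝ) (f : X → X) (r : X → ℝ) (N : Set X) (μ0 θ : ℝ) : Prop :=
  ∀ c : ℝ, 0 < c → ∃ τ : ℝ, 1 < τ ∧ ∀ ε : ℝ, 0 < ε → ε ≤ 1 → ∀ (k : ℕ) (a : X) (μ : ℝ),
    0 < μ → μ ≤ μ0 → (∀ x, D x a < ε → f^[k] x ∈ N ∧ μ ≤ τ * r (f^[k] x)) →
    r (f^[k] a) ≤ τ * μ → ∀ x, D x a < θ * ε → D (f^[k] x) (f^[k] a) < c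

/-- propagation of convergence to a periodic point -/
def Vit (D : X → X → ℝ) (f : X → X) (c0 θ : ℝ) : Prop :=
  ∀ ε : ℝ, 0 < ε → ε ≤ 1 → ∀ (y : X) (q : ℕ), f^[q] y = y →
    (∃ k0 : ℕ, ∀ k, k0 ≤ k → ∀ x, D x y < ε → D (f^[k * q] x) y < c0) →
    (∃ δ : ℝ, 0 < δ ∧ ∀ x, D x y < δ → Tendsto (fun k => D (f^[k * q] x) y) atTop (𝓝 0)) →
    ∀ x, D x y < θ * ε → Tendsto (fun k => D (f^[k * q] x) y) atTop (𝓝 0)

end abstract

section rlog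

/-- regularised logarithm -/
noncomputable def rlog (p : ℕ) (s x : ℝ) : ℝ :=
  if x ≤ s then Real.log s - ∑ j ∈ Finset.range p, (1 - x / s) ^ (j + 1) / ((j : ℝ) + 1)
  else Real.log x

/-- its derivative -/
noncomputable def rlog1 (p : ℕ) (s x : ℝ) : ℝ :=
  if x ≤ s then (∑ j ∈ Finset.range p, (1 - x / s) ^ j) / s else 1 / x

/-- its second derivative -/
noncomputable def rlog2 (p : ℕ) (s x : ℝ) : ℝ :=
  if x ≤ s then -(∑ j ∈ Finset.range p, (j : ℝ) * (1 - x / s) ^ (j - 1)) / s ^ 2 else -1 / x ^ 2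

end rlog

section wirt

/-- Wirtinger derivatives of complex functions of two complex variables -/
noncomputable def wz (u : ℂ × ℂ → ℂ) (q : ℂ × ℂ) : ℂ :=
  (fderiv ℝ u q (1, 0) - Complex.I * fderiv ℝ u q (Complex.I, 0)) / 2
noncomputable def wzb (u : ℂ × ℂ → ℂ) (q : ℂ × ℂ) : ℂ :=
  (fderiv ℝ u q (1, 0) + Complex.I * fderiv ℝ u q (Complex.I, 0)) / 2
noncomputable def wt (u : ℂ × ℂ → ℂ) (q : ℂ × ℂ) : ℂ :=
  (fderiv ℝ u q (0, 1) - Complex.I * fderiv ℝ u q (0, Complex.I)) / 2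
noncomputable def wtb (u : ℂ × ℂ → ℂ) (q : ℂ × ℂ) : ℂ :=
  (fderiv ℝ u q (0, 1) + Complex.I * fderiv ℝ u q (0, Complex.I)) / 2

/-- the cut-off and its derivatives -/
noncomputable def K0 (x : ℝ) : ℝ := (max (1 - x) 0) ^ 3
noncomputable def K1 (x : ℝ) : ℝ := -3 * (max (1 - x) 0) ^ 2
noncomputable def K2 (x : ℝ) : ℝ := 6 * max (1 - x) 0

end wirt

section fields

variable {E : Type*} [NormedAddCommGroup E] [InnerProductSpace ℂ E]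

/-- the six fields of the integration by parts -/
noncomputable def v1 (w : ℂ × ℂ → E) (l1 : ℝ → ℝ) (c : ℂ) (q : ℂ × ℂ) : ℂ :=
  ((l1 (‖q.2 - c‖ ^ 2) * K0 (‖w q‖ ^ 2) * ‖dz w q‖ ^ 2 : ℝ) : ℂ) * (q.2 - c)
noncomputable def v2 (w : ℂ × ℂ → E) (l : ℝ → ℝ) (c : ℂ) (q : ℂ × ℂ) : ℂ :=
  ((l (‖q.2 - c‖ ^ 2) * K1 (‖w q‖ ^ 2) * ‖dz w q‖ ^ 2 : ℝ) : ℂ) * inner ℂ (w q) (dt w q)
noncomputable def v3 (w : ℂ × ℂ → E) (l1 : ℝ → ℝ) (c : ℂ) (q : ℂ × ℂ) : ℂ :=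
  ((l1 (‖q.2 - c‖ ^ 2) * K0 (‖w q‖ ^ 2) : ℝ) : ℂ) * (q.2 - c) * inner ℂ (dz w q) (dt w q)
noncomputable def v4 (w : ℂ × ℂ → E) (l : ℝ → ℝ) (c : ℂ) (q : ℂ × ℂ) : ℂ :=
  ((l (‖q.2 - c‖ ^ 2) * K1 (‖w q‖ ^ 2) : ℝ) : ℂ) * inner ℂ (w q) (dz w q) *
    inner ℂ (dz w q) (dt w q)
noncomputable def v5 (w : ℂ × ℂ → E) (l : ℝ → ℝ) (c : ℂ) (q : ℂ × ℂ) : ℂ :=
  ((l (‖q.2 - c‖ ^ 2) * K1 (‖w q‖ ^ 2) : ℝ) : ℂ) * inner ℂ (w q) (dt w q) *
    inner ℂ (dt w q) (dz w q)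
noncomputable def v6 (w : ℂ × ℂ → E) (l : ℝ → ℝ) (c : ℂ) (q : ℂ × ℂ) : ℂ :=
  ((l (‖q.2 - c‖ ^ 2) * K1 (‖w q‖ ^ 2) * ‖dt w q‖ ^ 2 : ℝ) : ℂ) * inner ℂ (w q) (dz w q)

end fields

end MFE
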