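import Pool.Agent.Lib.MFE.HProps

/-!
# Thin attracting sets: a holomorphic disc through a regular zero
-/

set_option autoImplicit false

open Set Metric Filter Topology

namespace MFE

theorem disc_aux (G : ℂ × ℂ → ℂ) (x0 : ℂ × ℂ) (hG : AnalyticAt ℂ G x0) (h0 : G x0 = 0)
    (l : ℂ × ℂ →L[ℂ] ℂ) (hinj : ∀ v, fderiv ℂ G x0 v = 0 → l v = 0 → v = 0) :
    ∃ g : ℂ → ℂ × ℂ, AnalyticAt ℂ g 0 ∧ g 0 = x0 ∧ (∀ᶠ z in 𝓝 (0 : ℂ), G (g z) = 0) ∧
      ¬ ∀ᶠ z in 𝓝 (0 : ℂ), g z = x0 := by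
  set A : ℂ × ℂ →L[ℂ] ℂ × ℂ := (fderiv ℂ G x0).prod l with hA
  have hAi : Function.Injective (A : ℂ × ℂ →ₗ[ℂ] ℂ × ℂ) := by
    rw [injective_iff_map_eq_zero]
    intro v hv
    have hv' : A v = 0 := hv
    rw [hA, ContinuousLinearMap.prod_apply, Prod.mk_eq_zero] at hv'
    exact hinj v hv'.1 hv'.2
  have hAs : Function.Surjective (A : ℂ × ℂ →ₗ[ℂ] ℂ × ℂ) :=
    LinearMap.injective_iff_surjective.1 hAi
  set e : (ℂ × ℂ) ≃L[ℂ] (ℂ × ℂ) := ContinuousLinearEquiv.ofBijective A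
    (LinearMap.ker_eq_bot.2 hAi) (LinearMap.range_eq_top.2 hAs) with he
  have heA : (e : ℂ × ℂ →L[ℂ] ℂ × ℂ) = A := by
    ext v <;> rfl
  set Φ : ℂ × ℂ → ℂ × ℂ := fun x => (G x, l x) with hΦ
  have hΦa : AnalyticAt ℂ Φ x0 := hG.prod (l.analyticAt x0)
  have hd : HasStrictFDerivAt Φ (e : ℂ × ℂ →L[ℂ] ℂ × ℂ) x0 := by
    rw [heA, hA]
    exact hG.hasStrictFDerivAt.prodMk l.hasStrictFDerivAt
  set f := hd.toOpenPartialHomeomorph Φ with hf
  have hfc : (f : ℂ × ℂ → ℂ × ℂ) = Φ := rfl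
  have hs : x0 ∈ f.source := hd.mem_toOpenPartialHomeomorph_source
  have hfa : AnalyticAt ℂ f.symm (f x0) :=
    f.analyticAt_symm' hs hΦa (by rw [hfc]; exact hd.hasFDerivAt.fderiv)
  have hf0 : f x0 = (0, l x0) := by
    rw [hfc, hΦ]
    simp only [h0]
  have hev : ∀ᶠ z in 𝓝 (0 : ℂ), ((0 : ℂ), l x0 + z) ∈ f.target := by
    have hc : ContinuousAt (fun z : ℂ => ((0 : ℂ), l x0 + z)) 0 := by fun_prop
    refine hc.eventually (f.open_target.mem_nhds ?_)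
    have := f.map_source hs
    rw [hf0] at this
    simpa using this
  have hev' : ∀ᶠ z in 𝓝 (0 : ℂ), Φ (f.symm ((0 : ℂ), l x0 + z)) = ((0 : ℂ), l x0 + z) := by
    filter_upwards [hev] with z hz
    exact f.right_inv hz
  refine ⟨fun z => f.symm ((0 : ℂ), l x0 + z), ?_, ?_, ?_, ?_⟩
  · have h1 : AnalyticAt ℂ (fun z : ℂ => ((0 : ℂ), l x0 + z)) 0 := by fun_prop
    refine AnalyticAt.comp' (g := f.symm) (f := fun z : ℂ => ((0 : ℂ), l x0 + z)) ?_ h1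
    rw [hf0] at hfa
    simpa using hfa
  · show f.symm ((0 : ℂ), l x0 + 0) = x0
    rw [add_zero, ← hf0]
    exact f.left_inv hs
  · filter_upwards [hev'] with z hz
    exact congrArg Prod.fst hz
  · intro hcon
    have h2 : ∀ᶠ z in 𝓝[≠] (0 : ℂ), z = 0 := by
      have h3 := (hcon.and hev').filter_mono (nhdsWithin_le_nhds (s := {0}ᶜ))
      filter_upwards [h3] with z hz
      have h4 : l (f.symm ((0 : ℂ), l x0 + z)) = l x0 + z := congrArg Prod.snd hz.2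
      have h5 : f.symm ((0 : ℂ), l x0 + z) = x0 := hz.1
      rw [h5] at h4
      simpa using h4.symm
    obtain ⟨z, hz, hz'⟩ := (h2.and self_mem_nhdsWithin).exists
    exact hz' hz

theorem disc : DiscStmt := by
  intro G x0 hG h0 hne
  by_cases h1 : fderiv ℂ G x0 (1, 0) = 0
  · have h2 : fderiv ℂ G x0 (0, 1) ≠ 0 := by
      intro h2
      refine hne ?_
      ext <;> simp [h1, h2]
    refine disc_aux G x0 hG h0 (ContinuousLinearMap.fst ℂ ℂ ℂ) fun v hv hl => ?_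
    obtain ⟨a, b⟩ := v
    have ha : a = 0 := hl
    subst ha
    have h3 : ((0 : ℂ), b) = b • ((0 : ℂ), (1 : ℂ)) := by simp
    rw [h3, map_smul, smul_eq_mul] at hv
    rcases mul_eq_zero.1 hv with h4 | h4
    · rw [h4]; rfl
    · exact absurd h4 h2
  · refine disc_aux G x0 hG h0 (ContinuousLinearMap.snd ℂ ℂ ℂ) fun v hv hl => ?_
    obtain ⟨a, b⟩ := v
    have hb : b = 0 := hl
    subst hb
    have h3 : (a, (0 : ℂ)) = a • ((1 : ℂ), (0 : ℂ)) := by simp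
    rw [h3, map_smul, smul_eq_mul] at hv
    rcases mul_eq_zero.1 hv with h4 | h4
    · rw [h4]; rfl
    · exact absurd h4 h1

end MFE
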