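import Pool.Agent.Lib.MFE.Defs

/-!
# R0: the regularised logarithm
-/

set_option autoImplicit false

open Set Metric Filter Topology

namespace MFE

lemma rlog_glue {u v u' v' : ℝ → ℝ} {s : ℝ} (hu : ∀ x, x ≤ s → HasDerivAt u (u' x) x)
    (hv : ∀ x, s ≤ x → HasDerivAt v (v' x) x) (h0 : u s = v s) (h1 : u' s = v' s) (x : ℝ) :
    HasDerivAt (fun x => if x ≤ s then u x else v x) (if x ≤ s then u' x else v' x) x := by
  rcases lt_trichotomy x s with h | h | h
  · rw [if_pos h.le]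
    refine (hu x h.le).congr_of_eventuallyEq ?_
    filter_upwards [Iio_mem_nhds h] with y hy
    rw [if_pos (le_of_lt hy)]
  · subst h
    rw [if_pos le_rfl]
    have hl : HasDerivWithinAt (fun y => if y ≤ x then u y else v y) (u' x) (Iic x) x := by
      refine (hu x le_rfl).hasDerivWithinAt.congr (fun y hy => ?_) ?_
      · exact if_pos hy
      · exact if_pos le_rfl
    have hr : HasDerivWithinAt (fun y => if y ≤ x then u y else v y) (u' x) (Ici x) x := by
      rw [h1]
      refine (hv x le_rfl).hasDerivWithinAt.congr (fun y hy => ?_) ?_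
      · by_cases hyx : y ≤ x
        · have : y = x := le_antisymm hyx hy
          subst this
          rw [if_pos le_rfl, h0]
        · exact if_neg hyx
      · rw [if_pos le_rfl, h0]
    have := hl.union hr
    rwa [Iic_union_Ici, hasDerivWithinAt_univ] at this
  · rw [if_neg (not_le.mpr h)]
    refine (hv x h.le).congr_of_eventuallyEq ?_
    filter_upwards [Ioi_mem_nhds h] with y hy
    rw [if_neg (not_le.mpr hy)]

lemma hasDerivAt_one_sub_div (s x : ℝ) : HasDerivAt (fun x : ℝ => 1 - x / s) (-(1 / s)) x := by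
  have := ((hasDerivAt_id x).div_const s).const_sub 1
  simpa using this

theorem rlog_hasDerivAt {p : ℕ} (hp : 1 ≤ p) {s : ℝ} (hs : 0 < s) (x : ℝ) :
    HasDerivAt (rlog p s) (rlog1 p s x) x := by
  have hu : ∀ x, x ≤ s → HasDerivAt
      (fun x : ℝ => Real.log s - ∑ j ∈ Finset.range p, (1 - x / s) ^ (j + 1) / ((j : ℝ) + 1))
      ((∑ j ∈ Finset.range p, (1 - x / s) ^ j) / s) x := by
    intro x _
    have h1 : HasDerivAt (fun x : ℝ => ∑ j ∈ Finset.range p, (1 - x / s) ^ (j + 1) / ((j : ℝ) + 1))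
        (∑ j ∈ Finset.range p, -((1 - x / s) ^ j / s)) x := by
      refine HasDerivAt.fun_sum fun j _ => ?_
      have h2 := ((hasDerivAt_one_sub_div s x).pow (j + 1)).div_const ((j : ℝ) + 1)
      refine h2.congr_deriv ?_
      have hj : (j : ℝ) + 1 ≠ 0 := by positivity
      push_cast
      field_simp
    have h3 := h1.const_sub (Real.log s)
    refine h3.congr_deriv ?_
    rw [Finset.sum_neg_distrib, neg_neg, Finset.sum_div]
  have hv : ∀ x, s ≤ x → HasDerivAt Real.log (1 / x) x := by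
    intro x hx
    rw [one_div]
    exact Real.hasDerivAt_log (by linarith)
  refine rlog_glue hu hv ?_ ?_ x
  · have : ∑ j ∈ Finset.range p, (1 - s / s) ^ (j + 1) / ((j : ℝ) + 1) = 0 := by
      refine Finset.sum_eq_zero fun j _ => ?_
      rw [div_self hs.ne', sub_self, zero_pow (Nat.succ_ne_zero j), zero_div]
    rw [this, sub_zero]
  · rw [div_self hs.ne', sub_self]
    obtain ⟨q, rfl⟩ : ∃ q, p = q + 1 := ⟨p - 1, by omega⟩
    rw [Finset.sum_range_succ']
    simp

theorem rlog1_hasDerivAt {p : ℕ} (hp : 2 ≤ p) {s : ℝ} (hs : 0 < s) (x : ℝ) :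
    HasDerivAt (rlog1 p s) (rlog2 p s x) x := by
  have hu : ∀ x, x ≤ s → HasDerivAt
      (fun x : ℝ => (∑ j ∈ Finset.range p, (1 - x / s) ^ j) / s)
      (-(∑ j ∈ Finset.range p, (j : ℝ) * (1 - x / s) ^ (j - 1)) / s ^ 2) x := by
    intro x _
    have h1 : HasDerivAt (fun x : ℝ => ∑ j ∈ Finset.range p, (1 - x / s) ^ j)
        (∑ j ∈ Finset.range p, (j : ℝ) * (1 - x / s) ^ (j - 1) * (-(1 / s))) x :=
      HasDerivAt.fun_sum fun j _ => (hasDerivAt_one_sub_div s x).pow j
    refine (h1.div_const s).congr_deriv ?_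
    rw [← Finset.sum_mul]
    field_simp
  have hv : ∀ x, s ≤ x → HasDerivAt (fun x : ℝ => 1 / x) (-1 / x ^ 2) x := by
    intro x hx
    have hx0 : x ≠ 0 := by linarith
    have := hasDerivAt_inv hx0
    simp only [one_div]
    refine this.congr_deriv ?_
    rw [neg_div, one_div]
  refine rlog_glue hu hv ?_ ?_ x
  · rw [div_self hs.ne', sub_self]
    obtain ⟨q, rfl⟩ : ∃ q, p = q + 1 := ⟨p - 1, by omega⟩
    rw [Finset.sum_range_succ']
    simp
  · rw [div_self hs.ne', sub_self]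
    obtain ⟨q, rfl⟩ : ∃ q, p = q + 2 := ⟨p - 2, by omega⟩
    rw [Finset.sum_range_succ', Finset.sum_range_succ']
    simp

theorem continuous_rlog2 {p : ℕ} (hp : 3 ≤ p) {s : ℝ} (hs : 0 < s) : Continuous (rlog2 p s) := by
  have h1 : Continuous fun x : ℝ =>
      -(∑ j ∈ Finset.range p, (j : ℝ) * (1 - x / s) ^ (j - 1)) / s ^ 2 := by fun_prop
  have h2 : ContinuousOn (fun x : ℝ => -1 / x ^ 2) (Ici s) := by
    refine ContinuousOn.div continuousOn_const (by fun_prop) fun x hx => ?_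
    have : 0 < x := lt_of_lt_of_le hs hx
    positivity
  refine continuous_if_le continuous_id continuous_const h1.continuousOn ?_ ?_
  · exact h2
  · intro x hx
    subst hx
    rw [div_self hs.ne', sub_self]
    obtain ⟨q, rfl⟩ : ∃ q, p = q + 2 := ⟨p - 2, by omega⟩
    rw [Finset.sum_range_succ', Finset.sum_range_succ']
    simp

lemma one_sub_div_nonneg {s x : ℝ} (hs : 0 < s) (h : x ≤ s) : 0 ≤ 1 - x / s := by
  have : x / s ≤ 1 := (div_le_one hs).mpr h
  linarith

lemma one_sub_div_nonpos {s x : ℝ} (hs : 0 < s) (h : s ≤ x) : 1 - x / s ≤ 0 := by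
  have : 1 ≤ x / s := (one_le_div hs).mpr h
  linarith

theorem mul_rlog1 {p : ℕ} (hp : 1 ≤ p) {s : ℝ} (hs : 0 < s) (x : ℝ) :
    x * rlog1 p s x = 1 - (max (1 - x / s) 0) ^ p := by
  unfold rlog1
  by_cases h : x ≤ s
  · rw [if_pos h, max_eq_left (one_sub_div_nonneg hs h)]
    have h1 := mul_neg_geom_sum (1 - x / s) p
    rw [← h1]
    have : 1 - (1 - x / s) = x / s := by ring
    rw [this]
    ring
  · rw [if_neg h, max_eq_right (one_sub_div_nonpos hs (le_of_not_ge h)), zero_pow (by omega)]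
    have : x ≠ 0 := by
      have := not_le.mp h
      linarith
    field_simp
    ring

lemma geom_aux (y : ℝ) (p : ℕ) (hp : 1 ≤ p) : ∑ j ∈ Finset.range p, y ^ j -
    (1 - y) * ∑ j ∈ Finset.range p, (j : ℝ) * y ^ (j - 1) = p * y ^ (p - 1) := by
  induction p, hp using Nat.le_induction with
  | base => simp
  | succ n hn ih =>
    rw [Finset.sum_range_succ, Finset.sum_range_succ]
    obtain ⟨q, rfl⟩ : ∃ q, n = q + 1 := ⟨n - 1, by omega⟩
    push_cast at ih ⊢
    have : ∑ x ∈ Finset.range (q + 1), y ^ x = ((q : ℝ) + 1) * y ^ q +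
      (1 - y) * ∑ j ∈ Finset.range (q + 1), (j : ℝ) * y ^ (j - 1) := by linarith
    rw [this]
    ring

theorem rlog1_add {p : ℕ} (hp : 2 ≤ p) {s : ℝ} (hs : 0 < s) (x : ℝ) :
    rlog1 p s x + x * rlog2 p s x = (p / s) * (max (1 - x / s) 0) ^ (p - 1) := by
  unfold rlog1 rlog2
  by_cases h : x ≤ s
  · rw [if_pos h, if_pos h, max_eq_left (one_sub_div_nonneg hs h)]
    have h1 := geom_aux (1 - x / s) p (by omega)
    have h2 : 1 - (1 - x / s) = x / s := by ring
    rw [h2] at h1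
    have h3 : (p / s) * (1 - x / s) ^ (p - 1) = (p * (1 - x / s) ^ (p - 1)) / s := by ring
    rw [h3, ← h1]
    have hs' := hs.ne'
    field_simp
    ring
  · rw [if_neg h, if_neg h, max_eq_right (one_sub_div_nonpos hs (le_of_not_ge h)),
      zero_pow (by omega)]
    have : x ≠ 0 := by
      have := not_le.mp h
      linarith
    field_simp
    ring

theorem rlog_of_le {p : ℕ} {s x : ℝ} (hs : 0 < s) (h : s ≤ x) : rlog p s x = Real.log x := by
  unfold rlog
  by_cases h' : x ≤ s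
  · have : x = s := le_antisymm h' h
    subst this
    rw [if_pos le_rfl]
    have : ∑ j ∈ Finset.range p, (1 - x / x) ^ (j + 1) / ((j : ℝ) + 1) = 0 := by
      refine Finset.sum_eq_zero fun j _ => ?_
      rw [div_self hs.ne', sub_self, zero_pow (Nat.succ_ne_zero j), zero_div]
    rw [this, sub_zero]
  · rw [if_neg h']

theorem abs_rlog_sub_le {s x : ℝ} (hs : 0 < s) (hx : 0 ≤ x) :
    |rlog 3 s x - rlog 3 (2 * s) x| ≤ Real.log 2 := by
  have h2s : 0 < 2 * s := by linarith
  set g : ℝ → ℝ := fun x => rlog 3 s x - rlog 3 (2 * s) x with hg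
  have hd : ∀ x, HasDerivAt g (rlog1 3 s x - rlog1 3 (2 * s) x) x := fun x =>
    (rlog_hasDerivAt (by norm_num) hs x).sub (rlog_hasDerivAt (by norm_num) h2s x)
  have hmono : MonotoneOn g (Ici 0) := by
    refine monotoneOn_of_deriv_nonneg (convex_Ici 0)
      (fun x _ => (hd x).continuousAt.continuousWithinAt)
      (fun x _ => (hd x).differentiableAt.differentiableWithinAt) fun x hx => ?_
    rw [interior_Ici] at hx
    have hx : 0 < x := hx
    rw [(hd x).deriv]
    have h1 := mul_rlog1 (p := 3) (by norm_num) hs x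
    have h2 := mul_rlog1 (p := 3) (by norm_num) h2s x
    have h3 : max (1 - x / s) 0 ≤ max (1 - x / (2 * s)) 0 := by
      refine max_le_max ?_ le_rfl
      have : x / (2 * s) ≤ x / s := div_le_div_of_nonneg_left hx.le hs (by linarith)
      linarith
    have h4 : max (1 - x / s) 0 ^ 3 ≤ max (1 - x / (2 * s)) 0 ^ 3 :=
      pow_le_pow_left₀ (le_max_right _ _) h3 3
    have h5 : 0 ≤ x * (rlog1 3 s x - rlog1 3 (2 * s) x) := by
      rw [mul_sub, h1, h2]; linarith
    exact nonneg_of_mul_nonneg_right h5 hx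
  have h0 : g 0 = -Real.log 2 := by
    simp only [hg, rlog, if_pos hs.le, if_pos h2s.le, zero_div, sub_zero]
    rw [Real.log_mul (by norm_num) hs.ne']
    ring
  have h2 : ∀ x, 2 * s ≤ x → g x = 0 := by
    intro x hx
    simp only [hg]
    rw [rlog_of_le hs (by linarith), rlog_of_le h2s hx, sub_self]
  have hlo : -Real.log 2 ≤ g x := by
    rw [← h0]
    exact hmono (mem_Ici.mpr le_rfl) (mem_Ici.mpr hx) hx
  have hhi : g x ≤ 0 := by
    rcases le_total x (2 * s) with h | h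
    · rw [← h2 (2 * s) le_rfl]
      exact hmono (mem_Ici.mpr hx) (mem_Ici.mpr h2s.le) h
    · rw [h2 x h]
  have hlog : 0 < Real.log 2 := Real.log_pos (by norm_num)
  exact abs_le.mpr ⟨hlo, by linarith⟩

lemma rlog2_aux {s u : ℝ} (hs : 0 < s) (hs1 : s ≤ 1) :
    s ^ 2 * (6 - 8 * (s * u) + 3 * (s * u) ^ 2) ≤ 6 - 8 * u + 3 * u ^ 2 := by
  have hb : 0 ≤ 3 * (1 + s + s ^ 2 + s ^ 3) * u ^ 2 - 8 * (1 + s + s ^ 2) * u + 6 * (1 + s) := by
    have ha : 0 < 12 * (1 + s + s ^ 2 + s ^ 3) := by positivity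
    have h1 : 12 * (1 + s + s ^ 2 + s ^ 3) *
        (3 * (1 + s + s ^ 2 + s ^ 3) * u ^ 2 - 8 * (1 + s + s ^ 2) * u + 6 * (1 + s)) =
        (6 * (1 + s + s ^ 2 + s ^ 3) * u - 8 * (1 + s + s ^ 2)) ^ 2 +
          8 * ((1 - s) ^ 2 * (1 + 4 * s + s ^ 2)) := by ring
    have h2 : 0 ≤ 12 * (1 + s + s ^ 2 + s ^ 3) *
        (3 * (1 + s + s ^ 2 + s ^ 3) * u ^ 2 - 8 * (1 + s + s ^ 2) * u + 6 * (1 + s)) := by
      rw [h1]; positivity
    exact nonneg_of_mul_nonneg_right h2 ha
  have h3 : 0 ≤ (1 - s) *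
      (3 * (1 + s + s ^ 2 + s ^ 3) * u ^ 2 - 8 * (1 + s + s ^ 2) * u + 6 * (1 + s)) :=
    mul_nonneg (by linarith) hb
  nlinarith [h3]

theorem rlog2_le {s x : ℝ} (hs : 0 < s) (hs1 : s ≤ 1) (hx : 0 ≤ x) :
    rlog2 4 s x ≤ rlog2 4 1 x := by
  have _ := hx
  have hsum : ∀ y : ℝ, ∑ j ∈ Finset.range 4, (j : ℝ) * y ^ (j - 1) = 1 + 2 * y + 3 * y ^ 2 := by
    intro y
    simp [Finset.sum_range_succ]
  unfold rlog2
  rcases le_or_gt x s with h | h
  · rw [if_pos h, if_pos (h.trans hs1), hsum, hsum]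
    have hkey := rlog2_aux (u := x / s) hs hs1
    have e1 : s * (x / s) = x := by field_simp
    rw [e1] at hkey
    rw [div_one, one_pow, div_one, neg_div, neg_le_neg_iff, le_div_iff₀ (by positivity)]
    nlinarith [hkey]
  · rw [if_neg (not_le.mpr h)]
    rcases le_or_gt x 1 with h' | h'
    · rw [if_pos h', hsum]
      have hx0 : 0 < x := hs.trans h
      have hkey := rlog2_aux (u := 1) hx0 h'
      rw [div_one, one_pow, div_one, neg_div, neg_le_neg_iff, le_div_iff₀ (by positivity)]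
      nlinarith [hkey]
    · rw [if_neg (not_le.mpr h')]

end MFE
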