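import Pool.Agent.Lib.MFE.Props
import Pool.Agent.Lib.MFE.Rlog

/-!
# R3: the estimate of Harnack type
-/

set_option autoImplicit false

open Set Metric Filter Topology MeasureTheory

namespace MFE

section har

variable {ρ b : ℝ} {c : ℂ} {a : ℂ → ℝ} {φ : ℝ → ℝ}

lemma har_cont (ha : ContinuousOn a (ball 0 ρ)) (hφ : Continuous φ) (hφ0 : ∀ x, b ≤ x → φ x = 0)
    (hc : ‖c‖ + Real.sqrt b < ρ) : Continuous fun t : ℂ => φ (‖t - c‖ ^ 2) * a t := by
  rw [continuous_iff_continuousAt]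
  intro t
  by_cases ht : t ∈ ball (0 : ℂ) ρ
  · have h1 : Continuous fun t : ℂ => φ (‖t - c‖ ^ 2) := by fun_prop
    exact h1.continuousAt.mul (ha.continuousAt (isOpen_ball.mem_nhds ht))
  · have h1 : Real.sqrt b < ‖t - c‖ := by
      have h2 : ρ ≤ ‖t‖ := by simpa using ht
      have h3 := norm_sub_norm_le t c
      linarith
    have h2 : ∀ᶠ y in 𝓝 t, Real.sqrt b < ‖y - c‖ :=
      (continuous_norm.comp (continuous_id.sub continuous_const)).continuousAt.eventually
        (lt_mem_nhds h1)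
    have h3 : ∀ᶠ y in 𝓝 t, φ (‖y - c‖ ^ 2) * a y = 0 := by
      filter_upwards [h2] with y hy
      rw [hφ0 _ (Real.lt_sq_of_sqrt_lt hy).le, zero_mul]
    refine ContinuousAt.congr (f := fun _ => (0 : ℝ)) continuousAt_const ?_
    filter_upwards [h3] with y hy
    exact hy.symm

lemma har_int (ha : ContinuousOn a (ball 0 ρ)) (hφ : Continuous φ) (hφ0 : ∀ x, b ≤ x → φ x = 0)
    (hc : ‖c‖ + Real.sqrt b < ρ) : Integrable fun t : ℂ => φ (‖t - c‖ ^ 2) * a t := by
  refine (har_cont ha hφ hφ0 hc).integrable_of_hasCompactSupport ?_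
  refine HasCompactSupport.intro (isCompact_closedBall c (Real.sqrt b)) fun t ht => ?_
  have h1 : Real.sqrt b < ‖t - c‖ := by
    simpa [mem_closedBall, dist_eq_norm] using ht
  show φ (‖t - c‖ ^ 2) * a t = 0
  rw [hφ0 _ (Real.lt_sq_of_sqrt_lt h1).le, zero_mul]

end har

lemma pp_hasDerivAt (b : ℝ) (n : ℕ) (x : ℝ) :
    HasDerivAt (fun x : ℝ => (max (b - x) 0) ^ (n + 2)) (-((n : ℝ) + 2) * (max (b - x) 0) ^ (n + 1)) x := by
  have e1 : (fun x : ℝ => (max (b - x) 0) ^ (n + 2)) =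
      fun x => if x ≤ b then (b - x) ^ (n + 2) else (fun _ : ℝ => (0 : ℝ)) x := by
    funext x
    by_cases h : x ≤ b
    · rw [if_pos h, max_eq_left (by linarith)]
    · rw [if_neg h, max_eq_right (by linarith), zero_pow (by omega)]
  have e2 : (-((n : ℝ) + 2) * (max (b - x) 0) ^ (n + 1)) =
      if x ≤ b then (fun x : ℝ => -((n : ℝ) + 2) * (b - x) ^ (n + 1)) x else (fun _ : ℝ => (0 : ℝ)) x := by
    by_cases h : x ≤ b
    · rw [if_pos h, max_eq_left (by linarith)]
    · rw [if_neg h, max_eq_right (by linarith), zero_pow (by omega), mul_zero]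
  rw [e1, e2]
  refine rlog_glue (u' := fun x : ℝ => -((n : ℝ) + 2) * (b - x) ^ (n + 1)) (v' := fun _ => 0)
    (fun x _ => ?_) (fun x _ => hasDerivAt_const x 0) ?_ ?_ x
  · have h1 : HasDerivAt (fun x : ℝ => b - x) (-1) x := by
      simpa using (hasDerivAt_id x).const_sub b
    refine (h1.pow (n + 2)).congr_deriv ?_
    push_cast
    ring_nf
  · simp
  · simp

theorem harnack : HarnackStmt := by
  intro ρ s0 t0 hρ hs0 ht0
  -- radii
  obtain ⟨ρ', hρ'⟩ : ∃ ρ', ρ' = (1 + ρ) / 2 := ⟨_, rfl⟩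
  obtain ⟨r1, hr1⟩ : ∃ r1, r1 = (1 + ρ') / 2 := ⟨_, rfl⟩
  have h1ρ' : 1 < ρ' := by linarith
  have hρ'ρ : ρ' < ρ := by linarith
  have h1r : 1 < r1 := by linarith
  have hrρ' : r1 < ρ' := by linarith
  obtain ⟨b, hb⟩ : ∃ b, b = ρ' ^ 2 := ⟨_, rfl⟩
  have hb0 : 0 < b := by rw [hb]; positivity
  have hsb : Real.sqrt b = ρ' := by rw [hb]; exact Real.sqrt_sq (by linarith)
  have hbr : 0 < b - r1 ^ 2 := by rw [hb]; nlinarith
  obtain ⟨n, hn⟩ := exists_nat_ge (2 * b / s0 ^ 2)
  have hn' : 2 * b ≤ ((n : ℝ) + 3) * s0 ^ 2 := by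
    have h1 : 2 * b ≤ (n : ℝ) * s0 ^ 2 := (div_le_iff₀ (by positivity)).mp hn
    nlinarith [sq_nonneg s0]
  -- the first test function
  obtain ⟨K1c, hK1⟩ : ∃ K1c : ℝ, K1c = ((n : ℝ) + 3) * b * (b - r1 ^ 2) ^ (n + 1) := ⟨_, rfl⟩
  have hK1p : 0 < K1c := by rw [hK1]; positivity
  obtain ⟨L, hL⟩ : ∃ L : ℝ, L = ∫ t : ℂ, |(max (b - ‖t - 0‖ ^ 2) 0) ^ (n + 3)| := ⟨_, rfl⟩
  have hL0 : 0 ≤ L := by rw [hL]; exact integral_nonneg fun _ => abs_nonneg _
  obtain ⟨s1, hs1⟩ : ∃ s1, s1 = (r1 - 1) ^ 2 / 2 := ⟨_, rfl⟩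
  have hs1p : 0 < s1 := by rw [hs1]; have : 0 < r1 - 1 := by linarith
                           positivity
  have hs1q : Real.sqrt (2 * s1) = r1 - 1 := by
    rw [hs1, show 2 * ((r1 - 1) ^ 2 / 2) = (r1 - 1) ^ 2 by ring]
    exact Real.sqrt_sq (by linarith)
  have hlog2 : 0 < Real.log 2 := Real.log_pos (by norm_num)
  refine ⟨2 * (8 / (3 * Real.pi)) * (3 / s1 * (L / K1c) + 2 * Real.pi * Real.log 2 * s1), by positivity, ?_⟩
  intro a ε hε hac ha0 haz hyp
  -- first step
  have hA : ∫ t in closedBall (0 : ℂ) r1, a t ≤ L / K1c * ε := by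
    have hint : IntegrableOn a (closedBall (0 : ℂ) r1) := by
      refine (hac.mono ?_).integrableOn_compact (isCompact_closedBall _ _)
      exact closedBall_subset_ball (by linarith)
    have h1 := hyp (fun x => (max (b - x) 0) ^ (n + 3)) (fun x => -((n : ℝ) + 3) * (max (b - x) 0) ^ (n + 2))
      (fun x => ((n : ℝ) + 3) * (((n : ℝ) + 2) * (max (b - x) 0) ^ (n + 1))) 0 b
      (fun x => by
        have := pp_hasDerivAt b (n + 1) x
        refine this.congr_deriv ?_
        push_cast; ring)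
      (fun x => by
        have := (pp_hasDerivAt b n x).const_mul (-((n : ℝ) + 3))
        refine this.congr_deriv ?_
        ring)
      (by fun_prop) hb0
      (fun x hx => by
        show (max (b - x) 0) ^ (n + 3) = 0
        rw [max_eq_right (by linarith), zero_pow (by omega)])
      (by rw [norm_zero, zero_add, hsb]; exact hρ'ρ)
    rw [← hL] at h1
    have hφc : Continuous fun x : ℝ => -((n : ℝ) + 3) * (max (b - x) 0) ^ (n + 2) +
        x * (((n : ℝ) + 3) * (((n : ℝ) + 2) * (max (b - x) 0) ^ (n + 1))) := by fun_prop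
    have hφ0 : ∀ x : ℝ, b ≤ x → -((n : ℝ) + 3) * (max (b - x) 0) ^ (n + 2) +
        x * (((n : ℝ) + 3) * (((n : ℝ) + 2) * (max (b - x) 0) ^ (n + 1))) = 0 := by
      intro x hx
      rw [max_eq_right (by linarith), zero_pow (by omega), zero_pow (by omega)]
      ring
    have hφl : ∀ x : ℝ, s0 ^ 2 ≤ x → x ≤ b →
        ((n : ℝ) + 3) * b * (b - x) ^ (n + 1) ≤ -((n : ℝ) + 3) * (max (b - x) 0) ^ (n + 2) +
        x * (((n : ℝ) + 3) * (((n : ℝ) + 2) * (max (b - x) 0) ^ (n + 1))) := by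
      intro x hx hxb
      rw [max_eq_left (by linarith)]
      have e : -((n : ℝ) + 3) * (b - x) ^ (n + 2) + x * (((n : ℝ) + 3) * (((n : ℝ) + 2) * (b - x) ^ (n + 1))) =
          ((n : ℝ) + 3) * (b - x) ^ (n + 1) * (((n : ℝ) + 3) * x - b) := by ring
      rw [e]
      have h2 : b ≤ ((n : ℝ) + 3) * x - b := by
        have : ((n : ℝ) + 3) * s0 ^ 2 ≤ ((n : ℝ) + 3) * x := mul_le_mul_of_nonneg_left hx (by positivity)
        linarith
      have h3 : 0 ≤ ((n : ℝ) + 3) * (b - x) ^ (n + 1) :=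
        mul_nonneg (by positivity) (pow_nonneg (by linarith) _)
      calc ((n : ℝ) + 3) * b * (b - x) ^ (n + 1) = ((n : ℝ) + 3) * (b - x) ^ (n + 1) * b := by ring
        _ ≤ _ := mul_le_mul_of_nonneg_left h2 h3
    have hI := har_int hac hφc hφ0 (c := 0) (by rw [norm_zero, zero_add, hsb]; exact hρ'ρ)
    have h2 : K1c * ∫ t in closedBall (0 : ℂ) r1, a t ≤
        ∫ t : ℂ, (-((n : ℝ) + 3) * (max (b - ‖t - 0‖ ^ 2) 0) ^ (n + 2) +
          ‖t - 0‖ ^ 2 * (((n : ℝ) + 3) * (((n : ℝ) + 2) * (max (b - ‖t - 0‖ ^ 2) 0) ^ (n + 1)))) * a t := by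
      rw [← integral_const_mul, ← integral_indicator isClosed_closedBall.measurableSet]
      refine integral_mono ?_ hI fun t => ?_
      · exact (show IntegrableOn (fun x => K1c * a x) (closedBall 0 r1) volume from
          hint.const_mul K1c).integrable_indicator isClosed_closedBall.measurableSet
      · simp only [sub_zero]
        by_cases hts : ‖t‖ ≤ s0
        · have : a t = 0 := haz t hts
          by_cases h : t ∈ closedBall (0 : ℂ) r1
          · rw [indicator_of_mem h, this]; simp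
          · rw [indicator_of_notMem h, this]; simp
        · push Not at hts
          have hx : s0 ^ 2 ≤ ‖t‖ ^ 2 := pow_le_pow_left₀ hs0.le hts.le 2
          by_cases h : t ∈ closedBall (0 : ℂ) r1
          · rw [indicator_of_mem h]
            have htr : ‖t‖ ≤ r1 := by simpa using h
            have hat : 0 ≤ a t := ha0 t (by rw [mem_ball_zero_iff]; linarith)
            refine mul_le_mul_of_nonneg_right ?_ hat
            have htr2 : ‖t‖ ^ 2 ≤ r1 ^ 2 := pow_le_pow_left₀ (norm_nonneg _) htr 2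
            refine le_trans ?_ (hφl (‖t‖ ^ 2) hx (by linarith))
            rw [hK1]
            refine mul_le_mul_of_nonneg_left ?_ (by positivity)
            exact pow_le_pow_left₀ hbr.le (by linarith) _
          · rw [indicator_of_notMem h]
            rcases le_total b (‖t‖ ^ 2) with hbt | hbt
            · rw [hφ0 _ hbt, zero_mul]
            · have htρ : ‖t‖ < ρ := by
                have : ‖t‖ ≤ ρ' := by
                  rw [hb] at hbt
                  exact le_of_pow_le_pow_left₀ two_ne_zero (by linarith) hbt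
                linarith
              have hat : 0 ≤ a t := ha0 t (by rw [mem_ball_zero_iff]; exact htρ)
              refine mul_nonneg (le_trans ?_ (hφl (‖t‖ ^ 2) hx hbt)) hat
              have : 0 ≤ b - ‖t‖ ^ 2 := by linarith
              positivity
    have h3 : K1c * ∫ t in closedBall (0 : ℂ) r1, a t ≤ ε * L := h2.trans ((le_abs_self _).trans h1)
    rw [div_mul_eq_mul_div, le_div_iff₀ hK1p]
    linarith
  -- second step
  obtain ⟨bs, hbs⟩ : ∃ bs : ℝ → ℝ → ℝ, bs = fun s x => (3 / s) * (max (1 - x / s) 0) ^ 2 := ⟨_, rfl⟩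
  have hbsc : ∀ s, Continuous (bs s) := fun s => by rw [hbs]; fun_prop
  have hbs0 : ∀ s x, 0 < s → s ≤ x → bs s x = 0 := by
    intro s x hs hx
    rw [hbs]
    show (3 / s) * (max (1 - x / s) 0) ^ 2 = 0
    rw [max_eq_right (one_sub_div_nonpos hs hx)]
    ring
  have hbsnn : ∀ s x, 0 < s → 0 ≤ bs s x := by
    intro s x hs
    rw [hbs]
    show 0 ≤ (3 / s) * (max (1 - x / s) 0) ^ 2
    positivity
  have hsq : ∀ s, s ≤ 2 * s1 → ‖t0‖ + Real.sqrt s ≤ r1 := by
    intro s hss
    have := Real.sqrt_le_sqrt hss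
    rw [hs1q] at this
    linarith
  have hbsint : ∀ s, 0 < s → s ≤ 2 * s1 → Integrable fun t : ℂ => bs s (‖t - t0‖ ^ 2) * a t := by
    intro s hs hss
    exact har_int hac (hbsc s) (fun x hx => hbs0 s x hs hx) (by have := hsq s hss; linarith)
  have hin : ∀ s, 0 < s → s ≤ 2 * s1 → ∀ t : ℂ, ‖t - t0‖ ^ 2 ≤ s → ‖t‖ ≤ r1 := by
    intro s hs hss t ht
    have h1 : ‖t - t0‖ ≤ Real.sqrt s := Real.le_sqrt_of_sq_le ht
    have h2 : ‖t‖ ≤ ‖t - t0‖ + ‖t0‖ := by
      calc ‖t‖ = ‖(t - t0) + t0‖ := by rw [sub_add_cancel]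
        _ ≤ _ := norm_add_le _ _
    have := hsq s hss
    linarith
  have hat : ∀ t : ℂ, ‖t‖ ≤ r1 → 0 ≤ a t := fun t ht =>
    ha0 t (by rw [mem_ball_zero_iff]; linarith)
  have hvol : ∀ (c : ℂ) (x : ℝ), 0 ≤ x → volume.real (closedBall c (Real.sqrt x)) = Real.pi * x := by
    intro c x hx
    rw [Measure.real, Complex.volume_closedBall, ENNReal.toReal_mul, ENNReal.toReal_pow,
      ENNReal.toReal_ofReal (Real.sqrt_nonneg x), Real.sq_sqrt hx, mul_comm]
    rfl
  have hstep : ∀ s, 0 < s → s ≤ s1 →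
      ∫ t : ℂ, bs s (‖t - t0‖ ^ 2) * a t ≤ (∫ t : ℂ, bs (2 * s) (‖t - t0‖ ^ 2) * a t) +
        ε * (Real.log 2 * (Real.pi * (2 * s))) := by
    intro s hs hss
    have h2s : 0 < 2 * s := by linarith
    have h1 := hyp (fun x => rlog 3 s x - rlog 3 (2 * s) x)
      (fun x => rlog1 3 s x - rlog1 3 (2 * s) x) (fun x => rlog2 3 s x - rlog2 3 (2 * s) x) t0 (2 * s)
      (fun x => (rlog_hasDerivAt (by norm_num) hs x).sub (rlog_hasDerivAt (by norm_num) h2s x))
      (fun x => (rlog1_hasDerivAt (by norm_num) hs x).sub (rlog1_hasDerivAt (by norm_num) h2s x))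
      ((continuous_rlog2 le_rfl hs).sub (continuous_rlog2 le_rfl h2s)) h2s
      (fun x hx => by
        show rlog 3 s x - rlog 3 (2 * s) x = 0
        rw [rlog_of_le hs (by linarith), rlog_of_le h2s hx, sub_self])
      (by have := hsq (2 * s) (by linarith); linarith)
    have e1 : (fun t : ℂ => (rlog1 3 s (‖t - t0‖ ^ 2) - rlog1 3 (2 * s) (‖t - t0‖ ^ 2) + ‖t - t0‖ ^ 2 *
        (rlog2 3 s (‖t - t0‖ ^ 2) - rlog2 3 (2 * s) (‖t - t0‖ ^ 2))) * a t) =
        fun t => bs s (‖t - t0‖ ^ 2) * a t - bs (2 * s) (‖t - t0‖ ^ 2) * a t := by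
      funext t
      have h2 := rlog1_add (p := 3) (by norm_num) hs (‖t - t0‖ ^ 2)
      have h3 := rlog1_add (p := 3) (by norm_num) h2s (‖t - t0‖ ^ 2)
      have e2 : bs s (‖t - t0‖ ^ 2) = rlog1 3 s (‖t - t0‖ ^ 2) + ‖t - t0‖ ^ 2 * rlog2 3 s (‖t - t0‖ ^ 2) := by
        rw [h2, hbs]; norm_num
      have e3 : bs (2 * s) (‖t - t0‖ ^ 2) =
          rlog1 3 (2 * s) (‖t - t0‖ ^ 2) + ‖t - t0‖ ^ 2 * rlog2 3 (2 * s) (‖t - t0‖ ^ 2) := by
        rw [h3, hbs]; norm_num
      rw [e2, e3]
      ring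
    have h4 : ∫ t : ℂ, |rlog 3 s (‖t - t0‖ ^ 2) - rlog 3 (2 * s) (‖t - t0‖ ^ 2)| ≤
        Real.log 2 * (Real.pi * (2 * s)) := by
      have hm : MeasurableSet (closedBall t0 (Real.sqrt (2 * s))) := isClosed_closedBall.measurableSet
      have hci : IntegrableOn (fun _ : ℂ => Real.log 2) (closedBall t0 (Real.sqrt (2 * s))) :=
        continuous_const.continuousOn.integrableOn_compact (isCompact_closedBall _ _)
      calc ∫ t : ℂ, |rlog 3 s (‖t - t0‖ ^ 2) - rlog 3 (2 * s) (‖t - t0‖ ^ 2)|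
          ≤ ∫ t : ℂ, (closedBall t0 (Real.sqrt (2 * s))).indicator (fun _ => Real.log 2) t := by
            refine integral_mono_of_nonneg (Eventually.of_forall fun _ => abs_nonneg _)
              (hci.integrable_indicator hm) (Eventually.of_forall fun t => ?_)
            by_cases h : t ∈ closedBall t0 (Real.sqrt (2 * s))
            · rw [indicator_of_mem h]
              exact abs_rlog_sub_le hs (sq_nonneg _)
            · rw [indicator_of_notMem h]
              have h5 : Real.sqrt (2 * s) < ‖t - t0‖ := by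
                simpa [mem_closedBall, dist_eq_norm] using h
              have h6 : 2 * s ≤ ‖t - t0‖ ^ 2 := (Real.lt_sq_of_sqrt_lt h5).le
              show |rlog 3 s (‖t - t0‖ ^ 2) - rlog 3 (2 * s) (‖t - t0‖ ^ 2)| ≤ 0
              rw [rlog_of_le hs (by linarith), rlog_of_le h2s h6, sub_self, abs_zero]
        _ = Real.log 2 * (Real.pi * (2 * s)) := by
            rw [integral_indicator hm, setIntegral_const, hvol t0 (2 * s) h2s.le, smul_eq_mul]
            ring
    have h5 : ∫ t : ℂ, (bs s (‖t - t0‖ ^ 2) * a t - bs (2 * s) (‖t - t0‖ ^ 2) * a t) ≤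
        ε * (Real.log 2 * (Real.pi * (2 * s))) := by
      rw [← e1]
      exact ((le_abs_self _).trans h1).trans (mul_le_mul_of_nonneg_left h4 hε)
    rw [integral_sub (hbsint s hs (by linarith)) (hbsint (2 * s) h2s (by linarith))] at h5
    linarith
  have hind : ∀ i : ℕ, ∫ t : ℂ, bs (s1 / 2 ^ i) (‖t - t0‖ ^ 2) * a t ≤
      (∫ t : ℂ, bs s1 (‖t - t0‖ ^ 2) * a t) + ε * (2 * Real.pi * Real.log 2 * s1) * (1 - (1 / 2) ^ i) := by
    intro i
    induction i with
    | zero => simp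
    | succ i ih =>
      have hpos : 0 < s1 / 2 ^ (i + 1) := by positivity
      have hle : s1 / 2 ^ (i + 1) ≤ s1 := div_le_self hs1p.le (one_le_pow₀ (by norm_num))
      have h1 := hstep (s1 / 2 ^ (i + 1)) hpos hle
      have e2 : 2 * (s1 / 2 ^ (i + 1)) = s1 / 2 ^ i := by
        rw [pow_succ]; field_simp
      rw [e2] at h1
      have e3 : s1 / 2 ^ i = 2 * s1 * (1 / 2) ^ (i + 1) := by
        rw [pow_succ, one_div, inv_pow]; field_simp
      have e4 : ε * (Real.log 2 * (Real.pi * (s1 / 2 ^ i))) =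
          ε * (2 * Real.pi * Real.log 2 * s1) * (1 / 2) ^ (i + 1) := by
        rw [e3]; ring
      rw [e4] at h1
      have e5 : (1 : ℝ) - (1 / 2) ^ (i + 1) = (1 - (1 / 2) ^ i) + (1 / 2) ^ (i + 1) := by
        rw [pow_succ]; ring
      rw [e5, mul_add]
      linarith
  have hI1 : ∫ t : ℂ, bs s1 (‖t - t0‖ ^ 2) * a t ≤ 3 / s1 * (L / K1c) * ε := by
    have hm : MeasurableSet (closedBall (0 : ℂ) r1) := isClosed_closedBall.measurableSet
    have hint : IntegrableOn a (closedBall (0 : ℂ) r1) := by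
      refine (hac.mono ?_).integrableOn_compact (isCompact_closedBall _ _)
      exact closedBall_subset_ball (by linarith)
    have h1 : ∫ t : ℂ, bs s1 (‖t - t0‖ ^ 2) * a t ≤
        ∫ t : ℂ, (closedBall (0 : ℂ) r1).indicator (fun t => 3 / s1 * a t) t := by
      refine integral_mono (hbsint s1 hs1p (by linarith)) ?_ fun t => ?_
      · exact (show IntegrableOn (fun x => 3 / s1 * a x) (closedBall 0 r1) volume from
          hint.const_mul (3 / s1)).integrable_indicator hm
      · show bs s1 (‖t - t0‖ ^ 2) * a t ≤ _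
        rcases le_total s1 (‖t - t0‖ ^ 2) with h | h
        · rw [hbs0 s1 _ hs1p h, zero_mul]
          refine indicator_nonneg (fun t ht => ?_) t
          exact mul_nonneg (by positivity) (hat t (by simpa using ht))
        · have htr : ‖t‖ ≤ r1 := hin s1 hs1p (by linarith) t h
          rw [indicator_of_mem (by simpa using htr)]
          refine mul_le_mul_of_nonneg_right ?_ (hat t htr)
          rw [hbs]
          show 3 / s1 * (max (1 - ‖t - t0‖ ^ 2 / s1) 0) ^ 2 ≤ 3 / s1
          have h2 : max (1 - ‖t - t0‖ ^ 2 / s1) 0 ≤ 1 := by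
            refine max_le ?_ zero_le_one
            have : 0 ≤ ‖t - t0‖ ^ 2 / s1 := by positivity
            linarith
          have h3 : (max (1 - ‖t - t0‖ ^ 2 / s1) 0) ^ 2 ≤ 1 := pow_le_one₀ (le_max_right _ _) h2
          exact mul_le_of_le_one_right (by positivity) h3
    rw [integral_indicator hm, integral_const_mul] at h1
    refine h1.trans ?_
    calc 3 / s1 * ∫ t in closedBall (0 : ℂ) r1, a t ≤ 3 / s1 * (L / K1c * ε) :=
          mul_le_mul_of_nonneg_left hA (by positivity)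
      _ = _ := by ring
  -- third step
  have hM0 : 0 ≤ 3 / s1 * (L / K1c) + 2 * Real.pi * Real.log 2 * s1 := by positivity
  rcases le_or_gt (a t0) 0 with hneg | hpos
  · exact hneg.trans (by positivity)
  have ht0ρ : t0 ∈ ball (0 : ℂ) ρ := by rw [mem_ball_zero_iff]; linarith
  have hcont : ContinuousAt a t0 := hac.continuousAt (isOpen_ball.mem_nhds ht0ρ)
  have hev : ∀ᶠ t in 𝓝 t0, a t0 / 2 < a t := hcont.eventually (lt_mem_nhds (by linarith))
  obtain ⟨η, hη, hηb⟩ := Metric.eventually_nhds_iff.mp hev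
  obtain ⟨i, hi⟩ : ∃ i : ℕ, s1 / 2 ^ i < η ^ 2 := by
    obtain ⟨i, hi⟩ := exists_pow_lt_of_lt_one (y := (1 / 2 : ℝ)) (div_pos (pow_pos hη 2) hs1p) (by norm_num)
    refine ⟨i, ?_⟩
    rw [lt_div_iff₀ hs1p] at hi
    calc s1 / 2 ^ i = (1 / 2) ^ i * s1 := by rw [one_div, inv_pow]; field_simp
      _ < η ^ 2 := hi
  obtain ⟨s, hs⟩ : ∃ s, s = s1 / 2 ^ i := ⟨_, rfl⟩
  have hsp : 0 < s := by rw [hs]; positivity
  have hss : s ≤ s1 := by rw [hs]; exact div_le_self hs1p.le (one_le_pow₀ (by norm_num))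
  have hlow : 3 * Real.pi * a t0 / 16 ≤ ∫ t : ℂ, bs s (‖t - t0‖ ^ 2) * a t := by
    have hm : MeasurableSet (closedBall t0 (Real.sqrt (s / 2))) := isClosed_closedBall.measurableSet
    have hci : IntegrableOn (fun _ : ℂ => 3 / (4 * s) * (a t0 / 2)) (closedBall t0 (Real.sqrt (s / 2))) :=
      continuous_const.continuousOn.integrableOn_compact (isCompact_closedBall _ _)
    calc 3 * Real.pi * a t0 / 16
        = ∫ t : ℂ, (closedBall t0 (Real.sqrt (s / 2))).indicator (fun _ => 3 / (4 * s) * (a t0 / 2)) t := by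
          rw [integral_indicator hm, setIntegral_const, hvol t0 (s / 2) (by linarith), smul_eq_mul]
          field_simp
          ring
      _ ≤ ∫ t : ℂ, bs s (‖t - t0‖ ^ 2) * a t := by
          refine integral_mono (hci.integrable_indicator hm) (hbsint s hsp (by linarith)) fun t => ?_
          show _ ≤ bs s (‖t - t0‖ ^ 2) * a t
          by_cases h : t ∈ closedBall t0 (Real.sqrt (s / 2))
          · rw [indicator_of_mem h]
            have h1 : ‖t - t0‖ ≤ Real.sqrt (s / 2) := by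
              simpa [mem_closedBall, dist_eq_norm] using h
            have h2 : ‖t - t0‖ ^ 2 ≤ s / 2 := by
              calc ‖t - t0‖ ^ 2 ≤ (Real.sqrt (s / 2)) ^ 2 := pow_le_pow_left₀ (norm_nonneg _) h1 2
                _ = s / 2 := Real.sq_sqrt (by linarith)
            have h3 : dist t t0 < η := by
              rw [dist_eq_norm]
              refine lt_of_pow_lt_pow_left₀ 2 hη.le ?_
              linarith
            have h4 := (hηb h3).le
            refine mul_le_mul ?_ h4 (by linarith) (hbsnn s _ hsp)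
            rw [hbs]
            show 3 / (4 * s) ≤ 3 / s * (max (1 - ‖t - t0‖ ^ 2 / s) 0) ^ 2
            have h5 : (1 : ℝ) / 2 ≤ max (1 - ‖t - t0‖ ^ 2 / s) 0 := by
              refine le_max_of_le_left ?_
              have : ‖t - t0‖ ^ 2 / s ≤ 1 / 2 := by
                rw [div_le_iff₀ hsp]; linarith
              linarith
            have h6 : (1 : ℝ) / 4 ≤ (max (1 - ‖t - t0‖ ^ 2 / s) 0) ^ 2 := by
              calc (1 : ℝ) / 4 = (1 / 2) ^ 2 := by norm_num
                _ ≤ _ := pow_le_pow_left₀ (by norm_num) h5 2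
            calc 3 / (4 * s) = 3 / s * (1 / 4) := by field_simp
              _ ≤ _ := mul_le_mul_of_nonneg_left h6 (by positivity)
          · rw [indicator_of_notMem h]
            rcases le_total s (‖t - t0‖ ^ 2) with h1 | h1
            · rw [hbs0 s _ hsp h1, zero_mul]
            · exact mul_nonneg (hbsnn s _ hsp) (hat t (hin s hsp (by linarith) t h1))
  have hup := hind i
  rw [← hs] at hup
  have hle1 : (1 : ℝ) - (1 / 2) ^ i ≤ 1 := by
    have : (0 : ℝ) ≤ (1 / 2) ^ i := by positivity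
    linarith
  have hup2 : ε * (2 * Real.pi * Real.log 2 * s1) * (1 - (1 / 2) ^ i) ≤
      ε * (2 * Real.pi * Real.log 2 * s1) := mul_le_of_le_one_right (by positivity) hle1
  have hfin : 3 * Real.pi * a t0 / 16 ≤ (3 / s1 * (L / K1c) + 2 * Real.pi * Real.log 2 * s1) * ε := by
    calc 3 * Real.pi * a t0 / 16 ≤ 3 / s1 * (L / K1c) * ε + ε * (2 * Real.pi * Real.log 2 * s1) := by
          linarith
      _ = _ := by ring
  have hpi := Real.pi_pos
  calc a t0 = 2 * (8 / (3 * Real.pi)) * (3 * Real.pi * a t0 / 16) := by field_simp; ring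
    _ ≤ 2 * (8 / (3 * Real.pi)) * ((3 / s1 * (L / K1c) + 2 * Real.pi * Real.log 2 * s1) * ε) :=
        mul_le_mul_of_nonneg_left hfin (by positivity)
    _ = _ := by ring

end MFE
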