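import Pool.Agent.Lib.MFE.Defs

/-!
# Row R2a: integrals of derivatives, extension by zero
-/

set_option autoImplicit false

open Set Metric Filter Topology MeasureTheory

namespace MFE

section ext

variable {V F : Type*} [NormedAddCommGroup V] [NormedSpace ℝ V] [NormedAddCommGroup F]
  [NormedSpace ℝ F]

/-- the integral of a derivative of a compactly supported function vanishes -/
theorem integral_fderiv_zero [MeasurableSpace V] [BorelSpace V] [FiniteDimensional ℝ V]
    (μ : Measure V) [μ.IsAddHaarMeasure] {u : V → ℂ} (hu : ContDiff ℝ 1 u)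
    (hc : HasCompactSupport u) (v : V) : ∫ x, fderiv ℝ u x v ∂μ = 0 := by
  have hd : Differentiable ℝ u := hu.differentiable (by simp)
  have hcont : Continuous (fun x => fderiv ℝ u x v) :=
    (hu.continuous_fderiv (by simp)).clm_apply continuous_const
  have hcs : HasCompactSupport (fun x => fderiv ℝ u x v) := (hc.fderiv (𝕜 := ℝ)).mono' (by
    intro x hx
    have h1 : fderiv ℝ u x ≠ 0 := by
      intro h
      apply hx
      simp [h]
    exact subset_tsupport _ h1)
  have h := integral_mul_fderiv_eq_neg_fderiv_mul_of_integrable (𝕜 := ℂ) (μ := μ)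
    (f := fun _ : V => (1 : ℂ)) (g := u) (v := v) (by simp) (by
      simpa using hcont.integrable_of_hasCompactSupport hcs) (by
      simpa using hu.continuous.integrable_of_hasCompactSupport hc)
    (fun x _ => differentiableAt_const _) (fun x _ => hd x)
  simpa using h

/-- extension by zero of a function supported in a compact subset of an open set -/
theorem contDiff_indicator {n : WithTop ℕ∞} {Ω K : Set V} (hΩ : IsOpen Ω) (hK : IsCompact K)
    (hKΩ : K ⊆ Ω) {u : V → F} (hu : ContDiffOn ℝ n u Ω) (h0 : ∀ x ∈ Ω, x ∉ K → u x = 0) :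
    ContDiff ℝ n (Ω.indicator u) := by
  classical
  rw [contDiff_iff_contDiffAt]
  intro x
  by_cases hx : x ∈ Ω
  · have h1 : Ω.indicator u =ᶠ[𝓝 x] u := by
      filter_upwards [hΩ.mem_nhds hx] with y hy
      simp [hy]
    exact ((hu x hx).contDiffAt (hΩ.mem_nhds hx)).congr_of_eventuallyEq h1
  · have hxK : x ∉ K := fun h => hx (hKΩ h)
    have h1 : Ω.indicator u =ᶠ[𝓝 x] fun _ => 0 := by
      filter_upwards [hK.isClosed.isOpen_compl.mem_nhds hxK] with y hy
      by_cases hyΩ : y ∈ Ω
      · simp [hyΩ, h0 y hyΩ hy]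
      · simp [hyΩ]
    exact contDiffAt_const.congr_of_eventuallyEq h1

omit [NormedSpace ℝ V] [NormedSpace ℝ F] in
theorem hasCompactSupport_indicator {Ω K : Set V} (hK : IsCompact K)
    {u : V → F} (h0 : ∀ x ∈ Ω, x ∉ K → u x = 0) :
    HasCompactSupport (Ω.indicator u) := by
  classical
  refine HasCompactSupport.intro hK ?_
  intro x hx
  by_cases hxΩ : x ∈ Ω
  · simp [hxΩ, h0 x hxΩ hx]
  · simp [hxΩ]

theorem fderiv_indicator {Ω : Set V} (hΩ : IsOpen Ω) {u : V → F} {x : V} (hx : x ∈ Ω) :
    fderiv ℝ (Ω.indicator u) x = fderiv ℝ u x := by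
  have h1 : Ω.indicator u =ᶠ[𝓝 x] u := by
    filter_upwards [hΩ.mem_nhds hx] with y hy
    simp [hy]
  exact h1.fderiv_eq

theorem fderiv_indicator_of_notMem {Ω K : Set V} (hK : IsCompact K)
    {u : V → F} (h0 : ∀ x ∈ Ω, x ∉ K → u x = 0) {x : V} (hx : x ∉ K) :
    fderiv ℝ (Ω.indicator u) x = 0 := by
  classical
  have h1 : Ω.indicator u =ᶠ[𝓝 x] fun _ => 0 := by
    filter_upwards [hK.isClosed.isOpen_compl.mem_nhds hx] with y hy
    by_cases hyΩ : y ∈ Ω
    · simp [hyΩ, h0 y hyΩ hy]
    · simp [hyΩ]
  rw [h1.fderiv_eq]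
  simp

end ext

section two

variable {u : ℂ × ℂ → ℂ}

instance isAddHaar_prod : (volume : Measure (ℂ × ℂ)).IsAddHaarMeasure := by
  rw [Measure.volume_eq_prod]
  infer_instance

theorem integrable_fderiv_apply (hu : ContDiff ℝ 1 u) (hc : HasCompactSupport u) (v : ℂ × ℂ) :
    Integrable (fun x => fderiv ℝ u x v) := by
  have hcont : Continuous (fun x => fderiv ℝ u x v) :=
    (hu.continuous_fderiv (by simp)).clm_apply continuous_const
  refine hcont.integrable_of_hasCompactSupport ((hc.fderiv (𝕜 := ℝ)).mono' ?_)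
  intro x hx
  have h1 : fderiv ℝ u x ≠ 0 := by
    intro h
    apply hx
    simp [h]
  exact subset_tsupport _ h1

theorem integrable_wz (hu : ContDiff ℝ 1 u) (hc : HasCompactSupport u) : Integrable (wz u) :=
  ((integrable_fderiv_apply hu hc _).sub ((integrable_fderiv_apply hu hc _).const_mul _)).div_const _
theorem integrable_wzb (hu : ContDiff ℝ 1 u) (hc : HasCompactSupport u) : Integrable (wzb u) :=
  ((integrable_fderiv_apply hu hc _).add ((integrable_fderiv_apply hu hc _).const_mul _)).div_const _
theorem integrable_wt (hu : ContDiff ℝ 1 u) (hc : HasCompactSupport u) : Integrable (wt u) :=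
  ((integrable_fderiv_apply hu hc _).sub ((integrable_fderiv_apply hu hc _).const_mul _)).div_const _
theorem integrable_wtb (hu : ContDiff ℝ 1 u) (hc : HasCompactSupport u) : Integrable (wtb u) :=
  ((integrable_fderiv_apply hu hc _).add ((integrable_fderiv_apply hu hc _).const_mul _)).div_const _

theorem integral_wz (hu : ContDiff ℝ 1 u) (hc : HasCompactSupport u) : ∫ q, wz u q = 0 := by
  unfold wz
  rw [integral_div, integral_sub (integrable_fderiv_apply hu hc _)
    ((integrable_fderiv_apply hu hc _).const_mul _), integral_const_mul,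
    integral_fderiv_zero _ hu hc, integral_fderiv_zero _ hu hc]
  simp
theorem integral_wzb (hu : ContDiff ℝ 1 u) (hc : HasCompactSupport u) : ∫ q, wzb u q = 0 := by
  unfold wzb
  rw [integral_div, integral_add (integrable_fderiv_apply hu hc _)
    ((integrable_fderiv_apply hu hc _).const_mul _), integral_const_mul,
    integral_fderiv_zero _ hu hc, integral_fderiv_zero _ hu hc]
  simp
theorem integral_wt (hu : ContDiff ℝ 1 u) (hc : HasCompactSupport u) : ∫ q, wt u q = 0 := by
  unfold wt
  rw [integral_div, integral_sub (integrable_fderiv_apply hu hc _)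
    ((integrable_fderiv_apply hu hc _).const_mul _), integral_const_mul,
    integral_fderiv_zero _ hu hc, integral_fderiv_zero _ hu hc]
  simp
theorem integral_wtb (hu : ContDiff ℝ 1 u) (hc : HasCompactSupport u) : ∫ q, wtb u q = 0 := by
  unfold wtb
  rw [integral_div, integral_add (integrable_fderiv_apply hu hc _)
    ((integrable_fderiv_apply hu hc _).const_mul _), integral_const_mul,
    integral_fderiv_zero _ hu hc, integral_fderiv_zero _ hu hc]
  simp

end two

end MFE
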