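import Pool.Agent.Lib.MFE.Props
import Pool.Agent.Lib.MFE.Wirt
import Pool.Agent.Lib.MFE.Rlog

/-!
# Row R1: a lower bound for the weighted area of a disc through the centre of the ball
-/

set_option autoImplicit false

open Set Metric Filter Topology MeasureTheory
open scoped ComplexConjugate

namespace MFE

namespace Lel

variable {E : Type*} [NormedAddCommGroup E] [InnerProductSpace ℂ E]

/-! ### smoothness -/

lemma contDiffOn_real {O : Set ℂ} {w : ℂ → E} [CompleteSpace E] (hw : AnalyticOnNhd ℂ w O) (n : ℕ∞) :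
    ContDiffOn ℝ n w O := by
  intro z hz
  exact ((hw z hz).contDiffAt.restrict_scalars ℝ).contDiffWithinAt

lemma hasFDerivAt_real {w : ℂ → E} {w' : E} {z : ℂ} (h : HasDerivAt w w' z) :
    HasFDerivAt w ((ContinuousLinearMap.smulRight (1 : ℂ →L[ℂ] ℂ) w').restrictScalars ℝ) z :=
  h.hasFDerivAt.restrictScalars ℝ

/-- the pointwise identity -/
lemma dbar_eq {w : ℂ → E} {w' w'' : E} {L1 L2 : ℝ → ℝ} {z : ℂ}
    (hL : ∀ x, HasDerivAt L1 (L2 x) x) (h1 : HasDerivAt w w' z) (h2 : HasDerivAt (deriv w) w'' z) :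
    (fderiv ℝ (fun z => (L1 (‖w z‖ ^ 2) : ℂ) * inner ℂ (w z) (deriv w z)) z 1 +
      Complex.I * fderiv ℝ (fun z => (L1 (‖w z‖ ^ 2) : ℂ) * inner ℂ (w z) (deriv w z)) z Complex.I)
        / 2 =
      ((L2 (‖w z‖ ^ 2) * ‖(inner ℂ (w z) w' : ℂ)‖ ^ 2 + L1 (‖w z‖ ^ 2) * ‖w'‖ ^ 2 : ℝ) : ℂ) := by
  have e1 := hasFDerivAt_real h1
  have e2 := hasFDerivAt_real h2
  have hd : deriv w z = w' := h1.deriv
  -- the norm squared
  have hq : HasFDerivAt (fun z => ‖w z‖ ^ 2)
      (Complex.reCLM.comp ((fderivInnerCLM ℂ (w z, w z)).comp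
        (((ContinuousLinearMap.smulRight (1 : ℂ →L[ℂ] ℂ) w').restrictScalars ℝ).prod
          ((ContinuousLinearMap.smulRight (1 : ℂ →L[ℂ] ℂ) w').restrictScalars ℝ)))) z := by
    have h3 := Complex.reCLM.hasFDerivAt.comp z (e1.inner ℂ e1)
    refine h3.congr_of_eventuallyEq (Eventually.of_forall fun y => ?_)
    simp only [Function.comp, Complex.reCLM_apply]
    rw [inner_self_eq_norm_sq_to_K (𝕜 := ℂ)]
    norm_cast
  have hLq := (hL (‖w z‖ ^ 2)).comp_hasFDerivAt z hq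
  have hLc := Complex.ofRealCLM.hasFDerivAt.comp z hLq
  have hu := hLc.mul (e1.inner ℂ e2)
  have hu' : HasFDerivAt (fun z => (L1 (‖w z‖ ^ 2) : ℂ) * inner ℂ (w z) (deriv w z)) _ z := hu
  rw [hu'.fderiv]
  simp only [Function.comp, Complex.ofRealCLM_apply, hd, _root_.add_apply,
    _root_.smul_apply, ContinuousLinearMap.comp_apply, fderivInnerCLM_apply,
    ContinuousLinearMap.prod_apply, ContinuousLinearMap.coe_restrictScalars',
    ContinuousLinearMap.smulRight_apply, one_apply_eq_self, Complex.reCLM_apply,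
    smul_eq_mul, one_smul, inner_smul_left, inner_smul_right, Complex.conj_I]
  have hn : (inner ℂ w' w' : ℂ) = ((‖w'‖ ^ 2 : ℝ) : ℂ) := by
    rw [inner_self_eq_norm_sq_to_K (𝕜 := ℂ)]; norm_cast
  have hc : (inner ℂ w' (w z) : ℂ) = conj (inner ℂ (w z) w' : ℂ) := (inner_conj_symm _ _).symm
  rw [hn, hc]
  generalize (inner ℂ (w z) w' : ℂ) = h
  generalize (inner ℂ (w z) w'' : ℂ) = b
  generalize ‖w'‖ ^ 2 = m
  generalize L1 (‖w z‖ ^ 2) = p
  generalize L2 (‖w z‖ ^ 2) = q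
  rw [Complex.sq_norm, Complex.normSq_apply]
  apply Complex.ext
  · simp
    ring
  · simp
    ring

/-! ### integrals -/

lemma integrable_fderiv_apply1 {u : ℂ → ℂ} (hu : ContDiff ℝ 1 u) (hc : HasCompactSupport u) (v : ℂ) :
    Integrable (fun x => fderiv ℝ u x v) := by
  have hcont : Continuous (fun x => fderiv ℝ u x v) :=
    (hu.continuous_fderiv (by simp)).clm_apply continuous_const
  refine hcont.integrable_of_hasCompactSupport ((hc.fderiv (𝕜 := ℝ)).mono' ?_)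
  intro x hx
  have h1 : fderiv ℝ u x ≠ 0 := by
    intro h
    apply hx
    simp [h]
  exact subset_tsupport _ h1

lemma integral_dbar {u : ℂ → ℂ} (hu : ContDiff ℝ 1 u) (hc : HasCompactSupport u) :
    ∫ x, (fderiv ℝ u x 1 + Complex.I * fderiv ℝ u x Complex.I) / 2 = 0 := by
  rw [integral_div, integral_add (integrable_fderiv_apply1 hu hc _)
    ((integrable_fderiv_apply1 hu hc _).const_mul _), integral_const_mul,
    integral_fderiv_zero _ hu hc, integral_fderiv_zero _ hu hc]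
  simp

lemma integrable_ind {O K : Set ℂ} (hO : IsOpen O) (hK : IsCompact K) (hKO : K ⊆ O) {f : ℂ → ℝ}
    (hf : ContinuousOn f O) (h0 : ∀ x ∈ O, x ∉ K → f x = 0) : Integrable (O.indicator f) := by
  have h1 : ContDiff ℝ 0 (O.indicator f) :=
    contDiff_indicator hO hK hKO (contDiffOn_zero.2 hf) h0
  exact h1.continuous.integrable_of_hasCompactSupport (hasCompactSupport_indicator hK h0)

lemma mono [CompleteSpace E] {O : Set ℂ} {w : ℂ → E} (hO : IsOpen O) (hw : AnalyticOnNhd ℂ w O)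
    (hK : IsCompact {z | z ∈ O ∧ ‖w z‖ ≤ 1}) {L1 L2 β : ℝ → ℝ}
    (hL : ∀ x, HasDerivAt L1 (L2 x) x) (hL2 : Continuous L2) (h0 : ∀ x, 1 ≤ x → L1 x = 0)
    (hβ : Continuous β) (hβ0 : ∀ x, 1 ≤ x → β x = 0) (hb : ∀ x, 0 ≤ x → β x ≤ L1 x + x * L2 x)
    (hneg : ∀ x, 0 ≤ x → L2 x ≤ 0) :
    ∫ z, O.indicator (fun z => β (‖w z‖ ^ 2) * ‖deriv w z‖ ^ 2) z ≤ 0 := by
  have hKO : {z | z ∈ O ∧ ‖w z‖ ≤ 1} ⊆ O := fun z hz => hz.1
  have hout : ∀ z ∈ O, z ∉ {z | z ∈ O ∧ ‖w z‖ ≤ 1} → 1 ≤ ‖w z‖ ^ 2 := by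
    intro z hz hzK
    have : 1 < ‖w z‖ := by
      by_contra h
      exact hzK ⟨hz, not_lt.1 h⟩
    nlinarith
  have hdw : AnalyticOnNhd ℂ (deriv w) O := hw.deriv
  have sw : ContDiffOn ℝ 1 w O := contDiffOn_real hw 1
  have sd : ContDiffOn ℝ 1 (deriv w) O := contDiffOn_real hdw 1
  have sL : ContDiff ℝ 1 L1 := by
    rw [contDiff_one_iff_deriv]
    refine ⟨fun x => (hL x).differentiableAt, ?_⟩
    have : deriv L1 = L2 := funext fun x => (hL x).deriv
    rwa [this]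
  have su : ContDiffOn ℝ 1 (fun z => (L1 (‖w z‖ ^ 2) : ℂ) * inner ℂ (w z) (deriv w z)) O := by
    refine ContDiffOn.mul ?_ (sw.inner ℂ sd)
    exact Complex.ofRealCLM.contDiff.comp_contDiffOn (sL.comp_contDiffOn (sw.norm_sq ℂ))
  have hu0 : ∀ z ∈ O, z ∉ {z | z ∈ O ∧ ‖w z‖ ≤ 1} →
      (L1 (‖w z‖ ^ 2) : ℂ) * inner ℂ (w z) (deriv w z) = 0 := by
    intro z hz hzK
    rw [h0 _ (hout z hz hzK)]
    simp
  have hU := contDiff_indicator hO hK hKO su hu0
  have hUc := hasCompactSupport_indicator hK hu0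
  have hI := integral_dbar hU hUc
  have hpt : ∀ z, (fderiv ℝ (O.indicator fun z => (L1 (‖w z‖ ^ 2) : ℂ) * inner ℂ (w z) (deriv w z)) z 1 +
      Complex.I * fderiv ℝ (O.indicator fun z => (L1 (‖w z‖ ^ 2) : ℂ) * inner ℂ (w z) (deriv w z)) z
        Complex.I) / 2 = ((O.indicator (fun z => L2 (‖w z‖ ^ 2) *
          ‖(inner ℂ (w z) (deriv w z) : ℂ)‖ ^ 2 + L1 (‖w z‖ ^ 2) * ‖deriv w z‖ ^ 2) z : ℝ) : ℂ) := by
    intro z
    by_cases hz : z ∈ O
    · rw [fderiv_indicator hO hz, indicator_of_mem hz]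
      exact dbar_eq hL (hw z hz).differentiableAt.hasDerivAt (hdw z hz).differentiableAt.hasDerivAt
    · rw [fderiv_indicator_of_notMem hK hu0 (fun h => hz h.1), indicator_of_notMem hz]
      simp
  simp_rw [hpt] at hI
  rw [integral_complex_ofReal] at hI
  have hI' : ∫ z, O.indicator (fun z => L2 (‖w z‖ ^ 2) *
          ‖(inner ℂ (w z) (deriv w z) : ℂ)‖ ^ 2 + L1 (‖w z‖ ^ 2) * ‖deriv w z‖ ^ 2) z = 0 := by
    exact_mod_cast hI
  rw [← hI']
  have cL1 : Continuous L1 := sL.continuous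
  have cw : ContinuousOn w O := hw.continuousOn
  have cd : ContinuousOn (deriv w) O := hdw.continuousOn
  refine integral_mono ?_ ?_ ?_
  · refine integrable_ind hO hK hKO ?_ ?_
    · exact (hβ.comp_continuousOn (cw.norm.pow 2)).mul (cd.norm.pow 2)
    · intro z hz hzK
      rw [hβ0 _ (hout z hz hzK), zero_mul]
  · refine integrable_ind hO hK hKO ?_ ?_
    · exact ((hL2.comp_continuousOn (cw.norm.pow 2)).mul ((cw.inner cd).norm.pow 2)).add
        ((cL1.comp_continuousOn (cw.norm.pow 2)).mul (cd.norm.pow 2))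
    · intro z hz hzK
      have h2 : L2 (‖w z‖ ^ 2) = 0 := by
        have h1 := hout z hz hzK
        have hlt : 1 < ‖w z‖ ^ 2 := by
          have : 1 < ‖w z‖ := by
            by_contra h
            exact hzK ⟨hz, not_lt.1 h⟩
          nlinarith
        have hev : L1 =ᶠ[𝓝 (‖w z‖ ^ 2)] fun _ => 0 := by
          filter_upwards [lt_mem_nhds hlt] with y hy
          exact h0 y hy.le
        have := (hL (‖w z‖ ^ 2)).deriv
        rw [hev.deriv_eq] at this
        simpa using this.symm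
      rw [h0 _ (hout z hz hzK), h2]
      simp
  · intro z
    by_cases hz : z ∈ O
    · simp only [indicator_of_mem hz]
      have h1 := hb (‖w z‖ ^ 2) (by positivity)
      have h2 := hneg (‖w z‖ ^ 2) (by positivity)
      have h3 : ‖(inner ℂ (w z) (deriv w z) : ℂ)‖ ^ 2 ≤ ‖w z‖ ^ 2 * ‖deriv w z‖ ^ 2 := by
        rw [← mul_pow]
        exact pow_le_pow_left₀ (norm_nonneg _) (norm_inner_le_norm _ _) 2
      have h4 : (0 : ℝ) ≤ ‖deriv w z‖ ^ 2 := by positivity
      nlinarith [mul_le_mul_of_nonneg_right h1 h4, mul_le_mul_of_nonpos_left h3 h2]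
    · simp only [indicator_of_notMem hz]
      exact le_rfl

lemma integral_pow_ball (n : ℕ) (hn : 1 ≤ n) {ρ : ℝ} (hρ : 0 < ρ) (z0 : ℂ) :
    ∫ z in ball z0 ρ, ‖z - z0‖ ^ (2 * (n - 1)) = Real.pi * ρ ^ (2 * n) / n := by
  have h1 : ∫ z in ball z0 ρ, ‖z - z0‖ ^ (2 * (n - 1)) =
      ∫ z : ℂ, (Iio ρ).indicator (fun y => y ^ (2 * (n - 1))) ‖z‖ := by
    rw [← integral_indicator measurableSet_ball, ← integral_sub_right_eq_self
      (fun z : ℂ => (Iio ρ).indicator (fun y => y ^ (2 * (n - 1))) ‖z‖) z0]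
    congr with z
    simp [indicator, dist_eq_norm]
  have h2 : ∫ y in Ioi (0 : ℝ), y ^ (2 - 1) • (Iio ρ).indicator (fun y => y ^ (2 * (n - 1))) y =
      ρ ^ (2 * n) / (2 * n) := by
    have e1 : ∫ y in Ioi (0 : ℝ), y ^ (2 - 1) • (Iio ρ).indicator (fun y => y ^ (2 * (n - 1))) y =
        ∫ y in Ioi (0 : ℝ), (Iio ρ).indicator (fun y => y ^ (2 * n - 1)) y := by
      refine setIntegral_congr_fun measurableSet_Ioi fun y _ => ?_
      by_cases hy : y < ρ
      · simp only [mem_Iio, hy, indicator_of_mem, smul_eq_mul]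
        rw [← pow_add]
        congr 1
        omega
      · simp [hy]
    rw [e1, setIntegral_indicator measurableSet_Iio, Ioi_inter_Iio, ← integral_Ioc_eq_integral_Ioo,
      ← intervalIntegral.integral_of_le hρ.le, integral_pow]
    have e2 : 2 * n - 1 + 1 = 2 * n := by omega
    have e3 : ((2 * n - 1 : ℕ) : ℝ) + 1 = 2 * n := by
      rw [Nat.cast_sub (by omega)]
      push_cast
      ring
    rw [e2, e3]
    simp [show n ≠ 0 by omega]
  have h3 : (volume : Measure ℂ).real (ball 0 1) = Real.pi := by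
    rw [Measure.real, Complex.volume_ball]
    simp
  rw [h1, integral_fun_norm_addHaar, Complex.finrank_real_complex, h2, h3]
  have : (n : ℝ) ≠ 0 := by exact_mod_cast (show n ≠ 0 by omega)
  simp only [nsmul_eq_mul, smul_eq_mul, Nat.cast_ofNat]
  field_simp

lemma not_zero {O : Set ℂ} {w : ℂ → E} {z0 : ℂ} (hO : IsOpen O) (hw : AnalyticOnNhd ℂ w O)
    (hz0 : z0 ∈ O) (hK : IsCompact {z | z ∈ O ∧ ‖w z‖ ≤ 1}) : ¬ ∀ᶠ z in 𝓝 z0, w z = 0 := by
  intro h
  have hZK : {z | z ∈ O ∧ ∀ᶠ y in 𝓝 z, w y = 0} ⊆ {z | z ∈ O ∧ ‖w z‖ ≤ 1} := by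
    rintro z ⟨hz, h1⟩
    refine ⟨hz, ?_⟩
    rw [h1.self_of_nhds]
    simp
  have hZo : IsOpen {z | z ∈ O ∧ ∀ᶠ y in 𝓝 z, w y = 0} :=
    hO.inter isOpen_setOfPred_eventually_nhds
  have hZc : IsClosed {z | z ∈ O ∧ ∀ᶠ y in 𝓝 z, w y = 0} := by
    refine isClosed_of_closure_subset fun z hz => ?_
    have hzO : z ∈ O := (closure_minimal hZK hK.isClosed hz).1
    rcases (hw z hzO).eventually_eq_zero_or_eventually_ne_zero with h1 | h1
    · exact ⟨hzO, h1⟩
    · by_contra hzZ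
      have h2 : ∃ᶠ y in 𝓝 z, y ∈ {z | z ∈ O ∧ ∀ᶠ y in 𝓝 z, w y = 0} :=
        mem_closure_iff_frequently.1 hz
      rw [eventually_nhdsWithin_iff] at h1
      obtain ⟨y, hy1, hy2⟩ := (h2.and_eventually h1).exists
      refine hy2 ?_ hy1.2.self_of_nhds
      rintro rfl
      exact hzZ hy1
  have hu : {z | z ∈ O ∧ ∀ᶠ y in 𝓝 z, w y = 0} = univ := IsClopen.eq_univ ⟨hZc, hZo⟩ ⟨z0, hz0, h⟩
  have hKu : {z | z ∈ O ∧ ‖w z‖ ≤ 1} = univ := by
    rw [← univ_subset_iff, ← hu]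
    exact hZK
  rw [hKu] at hK
  exact noncompact_univ ℂ hK

lemma lower [CompleteSpace E] {O : Set ℂ} {w : ℂ → E} {z0 : ℂ} (hO : IsOpen O)
    (hw : AnalyticOnNhd ℂ w O) (hz0 : z0 ∈ O) (h0 : w z0 = 0)
    (hK : IsCompact {z | z ∈ O ∧ ‖w z‖ ≤ 1}) :
    ∃ s : ℝ, 0 < s ∧ s < 1 ∧ Real.pi / 32 * s ≤
      ∫ z, O.indicator (fun z => (max (1 - ‖w z‖ ^ 2 / s) 0) ^ 3 * ‖deriv w z‖ ^ 2) z := by
  have hne := not_zero hO hw hz0 hK
  obtain ⟨n, g, hg, hg0, hge⟩ := (hw z0 hz0).exists_eventuallyEq_pow_smul_nonzero_iff.2 hne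
  have hn : 1 ≤ n := by
    by_contra hn
    have hn0 : n = 0 := by omega
    have := hge.self_of_nhds
    rw [h0, hn0] at this
    simp at this
    exact hg0 this.symm
  set v : ℂ → E := fun z => (n : ℂ) • g z + (z - z0) • deriv g z with hv
  have hdv : ∀ᶠ z in 𝓝 z0, deriv w z = (z - z0) ^ (n - 1) • v z := by
    filter_upwards [eventually_eventually_nhds.2 hge, hg.eventually_analyticAt] with z hz1 hz2
    have e1 : deriv w z = deriv (fun y => (y - z0) ^ n • g y) z := Filter.EventuallyEq.deriv_eq hz1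
    have e2 : HasDerivAt (fun y => (y - z0) ^ n • g y)
        ((z - z0) ^ n • deriv g z + ((n : ℂ) * (z - z0) ^ (n - 1) * 1) • g z) z :=
      (((hasDerivAt_id z).sub_const z0).pow n).smul hz2.differentiableAt.hasDerivAt
    rw [e1, e2.deriv, hv]
    simp only [smul_add, smul_smul, mul_one]
    rw [add_comm]
    congr 2
    · ring
    · rw [← pow_succ]
      congr 1
      omega
  have ha : 0 < ‖g z0‖ := norm_pos_iff.2 hg0
  have cg : ContinuousAt g z0 := hg.continuousAt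
  have cv : ContinuousAt v z0 := by
    have h1 : ContinuousAt (deriv g) z0 := hg.deriv.continuousAt
    exact (cg.const_smul _).add (((continuous_id.sub continuous_const).continuousAt).smul h1)
  have hnr : (1 : ℝ) ≤ n := by exact_mod_cast hn
  have ev1 : ∀ᶠ z in 𝓝 z0, ‖g z‖ ^ 2 < 4 / 3 * ‖g z0‖ ^ 2 := by
    refine (cg.norm.pow 2).eventually_lt continuousAt_const ?_
    change ‖g z0‖ ^ 2 < 4 / 3 * ‖g z0‖ ^ 2
    nlinarith [mul_pos ha ha]
  have ev2 : ∀ᶠ z in 𝓝 z0, 1 / 2 * n ^ 2 * ‖g z0‖ ^ 2 < ‖v z‖ ^ 2 := by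
    refine continuousAt_const.eventually_lt (cv.norm.pow 2) ?_
    have : v z0 = (n : ℂ) • g z0 := by simp [hv]
    rw [this, norm_smul, mul_pow]
    simp only [Complex.norm_natCast]
    have : 0 < (n : ℝ) ^ 2 * ‖g z0‖ ^ 2 := by positivity
    linarith
  have ev3 : ∀ᶠ z in 𝓝 z0, z ∈ O := hO.mem_nhds hz0
  obtain ⟨r, hr, hall⟩ := Metric.eventually_nhds_iff_ball.1
    (hge.and (hdv.and (ev1.and (ev2.and ev3))))
  set a := ‖g z0‖ with hadef
  obtain ⟨ρ, hρ, hρr, hρ1, hρs⟩ : ∃ ρ : ℝ, 0 < ρ ∧ ρ ≤ r ∧ ρ ≤ 1 ∧ 4 * a ^ 2 * ρ < 1 := by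
    refine ⟨min (min r 1) (1 / (4 * a ^ 2 + 1)), by positivity,
      (min_le_left _ _).trans (min_le_left _ _), (min_le_left _ _).trans (min_le_right _ _), ?_⟩
    calc 4 * a ^ 2 * min (min r 1) (1 / (4 * a ^ 2 + 1)) ≤ 4 * a ^ 2 * (1 / (4 * a ^ 2 + 1)) := by
          refine mul_le_mul_of_nonneg_left (min_le_right _ _) (by positivity)
      _ < 1 := by
          rw [mul_one_div, div_lt_one (by positivity)]
          linarith
  have hρn : ρ ^ (2 * n) ≤ ρ := by
    calc ρ ^ (2 * n) ≤ ρ ^ 1 := pow_le_pow_of_le_one hρ.le hρ1 (by omega)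
      _ = ρ := pow_one ρ
  set s := 4 * a ^ 2 * ρ ^ (2 * n) with hs
  have hs0 : 0 < s := by positivity
  have hs1 : s < 1 := by
    refine lt_of_le_of_lt ?_ hρs
    exact mul_le_mul_of_nonneg_left hρn (by positivity)
  refine ⟨s, hs0, hs1, ?_⟩
  have hKO : {z | z ∈ O ∧ ‖w z‖ ≤ 1} ⊆ O := fun z hz => hz.1
  have hint : Integrable
      (O.indicator fun z => (max (1 - ‖w z‖ ^ 2 / s) 0) ^ 3 * ‖deriv w z‖ ^ 2) := by
    refine integrable_ind hO hK hKO ?_ ?_
    · have cw : ContinuousOn w O := hw.continuousOn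
      have cd : ContinuousOn (deriv w) O := hw.deriv.continuousOn
      have c1 : Continuous fun x : ℝ => (max (1 - x / s) 0) ^ 3 := by fun_prop
      exact (c1.comp_continuousOn (cw.norm.pow 2)).mul (cd.norm.pow 2)
    · intro z hz hzK
      have h1 : 1 < ‖w z‖ := by
        by_contra h
        exact hzK ⟨hz, not_lt.1 h⟩
      have h2 : 1 - ‖w z‖ ^ 2 / s ≤ 0 := by
        rw [sub_nonpos, one_le_div hs0]
        nlinarith
      rw [max_eq_right h2]
      simp
  have hnn : ∀ z, 0 ≤ O.indicator (fun z => (max (1 - ‖w z‖ ^ 2 / s) 0) ^ 3 * ‖deriv w z‖ ^ 2) z := by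
    intro z
    refine indicator_nonneg (fun z _ => ?_) z
    have : 0 ≤ max (1 - ‖w z‖ ^ 2 / s) 0 := le_max_right _ _
    positivity
  have hip : IntegrableOn (fun z : ℂ => 4 / 27 * n ^ 2 * a ^ 2 * ‖z - z0‖ ^ (2 * (n - 1)))
      (ball z0 ρ) := by
    refine IntegrableOn.mono_set ?_ ball_subset_closedBall
    exact ContinuousOn.integrableOn_compact (isCompact_closedBall z0 ρ) (by fun_prop)
  have hkey : ∫ z in ball z0 ρ, 4 / 27 * n ^ 2 * a ^ 2 * ‖z - z0‖ ^ (2 * (n - 1)) ≤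
      ∫ z in ball z0 ρ, O.indicator (fun z => (max (1 - ‖w z‖ ^ 2 / s) 0) ^ 3 * ‖deriv w z‖ ^ 2) z := by
    refine setIntegral_mono_on hip hint.integrableOn measurableSet_ball fun z hz => ?_
    obtain ⟨f1, f2, f3, f4, f5⟩ := hall z (ball_subset_ball hρr hz)
    rw [indicator_of_mem f5]
    have hτ : ‖z - z0‖ < ρ := by simpa [dist_eq_norm] using hz
    have g1 : ‖w z‖ ^ 2 ≤ s / 3 := by
      rw [f1, norm_smul, norm_pow, mul_pow, ← pow_mul, mul_comm n 2]
      have : ‖z - z0‖ ^ (2 * n) ≤ ρ ^ (2 * n) := pow_le_pow_left₀ (norm_nonneg _) hτ.le _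
      calc ‖z - z0‖ ^ (2 * n) * ‖g z‖ ^ 2 ≤ ρ ^ (2 * n) * (4 / 3 * a ^ 2) :=
            mul_le_mul this f3.le (by positivity) (by positivity)
        _ = s / 3 := by rw [hs]; ring
    have g2 : 2 / 3 ≤ max (1 - ‖w z‖ ^ 2 / s) 0 := by
      refine le_max_of_le_left ?_
      have : ‖w z‖ ^ 2 / s ≤ 1 / 3 := by
        rw [div_le_iff₀ hs0]
        linarith
      linarith
    have g3 : (2 / 3 : ℝ) ^ 3 ≤ (max (1 - ‖w z‖ ^ 2 / s) 0) ^ 3 :=
      pow_le_pow_left₀ (by norm_num) g2 3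
    have g4 : ‖z - z0‖ ^ (2 * (n - 1)) * (1 / 2 * n ^ 2 * a ^ 2) ≤ ‖deriv w z‖ ^ 2 := by
      rw [f2, norm_smul, norm_pow, mul_pow, ← pow_mul, mul_comm (n - 1) 2]
      exact mul_le_mul_of_nonneg_left f4.le (by positivity)
    calc 4 / 27 * n ^ 2 * a ^ 2 * ‖z - z0‖ ^ (2 * (n - 1)) =
          (2 / 3 : ℝ) ^ 3 * (‖z - z0‖ ^ (2 * (n - 1)) * (1 / 2 * n ^ 2 * a ^ 2)) := by ring
      _ ≤ _ := mul_le_mul g3 g4 (by positivity) (by positivity)
  have hval : ∫ z in ball z0 ρ, 4 / 27 * n ^ 2 * a ^ 2 * ‖z - z0‖ ^ (2 * (n - 1)) =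
      n * Real.pi * s / 27 := by
    rw [integral_const_mul, integral_pow_ball n hn hρ, hs]
    have : (n : ℝ) ≠ 0 := by positivity
    field_simp
  calc Real.pi / 32 * s ≤ n * Real.pi * s / 27 := by
        have : 0 < Real.pi * s := by positivity
        nlinarith
    _ = _ := hval.symm
    _ ≤ _ := hkey
    _ ≤ _ := setIntegral_le_integral hint (Eventually.of_forall hnn)

end Lel

theorem lel (E : Type*) [NormedAddCommGroup E] [InnerProductSpace ℂ E] [FiniteDimensional ℂ E] :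
    LelStmt E := by
  intro O w z0 hO hw hz0 h0 hK
  have : CompleteSpace E := FiniteDimensional.complete ℂ E
  obtain ⟨s, hs0, hs1, hlow⟩ := Lel.lower hO hw hz0 h0 hK
  have hKO : {z | z ∈ O ∧ ‖w z‖ ≤ 1} ⊆ O := fun z hz => hz.1
  have cw : ContinuousOn w O := hw.continuousOn
  have cd : ContinuousOn (deriv w) O := hw.deriv.continuousOn
  have hint : ∀ s : ℝ, 0 < s → s ≤ 1 → Integrable
      (O.indicator fun z => (max (1 - ‖w z‖ ^ 2 / s) 0) ^ 3 * ‖deriv w z‖ ^ 2) := by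
    intro s hs0 hs1
    refine Lel.integrable_ind hO hK hKO ?_ ?_
    · have c1 : Continuous fun x : ℝ => (max (1 - x / s) 0) ^ 3 := by fun_prop
      exact (c1.comp_continuousOn (cw.norm.pow 2)).mul (cd.norm.pow 2)
    · intro z hz hzK
      have h1 : 1 < ‖w z‖ := by
        by_contra h
        exact hzK ⟨hz, not_lt.1 h⟩
      have h2 : 1 - ‖w z‖ ^ 2 / s ≤ 0 := by
        rw [sub_nonpos, one_le_div hs0]
        nlinarith
      rw [max_eq_right h2]
      simp
  have hmono := Lel.mono (L1 := fun x => rlog1 4 s x - rlog1 4 1 x)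
    (L2 := fun x => rlog2 4 s x - rlog2 4 1 x)
    (β := fun x => 4 / s * (max (1 - x / s) 0) ^ 3 - 4 * (max (1 - x / 1) 0) ^ 3) hO hw hK
    (fun x => (rlog1_hasDerivAt (by norm_num) hs0 x).sub (rlog1_hasDerivAt (by norm_num) one_pos x))
    ((continuous_rlog2 (by norm_num) hs0).sub (continuous_rlog2 (by norm_num) one_pos))
    (by
      intro x hx
      have h1 : rlog1 4 s x = 1 / x := by
        unfold rlog1
        rw [if_neg (by linarith)]
      have h2 : rlog1 4 1 x = 1 / x := by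
        unfold rlog1
        split_ifs with h
        · have : x = 1 := le_antisymm h hx
          subst this
          simp [Finset.sum_range_succ]
        · rfl
      rw [h1, h2, sub_self])
    (by fun_prop)
    (by
      intro x hx
      have h1 : 1 - x / s ≤ 0 := by
        rw [sub_nonpos, one_le_div hs0]
        linarith
      have h2 : 1 - x / 1 ≤ 0 := by
        rw [div_one]
        linarith
      rw [max_eq_right h1, max_eq_right h2]
      simp)
    (by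
      intro x _
      have h1 := rlog1_add (p := 4) (by norm_num) hs0 x
      have h2 := rlog1_add (p := 4) (by norm_num) one_pos x
      norm_num at h1 h2
      simp only [div_one]
      nlinarith)
    (by
      intro x hx
      have := rlog2_le hs0 hs1.le hx
      linarith)
  have hsplit : ∫ z, O.indicator (fun z => (4 / s * (max (1 - ‖w z‖ ^ 2 / s) 0) ^ 3 -
      4 * (max (1 - ‖w z‖ ^ 2 / 1) 0) ^ 3) * ‖deriv w z‖ ^ 2) z =
      4 / s * (∫ z, O.indicator (fun z => (max (1 - ‖w z‖ ^ 2 / s) 0) ^ 3 * ‖deriv w z‖ ^ 2) z) -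
      4 * ∫ z, O.indicator (fun z => (max (1 - ‖w z‖ ^ 2 / 1) 0) ^ 3 * ‖deriv w z‖ ^ 2) z := by
    rw [← integral_const_mul, ← integral_const_mul, ← integral_sub
      ((hint s hs0 hs1.le).const_mul _) ((hint 1 one_pos le_rfl).const_mul _)]
    refine integral_congr_ae (Eventually.of_forall fun z => ?_)
    by_cases hz : z ∈ O
    · simp only [indicator_of_mem hz]
      ring
    · simp only [indicator_of_notMem hz]
      simp
  have hle := hmono
  rw [hsplit] at hle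
  have hfin : ∫ z in {z | z ∈ O ∧ ‖w z‖ < 1}, (1 - ‖w z‖ ^ 2) ^ 3 * ‖deriv w z‖ ^ 2 =
      ∫ z, O.indicator (fun z => (max (1 - ‖w z‖ ^ 2 / 1) 0) ^ 3 * ‖deriv w z‖ ^ 2) z := by
    have hm : MeasurableSet {z | z ∈ O ∧ ‖w z‖ < 1} := by
      have : IsOpen {z | z ∈ O ∧ ‖w z‖ < 1} := cw.norm.isOpen_inter_preimage hO isOpen_Iio
      exact this.measurableSet
    rw [← integral_indicator hm]
    refine integral_congr_ae (Eventually.of_forall fun z => ?_)
    by_cases hz : z ∈ O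
    · simp only [indicator_of_mem hz, div_one]
      by_cases h1 : ‖w z‖ < 1
      · rw [indicator_of_mem (show z ∈ {z | z ∈ O ∧ ‖w z‖ < 1} from ⟨hz, h1⟩)]
        have : 0 ≤ 1 - ‖w z‖ ^ 2 := by nlinarith [norm_nonneg (w z)]
        rw [max_eq_left this]
      · rw [indicator_of_notMem (fun h => h1 h.2)]
        have : 1 - ‖w z‖ ^ 2 ≤ 0 := by nlinarith [norm_nonneg (w z), not_lt.1 h1]
        rw [max_eq_right this]
        simp
    · simp only [indicator_of_notMem hz]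
      exact indicator_of_notMem (fun h => hz h.1) _
  rw [hfin]
  set A := ∫ z, O.indicator (fun z => (max (1 - ‖w z‖ ^ 2 / s) 0) ^ 3 * ‖deriv w z‖ ^ 2) z with hA
  set B := ∫ z, O.indicator (fun z => (max (1 - ‖w z‖ ^ 2 / 1) 0) ^ 3 * ‖deriv w z‖ ^ 2) z with hB
  have h1 : A ≤ s * B := by
    have h2 : 4 / s * A ≤ 4 * B := by linarith
    rw [div_mul_eq_mul_div, div_le_iff₀ hs0] at h2
    linarith
  have h3 : Real.pi / 32 * s ≤ s * B := hlow.trans h1
  have h4 : s * (Real.pi / 32) ≤ s * B := by linarith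
  exact le_of_mul_le_mul_left h4 hs0

end MFE
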