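import Pool.Agent.Lib.MFE.Props

/-!
# Row R6: the local lemma
-/

set_option autoImplicit false

open Set Metric Filter Topology MeasureTheory
open scoped LinearAlgebra.Projectivization

namespace MFE

section loc

variable {E : Type*} [NormedAddCommGroup E] [InnerProductSpace ℂ E]

theorem loc_G2_nonneg (a b : E) : 0 ≤ G2 a b := by
  unfold G2
  have h := norm_inner_le_norm (𝕜 := ℂ) a b
  have h2 : ‖inner ℂ a b‖ ^ 2 ≤ (‖a‖ * ‖b‖) ^ 2 := pow_le_pow_left₀ (norm_nonneg _) h 2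
  rw [mul_pow] at h2
  linarith

theorem loc_continuous_G3 : Continuous (fun t : E × E × E => G3 t.1 t.2.1 t.2.2) := by
  unfold G3
  refine Complex.continuous_re.comp ?_
  simp only [Matrix.det_fin_three, Matrix.of_apply, Matrix.cons_val_zero, Matrix.cons_val_one,
    Matrix.cons_val]
  fun_prop

theorem loc_iter_an (s : HMap E) (m : ℕ) : AnalyticOnNhd ℂ (s.F^[m]) univ := by
  induction m with
  | zero => exact (analyticOnNhd_id : AnalyticOnNhd ℂ (fun x : E => x) univ)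
  | succ n ih =>
    rw [Function.iterate_succ]
    exact ih.comp s.an (fun _ _ => mem_univ _)

theorem loc_iter_ne (s : HMap E) (m : ℕ) : ∀ {x : E}, x ≠ 0 → s.F^[m] x ≠ 0 := by
  induction m with
  | zero => intro x hx; simpa using hx
  | succ n ih =>
    intro x hx
    rw [Function.iterate_succ, Function.comp_apply]
    exact ih (s.ne x hx)

/-- derivative of a composition -/
theorem loc_dz_comp {H : ℂ × ℂ → E} {f : E → E} {q : ℂ × ℂ} (hf : DifferentiableAt ℂ f (H q))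
    (hH : DifferentiableAt ℂ H q) : dz (fun q => f (H q)) q = fderiv ℂ f (H q) (dz H q) := by
  unfold dz
  have := fderiv_comp q hf hH
  have h2 : fderiv ℂ (fun q => f (H q)) q = (fderiv ℂ f (H q)).comp (fderiv ℂ H q) := this
  rw [h2]
  rfl

theorem loc_dt_comp {H : ℂ × ℂ → E} {f : E → E} {q : ℂ × ℂ} (hf : DifferentiableAt ℂ f (H q))
    (hH : DifferentiableAt ℂ H q) : dt (fun q => f (H q)) q = fderiv ℂ f (H q) (dt H q) := by
  unfold dt
  have := fderiv_comp q hf hH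
  have h2 : fderiv ℂ (fun q => f (H q)) q = (fderiv ℂ f (H q)).comp (fderiv ℂ H q) := this
  rw [h2]
  rfl

/-- `l = 0` on `[b, ∞)` implies the same for its derivative -/
theorem loc_deriv_zero {l l1 : ℝ → ℝ} {b : ℝ} (h : ∀ x, HasDerivAt l (l1 x) x)
    (hb : ∀ x, b ≤ x → l x = 0) : ∀ x, b ≤ x → l1 x = 0 := by
  intro x hx
  have h1 : HasDerivWithinAt l (l1 x) (Ici x) x := (h x).hasDerivWithinAt
  have h2 : HasDerivWithinAt l 0 (Ici x) x := by
    refine (hasDerivWithinAt_const x (Ici x) (0 : ℝ)).congr ?_ ?_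
    · intro y hy
      exact hb y (le_trans hx hy)
    · exact hb x hx
  exact (uniqueDiffWithinAt_Ici x).eq_deriv _ h1 h2

/-- the normalised map -/
noncomputable def locw (lam : ℝ) (e : E) (x : ℂ × ℂ → E) (q : ℂ × ℂ) : E :=
  (lam : ℂ) • ((inner ℂ e (x q))⁻¹ • x q - e)

theorem loc_norm_locw {lam : ℝ} (hl : 0 < lam) (e : E) (x : ℂ × ℂ → E) {q : ℂ × ℂ}
    (h : inner ℂ e (x q) ≠ 0) :
    ‖locw lam e x q‖ = lam * ‖x q - inner ℂ e (x q) • e‖ / ‖inner ℂ e (x q)‖ := by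
  unfold locw
  have h1 : (inner ℂ e (x q))⁻¹ • x q - e =
      (inner ℂ e (x q))⁻¹ • (x q - inner ℂ e (x q) • e) := by
    rw [smul_sub, smul_smul, inv_mul_cancel₀ h, one_smul]
  rw [h1, norm_smul, norm_smul, norm_inv, Complex.norm_real, Real.norm_of_nonneg hl.le]
  field_simp

theorem loc_analytic_locw {lam : ℝ} {e : E} {x : ℂ × ℂ → E} {q : ℂ × ℂ}
    (hx : AnalyticAt ℂ x q) (h : inner ℂ e (x q) ≠ 0) : AnalyticAt ℂ (locw lam e x) q := by
  unfold locw
  have h1 : AnalyticAt ℂ (fun q => inner ℂ e (x q)) q :=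
    ((innerSL ℂ e).analyticAt (x q)).comp hx
  exact AnalyticAt.fun_smul analyticAt_const
    ((AnalyticAt.fun_smul (h1.fun_inv h) hx).fun_sub analyticAt_const)

/-- the standing assumptions -/
structure LocData (x : ℂ × ℂ → E) (a : ℂ) (R ρ R' s0 lam : ℝ) (e : E) : Prop where
  an : AnalyticOnNhd ℂ x (closedBall a R ×ˢ closedBall 0 ρ)
  ne : ∀ q ∈ closedBall a R ×ˢ closedBall (0 : ℂ) ρ, x q ≠ 0
  he : ‖e‖ = 1
  hl : 0 < lam
  hR : R' < R
  sep : ∀ q ∈ closedBall a R ×ˢ closedBall (0 : ℂ) ρ, (R' ≤ ‖q.1 - a‖ ∨ ‖q.2‖ ≤ s0) →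
      ‖inner ℂ e (x q)‖ < lam * ‖x q - inner ℂ e (x q) • e‖

/-- the open set on which the normalised map is defined -/
def locO (x : ℂ × ℂ → E) (a : ℂ) (R ρ : ℝ) (e : E) : Set (ℂ × ℂ) :=
  {q | q ∈ ball a R ×ˢ ball (0 : ℂ) ρ ∧ inner ℂ e (x q) ≠ 0}

/-- the compact set -/
def locK (x : ℂ × ℂ → E) (a : ℂ) (R ρ lam : ℝ) (e : E) : Set (ℂ × ℂ) :=
  {q | q ∈ closedBall a R ×ˢ closedBall (0 : ℂ) ρ ∧
    lam * ‖x q - inner ℂ e (x q) • e‖ ≤ ‖inner ℂ e (x q)‖}

/-- the weighted area density -/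
noncomputable def locPhi (x : ℂ × ℂ → E) (a : ℂ) (R ρ lam : ℝ) (e : E) : ℂ × ℂ → ℝ :=
  Set.indicator {q | q ∈ locO x a R ρ e ∧ ‖locw lam e x q‖ < 1}
    (fun q => (1 - ‖locw lam e x q‖ ^ 2) ^ 3 * ‖dz (locw lam e x) q‖ ^ 2)

variable {x : ℂ × ℂ → E} {a : ℂ} {R ρ R' s0 lam : ℝ} {e : E}

theorem loc_isCompact_D (a : ℂ) (R ρ : ℝ) :
    IsCompact (closedBall a R ×ˢ closedBall (0 : ℂ) ρ) :=
  (isCompact_closedBall a R).prod (isCompact_closedBall 0 ρ)

theorem LocData.compactK (h : LocData x a R ρ R' s0 lam e) : IsCompact (locK x a R ρ lam e) := by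
  have hx : ContinuousOn x (closedBall a R ×ˢ closedBall 0 ρ) := h.an.continuousOn
  have hi : ContinuousOn (fun q => inner ℂ e (x q)) (closedBall a R ×ˢ closedBall 0 ρ) :=
    (innerSL ℂ e).continuous.comp_continuousOn hx
  have h1 : IsClosed (locK x a R ρ lam e) := by
    refine IsClosed.isClosed_le (loc_isCompact_D a R ρ).isClosed ?_ ?_
    · exact continuousOn_const.mul (hx.sub (hi.smul continuousOn_const)).norm
    · exact hi.norm
  exact (loc_isCompact_D a R ρ).of_isClosed_subset h1 (fun q hq => hq.1)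

theorem LocData.subK (h : LocData x a R ρ R' s0 lam e) {q : ℂ × ℂ}
    (hq : q ∈ locK x a R ρ lam e) : ‖q.1 - a‖ < R' ∧ s0 < ‖q.2‖ := by
  by_contra hc
  rw [not_and_or, not_lt, not_lt] at hc
  exact absurd hq.2 (not_le.mpr (h.sep q hq.1 hc))

theorem LocData.inner_ne (h : LocData x a R ρ R' s0 lam e) {q : ℂ × ℂ}
    (hq : q ∈ locK x a R ρ lam e) : inner ℂ e (x q) ≠ 0 := by
  intro hc
  have h1 := hq.2
  rw [hc] at h1
  simp only [zero_smul, sub_zero, norm_zero] at h1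
  have h2 : 0 < ‖x q‖ := norm_pos_iff.mpr (h.ne q hq.1)
  have h3 := mul_pos h.hl h2
  linarith

theorem LocData.memO (h : LocData x a R ρ R' s0 lam e) {q : ℂ × ℂ}
    (hq : q ∈ locK x a R ρ lam e) (hq2 : ‖q.2‖ < ρ) : q ∈ locO x a R ρ e := by
  refine ⟨⟨?_, ?_⟩, h.inner_ne hq⟩
  · rw [mem_ball_iff_norm]
    exact lt_trans (h.subK hq).1 h.hR
  · rw [mem_ball_zero_iff]
    exact hq2

theorem LocData.norm_le_iff (h : LocData x a R ρ R' s0 lam e) {q : ℂ × ℂ}
    (hq : inner ℂ e (x q) ≠ 0) :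
    ‖locw lam e x q‖ ≤ 1 ↔ lam * ‖x q - inner ℂ e (x q) • e‖ ≤ ‖inner ℂ e (x q)‖ := by
  rw [loc_norm_locw h.hl e x hq, div_le_one (norm_pos_iff.mpr hq)]

theorem LocData.memK (h : LocData x a R ρ R' s0 lam e) {q : ℂ × ℂ}
    (hq : q ∈ locO x a R ρ e) (hw : ‖locw lam e x q‖ ≤ 1) : q ∈ locK x a R ρ lam e :=
  ⟨⟨ball_subset_closedBall hq.1.1, ball_subset_closedBall hq.1.2⟩, (h.norm_le_iff hq.2).mp hw⟩

theorem LocData.openO (h : LocData x a R ρ R' s0 lam e) : IsOpen (locO x a R ρ e) := by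
  have hx : ContinuousOn x (ball a R ×ˢ ball 0 ρ) :=
    h.an.continuousOn.mono (prod_mono ball_subset_closedBall ball_subset_closedBall)
  have hi : ContinuousOn (fun q => inner ℂ e (x q)) (ball a R ×ˢ ball 0 ρ) :=
    (innerSL ℂ e).continuous.comp_continuousOn hx
  exact hi.isOpen_inter_preimage (isOpen_ball.prod isOpen_ball) isOpen_compl_singleton

theorem LocData.anO (h : LocData x a R ρ R' s0 lam e) :
    AnalyticOnNhd ℂ (locw lam e x) (locO x a R ρ e) := fun q hq =>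
  loc_analytic_locw (h.an q ⟨ball_subset_closedBall hq.1.1, ball_subset_closedBall hq.1.2⟩) hq.2

theorem LocData.openS (h : LocData x a R ρ R' s0 lam e) :
    IsOpen {q | q ∈ locO x a R ρ e ∧ ‖locw lam e x q‖ < 1} :=
  h.anO.continuousOn.norm.isOpen_inter_preimage h.openO isOpen_Iio

theorem LocData.phi_nonneg (q : ℂ × ℂ) : 0 ≤ locPhi x a R ρ lam e q := by
  unfold locPhi
  refine Set.indicator_nonneg ?_ q
  rintro q ⟨_, hq⟩
  have h1 : ‖locw lam e x q‖ ^ 2 ≤ 1 := by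
    have := norm_nonneg (locw lam e x q)
    nlinarith
  have h2 : 0 ≤ 1 - ‖locw lam e x q‖ ^ 2 := by linarith
  positivity

theorem LocData.phi_zero (h : LocData x a R ρ R' s0 lam e) {q : ℂ × ℂ}
    (hq : q ∉ locK x a R ρ lam e) : locPhi x a R ρ lam e q = 0 := by
  unfold locPhi
  refine Set.indicator_of_notMem ?_ _
  rintro ⟨h1, h2⟩
  exact hq (h.memK h1 h2.le)

theorem LocData.phi_continuousAt [CompleteSpace E] (h : LocData x a R ρ R' s0 lam e) {q : ℂ × ℂ}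
    (hq : ‖q.2‖ < ρ) : ContinuousAt (locPhi x a R ρ lam e) q := by
  by_cases hK : q ∈ locK x a R ρ lam e
  · have hO := h.memO hK hq
    have hA := h.anO q hO
    have h1 : locPhi x a R ρ lam e =ᶠ[𝓝 q] fun q =>
        (max (1 - ‖locw lam e x q‖ ^ 2) 0) ^ 3 * ‖dz (locw lam e x) q‖ ^ 2 := by
      filter_upwards [h.openO.mem_nhds hO] with y hy
      unfold locPhi
      by_cases hy1 : ‖locw lam e x y‖ < 1
      · rw [Set.indicator_of_mem (show y ∈ {q | q ∈ locO x a R ρ e ∧ ‖locw lam e x q‖ < 1} from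
          ⟨hy, hy1⟩), max_eq_left]
        have := norm_nonneg (locw lam e x y)
        nlinarith
      · rw [Set.indicator_of_notMem (show y ∉ {q | q ∈ locO x a R ρ e ∧ ‖locw lam e x q‖ < 1} from
          fun hh => hy1 hh.2), max_eq_right]
        · simp
        · rw [not_lt] at hy1
          nlinarith
    refine ContinuousAt.congr ?_ h1.symm
    have h2 : ContinuousAt (locw lam e x) q := hA.continuousAt
    have h3 : ContinuousAt (dz (locw lam e x)) q := by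
      have : ContinuousAt (fun q => fderiv ℂ (locw lam e x) q (1, 0)) q :=
        hA.fderiv.continuousAt.clm_apply continuousAt_const
      exact this
    exact (((continuousAt_const.sub (h2.norm.pow 2)).max continuousAt_const).pow 3).mul
      (h3.norm.pow 2)
  · have h1 : locPhi x a R ρ lam e =ᶠ[𝓝 q] fun _ => 0 := by
      filter_upwards [h.compactK.isClosed.isOpen_compl.mem_nhds hK] with y hy
      exact h.phi_zero hy
    exact (continuousAt_const).congr h1.symm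

/-- the area function -/
noncomputable def locA (x : ℂ × ℂ → E) (a : ℂ) (R ρ lam : ℝ) (e : E) (t : ℂ) : ℝ :=
  ∫ z : ℂ, locPhi x a R ρ lam e (z, t)

theorem LocData.phi_zero_of_notMem (h : LocData x a R ρ R' s0 lam e) {z t : ℂ}
    (hz : z ∉ closedBall a R) : locPhi x a R ρ lam e (z, t) = 0 :=
  h.phi_zero (fun hh => hz hh.1.1)

theorem LocData.continuousOn_A [CompleteSpace E] (h : LocData x a R ρ R' s0 lam e) :
    ContinuousOn (locA x a R ρ lam e) (ball 0 ρ) := by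
  unfold locA
  refine continuousOn_integral_of_compact_support (f := fun t z => locPhi x a R ρ lam e (z, t))
    (isCompact_closedBall a R) ?_ ?_
  · rintro ⟨t, z⟩ ⟨ht, _⟩
    have ht' : ‖t‖ < ρ := mem_ball_zero_iff.mp ht
    have h1 : ContinuousAt (locPhi x a R ρ lam e) (z, t) := h.phi_continuousAt ht'
    have h2 : ContinuousAt (fun p : ℂ × ℂ => ((p.2, p.1) : ℂ × ℂ)) (t, z) :=
      (continuous_snd.prodMk continuous_fst).continuousAt
    exact (ContinuousAt.comp (f := fun p : ℂ × ℂ => ((p.2, p.1) : ℂ × ℂ))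
      (g := locPhi x a R ρ lam e) h1 h2).continuousWithinAt
  · intro t z _ hz
    exact h.phi_zero_of_notMem hz

theorem LocData.A_nonneg (t : ℂ) : 0 ≤ locA x a R ρ lam e t :=
  integral_nonneg fun z => LocData.phi_nonneg (z, t)

theorem LocData.A_zero (h : LocData x a R ρ R' s0 lam e) {t : ℂ} (ht : ‖t‖ ≤ s0) :
    locA x a R ρ lam e t = 0 := by
  unfold locA
  have : ∀ z : ℂ, locPhi x a R ρ lam e (z, t) = 0 := by
    intro z
    refine h.phi_zero ?_
    intro hh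
    exact absurd (h.subK hh).2 (not_lt.mpr ht)
  simp [this]

/-- the lower bound -/
theorem LocData.A_lower [FiniteDimensional ℂ E] (h : LocData x a R ρ R' s0 lam e)
    (h1 : LelStmt E) {q0 : ℂ × ℂ} (hq1 : ‖q0.1 - a‖ < R) (hq2 : ‖q0.2‖ < ρ)
    (hq0 : inner ℂ e (x q0) • e = x q0) : Real.pi / 32 ≤ locA x a R ρ lam e q0.2 := by
  have hmD : q0 ∈ closedBall a R ×ˢ closedBall (0 : ℂ) ρ :=
    ⟨mem_closedBall_iff_norm.mpr hq1.le, mem_closedBall_zero_iff.mpr hq2.le⟩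
  have hi0 : inner ℂ e (x q0) ≠ 0 := by
    intro hc
    rw [hc, zero_smul] at hq0
    exact h.ne q0 hmD hq0.symm
  set O : Set ℂ := {z | (z, q0.2) ∈ locO x a R ρ e} with hO
  set w : ℂ → E := fun z => locw lam e x (z, q0.2) with hw
  have hlin : Continuous (fun z : ℂ => ((z, q0.2) : ℂ × ℂ)) := by fun_prop
  have hOo : IsOpen O := h.openO.preimage hlin
  have hlinA : ∀ z : ℂ, AnalyticAt ℂ (fun z : ℂ => ((z, q0.2) : ℂ × ℂ)) z := fun z =>
    AnalyticAt.prod analyticAt_id analyticAt_const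
  have hwA : AnalyticOnNhd ℂ w O := fun z hz =>
    AnalyticAt.comp (g := locw lam e x) (f := fun z : ℂ => ((z, q0.2) : ℂ × ℂ)) (x := z)
      (h.anO _ hz) (hlinA z)
  have hz0 : q0.1 ∈ O := ⟨⟨mem_ball_iff_norm.mpr hq1, mem_ball_zero_iff.mpr hq2⟩, hi0⟩
  have hw0 : w q0.1 = 0 := by
    show (lam : ℂ) • ((inner ℂ e (x q0))⁻¹ • x q0 - e) = 0
    have : (inner ℂ e (x q0))⁻¹ • x q0 = e := by
      conv_lhs => rw [← hq0]
      have h5 : inner ℂ e (inner ℂ e (x q0) • e) = inner ℂ e (x q0) := by rw [hq0]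
      rw [h5, smul_smul, inv_mul_cancel₀ hi0, one_smul]
    rw [this, sub_self, smul_zero]
  have hcomp : IsCompact {z | z ∈ O ∧ ‖w z‖ ≤ 1} := by
    have heq : {z | z ∈ O ∧ ‖w z‖ ≤ 1} =
        closedBall a R ∩ (fun z : ℂ => ((z, q0.2) : ℂ × ℂ)) ⁻¹' (locK x a R ρ lam e) := by
      ext z
      constructor
      · rintro ⟨hz1, hz2⟩
        exact ⟨ball_subset_closedBall hz1.1.1, h.memK hz1 hz2⟩
      · rintro ⟨_, hz2⟩
        have hz3 : (z, q0.2) ∈ locK x a R ρ lam e := hz2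
        have hz4 := h.memO hz3 hq2
        exact ⟨hz4, (h.norm_le_iff hz4.2).mpr hz3.2⟩
    rw [heq]
    exact (isCompact_closedBall a R).inter_right (h.compactK.isClosed.preimage hlin)
  have hmain := h1 O w q0.1 hOo hwA hz0 hw0 hcomp
  refine le_trans hmain (le_of_eq ?_)
  have hSo : IsOpen {z | z ∈ O ∧ ‖w z‖ < 1} :=
    hwA.continuousOn.norm.isOpen_inter_preimage hOo isOpen_Iio
  rw [← integral_indicator hSo.measurableSet]
  unfold locA
  refine integral_congr_ae (Filter.Eventually.of_forall fun z => ?_)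
  by_cases hz : z ∈ {z | z ∈ O ∧ ‖w z‖ < 1}
  · have hzO : (z, q0.2) ∈ locO x a R ρ e := hz.1
    have hzS : (z, q0.2) ∈ {q | q ∈ locO x a R ρ e ∧ ‖locw lam e x q‖ < 1} := hz
    have hd : deriv w z = dz (locw lam e x) (z, q0.2) := by
      have h6 : HasFDerivAt (locw lam e x) (fderiv ℂ (locw lam e x) (z, q0.2)) (z, q0.2) :=
        (h.anO _ hzO).differentiableAt.hasFDerivAt
      have h7 : HasDerivAt (fun z : ℂ => ((z, q0.2) : ℂ × ℂ)) ((1, 0) : ℂ × ℂ) z :=
        (hasDerivAt_id z).prodMk (hasDerivAt_const z q0.2)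
      exact (h6.comp_hasDerivAt z h7).deriv
    show Set.indicator _ _ z = locPhi x a R ρ lam e (z, q0.2)
    unfold locPhi
    rw [Set.indicator_of_mem hz, Set.indicator_of_mem hzS, hd]
  · have hzS : (z, q0.2) ∉ {q | q ∈ locO x a R ρ e ∧ ‖locw lam e x q‖ < 1} := hz
    show Set.indicator _ _ z = locPhi x a R ρ lam e (z, q0.2)
    unfold locPhi
    rw [Set.indicator_of_notMem hz, Set.indicator_of_notMem hzS]

/-- the area function in the weak inequality -/
theorem LocData.weak_bound [FiniteDimensional ℂ E] (h : LocData x a R ρ R' s0 lam e)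
    (h2 : WeakStmt E) (h4 : GramStmt E) {η : ℝ} (hη : 0 ≤ η)
    (hG : ∀ q ∈ ball a R ×ˢ ball (0 : ℂ) ρ, G3 (x q) (dz x q) (dt x q) ≤ η * ‖x q‖ ^ 6)
    {l l1 l2 : ℝ → ℝ} {c : ℂ} {b : ℝ} (hl1 : ∀ x, HasDerivAt l (l1 x) x)
    (hl2 : ∀ x, HasDerivAt l1 (l2 x) x) (hl2c : Continuous l2)
    (hlb : ∀ x, b ≤ x → l x = 0) (hcb : ‖c‖ + Real.sqrt b < ρ) :
    |∫ t : ℂ, (l1 (‖t - c‖ ^ 2) + ‖t - c‖ ^ 2 * l2 (‖t - c‖ ^ 2)) * locA x a R ρ lam e t| ≤
      12 * (lam ^ 4 * (1 + 1 / lam ^ 2) ^ 3 * η) * (volume : Measure ℂ).real (closedBall a R) *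
        ∫ t : ℂ, |l (‖t - c‖ ^ 2)| := by
  have hl1b := loc_deriv_zero hl1 hlb
  have hl2b := loc_deriv_zero hl2 hl1b
  have hlc : Continuous l := continuous_iff_continuousAt.mpr fun y => (hl1 y).continuousAt
  have hl1c : Continuous l1 := continuous_iff_continuousAt.mpr fun y => (hl2 y).continuousAt
  set κ : ℝ := lam ^ 4 * (1 + 1 / lam ^ 2) ^ 3 * η with hκ
  have hκ0 : 0 ≤ κ := by have := h.hl; positivity
  set g : ℂ → ℝ := fun t => l1 (‖t - c‖ ^ 2) + ‖t - c‖ ^ 2 * l2 (‖t - c‖ ^ 2) with hg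
  have hgc : Continuous g := by
    have h3 : Continuous (fun t : ℂ => ‖t - c‖ ^ 2) := by fun_prop
    exact (hl1c.comp h3).add (h3.mul (hl2c.comp h3))
  have hg0 : ∀ t : ℂ, t ∉ closedBall c (Real.sqrt b) → g t = 0 := by
    intro t ht
    rw [mem_closedBall_iff_norm, not_le] at ht
    have h3 : b ≤ ‖t - c‖ ^ 2 := by
      have := Real.lt_sq_of_sqrt_lt ht
      exact this.le
    show l1 (‖t - c‖ ^ 2) + ‖t - c‖ ^ 2 * l2 (‖t - c‖ ^ 2) = 0
    rw [hl1b _ h3, hl2b _ h3]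
    ring
  have hsub : ∀ t : ℂ, t ∈ closedBall c (Real.sqrt b) → ‖t‖ < ρ := by
    intro t ht
    rw [mem_closedBall_iff_norm] at ht
    have h3 : ‖t‖ ≤ ‖t - c‖ + ‖c‖ := by
      have := norm_add_le (t - c) c
      simpa using this
    linarith
  -- the product function
  set G : ℂ × ℂ → ℝ := fun q => g q.2 * locPhi x a R ρ lam e q with hGdef
  have hGcont : Continuous G := by
    rw [continuous_iff_continuousAt]
    intro q
    by_cases hq : ‖q.2‖ < ρ
    · exact (hgc.comp continuous_snd).continuousAt.mul (h.phi_continuousAt hq)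
    · have h3 : q.2 ∉ closedBall c (Real.sqrt b) := fun hh => hq (hsub _ hh)
      have h4 : G =ᶠ[𝓝 q] fun _ => 0 := by
        have h5 : IsOpen {q : ℂ × ℂ | q.2 ∉ closedBall c (Real.sqrt b)} :=
          (isClosed_closedBall.preimage continuous_snd).isOpen_compl
        filter_upwards [h5.mem_nhds h3] with y hy
        show g y.2 * _ = 0
        rw [hg0 _ hy, zero_mul]
      exact continuousAt_const.congr h4.symm
  have hGsupp : HasCompactSupport G := by
    refine HasCompactSupport.intro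
      ((isCompact_closedBall a R).prod (isCompact_closedBall c (Real.sqrt b))) ?_
    intro q hq
    rw [mem_prod, not_and_or] at hq
    rcases hq with hq | hq
    · show g q.2 * locPhi x a R ρ lam e (q.1, q.2) = 0
      rw [h.phi_zero_of_notMem hq, mul_zero]
    · show g q.2 * _ = 0
      rw [hg0 _ hq, zero_mul]
  have hGint : Integrable G ((volume : Measure ℂ).prod (volume : Measure ℂ)) := by
    rw [← Measure.volume_eq_prod]
    exact hGcont.integrable_of_hasCompactSupport hGsupp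
  -- Fubini
  have hF : ∫ t : ℂ, g t * locA x a R ρ lam e t = ∫ q : ℂ × ℂ, G q := by
    rw [Measure.volume_eq_prod, integral_prod_symm _ hGint]
    refine integral_congr_ae (Filter.Eventually.of_forall fun t => ?_)
    show g t * locA x a R ρ lam e t = ∫ z : ℂ, g t * locPhi x a R ρ lam e (z, t)
    rw [integral_const_mul]
    rfl
  have hSm : MeasurableSet {q | q ∈ locO x a R ρ e ∧ ‖locw lam e x q‖ < 1} :=
    h.openS.measurableSet
  have hF2 : ∫ q : ℂ × ℂ, G q = ∫ q in {q | q ∈ locO x a R ρ e ∧ ‖locw lam e x q‖ < 1},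
      (l1 (‖q.2 - c‖ ^ 2) + ‖q.2 - c‖ ^ 2 * l2 (‖q.2 - c‖ ^ 2)) *
        ((1 - ‖locw lam e x q‖ ^ 2) ^ 3 * ‖dz (locw lam e x) q‖ ^ 2) := by
    rw [← integral_indicator hSm]
    refine integral_congr_ae (Filter.Eventually.of_forall fun q => ?_)
    show g q.2 * locPhi x a R ρ lam e q = _
    unfold locPhi
    by_cases hq : q ∈ {q | q ∈ locO x a R ρ e ∧ ‖locw lam e x q‖ < 1}
    · rw [Set.indicator_of_mem hq, Set.indicator_of_mem hq]
    · rw [Set.indicator_of_notMem hq, Set.indicator_of_notMem hq, mul_zero]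
  -- compactness
  have hcomp : IsCompact {q | q ∈ locO x a R ρ e ∧ ‖locw lam e x q‖ ≤ 1 ∧ ‖q.2 - c‖ ^ 2 ≤ b} := by
    have heq : {q | q ∈ locO x a R ρ e ∧ ‖locw lam e x q‖ ≤ 1 ∧ ‖q.2 - c‖ ^ 2 ≤ b} =
        locK x a R ρ lam e ∩ {q | ‖q.2 - c‖ ^ 2 ≤ b} := by
      ext q
      constructor
      · rintro ⟨hq1, hq2, hq3⟩
        exact ⟨h.memK hq1 hq2, hq3⟩
      · rintro ⟨hq1, hq3⟩
        have hq3' : ‖q.2 - c‖ ^ 2 ≤ b := hq3
        have hq4 : q.2 ∈ closedBall c (Real.sqrt b) := by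
          rw [mem_closedBall_iff_norm]
          exact Real.le_sqrt_of_sq_le hq3'
        have hq5 := h.memO hq1 (hsub _ hq4)
        exact ⟨hq5, (h.norm_le_iff hq5.2).mpr hq1.2, hq3'⟩
    rw [heq]
    refine h.compactK.inter_right (isClosed_le ?_ continuous_const)
    fun_prop
  have hW := h2 (locO x a R ρ e) (locw lam e x) l l1 l2 c b h.openO h.anO hl1 hl2 hl2c hlb hcomp
  rw [← hF2, ← hF] at hW
  refine le_trans hW ?_
  rw [show 12 * κ * (volume : Measure ℂ).real (closedBall a R) * ∫ t : ℂ, |l (‖t - c‖ ^ 2)| =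
    12 * (κ * ((volume : Measure ℂ).real (closedBall a R) * ∫ t : ℂ, |l (‖t - c‖ ^ 2)|)) by ring]
  refine mul_le_mul_of_nonneg_left ?_ (by norm_num)
  -- the upper bound
  have hL : Continuous (fun t : ℂ => |l (‖t - c‖ ^ 2)|) := by
    have h3 : Continuous (fun t : ℂ => ‖t - c‖ ^ 2) := by fun_prop
    exact (hlc.comp h3).abs
  have hLs : HasCompactSupport (fun t : ℂ => |l (‖t - c‖ ^ 2)|) := by
    refine HasCompactSupport.intro (isCompact_closedBall c (Real.sqrt b)) ?_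
    intro t ht
    rw [mem_closedBall_iff_norm, not_le] at ht
    have h3 : b ≤ ‖t - c‖ ^ 2 := (Real.lt_sq_of_sqrt_lt ht).le
    rw [hlb _ h3, abs_zero]
  have hLi : Integrable (fun t : ℂ => |l (‖t - c‖ ^ 2)|) := hL.integrable_of_hasCompactSupport hLs
  have hPi : IntegrableOn (fun q : ℂ × ℂ => κ * |l (‖q.2 - c‖ ^ 2)|)
      (closedBall a R ×ˢ (univ : Set ℂ)) (volume : Measure (ℂ × ℂ)) := by
    rw [Measure.volume_eq_prod, IntegrableOn, ← Measure.prod_restrict]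
    have : Integrable (fun z : ℂ => κ) ((volume : Measure ℂ).restrict (closedBall a R)) :=
      integrableOn_const (isCompact_closedBall a R).measure_ne_top
    refine this.mul_prod (f := fun z : ℂ => κ) (g := fun t : ℂ => |l (‖t - c‖ ^ 2)|) ?_
    rw [Measure.restrict_univ]
    exact hLi
  have hsubS : {q | q ∈ locO x a R ρ e ∧ ‖locw lam e x q‖ < 1} ⊆ closedBall a R ×ˢ (univ : Set ℂ) :=
    fun q hq => ⟨ball_subset_closedBall hq.1.1.1, mem_univ _⟩
  calc ∫ q in {q | q ∈ locO x a R ρ e ∧ ‖locw lam e x q‖ < 1},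
        |l (‖q.2 - c‖ ^ 2)| * G2 (dz (locw lam e x) q) (dt (locw lam e x) q)
      ≤ ∫ q in {q | q ∈ locO x a R ρ e ∧ ‖locw lam e x q‖ < 1}, κ * |l (‖q.2 - c‖ ^ 2)| := by
        refine integral_mono_of_nonneg ?_ (hPi.mono_set hsubS) ?_
        · exact Filter.Eventually.of_forall fun q =>
            mul_nonneg (abs_nonneg _) (loc_G2_nonneg _ _)
        · refine (ae_restrict_iff' hSm).mpr (Filter.Eventually.of_forall fun q hq => ?_)
          show |l (‖q.2 - c‖ ^ 2)| * _ ≤ κ * |l (‖q.2 - c‖ ^ 2)|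
          rw [mul_comm κ]
          refine mul_le_mul_of_nonneg_left ?_ (abs_nonneg _)
          have hqD : q ∈ closedBall a R ×ˢ closedBall (0 : ℂ) ρ :=
            ⟨ball_subset_closedBall hq.1.1.1, ball_subset_closedBall hq.1.1.2⟩
          have hxq : 0 < ‖x q‖ ^ 6 := pow_pos (norm_pos_iff.mpr (h.ne q hqD)) 6
          have h5 := h4 x q e lam h.he h.hl (h.an q hqD).differentiableAt hq.1.2 hq.2
          have h6 := hG q hq.1.1
          have h7 : lam ^ 4 * (1 + 1 / lam ^ 2) ^ 3 * G3 (x q) (dz x q) (dt x q) ≤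
              κ * ‖x q‖ ^ 6 := by
            rw [hκ, mul_assoc (lam ^ 4 * (1 + 1 / lam ^ 2) ^ 3)]
            refine mul_le_mul_of_nonneg_left h6 ?_
            have := h.hl
            positivity
          have h8 : ‖x q‖ ^ 6 * G2 (dz (locw lam e x) q) (dt (locw lam e x) q) ≤
              ‖x q‖ ^ 6 * κ := by
            rw [mul_comm (‖x q‖ ^ 6) κ]
            exact le_trans h5 h7
          exact le_of_mul_le_mul_left h8 hxq
    _ ≤ ∫ q in closedBall a R ×ˢ (univ : Set ℂ), κ * |l (‖q.2 - c‖ ^ 2)| :=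
        setIntegral_mono_set hPi (Filter.Eventually.of_forall fun q =>
          mul_nonneg hκ0 (abs_nonneg _)) (LE.le.eventuallyLE hsubS)
    _ = κ * ((volume : Measure ℂ).real (closedBall a R) * ∫ t : ℂ, |l (‖t - c‖ ^ 2)|) := by
        rw [Measure.volume_eq_prod]
        have := setIntegral_prod_mul (μ := (volume : Measure ℂ)) (ν := (volume : Measure ℂ))
          (fun _ : ℂ => κ) (fun t : ℂ => |l (‖t - c‖ ^ 2)|) (closedBall a R) univ
        rw [this, Measure.restrict_univ, setIntegral_const, smul_eq_mul]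
        ring

/-- the core inequality -/
theorem LocData.core [FiniteDimensional ℂ E] (h : LocData x a R ρ R' s0 lam e)
    (h1 : LelStmt E) (h2 : WeakStmt E) (h4 : GramStmt E) {η : ℝ} (hη : 0 ≤ η)
    (hG : ∀ q ∈ ball a R ×ˢ ball (0 : ℂ) ρ, G3 (x q) (dz x q) (dt x q) ≤ η * ‖x q‖ ^ 6)
    {q0 : ℂ × ℂ} (hq1 : ‖q0.1 - a‖ < R) (hq2 : ‖q0.2‖ < ρ)
    (hq0 : inner ℂ e (x q0) • e = x q0) {C : ℝ}
    (hC : ∀ (a : ℂ → ℝ) (ε : ℝ), 0 ≤ ε → ContinuousOn a (ball 0 ρ) →
      (∀ t ∈ ball (0 : ℂ) ρ, 0 ≤ a t) → (∀ t, ‖t‖ ≤ s0 → a t = 0) →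
      (∀ (l l1 l2 : ℝ → ℝ) (c : ℂ) (b : ℝ), (∀ x, HasDerivAt l (l1 x) x) →
        (∀ x, HasDerivAt l1 (l2 x) x) → Continuous l2 → 0 < b → (∀ x, b ≤ x → l x = 0) →
        ‖c‖ + Real.sqrt b < ρ →
        |∫ t : ℂ, (l1 (‖t - c‖ ^ 2) + ‖t - c‖ ^ 2 * l2 (‖t - c‖ ^ 2)) * a t| ≤
          ε * ∫ t : ℂ, |l (‖t - c‖ ^ 2)|) →
      a q0.2 ≤ C * ε) :
    Real.pi / 32 ≤ C * (12 * (lam ^ 4 * (1 + 1 / lam ^ 2) ^ 3 * η) *
      (volume : Measure ℂ).real (closedBall a R)) := by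
  refine le_trans (h.A_lower h1 hq1 hq2 hq0) ?_
  refine hC _ _ ?_ h.continuousOn_A (fun t _ => LocData.A_nonneg t) (fun t ht => h.A_zero ht) ?_
  · have := h.hl
    positivity
  · intro l l1 l2 c b hl1 hl2 hl2c hb hlb hcb
    exact h.weak_bound h2 h4 hη hG hl1 hl2 hl2c hlb hcb

theorem loc_bound_cont [CompleteSpace E] {H : ℂ × ℂ → E} {D : Set (ℂ × ℂ)}
    (hH : AnalyticOnNhd ℂ H D) (hne : ∀ q ∈ D, H q ≠ 0) :
    ContinuousOn (fun q => G3 (H q) (dz H q) (dt H q) / ‖H q‖ ^ 6) D := by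
  have hHc : ContinuousOn H D := hH.continuousOn
  have hd : ContinuousOn (fun q => fderiv ℂ H q) D := hH.fderiv.continuousOn
  have hz : ContinuousOn (fun q => dz H q) D := hd.clm_apply continuousOn_const
  have ht : ContinuousOn (fun q => dt H q) D := hd.clm_apply continuousOn_const
  have h5 : ContinuousOn (fun q => ((H q, dz H q, dt H q) : E × E × E)) D :=
    hHc.prodMk (hz.prodMk ht)
  have h6 : ContinuousOn (fun q => G3 (H q) (dz H q) (dt H q)) D := by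
    have h7 := Continuous.comp_continuousOn (g := fun t : E × E × E => G3 t.1 t.2.1 t.2.2)
      loc_continuous_G3 h5
    simpa only [Function.comp_def] using h7
  refine ContinuousOn.div h6 (hHc.norm.pow 6) ?_
  intro q hq
  exact pow_ne_zero 6 (norm_ne_zero_iff.mpr (hne q hq))

theorem local_lemma [FiniteDimensional ℂ E] (h1 : LelStmt E) (h2 : WeakStmt E) (h3 : HarnackStmt)
    (h4 : GramStmt E) : LocalStmt E := by
  intro s U0 B H a R ρ hU hB hR hρ hH hHU hHs hH0 q0 hq0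
  by_contra hq0B
  have hρ0 : 0 < ρ := by linarith
  set D : Set (ℂ × ℂ) := closedBall a R ×ˢ closedBall (0 : ℂ) ρ with hD
  have hDc : IsCompact D := loc_isCompact_D a R ρ
  have hHc : ContinuousOn H D := hH.continuousOn
  have hq0D : q0 ∈ D := ⟨hq0.1, closedBall_subset_closedBall hρ.le hq0.2⟩
  -- the bad set
  set Z : Set (ℂ × ℂ) := {q | q ∈ D ∧ H q ∈ Bᶜ} with hZ
  have hZc : IsCompact Z := by
    have h5 : IsClosed Z := hHc.preimage_isClosed_of_isClosed hDc.isClosed hB.op.isClosed_compl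
    exact hDc.of_isClosed_subset h5 (fun q hq => hq.1)
  have hZne : Z.Nonempty := ⟨q0, hq0D, hq0B⟩
  obtain ⟨qa, hqa, hqa2⟩ := hZc.exists_isMaxOn hZne
    (f := fun q : ℂ × ℂ => ‖q.1 - a‖) (by fun_prop)
  obtain ⟨qb, hqb, hqb2⟩ := hZc.exists_isMinOn hZne
    (f := fun q : ℂ × ℂ => ‖q.2‖) (by fun_prop)
  have hqaR : ‖qa.1 - a‖ < R := by
    rcases lt_or_eq_of_le (mem_closedBall_iff_norm.mp hqa.1.1) with h5 | h5
    · exact h5
    · exact absurd (hHs qa ⟨mem_sphere_iff_norm.mpr h5, hqa.1.2⟩) hqa.2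
  have hqb0 : 0 < ‖qb.2‖ := by
    rw [norm_pos_iff]
    intro hc
    have h5 : qb = (qb.1, 0) := by rw [← hc]
    have h6 := hH0 qb.1 hqb.1.1
    rw [← h5] at h6
    exact hqb.2 h6
  obtain ⟨R', hR'1, hR'2⟩ := exists_between hqaR
  obtain ⟨s0, hs01, hs02⟩ := exists_between hqb0
  obtain ⟨C, hC0, hC⟩ := h3 ρ s0 q0.2 hρ hs01 (mem_closedBall_zero_iff.mp hq0.2)
  obtain ⟨L, hL1, lam, hlam, hL2⟩ := hB.deep
  -- the compact set
  set K : Set (ℂ × ℂ) := {q | q ∈ D ∧ (R' ≤ ‖q.1 - a‖ ∨ ‖q.2‖ ≤ s0)} with hK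
  have hKc : IsCompact K := by
    have h5 : IsClosed K := by
      have h6 : IsClosed {q : ℂ × ℂ | R' ≤ ‖q.1 - a‖ ∨ ‖q.2‖ ≤ s0} := by
        have h7 : IsClosed {q : ℂ × ℂ | R' ≤ ‖q.1 - a‖} :=
          isClosed_le continuous_const (by fun_prop)
        have h8 : IsClosed {q : ℂ × ℂ | ‖q.2‖ ≤ s0} :=
          isClosed_le (by fun_prop) continuous_const
        exact h7.union h8
      exact hDc.isClosed.inter h6
    exact hDc.of_isClosed_subset h5 (fun q hq => hq.1)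
  have hKB : H '' K ⊆ B := by
    rintro _ ⟨q, hq, rfl⟩
    by_contra hc
    have hqZ : q ∈ Z := ⟨hq.1, hc⟩
    rcases hq.2 with h5 | h5
    · have h6 : ‖q.1 - a‖ ≤ ‖qa.1 - a‖ := hqa2 hqZ
      linarith
    · have h6 : ‖qb.2‖ ≤ ‖q.2‖ := hqb2 hqZ
      linarith
  obtain ⟨m0, hm0⟩ := hL1 (H '' K) hKB (hKc.image_of_continuousOn (hHc.mono fun q hq => hq.1))
  -- the bound of the area density of `H`
  have hbd : ContinuousOn (fun q => G3 (H q) (dz H q) (dt H q) / ‖H q‖ ^ 6) D :=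
    loc_bound_cont hH (fun q hq => (hHU q hq).2)
  obtain ⟨M, hM⟩ := hDc.bddAbove_image hbd
  have hM' : ∀ q ∈ D, G3 (H q) (dz H q) (dt H q) ≤ max M 0 * ‖H q‖ ^ 6 := by
    intro q hq
    have h5 : G3 (H q) (dz H q) (dt H q) / ‖H q‖ ^ 6 ≤ M := hM ⟨q, hq, rfl⟩
    have h6 : 0 < ‖H q‖ ^ 6 := pow_pos (norm_pos_iff.mpr (hHU q hq).2) 6
    rw [div_le_iff₀ h6] at h5
    exact le_trans h5 (mul_le_mul_of_nonneg_right (le_max_left _ _) h6.le)
  -- choice of eps
  set κ : ℝ := C * (12 * (lam ^ 4 * (1 + 1 / lam ^ 2) ^ 3 * (max M 0)) *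
      (volume : Measure ℂ).real (closedBall a R)) with hκ
  have hκ0 : 0 ≤ κ := by
    have : (0 : ℝ) ≤ max M 0 := le_max_right _ _
    positivity
  set ε : ℝ := Real.pi / (64 * (κ + 1)) with hε
  have hπ := Real.pi_pos
  have hε0 : 0 < ε := by positivity
  obtain ⟨m1, hm1⟩ := hU ε hε0
  set m : ℕ := max m0 m1 with hm
  set x : ℂ × ℂ → E := fun q => s.F^[m] (H q) with hx
  have hxD : ∀ q ∈ D, x q ≠ 0 := fun q hq => loc_iter_ne s m (hHU q hq).2
  have hx0 : 0 < ‖x q0‖ := norm_pos_iff.mpr (hxD q0 hq0D)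
  set e : E := (((‖x q0‖ : ℝ) : ℂ))⁻¹ • x q0 with he
  have hne : ((‖x q0‖ : ℝ) : ℂ) ≠ 0 := by
    exact_mod_cast hx0.ne'
  have he1 : ‖e‖ = 1 := by
    rw [he, norm_smul, norm_inv, Complex.norm_real, Real.norm_of_nonneg hx0.le]
    exact inv_mul_cancel₀ hx0.ne'
  have hxan : AnalyticOnNhd ℂ x D := (loc_iter_an s m).comp hH (fun _ _ => mem_univ _)
  have hdata : LocData x a R ρ R' s0 lam e := by
    refine ⟨hxan, hxD, he1, hlam, hR'2, ?_⟩
    intro q hqD hq
    have hqK : q ∈ K := ⟨hqD, hq⟩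
    have h5 : x q ∈ L := hm0 m (le_max_left _ _) _ ⟨q, hqK, rfl⟩
    exact hL2 (H q0) (hHU q0 hq0D).2 hq0B m _ he1 _ h5
  have hGx : ∀ q ∈ ball a R ×ˢ ball (0 : ℂ) ρ,
      G3 (x q) (dz x q) (dt x q) ≤ (ε * max M 0) * ‖x q‖ ^ 6 := by
    intro q hq
    have hqD : q ∈ D := ⟨ball_subset_closedBall hq.1, ball_subset_closedBall hq.2⟩
    have hfd : DifferentiableAt ℂ (s.F^[m]) (H q) :=
      (loc_iter_an s m (H q) (mem_univ _)).differentiableAt
    have h5 := hm1 m (le_max_right _ _) (H q) (hHU q hqD).1 (dz H q) (dt H q)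
    rw [← loc_dz_comp hfd (hH q hqD).differentiableAt,
      ← loc_dt_comp hfd (hH q hqD).differentiableAt] at h5
    have h6 : ‖H q‖ ^ 6 * G3 (x q) (dz x q) (dt x q) ≤
        ε * (‖x q‖ ^ 6 * G3 (H q) (dz H q) (dt H q)) := h5
    have h7 : 0 < ‖H q‖ ^ 6 := pow_pos (norm_pos_iff.mpr (hHU q hqD).2) 6
    have h8 : ε * (‖x q‖ ^ 6 * G3 (H q) (dz H q) (dt H q)) ≤
        ε * (‖x q‖ ^ 6 * (max M 0 * ‖H q‖ ^ 6)) :=
      mul_le_mul_of_nonneg_left (mul_le_mul_of_nonneg_left (hM' q hqD) (by positivity)) hε0.le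
    have h9 : ‖H q‖ ^ 6 * G3 (x q) (dz x q) (dt x q) ≤
        ‖H q‖ ^ 6 * ((ε * max M 0) * ‖x q‖ ^ 6) := by
      refine le_trans (le_trans h6 h8) (le_of_eq ?_)
      ring
    exact le_of_mul_le_mul_left h9 h7
  have hq0Z : q0 ∈ Z := ⟨hq0D, hq0B⟩
  have hq0R : ‖q0.1 - a‖ < R := lt_of_le_of_lt (hqa2 hq0Z) hqaR
  have hq0ρ : ‖q0.2‖ < ρ := lt_of_le_of_lt (mem_closedBall_zero_iff.mp hq0.2) hρ
  have hin : inner ℂ e (x q0) = ((‖x q0‖ : ℝ) : ℂ) := by
    rw [he, inner_smul_left, map_inv₀, Complex.conj_ofReal, inner_self_eq_norm_sq_to_K]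
    field_simp
    rfl
  have hq0e : inner ℂ e (x q0) • e = x q0 := by
    rw [hin, he, smul_smul, mul_inv_cancel₀ hne, one_smul]
  have hfin := hdata.core h1 h2 h4 (η := ε * max M 0)
    (mul_nonneg hε0.le (le_max_right _ _)) hGx hq0R hq0ρ hq0e hC
  have h10 : C * (12 * (lam ^ 4 * (1 + 1 / lam ^ 2) ^ 3 * (ε * max M 0)) *
      (volume : Measure ℂ).real (closedBall a R)) = ε * κ := by
    rw [hκ]
    ring
  rw [h10] at hfin
  have h11 : ε * κ < Real.pi / 32 := by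
    have h12 : ε * (κ + 1) = Real.pi / 64 := by
      rw [hε]
      field_simp
    nlinarith
  linarith

end loc

end MFE
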