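import Pool.Agent.Lib.MFE.Defs

/-!
# Row R7: the toolkit of the comparison property, maximum principle (helper28)
-/

set_option autoImplicit false

open Set Metric Filter Topology
open scoped LinearAlgebra.Projectivization

namespace MFE

/-- data of a function which is analytic at a point -/
lemma exists_nice {g : ℂ → ℂ} {a : ℂ} (hg : AnalyticAt ℂ g a) (hg0 : g a ≠ 0) {p : ℂ → Prop}
    (hp : ∀ᶠ z in 𝓝 a, p z) :
    ∃ r : ℝ, 0 < r ∧ DifferentiableOn ℂ g (ball a r) ∧ (∀ z ∈ ball a r, g z ≠ 0) ∧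
      ∀ z ∈ ball a r, p z := by
  have h1 := hg.eventually_analyticAt
  have h2 := hg.continuousAt.eventually_ne hg0
  obtain ⟨r, hr, h⟩ := Metric.eventually_nhds_iff_ball.1 ((h1.and h2).and hp)
  exact ⟨r, hr, fun z hz => (h z hz).1.1.differentiableAt.differentiableWithinAt,
    fun z hz => (h z hz).1.2, fun z hz => (h z hz).2⟩

theorem LS.of_le_mul {W W1 : ℂ → ℝ} {a : ℂ} (h1 : LS W1 a) {g : ℂ → ℂ} (hg : AnalyticAt ℂ g a)
    (hg0 : g a ≠ 0) (hW : ∀ᶠ z in 𝓝 a, W1 z * ‖g z‖ ≤ W z) (ha : W a = W1 a * ‖g a‖) :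
    LS W a := by
  obtain ⟨R0, hR0, h⟩ := h1
  obtain ⟨r, hr, hgd, hgne, hgW⟩ := exists_nice hg hg0 hW
  refine ⟨min R0 r, lt_min hR0 hr, fun R hR hRlt k R' hRR' hk hkne hs => ?_⟩
  have hRr : R < r := lt_of_lt_of_le hRlt (min_le_right _ _)
  have hlt : R < min R' r := lt_min hRR' hRr
  have hb1 : ball a (min R' r) ⊆ ball a R' := ball_subset_ball (min_le_left _ _)
  have hb2 : ball a (min R' r) ⊆ ball a r := ball_subset_ball (min_le_right _ _)
  have h2 := h R hR (lt_of_lt_of_le hRlt (min_le_left _ _)) (fun z => k z / g z) (min R' r) hlt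
    ((hk.mono hb1).div (hgd.mono hb2) fun z hz => hgne z (hb2 hz))
    (fun z hz => div_ne_zero (hkne z (hb1 hz)) (hgne z (hb2 hz))) ?_
  · have hga : 0 < ‖g a‖ := norm_pos_iff.2 hg0
    rw [norm_div, lt_div_iff₀ hga] at h2
    rw [ha]
    exact h2
  · intro z hz
    have hzb : z ∈ ball a r := by
      rw [mem_sphere] at hz
      rw [mem_ball, hz]
      exact hRr
    have hgz : 0 < ‖g z‖ := norm_pos_iff.2 (hgne z hzb)
    rw [norm_div, lt_div_iff₀ hgz]
    exact lt_of_le_of_lt (hgW z hzb) (hs z hz)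

/-- the minimum modulus principle -/
lemma LS.one (a : ℂ) : LS (fun _ => 1) a := by
  refine ⟨1, one_pos, fun R hR _ k R' hRR' hk hkne hs => ?_⟩
  have hcl : closedBall a R ⊆ ball a R' := closedBall_subset_ball hRR'
  have hd : DifferentiableOn ℂ (fun z => (k z)⁻¹) (ball a R') := hk.inv hkne
  have hc : ContinuousOn (fun z => ‖(k z)⁻¹‖) (sphere a R) :=
    (hd.continuousOn.mono (sphere_subset_closedBall.trans hcl)).norm
  obtain ⟨z0, hz0, hmax⟩ := (isCompact_sphere a R).exists_isMaxOn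
    (NormedSpace.sphere_nonempty.2 hR.le) hc
  have hfr : ∀ z ∈ frontier (ball a R), ‖(k z)⁻¹‖ ≤ ‖(k z0)⁻¹‖ := by
    intro z hz
    rw [frontier_ball a hR.ne'] at hz
    exact hmax hz
  have hdc : DiffContOnCl ℂ (fun z => (k z)⁻¹) (ball a R) := by
    refine DifferentiableOn.diffContOnCl ?_
    rw [closure_ball a hR.ne']
    exact hd.mono hcl
  have h1 := Complex.norm_le_of_forall_mem_frontier_norm_le isBounded_ball hdc hfr
    (subset_closure (mem_ball_self hR))
  have h2 : ‖(k z0)⁻¹‖ < 1 := by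
    rw [norm_inv]
    exact inv_lt_one_of_one_lt₀ (hs z0 hz0)
  have h3 := lt_of_le_of_lt h1 h2
  rw [norm_inv] at h3
  have h4 : 0 < ‖k a‖ := norm_pos_iff.2 (hkne a (mem_ball_self (hR.trans hRR')))
  exact (inv_lt_one₀ h4).1 h3

theorem LS.of_le {W : ℂ → ℝ} {a : ℂ} {g : ℂ → ℂ} (hg : AnalyticAt ℂ g a)
    (hg0 : g a ≠ 0) (hW : ∀ᶠ z in 𝓝 a, ‖g z‖ ≤ W z) (ha : W a = ‖g a‖) :
    LS W a :=
  (LS.one a).of_le_mul hg hg0 (hW.mono fun z hz => by rwa [one_mul]) (by rw [one_mul, ha])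

theorem LS.max_principle {W : ℂ → ℝ} {R M : ℝ} (hR : 0 < R) (hM0 : 0 ≤ M)
    (hc : ContinuousOn W (closedBall 0 R)) (h : ∀ a ∈ ball (0 : ℂ) R, 0 < W a → LS W a)
    (hM : ∀ z ∈ sphere (0 : ℂ) R, W z ≤ M) : W 0 ≤ M := by
  by_contra hcon
  push Not at hcon
  -- the exponent
  obtain ⟨ε, hε, hεM⟩ : ∃ ε : ℝ, 0 < ε ∧ M * Real.exp (ε * R ^ 2) < W 0 := by
    have h1 : Tendsto (fun ε : ℝ => M * Real.exp (ε * R ^ 2)) (𝓝[>] 0) (𝓝 (M * Real.exp (0 * R ^ 2))) := by
      have : Continuous fun ε : ℝ => M * Real.exp (ε * R ^ 2) := by fun_prop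
      exact this.continuousAt.continuousWithinAt
    rw [zero_mul, Real.exp_zero, mul_one] at h1
    have h2 := (h1.eventually_lt_const hcon).and self_mem_nhdsWithin
    obtain ⟨ε, h3, h4⟩ := h2.exists
    exact ⟨ε, h4, h3⟩
  set V : ℂ → ℝ := fun z => W z * Real.exp (ε * ‖z‖ ^ 2) with hV
  have hVc : ContinuousOn V (closedBall 0 R) := hc.mul (by fun_prop)
  obtain ⟨a, ha, hmax⟩ := (isCompact_closedBall (0 : ℂ) R).exists_isMaxOn
    ⟨0, mem_closedBall_self hR.le⟩ hVc
  have hV0 : V 0 = W 0 := by simp [hV]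
  have h0a : W 0 ≤ V a := by
    rw [← hV0]
    exact hmax (mem_closedBall_self hR.le)
  have hab : a ∈ ball (0 : ℂ) R := by
    rcases eq_or_lt_of_le (mem_closedBall.1 ha) with h1 | h1
    · exfalso
      have h2 : V a ≤ M * Real.exp (ε * R ^ 2) := by
        rw [dist_zero_right] at h1
        simp only [hV]
        rw [h1]
        exact mul_le_mul_of_nonneg_right (hM a (by rw [mem_sphere, dist_zero_right, h1]))
          (Real.exp_pos _).le
      linarith
    · exact mem_ball.2 h1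
  have hWa : 0 < W a := by
    have h1 : 0 < V a := lt_of_lt_of_le (lt_of_le_of_lt hM0 hcon) h0a
    simp only [hV] at h1
    exact pos_of_mul_pos_left h1 (Real.exp_pos _).le
  obtain ⟨R0, hR0, hLS⟩ := h a hab hWa
  obtain ⟨δ, hδ, hδb⟩ := Metric.isOpen_ball.mem_nhds hab |> Metric.mem_nhds_iff.1
  set r := min R0 δ / 2 with hr
  have hr0 : 0 < r := by
    rw [hr]
    exact half_pos (lt_min hR0 hδ)
  have hr1 : r < R0 := by
    have := min_le_left R0 δ
    have := lt_min hR0 hδ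
    rw [hr]; linarith
  have hr2 : r < δ := by
    have := min_le_right R0 δ
    have := lt_min hR0 hδ
    rw [hr]; linarith
  set k : ℂ → ℂ := fun z => (W a : ℂ) *
    Complex.exp (-2 * ε * (starRingEnd ℂ a) * (z - a) - ε * r ^ 2 / 2) with hk
  have hkn : ∀ z, ‖k z‖ = W a * Real.exp (-2 * ε * ((starRingEnd ℂ a) * (z - a)).re -
      ε * r ^ 2 / 2) := by
    intro z
    simp only [hk]
    rw [norm_mul, Complex.norm_real, Real.norm_of_nonneg hWa.le, Complex.norm_exp]
    congr 2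
    have e : (-2 * (ε : ℂ) * (starRingEnd ℂ a) * (z - a) - ε * (r : ℂ) ^ 2 / 2) =
        ((-2 * ε : ℝ) : ℂ) * ((starRingEnd ℂ a) * (z - a)) - ((ε * r ^ 2 / 2 : ℝ) : ℂ) := by
      push_cast
      ring
    rw [e, Complex.sub_re, Complex.re_ofReal_mul, Complex.ofReal_re]
  have hlt := hLS r hr0 hr1 k (r + 1) (by linarith) (by
      simp only [hk]
      fun_prop) (by
      intro z _
      simp only [hk]
      exact mul_ne_zero (by exact_mod_cast hWa.ne') (Complex.exp_ne_zero _)) (by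
      intro z hz
      rw [mem_sphere, dist_eq_norm] at hz
      have hzb : z ∈ closedBall (0 : ℂ) R := by
        refine ball_subset_closedBall (hδb ?_)
        rw [mem_ball, dist_eq_norm, hz]
        exact hr2
      have h1 : V z ≤ V a := hmax hzb
      simp only [hV] at h1
      have h2 : ‖z‖ ^ 2 = ‖a‖ ^ 2 + 2 * ((starRingEnd ℂ a) * (z - a)).re + r ^ 2 := by
        have e : z = a + (z - a) := by ring
        conv_lhs => rw [e]
        rw [← Complex.normSq_eq_norm_sq, Complex.normSq_add, Complex.normSq_eq_norm_sq,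
          Complex.normSq_eq_norm_sq, hz]
        have e2 : (a * (starRingEnd ℂ) (z - a)).re = ((starRingEnd ℂ a) * (z - a)).re := by
          simp only [Complex.mul_re, Complex.conj_re, Complex.conj_im]
          ring
        rw [e2]
        ring
      rw [hkn]
      have h3 : W z ≤ W a * Real.exp (-2 * ε * ((starRingEnd ℂ a) * (z - a)).re - ε * r ^ 2) := by
        have h4 : W a * Real.exp (ε * ‖a‖ ^ 2) = W a * Real.exp (-2 * ε *
            ((starRingEnd ℂ a) * (z - a)).re - ε * r ^ 2) * Real.exp (ε * ‖z‖ ^ 2) := by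
          rw [mul_assoc, ← Real.exp_add]
          congr 2
          rw [h2]
          ring
        rw [h4] at h1
        exact le_of_mul_le_mul_right h1 (Real.exp_pos _)
      refine lt_of_le_of_lt h3 (mul_lt_mul_of_pos_left (Real.exp_lt_exp.2 ?_) hWa)
      have : 0 < ε * r ^ 2 := by positivity
      linarith)
  rw [hkn, sub_self, mul_zero, Complex.zero_re, mul_zero, zero_sub] at hlt
  have h5 : Real.exp (-(ε * r ^ 2 / 2)) < 1 := by
    rw [Real.exp_lt_one_iff]
    have : 0 < ε * r ^ 2 := by positivity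
    linarith
  nlinarith

/-- local branch of a power -/
theorem exists_branch {g : ℂ → ℂ} {a : ℂ} (hg : AnalyticAt ℂ g a) (hg0 : g a ≠ 0) (t : ℝ) :
    ∃ h : ℂ → ℂ, AnalyticAt ℂ h a ∧ h a ≠ 0 ∧ ∀ᶠ z in 𝓝 a, ‖h z‖ = ‖g z‖ ^ t := by
  have hn : 0 < ‖g a‖ := norm_pos_iff.2 hg0
  refine ⟨fun z => ((‖g a‖ ^ t : ℝ) : ℂ) * Complex.exp (t * Complex.log (g z / g a)), ?_, ?_, ?_⟩
  · refine analyticAt_const.mul (AnalyticAt.cexp' (analyticAt_const.mul ?_))
    refine AnalyticAt.clog (hg.div analyticAt_const hg0) ?_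
    rw [div_self hg0]
    exact Complex.one_mem_slitPlane
  · refine mul_ne_zero ?_ (Complex.exp_ne_zero _)
    exact_mod_cast (Real.rpow_pos_of_pos hn t).ne'
  · filter_upwards [hg.continuousAt.eventually_ne hg0] with z hz
    have hz' : 0 < ‖g z‖ := norm_pos_iff.2 hz
    rw [norm_mul, Complex.norm_real, Complex.norm_exp, Complex.re_ofReal_mul, Complex.log_re,
      Real.norm_of_nonneg (Real.rpow_pos_of_pos hn t).le, norm_div]
    rw [Real.rpow_def_of_pos hn, Real.rpow_def_of_pos hz', ← Real.exp_add,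
      Real.log_div hz'.ne' hn.ne']
    congr 1
    ring

end MFE
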