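import Pool.Agent.Lib.MFE.LS

/-!
# Row R9a: the modified norm (helper28)
-/

set_option autoImplicit false

open Set Metric Filter Topology
open scoped LinearAlgebra.Projectivization

namespace MFE

variable {E : Type*} [NormedAddCommGroup E] [InnerProductSpace ℂ E]

/-- the modified norm -/
noncomputable def pfun (e : E) (ϱ : ℝ) (x : E) : ℝ :=
  if ‖x - inner ℂ e x • e‖ ≤ ϱ * ‖inner ℂ e x‖ then
    Real.sqrt (1 + ϱ ^ 2) * ϱ ^ (-(ϱ ^ 2 / (1 + ϱ ^ 2))) *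
      ‖inner ℂ e x‖ ^ (1 - ϱ ^ 2 / (1 + ϱ ^ 2)) *
      ‖x - inner ℂ e x • e‖ ^ (ϱ ^ 2 / (1 + ϱ ^ 2))
  else ‖x‖

/-- the function of the inner part -/
noncomputable def pfun0 (e : E) (ϱ : ℝ) (x : E) : ℝ :=
  Real.sqrt (1 + ϱ ^ 2) * ϱ ^ (-(ϱ ^ 2 / (1 + ϱ ^ 2))) *
      ‖inner ℂ e x‖ ^ (1 - ϱ ^ 2 / (1 + ϱ ^ 2)) *
      ‖x - inner ℂ e x • e‖ ^ (ϱ ^ 2 / (1 + ϱ ^ 2))

theorem pfun_of_le {e : E} {ϱ : ℝ} {x : E}
    (h : ‖x - inner ℂ e x • e‖ ≤ ϱ * ‖inner ℂ e x‖) : pfun e ϱ x = pfun0 e ϱ x := if_pos h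

theorem pfun_of_gt {e : E} {ϱ : ℝ} {x : E}
    (h : ϱ * ‖inner ℂ e x‖ < ‖x - inner ℂ e x • e‖) : pfun e ϱ x = ‖x‖ := if_neg (not_le.2 h)

lemma inner_perp {e : E} (he : ‖e‖ = 1) (x : E) : inner ℂ e (x - inner ℂ e x • e) = 0 := by
  rw [inner_sub_right, inner_smul_right, inner_self_eq_norm_sq_to_K, he]
  simp

lemma norm_sq_split {e : E} (he : ‖e‖ = 1) (x : E) :
    ‖x‖ ^ 2 = ‖inner ℂ e x‖ ^ 2 + ‖x - inner ℂ e x • e‖ ^ 2 := by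
  have h1 : x = inner ℂ e x • e + (x - inner ℂ e x • e) := by abel
  have h2 : inner ℂ (inner ℂ e x • e) (x - inner ℂ e x • e) = 0 := by
    rw [inner_smul_left, inner_perp he, mul_zero]
  have h3 := norm_add_sq_eq_norm_sq_add_norm_sq_of_inner_eq_zero _ _ h2
  rw [← h1, norm_smul, he, mul_one] at h3
  rw [pow_two, h3]
  ring

lemma kap_pos {ϱ : ℝ} (hϱ : 0 < ϱ) : 0 < ϱ ^ 2 / (1 + ϱ ^ 2) := by positivity

lemma one_sub_kap {ϱ : ℝ} : 1 - ϱ ^ 2 / (1 + ϱ ^ 2) = 1 / (1 + ϱ ^ 2) := by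
  have : 1 + ϱ ^ 2 ≠ 0 := by positivity
  field_simp
  ring

lemma one_sub_kap_pos (ϱ : ℝ) : 0 < 1 - ϱ ^ 2 / (1 + ϱ ^ 2) := by
  rw [one_sub_kap]; positivity

lemma pfun0_nonneg (e : E) {ϱ : ℝ} (hϱ : 0 < ϱ) (x : E) : 0 ≤ pfun0 e ϱ x := by
  unfold pfun0
  positivity

theorem pfun_nonneg (e : E) {ϱ : ℝ} (hϱ : 0 < ϱ) (x : E) : 0 ≤ pfun e ϱ x := by
  by_cases h : ‖x - inner ℂ e x • e‖ ≤ ϱ * ‖inner ℂ e x‖
  · rw [pfun_of_le h]; exact pfun0_nonneg e hϱ x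
  · rw [pfun_of_gt (not_le.1 h)]; exact norm_nonneg x

/-- the weighted inequality of the means -/
theorem pfun0_le {e : E} (he : ‖e‖ = 1) {ϱ : ℝ} (hϱ : 0 < ϱ) (x : E) : pfun0 e ϱ x ≤ ‖x‖ := by
  have hk := kap_pos hϱ
  have hk1 := one_sub_kap_pos ϱ
  have h1ϱ : 0 < 1 + ϱ ^ 2 := by positivity
  set κ := ϱ ^ 2 / (1 + ϱ ^ 2) with hκ
  set A := ‖inner ℂ e x‖ with hA
  set B := ‖x - inner ℂ e x • e‖ with hB
  have hA0 : 0 ≤ A := norm_nonneg _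
  have hB0 : 0 ≤ B := norm_nonneg _
  have h1 := Real.geom_mean_le_arith_mean2_weighted (w₁ := 1 - κ) (w₂ := κ)
    (p₁ := A ^ 2 * (1 + ϱ ^ 2)) (p₂ := B ^ 2 * (1 + ϱ ^ 2) / ϱ ^ 2) hk1.le hk.le (by positivity)
    (by positivity) (by ring)
  have e1 : (1 - κ) * (A ^ 2 * (1 + ϱ ^ 2)) + κ * (B ^ 2 * (1 + ϱ ^ 2) / ϱ ^ 2) = ‖x‖ ^ 2 := by
    rw [norm_sq_split he x, hκ, one_sub_kap, ← hA, ← hB]
    field_simp
  have e2 : (A ^ 2 * (1 + ϱ ^ 2)) ^ (1 - κ) * (B ^ 2 * (1 + ϱ ^ 2) / ϱ ^ 2) ^ κ =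
      pfun0 e ϱ x ^ 2 := by
    unfold pfun0
    rw [← hκ, ← hA, ← hB]
    rw [mul_pow, mul_pow, mul_pow, Real.sq_sqrt h1ϱ.le, mul_div_assoc,
      Real.mul_rpow (by positivity) (by positivity), Real.mul_rpow (by positivity) (by positivity),
      Real.div_rpow (by positivity) (by positivity)]
    have e3 : (A ^ 2) ^ (1 - κ) = (A ^ (1 - κ)) ^ 2 := by
      rw [← Real.rpow_natCast, ← Real.rpow_mul hA0, ← Real.rpow_natCast, ← Real.rpow_mul hA0]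
      congr 1; push_cast; ring
    have e4 : (B ^ 2) ^ κ = (B ^ κ) ^ 2 := by
      rw [← Real.rpow_natCast, ← Real.rpow_mul hB0, ← Real.rpow_natCast, ← Real.rpow_mul hB0]
      congr 1; push_cast; ring
    have e5 : (ϱ ^ 2) ^ κ = (ϱ ^ κ) ^ 2 := by
      rw [← Real.rpow_natCast, ← Real.rpow_mul hϱ.le, ← Real.rpow_natCast, ← Real.rpow_mul hϱ.le]
      congr 1; push_cast; ring
    have e6 : (1 + ϱ ^ 2) ^ (1 - κ) * (1 + ϱ ^ 2) ^ κ = 1 + ϱ ^ 2 := by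
      rw [← Real.rpow_add h1ϱ]
      simp
    have hrk : ϱ ^ κ ≠ 0 := (Real.rpow_pos_of_pos hϱ κ).ne'
    rw [e3, e4, e5, Real.rpow_neg hϱ.le]
    field_simp
    linear_combination (A ^ (1 - κ)) ^ 2 * (B ^ κ) ^ 2 * e6
  rw [e1, e2] at h1
  exact (sq_le_sq₀ (pfun0_nonneg e hϱ x) (norm_nonneg x)).1 h1

theorem pfun0_le_pfun {e : E} (he : ‖e‖ = 1) {ϱ : ℝ} (hϱ : 0 < ϱ) (x : E) :
    pfun0 e ϱ x ≤ pfun e ϱ x := by
  by_cases h : ‖x - inner ℂ e x • e‖ ≤ ϱ * ‖inner ℂ e x‖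
  · rw [pfun_of_le h]
  · rw [pfun_of_gt (not_le.1 h)]; exact pfun0_le he hϱ x

theorem pfun_le {e : E} (he : ‖e‖ = 1) {ϱ : ℝ} (hϱ : 0 < ϱ) (x : E) : pfun e ϱ x ≤ ‖x‖ := by
  by_cases h : ‖x - inner ℂ e x • e‖ ≤ ϱ * ‖inner ℂ e x‖
  · rw [pfun_of_le h]; exact pfun0_le he hϱ x
  · rw [pfun_of_gt (not_le.1 h)]

/-- equality in the weighted inequality -/
theorem pfun0_of_eq {e : E} (he : ‖e‖ = 1) {ϱ : ℝ} (hϱ : 0 < ϱ) {x : E}
    (hx : ‖x - inner ℂ e x • e‖ = ϱ * ‖inner ℂ e x‖) : pfun0 e ϱ x = ‖x‖ := by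
  have hk := kap_pos hϱ
  have hk1 := one_sub_kap_pos ϱ
  have h1ϱ : 0 < 1 + ϱ ^ 2 := by positivity
  have h2 : ‖x‖ = Real.sqrt (1 + ϱ ^ 2) * ‖inner ℂ e x‖ := by
    rw [← Real.sqrt_sq (norm_nonneg x), norm_sq_split he x, hx]
    have : ‖inner ℂ e x‖ ^ 2 + (ϱ * ‖inner ℂ e x‖) ^ 2 = (1 + ϱ ^ 2) * ‖inner ℂ e x‖ ^ 2 := by
      ring
    rw [this, Real.sqrt_mul h1ϱ.le, Real.sqrt_sq (norm_nonneg _)]
  rw [h2]
  unfold pfun0
  rw [hx]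
  set κ := ϱ ^ 2 / (1 + ϱ ^ 2) with hκ
  set A := ‖inner ℂ e x‖ with hA
  have hA0 : 0 ≤ A := norm_nonneg _
  rcases eq_or_lt_of_le hA0 with h | h
  · rw [← h, mul_zero, mul_zero, Real.zero_rpow hk.ne', mul_zero]
  · have hrk : ϱ ^ κ ≠ 0 := (Real.rpow_pos_of_pos hϱ κ).ne'
    rw [Real.mul_rpow hϱ.le hA0, Real.rpow_neg hϱ.le]
    have e1 : A ^ (1 - κ) * A ^ κ = A := by
      rw [← Real.rpow_add h]
      simp
    field_simp
    linear_combination e1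

theorem pfun_of_ge {e : E} (he : ‖e‖ = 1) {ϱ : ℝ} (hϱ : 0 < ϱ) {x : E}
    (hx : ϱ * ‖inner ℂ e x‖ ≤ ‖x - inner ℂ e x • e‖) : pfun e ϱ x = ‖x‖ := by
  rcases eq_or_lt_of_le hx with h | h
  · rw [pfun_of_le h.symm.le]; exact pfun0_of_eq he hϱ h.symm
  · exact pfun_of_gt h

theorem continuous_pfun0 {e : E} {ϱ : ℝ} (hϱ : 0 < ϱ) : Continuous (pfun0 e ϱ) := by
  have hk := kap_pos hϱ
  have hk1 := one_sub_kap_pos ϱ
  have h1 : Continuous fun x : E => ‖inner ℂ e x‖ := by fun_prop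
  have h2 : Continuous fun x : E => ‖x - inner ℂ e x • e‖ := by fun_prop
  unfold pfun0
  exact (continuous_const.mul (h1.rpow_const fun x => Or.inr hk1.le)).mul
    (h2.rpow_const fun x => Or.inr hk.le)

theorem continuous_pfun {e : E} (he : ‖e‖ = 1) {ϱ : ℝ} (hϱ : 0 < ϱ) : Continuous (pfun e ϱ) := by
  have h1 : Continuous fun x : E => ϱ * ‖inner ℂ e x‖ := by fun_prop
  have h2 : Continuous fun x : E => ‖x - inner ℂ e x • e‖ := by fun_prop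
  have h3 := Continuous.if_le (continuous_pfun0 (e := e) hϱ) continuous_norm h2 h1
    (fun x hx => pfun0_of_eq he hϱ hx)
  exact h3

theorem continuousOn_pfun {e : E} (he : ‖e‖ = 1) {ϱ : ℝ} (hϱ : 0 < ϱ) :
    ContinuousOn (pfun e ϱ) {x | x ≠ 0} := (continuous_pfun he hϱ).continuousOn

/-- near a point of the line through `e` -/
theorem pfun_bound {e : E} (he : ‖e‖ = 1) {ϱ : ℝ} (hϱ : 0 < ϱ) {ψ : ℂ → E} {a : ℂ}
    (hψ : AnalyticAt ℂ ψ a) (h0 : ψ a ≠ 0) (ha : ψ a - inner ℂ e (ψ a) • e = 0) :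
    ∃ C : ℝ, ∀ᶠ z in 𝓝 a, pfun e ϱ (ψ z) ≤ C * ‖z - a‖ ^ (ϱ ^ 2 / (1 + ϱ ^ 2)) := by
  have hk := kap_pos hϱ
  have hk1 := one_sub_kap_pos ϱ
  have hA : 0 < ‖inner ℂ e (ψ a)‖ := by
    rw [norm_pos_iff]
    intro h
    rw [h, zero_smul, sub_zero] at ha
    exact h0 ha
  have c1 : ContinuousAt (fun z => ‖inner ℂ e (ψ z)‖) a :=
    (((innerSL ℂ e).analyticAt (ψ a)).comp hψ).continuousAt.norm
  have hd : DifferentiableAt ℂ (fun z => ψ z - inner ℂ e (ψ z) • e) a := by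
    have h1 : DifferentiableAt ℂ (fun z => inner ℂ e (ψ z)) a :=
      ((innerSL ℂ e).differentiableAt).comp a hψ.differentiableAt
    exact hψ.differentiableAt.sub (h1.smul_const e)
  have hO := hd.isBigO_sub
  rw [ha] at hO
  simp only [sub_zero] at hO
  obtain ⟨C1, hC1, hb⟩ := hO.exists_pos
  have hb' := hb.bound
  have e1 : ∀ᶠ z in 𝓝 a, ‖inner ℂ e (ψ z)‖ < ‖inner ℂ e (ψ a)‖ + 1 :=
    c1.eventually_lt_const (by linarith)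
  have e2 : ∀ᶠ z in 𝓝 a, ‖ψ z - inner ℂ e (ψ z) • e‖ < ϱ * ‖inner ℂ e (ψ z)‖ := by
    refine hd.continuousAt.norm.eventually_lt (continuousAt_const.mul c1) ?_
    rw [ha, norm_zero]
    positivity
  refine ⟨Real.sqrt (1 + ϱ ^ 2) * ϱ ^ (-(ϱ ^ 2 / (1 + ϱ ^ 2))) *
    (‖inner ℂ e (ψ a)‖ + 1) ^ (1 - ϱ ^ 2 / (1 + ϱ ^ 2)) * C1 ^ (ϱ ^ 2 / (1 + ϱ ^ 2)), ?_⟩
  filter_upwards [e1, e2, hb'] with z h1 h2 h3
  rw [pfun_of_le h2.le]
  unfold pfun0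
  set κ := ϱ ^ 2 / (1 + ϱ ^ 2) with hκ
  have h4 : ‖ψ z - inner ℂ e (ψ z) • e‖ ^ κ ≤ C1 ^ κ * ‖z - a‖ ^ κ := by
    rw [← Real.mul_rpow hC1.le (norm_nonneg _)]
    exact Real.rpow_le_rpow (norm_nonneg _) h3 hk.le
  have h5 : ‖inner ℂ e (ψ z)‖ ^ (1 - κ) ≤ (‖inner ℂ e (ψ a)‖ + 1) ^ (1 - κ) :=
    Real.rpow_le_rpow (norm_nonneg _) h1.le hk1.le
  have h6 : 0 ≤ Real.sqrt (1 + ϱ ^ 2) * ϱ ^ (-κ) := by positivity
  calc _ ≤ Real.sqrt (1 + ϱ ^ 2) * ϱ ^ (-κ) * (‖inner ℂ e (ψ a)‖ + 1) ^ (1 - κ) *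
        (C1 ^ κ * ‖z - a‖ ^ κ) :=
        mul_le_mul (mul_le_mul_of_nonneg_left h5 h6) h4 (by positivity) (by positivity)
    _ = _ := by ring

/-- holomorphic minorants -/
theorem pfun_minorant {e : E} (he : ‖e‖ = 1) {ϱ : ℝ} (hϱ : 0 < ϱ) {ψ : ℂ → E} {a : ℂ}
    (hψ : AnalyticAt ℂ ψ a) (h0 : 0 < pfun e ϱ (ψ a)) :
    ∃ g : ℂ → ℂ, AnalyticAt ℂ g a ∧ g a ≠ 0 ∧ (∀ᶠ z in 𝓝 a, ‖g z‖ ≤ pfun e ϱ (ψ z)) ∧
      pfun e ϱ (ψ a) = ‖g a‖ := by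
  have hk := kap_pos hϱ
  have hk1 := one_sub_kap_pos ϱ
  have han : ∀ u : E, AnalyticAt ℂ (fun z => inner ℂ u (ψ z)) a := fun u =>
    ((innerSL ℂ u).analyticAt (ψ a)).comp hψ
  by_cases hB : ‖ψ a - inner ℂ e (ψ a) • e‖ ≤ ϱ * ‖inner ℂ e (ψ a)‖
  · rw [pfun_of_le hB] at h0 ⊢
    have hA0 : inner ℂ e (ψ a) ≠ 0 := by
      intro h
      unfold pfun0 at h0
      rw [h, norm_zero, Real.zero_rpow hk1.ne', mul_zero, zero_mul] at h0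
      exact lt_irrefl _ h0
    have hB0 : 0 < ‖ψ a - inner ℂ e (ψ a) • e‖ := by
      rcases eq_or_lt_of_le (norm_nonneg (ψ a - inner ℂ e (ψ a) • e)) with h | h
      · exfalso
        unfold pfun0 at h0
        rw [← h, Real.zero_rpow hk.ne', mul_zero] at h0
        exact lt_irrefl _ h0
      · exact h
    set v := ψ a - inner ℂ e (ψ a) • e with hv
    set u : E := ((‖v‖⁻¹ : ℝ) : ℂ) • v with hu
    have hve : inner ℂ v e = 0 := by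
      have h1 : inner ℂ e v = 0 := inner_perp he (ψ a)
      rw [← inner_conj_symm, h1, map_zero]
    have hue : inner ℂ u e = 0 := by rw [hu, inner_smul_left, hve, mul_zero]
    have hun : ‖u‖ = 1 := by
      rw [hu, norm_smul, Complex.norm_real, norm_inv, norm_norm]
      exact inv_mul_cancel₀ hB0.ne'
    have huz : ∀ x : E, inner ℂ u x = inner ℂ u (x - inner ℂ e x • e) := fun x => by
      rw [inner_sub_right, inner_smul_right, hue, mul_zero, sub_zero]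
    have hua : ‖inner ℂ u (ψ a)‖ = ‖v‖ := by
      rw [huz, ← hv, hu, inner_smul_left, inner_self_eq_norm_sq_to_K, norm_mul]
      simp only [RCLike.norm_conj, Complex.norm_real, norm_inv, norm_norm, norm_pow,
        RCLike.norm_ofReal, abs_norm]
      field_simp
    have hua0 : inner ℂ u (ψ a) ≠ 0 := by
      rw [← norm_pos_iff, hua]; exact hB0
    obtain ⟨g1, hg1, hg10, hg1n⟩ := exists_branch (han e) hA0 (1 - ϱ ^ 2 / (1 + ϱ ^ 2))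
    obtain ⟨g2, hg2, hg20, hg2n⟩ := exists_branch (han u) hua0 (ϱ ^ 2 / (1 + ϱ ^ 2))
    set c : ℝ := Real.sqrt (1 + ϱ ^ 2) * ϱ ^ (-(ϱ ^ 2 / (1 + ϱ ^ 2))) with hc
    have hc0 : 0 < c := by
      rw [hc]
      have h1 : 0 < ϱ ^ (-(ϱ ^ 2 / (1 + ϱ ^ 2))) := Real.rpow_pos_of_pos hϱ _
      positivity
    refine ⟨fun z => (c : ℂ) * g1 z * g2 z, (analyticAt_const.mul hg1).mul hg2, ?_, ?_, ?_⟩
    · exact mul_ne_zero (mul_ne_zero (by exact_mod_cast hc0.ne') hg10) hg20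
    · filter_upwards [hg1n, hg2n] with z h1 h2
      refine le_trans ?_ (pfun0_le_pfun he hϱ (ψ z))
      rw [norm_mul, norm_mul, Complex.norm_real, Real.norm_of_nonneg hc0.le, h1, h2]
      unfold pfun0
      refine mul_le_mul_of_nonneg_left (Real.rpow_le_rpow (norm_nonneg _) ?_ hk.le) (by positivity)
      rw [huz]
      have h3 := norm_inner_le_norm (𝕜 := ℂ) u (ψ z - inner ℂ e (ψ z) • e)
      rwa [hun, one_mul] at h3
    · have h1 := hg1n.self_of_nhds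
      have h2 := hg2n.self_of_nhds
      rw [norm_mul, norm_mul, Complex.norm_real, Real.norm_of_nonneg hc0.le, h1, h2, hua]
      rfl
  · have hB' := not_le.1 hB
    rw [pfun_of_gt hB'] at h0 ⊢
    set u : E := ((‖ψ a‖⁻¹ : ℝ) : ℂ) • ψ a with hu
    have hun : ‖u‖ = 1 := by
      rw [hu, norm_smul, Complex.norm_real, norm_inv, norm_norm]
      exact inv_mul_cancel₀ h0.ne'
    have hua : ‖inner ℂ u (ψ a)‖ = ‖ψ a‖ := by
      rw [hu, inner_smul_left, inner_self_eq_norm_sq_to_K, norm_mul]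
      simp only [RCLike.norm_conj, Complex.norm_real, norm_inv, norm_norm, norm_pow,
        RCLike.norm_ofReal, abs_norm]
      field_simp
    refine ⟨fun z => inner ℂ u (ψ z), han u, ?_, ?_, hua.symm⟩
    · rw [← norm_pos_iff, hua]; exact h0
    · have e1 : ∀ᶠ z in 𝓝 a, ϱ * ‖inner ℂ e (ψ z)‖ < ‖ψ z - inner ℂ e (ψ z) • e‖ := by
        refine ContinuousAt.eventually_lt ?_ ?_ hB'
        · exact continuousAt_const.mul (han e).continuousAt.norm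
        · exact (hψ.continuousAt.sub ((han e).continuousAt.smul continuousAt_const)).norm
      filter_upwards [e1] with z hz
      rw [pfun_of_gt hz]
      have h3 := norm_inner_le_norm (𝕜 := ℂ) u (ψ z)
      rwa [hun, one_mul] at h3

end MFE
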