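import Pool.Agent.Lib.MFE.Props
import Pool.Agent.Lib.MFE.LS
import Pool.Agent.Lib.MFE.PFun
import Pool.Agent.Lib.MFE.Sd

/-!
# Row R9b: rigidity near the minimum of `r`
-/

set_option autoImplicit false

open Set Metric Filter Topology

namespace MFE

variable {E : Type*} [NormedAddCommGroup E] [InnerProductSpace ℂ E]

/-- the comparison function -/
noncomputable def Wf (B : Set E) (r0 : ℝ) (ψ : ℂ → E) (e : E) (c1 : ℝ) (z3 z : ℂ) : ℝ :=
  max 1 (r0 * ‖ψ z‖ / infDist (ψ z) Bᶜ) * (pfun e c1 (ψ z) / ‖ψ z‖) *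
    ‖z - z3‖ ^ (-(c1 ^ 2 / (1 + c1 ^ 2) / 2))

theorem Wf_z3 (B : Set E) (r0 : ℝ) (ψ : ℂ → E) (e : E) {c1 : ℝ} (hc : 0 < c1) (z3 : ℂ) :
    Wf B r0 ψ e c1 z3 z3 = 0 := by
  unfold Wf
  rw [sub_self, norm_zero, Real.zero_rpow, mul_zero]
  have : 0 < c1 ^ 2 / (1 + c1 ^ 2) / 2 := by positivity
  linarith

theorem rigid [FiniteDimensional ℂ E] (h : BStmt E) : RigidStmt E := by
  intro s U0 B N r0 μ0 hC hB hT hμ0 hμr c hc
  have hcone := hB.cone
  have h0B : (0 : E) ∉ B := hcone.1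
  have hBc : (Bᶜ).Nonempty := ⟨0, h0B⟩
  have hBcl : IsClosed Bᶜ := hB.op.isClosed_compl
  have hr0 := hT.pos
  -- the constants
  obtain ⟨c1, hc1, hc1c, hc1r⟩ : ∃ c1 : ℝ, 0 < c1 ∧ c1 ≤ c ∧ 4 * c1 ≤ r0 - μ0 :=
    ⟨min c ((r0 - μ0) / 4), lt_min hc (by linarith), min_le_left _ _, by
      have := min_le_right c ((r0 - μ0) / 4)
      linarith⟩
  set κ : ℝ := c1 ^ 2 / (1 + c1 ^ 2) with hκ
  have hκ0 : 0 < κ := by positivity
  obtain ⟨τ, hτ1, hτa, hτb⟩ : ∃ τ : ℝ, 1 < τ ∧ τ * μ0 + 2 * c1 < r0 ∧ τ ^ 2 < (5 / 2 : ℝ) ^ (κ / 2) := by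
    have hM1 : 1 < (r0 + μ0) / (2 * μ0) := by
      rw [lt_div_iff₀ (by linarith)]
      linarith
    have hM2 : 1 < (5 / 2 : ℝ) ^ (κ / 4) := Real.one_lt_rpow (by norm_num) (by positivity)
    obtain ⟨τ, h1, h2⟩ := exists_between (lt_min hM1 hM2)
    refine ⟨τ, h1, ?_, ?_⟩
    · have h3 := h2.trans_le (min_le_left _ _)
      rw [lt_div_iff₀ (by linarith)] at h3
      linarith
    · have h3 := h2.trans_le (min_le_right _ _)
      have h4 : ((5 / 2 : ℝ) ^ (κ / 4)) ^ 2 = (5 / 2 : ℝ) ^ (κ / 2) := by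
        rw [← Real.rpow_natCast, ← Real.rpow_mul (by norm_num)]
        congr 1
        push_cast
        ring
      rw [← h4]
      exact pow_lt_pow_left₀ h3 (by linarith) two_ne_zero
  refine ⟨τ, hτ1, fun ψ μ hψ hψN hμ hμ' hlow h0 z1 hz1 => ?_⟩
  by_contra hcon
  push Not at hcon
  have h0mem : (0 : ℂ) ∈ ball (0 : ℂ) 1 := mem_ball_self one_pos
  have hne : ∀ z ∈ ball (0 : ℂ) 1, ψ z ≠ 0 := fun z hz h => h0B (h ▸ hT.sub (hψN z hz))
  have hnp : ∀ z ∈ ball (0 : ℂ) 1, 0 < ‖ψ z‖ := fun z hz => norm_pos_iff.2 (hne z hz)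
  have hρ : ∀ z ∈ ball (0 : ℂ) 1, 0 < infDist (ψ z) Bᶜ := fun z hz => by
    have h1 := hlow z hz
    have h2 := mul_pos hμ (hnp z hz)
    by_contra h3
    have h4 : τ * infDist (ψ z) Bᶜ ≤ 0 := mul_nonpos_of_nonneg_of_nonpos (by linarith) (not_lt.1 h3)
    linarith
  have hψc : ∀ z ∈ ball (0 : ℂ) 1, ContinuousAt ψ z := fun z hz => (hψ z hz).continuousAt
  -- the point `z3`
  obtain ⟨z3, hz3, hsd3⟩ : ∃ z3 : ℂ, ‖z3‖ ≤ 1 / 5 ∧ sd (ψ z3) (ψ 0) = c1 := by
    have hcont : ContinuousOn (fun t : ℝ => sd (ψ (t * z1)) (ψ 0)) (Icc 0 1) := by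
      intro t ht
      have hm : (t : ℂ) * z1 ∈ ball (0 : ℂ) 1 := by
        rw [mem_ball_zero_iff, norm_mul, Complex.norm_real, Real.norm_of_nonneg ht.1]
        nlinarith [norm_nonneg z1, ht.2]
      have h1 : ContinuousAt (fun t : E × E => sd t.1 t.2) (ψ ((t : ℂ) * z1), ψ 0) :=
        sd_continuousAt (hne _ hm) (hne _ h0mem)
      have h2 : ContinuousAt (fun t : ℝ => (ψ ((t : ℂ) * z1), ψ 0)) t := by
        refine ContinuousAt.prodMk ?_ continuousAt_const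
        exact ContinuousAt.comp (f := fun t : ℝ => (t : ℂ) * z1) (hψc _ hm)
          (by fun_prop)
      exact (ContinuousAt.comp (f := fun t : ℝ => (ψ ((t : ℂ) * z1), ψ 0)) h1 h2).continuousWithinAt
    have hv := intermediate_value_Icc (zero_le_one' ℝ) hcont
    have h5 : c1 ∈ Icc (sd (ψ ((0 : ℝ) * z1)) (ψ 0)) (sd (ψ ((1 : ℝ) * z1)) (ψ 0)) := by
      constructor
      · simp only [Complex.ofReal_zero, zero_mul]
        rw [sd_self (hne 0 h0mem)]
        exact hc1.le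
      · simp only [Complex.ofReal_one, one_mul]
        exact hc1c.trans hcon
    obtain ⟨t, ht, hts⟩ := hv h5
    refine ⟨(t : ℂ) * z1, ?_, hts⟩
    rw [norm_mul, Complex.norm_real, Real.norm_of_nonneg ht.1]
    nlinarith [norm_nonneg z1, ht.2]
  have hz3m : z3 ∈ ball (0 : ℂ) 1 := by
    rw [mem_ball_zero_iff]
    linarith
  have hz30 : z3 ≠ 0 := by
    rintro rfl
    rw [sd_self (hne 0 h0mem)] at hsd3
    linarith
  obtain ⟨e, he, ⟨c', hc', hce⟩, hsde⟩ := sd_unit (hne z3 hz3m)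
  have hsub : closedBall (0 : ℂ) (3 / 4) ⊆ ball (0 : ℂ) 1 := closedBall_subset_ball (by norm_num)
  set W := Wf B r0 ψ e c1 z3 with hW
  -- continuity of the factors
  have hρc : ∀ z ∈ ball (0 : ℂ) 1, ContinuousAt (fun z => infDist (ψ z) Bᶜ) z := fun z hz =>
    ContinuousAt.comp (f := ψ) (continuous_infDist_pt Bᶜ).continuousAt (hψc z hz)
  have hmaxc : ∀ z ∈ ball (0 : ℂ) 1, ContinuousAt
      (fun z => max 1 (r0 * ‖ψ z‖ / infDist (ψ z) Bᶜ)) z := fun z hz =>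
    continuousAt_const.max ((continuousAt_const.mul (hψc z hz).norm).div (hρc z hz) (hρ z hz).ne')
  have hpc : ∀ z ∈ ball (0 : ℂ) 1, ContinuousAt (fun z => pfun e c1 (ψ z)) z := fun z hz =>
    ContinuousAt.comp (f := ψ)
      ((continuousOn_pfun he hc1).continuousAt (isOpen_ne.mem_nhds (hne z hz))) (hψc z hz)
  have hWc : ContinuousOn W (closedBall 0 (3 / 4)) := by
    intro z hz
    have hz1' := hsub hz
    by_cases hzz : z = z3
    · subst hzz
      refine ContinuousAt.continuousWithinAt ?_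
      have hpar : ψ z - inner ℂ e (ψ z) • e = 0 := by
        have h1 := norm_mul_sd (hne z hz1') he
        rw [← hsde, sd_self (hne z hz1'), mul_zero] at h1
        exact norm_eq_zero.1 h1.symm
      obtain ⟨C, hC'⟩ := pfun_bound he hc1 (hψ z hz1') (hne z hz1') hpar
      unfold ContinuousAt
      rw [hW, Wf_z3 B r0 ψ e hc1 z]
      -- upper bound
      have hup : ∀ᶠ x in 𝓝 z, Wf B r0 ψ e c1 z x ≤
          max 1 (r0 * ‖ψ x‖ / infDist (ψ x) Bᶜ) * (|C| / ‖ψ x‖) * ‖x - z‖ ^ (κ / 2) := by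
        filter_upwards [hC', isOpen_ball.mem_nhds hz1'] with x hx hxm
        have hxp := hnp x hxm
        by_cases hxz : x = z
        · subst hxz
          rw [Wf_z3 B r0 ψ e hc1 x]
          positivity
        · have hn : 0 < ‖x - z‖ := norm_pos_iff.2 (sub_ne_zero.2 hxz)
          unfold Wf
          rw [← hκ]
          have h2 : ‖x - z‖ ^ (κ / 2) = ‖x - z‖ ^ κ * ‖x - z‖ ^ (-(κ / 2)) := by
            rw [← Real.rpow_add hn]
            congr 1
            ring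
          rw [h2]
          have h3 : pfun e c1 (ψ x) / ‖ψ x‖ ≤ |C| / ‖ψ x‖ * ‖x - z‖ ^ κ := by
            rw [div_mul_eq_mul_div]
            gcongr
            exact hx.trans (by gcongr; exact le_abs_self C)
          have h4 : 0 ≤ max 1 (r0 * ‖ψ x‖ / infDist (ψ x) Bᶜ) := le_trans zero_le_one (le_max_left _ _)
          calc max 1 (r0 * ‖ψ x‖ / infDist (ψ x) Bᶜ) * (pfun e c1 (ψ x) / ‖ψ x‖) *
                ‖x - z‖ ^ (-(κ / 2))
              ≤ max 1 (r0 * ‖ψ x‖ / infDist (ψ x) Bᶜ) * (|C| / ‖ψ x‖ * ‖x - z‖ ^ κ) *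
                ‖x - z‖ ^ (-(κ / 2)) := by gcongr
            _ = _ := by ring
      have hlo : ∀ᶠ x in 𝓝 z, 0 ≤ Wf B r0 ψ e c1 z x := Eventually.of_forall fun x => by
        unfold Wf
        have := pfun_nonneg e hc1 (ψ x)
        positivity
      have hlim : Tendsto (fun x => max 1 (r0 * ‖ψ x‖ / infDist (ψ x) Bᶜ) * (|C| / ‖ψ x‖) *
          ‖x - z‖ ^ (κ / 2)) (𝓝 z) (𝓝 0) := by
        have h1 : ContinuousAt (fun x => max 1 (r0 * ‖ψ x‖ / infDist (ψ x) Bᶜ) * (|C| / ‖ψ x‖) *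
            ‖x - z‖ ^ (κ / 2)) z := by
          refine ((hmaxc z hz1').mul (continuousAt_const.div (hψc z hz1').norm
            (hnp z hz1').ne')).mul ?_
          exact ContinuousAt.rpow_const (by fun_prop) (Or.inr (by positivity))
        have h2 := h1.tendsto
        simp only [sub_self, norm_zero] at h2
        rwa [Real.zero_rpow (by positivity), mul_zero] at h2
      exact tendsto_of_tendsto_of_tendsto_of_le_of_le' tendsto_const_nhds hlim hlo hup
    · refine ContinuousAt.continuousWithinAt ?_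
      refine ((hmaxc z hz1').mul ((hpc z hz1').div (hψc z hz1').norm (hnp z hz1').ne')).mul ?_
      exact ContinuousAt.rpow_const (by fun_prop) (Or.inl (norm_ne_zero_iff.2 (sub_ne_zero.2 hzz)))
  -- the comparison property
  have hLS : ∀ a ∈ ball (0 : ℂ) (3 / 4), 0 < W a → LS W a := by
    intro a ha hWa
    have ha1 : a ∈ ball (0 : ℂ) 1 := hsub (ball_subset_closedBall ha)
    have haz : a ≠ z3 := by
      rintro rfl
      rw [hW, Wf_z3 B r0 ψ e hc1 a] at hWa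
      exact lt_irrefl _ hWa
    have hg1 : AnalyticAt ℂ (fun z : ℂ => z - z3) a := analyticAt_id.sub analyticAt_const
    obtain ⟨hb, hba, hb0, hbn⟩ := exists_branch hg1 (sub_ne_zero.2 haz) (-(κ / 2))
    have hba' : ‖hb a‖ = ‖a - z3‖ ^ (-(κ / 2)) := hbn.self_of_nhds
    rcases lt_or_ge (infDist (ψ a) Bᶜ) (r0 * ‖ψ a‖) with hcase | hcase
    · have h1 := h s U0 B N r0 hC hB hT ψ a hψ hψN ha1 hcase
      have hp : 0 < pfun e c1 (ψ a) := by
        rcases (pfun_nonneg e hc1 (ψ a)).lt_or_eq with h2 | h2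
        · exact h2
        · exfalso
          rw [hW] at hWa
          unfold Wf at hWa
          rw [← h2, zero_div, mul_zero, zero_mul] at hWa
          exact lt_irrefl _ hWa
      obtain ⟨g0, hg0a, hg00, hg0m, hg0e⟩ := pfun_minorant he hc1 (hψ a ha1) hp
      refine h1.of_le_mul (g := fun z => (r0 : ℂ) * g0 z * hb z)
        ((analyticAt_const.mul hg0a).mul hba)
        (mul_ne_zero (mul_ne_zero (by exact_mod_cast hr0.ne') hg00) hb0) ?_ ?_
      · have hev : ∀ᶠ z in 𝓝 a, infDist (ψ z) Bᶜ < r0 * ‖ψ z‖ :=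
          (hρc a ha1).eventually_lt (continuousAt_const.mul (hψc a ha1).norm) hcase
        filter_upwards [hg0m, hbn, hev, isOpen_ball.mem_nhds ha1] with z hz2 hz3' hz4 hz5
        have h6 := hρ z hz5
        have h7 := hnp z hz5
        rw [norm_mul, norm_mul, Complex.norm_real, Real.norm_of_nonneg hr0.le, hz3', hW]
        unfold Wf
        rw [← hκ]
        have h8 : r0 * ‖ψ z‖ / infDist (ψ z) Bᶜ ≤ max 1 (r0 * ‖ψ z‖ / infDist (ψ z) Bᶜ) :=
          le_max_right _ _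
        have h9 := pfun_nonneg e hc1 (ψ z)
        calc (infDist (ψ z) Bᶜ)⁻¹ * (r0 * ‖g0 z‖ * ‖z - z3‖ ^ (-(κ / 2)))
            ≤ (infDist (ψ z) Bᶜ)⁻¹ * (r0 * pfun e c1 (ψ z) * ‖z - z3‖ ^ (-(κ / 2))) := by gcongr
          _ = r0 * ‖ψ z‖ / infDist (ψ z) Bᶜ * (pfun e c1 (ψ z) / ‖ψ z‖) *
                ‖z - z3‖ ^ (-(κ / 2)) := by
            field_simp
          _ ≤ _ := by gcongr
      · have h6 := hρ a ha1
        have h7 := hnp a ha1
        rw [norm_mul, norm_mul, Complex.norm_real, Real.norm_of_nonneg hr0.le, hba', hW, ← hg0e]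
        unfold Wf
        rw [← hκ, max_eq_right]
        · field_simp
        · rw [le_div_iff₀ h6, one_mul]
          exact hcase.le
    · -- here `P = |.|`
      have h7 := hnp a ha1
      have hgt : c1 * ‖inner ℂ e (ψ a)‖ < ‖ψ a - inner ℂ e (ψ a) • e‖ := by
        by_contra h2
        rw [not_lt] at h2
        have h3 : ‖inner ℂ e (ψ a)‖ ≤ ‖ψ a‖ := by
          have := norm_inner_le_norm (𝕜 := ℂ) e (ψ a)
          rwa [he, one_mul] at this
        have h4 : ‖ψ a‖ * sd (ψ a) e ≤ ‖ψ a‖ * c1 := by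
          rw [norm_mul_sd (hne a ha1) he]
          nlinarith
        have h5 : sd (ψ a) (ψ z3) ≤ c1 := by
          rw [hsde]
          exact le_of_mul_le_mul_left h4 h7
        have h6 := sd_triangle (hne a ha1) (hne z3 hz3m) (hne 0 h0mem)
        have h8 := infDist_div_le hcone (hne a ha1) (hne 0 h0mem)
        have h9 : infDist (ψ 0) Bᶜ / ‖ψ 0‖ ≤ τ * μ := (div_le_iff₀ (hnp 0 h0mem)).2 h0
        have h10 : r0 ≤ infDist (ψ a) Bᶜ / ‖ψ a‖ := (le_div_iff₀ h7).2 hcase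
        nlinarith
      have hev : ∀ᶠ z in 𝓝 a, c1 * ‖inner ℂ e (ψ z)‖ < ‖ψ z - inner ℂ e (ψ z) • e‖ := by
        have hi : ContinuousAt (fun z => inner ℂ e (ψ z)) a :=
          continuousAt_const.inner (𝕜 := ℂ) (hψc a ha1)
        exact (continuousAt_const.mul hi.norm).eventually_lt
          ((hψc a ha1).sub (hi.smul continuousAt_const)).norm hgt
      refine LS.of_le (g := hb) hba hb0 ?_ ?_
      · filter_upwards [hev, hbn, isOpen_ball.mem_nhds ha1] with z hz2 hz3' hz5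
        have h8 := hnp z hz5
        rw [hz3', hW]
        unfold Wf
        rw [← hκ, pfun_of_ge he hc1 hz2.le, div_self h8.ne', mul_one]
        have h9 : (1 : ℝ) ≤ max 1 (r0 * ‖ψ z‖ / infDist (ψ z) Bᶜ) := le_max_left _ _
        have h10 : 0 ≤ ‖z - z3‖ ^ (-(κ / 2)) := by positivity
        nlinarith
      · rw [hba', hW]
        unfold Wf
        rw [← hκ, pfun_of_ge he hc1 hgt.le, div_self h7.ne', mul_one, max_eq_left, one_mul]
        rw [div_le_iff₀ (hρ a ha1), one_mul]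
        exact hcase
  -- the maximum principle
  have hM : ∀ z ∈ sphere (0 : ℂ) (3 / 4), W z ≤ τ * r0 / μ * 2 ^ (κ / 2) := by
    intro z hz
    have hz1' : z ∈ ball (0 : ℂ) 1 := hsub (sphere_subset_closedBall hz)
    have hzn : ‖z‖ = 3 / 4 := by simpa using hz
    have h1 : max 1 (r0 * ‖ψ z‖ / infDist (ψ z) Bᶜ) ≤ τ * r0 / μ := by
      refine max_le ?_ ?_
      · rw [le_div_iff₀ hμ]
        nlinarith
      · rw [div_le_div_iff₀ (hρ z hz1') hμ]
        have := hlow z hz1'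
        nlinarith
    have h2 : pfun e c1 (ψ z) / ‖ψ z‖ ≤ 1 := (div_le_one (hnp z hz1')).2 (pfun_le he hc1 _)
    have h3 : ‖z - z3‖ ^ (-(κ / 2)) ≤ 2 ^ (κ / 2) := by
      have h4 : 1 / 2 ≤ ‖z - z3‖ := by
        have := norm_sub_norm_le z z3
        linarith
      calc ‖z - z3‖ ^ (-(κ / 2)) ≤ (1 / 2 : ℝ) ^ (-(κ / 2)) :=
            Real.rpow_le_rpow_of_nonpos (by norm_num) h4 (by linarith)
        _ = 2 ^ (κ / 2) := by
            rw [Real.rpow_neg (by norm_num), ← Real.inv_rpow (by norm_num)]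
            norm_num
    have h5 : 0 ≤ pfun e c1 (ψ z) / ‖ψ z‖ := div_nonneg (pfun_nonneg e hc1 _) (norm_nonneg _)
    rw [hW]
    unfold Wf
    rw [← hκ]
    calc max 1 (r0 * ‖ψ z‖ / infDist (ψ z) Bᶜ) * (pfun e c1 (ψ z) / ‖ψ z‖) * ‖z - z3‖ ^ (-(κ / 2))
        ≤ (τ * r0 / μ) * 1 * 2 ^ (κ / 2) := by gcongr
      _ = _ := by ring
  have hfin := LS.max_principle (W := W) (R := 3 / 4) (M := τ * r0 / μ * 2 ^ (κ / 2)) (by norm_num)
    (by positivity) hWc hLS hM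
  -- the value at the origin
  have hW0 : r0 / (τ * μ) * 5 ^ (κ / 2) ≤ W 0 := by
    have h1 : r0 / (τ * μ) ≤ max 1 (r0 * ‖ψ 0‖ / infDist (ψ 0) Bᶜ) := by
      refine le_trans ?_ (le_max_right _ _)
      rw [div_le_div_iff₀ (by positivity) (hρ 0 h0mem)]
      nlinarith
    have h2 : pfun e c1 (ψ 0) = ‖ψ 0‖ := by
      apply pfun_of_ge he hc1
      have h3 : ‖inner ℂ e (ψ 0)‖ ≤ ‖ψ 0‖ := by
        have := norm_inner_le_norm (𝕜 := ℂ) e (ψ 0)
        rwa [he, one_mul] at this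
      rw [← norm_mul_sd (hne 0 h0mem) he, ← hsde, sd_comm, hsd3]
      nlinarith
    have h3 : (5 : ℝ) ^ (κ / 2) ≤ ‖(0 : ℂ) - z3‖ ^ (-(κ / 2)) := by
      rw [zero_sub, norm_neg]
      calc (5 : ℝ) ^ (κ / 2) = (1 / 5 : ℝ) ^ (-(κ / 2)) := by
            rw [Real.rpow_neg (by norm_num), ← Real.inv_rpow (by norm_num)]
            norm_num
        _ ≤ ‖z3‖ ^ (-(κ / 2)) :=
            Real.rpow_le_rpow_of_nonpos (norm_pos_iff.2 hz30) hz3 (by linarith)
    rw [hW]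
    unfold Wf
    rw [← hκ, h2, div_self (hnp 0 h0mem).ne', mul_one]
    gcongr
  have hcontr : r0 / (τ * μ) * 5 ^ (κ / 2) ≤ τ * r0 / μ * 2 ^ (κ / 2) := hW0.trans hfin
  have h2p : (0 : ℝ) < 2 ^ (κ / 2) := by positivity
  have h52 : (5 / 2 : ℝ) ^ (κ / 2) = 5 ^ (κ / 2) / 2 ^ (κ / 2) := Real.div_rpow (by norm_num) (by norm_num) _
  rw [h52, lt_div_iff₀ h2p] at hτb
  have h3 : τ * r0 / μ * 2 ^ (κ / 2) = r0 / (τ * μ) * (τ ^ 2 * 2 ^ (κ / 2)) := by
    field_simp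
  rw [h3] at hcontr
  have h4 : 0 < r0 / (τ * μ) := by positivity
  have h5 := le_of_mul_le_mul_left hcontr h4
  linarith

end MFE
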