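import Pool.Agent.Lib.MFE.Weak
import Pool.Agent.Lib.MFE.Gram

/-!
# Row R2c without hypotheses
-/

set_option autoImplicit false

open Set Metric Filter Topology MeasureTheory

namespace MFE

namespace WeakAux

variable {E : Type*} [NormedAddCommGroup E] [InnerProductSpace ℂ E]

theorem contraction_eq (w a b : E) : ‖inner ℂ w b • a - inner ℂ w a • b‖ ^ 2 =
    ‖w‖ ^ 2 * G2 a b - G3 w a b := by
  have h0 : ∀ v : E, ((‖v‖ ^ 2 : ℝ) : ℂ) = inner ℂ v v := by
    intro v
    rw [inner_self_eq_norm_sq_to_K]; norm_cast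
  have eG : ((‖inner ℂ a b‖ ^ 2 : ℝ) : ℂ) = inner ℂ b a * inner ℂ a b := by
    rw [← Complex.normSq_eq_norm_sq, Complex.normSq_eq_conj_mul_self, inner_conj_symm]
  have h1 : ((‖inner ℂ w b • a - inner ℂ w a • b‖ ^ 2 : ℝ) : ℂ) =
      ((‖w‖ ^ 2 * G2 a b : ℝ) : ℂ) - (inner ℂ w w * inner ℂ a a * inner ℂ b b - inner ℂ w w * inner ℂ a b * inner ℂ b a
      - inner ℂ w a * inner ℂ a w * inner ℂ b b + inner ℂ w a * inner ℂ a b * inner ℂ b w
      + inner ℂ w b * inner ℂ a w * inner ℂ b a - inner ℂ w b * inner ℂ a a * inner ℂ b w : ℂ) := by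
    unfold G2
    rw [h0 (_ - _), inner_sub_left, inner_sub_right, inner_sub_right, inner_smul_left, inner_smul_left,
      inner_smul_left, inner_smul_left, inner_smul_right, inner_smul_right, inner_smul_right, inner_smul_right,
      inner_conj_symm, inner_conj_symm, Complex.ofReal_mul, Complex.ofReal_sub, Complex.ofReal_mul, eG, h0, h0, h0]
    ring
  rw [G3_expand]
  have h2 := congrArg Complex.re h1
  rw [Complex.sub_re, Complex.ofReal_re, Complex.ofReal_re] at h2
  exact h2

theorem contraction_le (w a b : E) : ‖inner ℂ w b • a - inner ℂ w a • b‖ ^ 2 ≤ ‖w‖ ^ 2 * G2 a b := by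
  rw [contraction_eq]
  linarith [G3_nonneg w a b]

end WeakAux

theorem weakT (E : Type*) [NormedAddCommGroup E] [InnerProductSpace ℂ E] [FiniteDimensional ℂ E] :
    WeakStmt E :=
  weak E (ident E) WeakAux.contraction_le G2_nonneg

end MFE
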