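import Pool.Agent.Lib.MFE.Main
import Pool.Agent.Lib.MFE.Contr
import Pool.Agent.Lib.MFE.Rigid
import Pool.Agent.Lib.MFE.LemB
import Pool.Agent.Lib.MFE.Local
import Pool.Agent.Lib.MFE.Lel
import Pool.Agent.Lib.MFE.WeakT
import Pool.Agent.Lib.MFE.Harnack
import Pool.Agent.Lib.MFE.Gram

/-!
# Area-contracting minimal quasi-attractors are attracting sets
-/

set_option autoImplicit false

open Set Metric Filter Topology
open scoped LinearAlgebra.Projectivization

namespace MFE

variable {E : Type*} [NormedAddCommGroup E] [InnerProductSpace ℂ E] [FiniteDimensional ℂ E]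

theorem rigidStmt_true : RigidStmt E :=
  rigid (lemmaB (local_lemma (lel E) (weakT E) harnack gram))

theorem main (s : HMap E) {Q : Set (ℙ ℂ E)} (hQ : MF7.IsMinimalQuasi s.map Q)
    (hA : AreaContr s Q) : MF7.IsAttracting s.map Q :=
  main_aux rigidStmt_true (fun s _ h1 h2 => contr_of_area s h1 h2) s hQ hA

end MFE
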