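import Pool.Agent.Lib.MFE.HarThin

/-!
# Attracting sets which are thin at one point of every compact invariant subset
-/

set_option autoImplicit false

open Set Metric Filter Topology MeasureTheory
open scoped LinearAlgebra.Projectivization

namespace MFE

section defs

variable {E : Type*} [NormedAddCommGroup E] [InnerProductSpace ℂ E]

/-- the point `p` belongs to the Fatou set: the iterates are equicontinuous (for the chordal
distance) at every point of some ball around `p` -/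
def FatouPt (s : HMap E) (p : ℙ ℂ E) : Prop := ∃ δ : ℝ, 0 < δ ∧ ∀ q : ℙ ℂ E, pdist q p < δ →
  ∀ ε : ℝ, 0 < ε → ∃ η : ℝ, 0 < η ∧ ∀ q' : ℙ ℂ E, pdist q' q < η → ∀ n : ℕ,
    pdist (s.map^[n] q') (s.map^[n] q) < ε

/-- the set `A` is thin at the point `p` -/
def ThinPt (A : Set (ℙ ℂ E)) (p : ℙ ℂ E) : Prop := ∀ (e : E) (he : e ≠ 0), ‖e‖ = 1 →
  Projectivization.mk ℂ e he = p →
    ∃ r1 : ℝ, 0 < r1 ∧ ∀ r : ℝ, 0 < r → r < r1 → ThinAt (coneOf A) e r

theorem ThinPt.mono {A A' : Set (ℙ ℂ E)} {p : ℙ ℂ E} (h : ThinPt A p) (hA : A' ⊆ A) :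
    ThinPt A' p := by
  intro e he he1 hep
  obtain ⟨r1, hr1, h1⟩ := h e he he1 hep
  refine ⟨r1, hr1, fun r hr hrr => ?_⟩
  obtain ⟨β, γ, t, ht, h2, h3, h4, h5⟩ := h1 r hr hrr
  exact ⟨β, γ, t, ht, h2, h3, fun x hx => h4 x (coneOf_subset hA hx),
    fun x hx => h5 x (coneOf_subset hA hx)⟩

end defs

section om

variable {Y : Type*} [TopologicalSpace Y]

/-- the omega limit set of a point -/
def om (f : Y → Y) (p : Y) : Set Y := ⋂ N : ℕ, closure ((fun n => f^[n] p) '' Ici N)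

theorem om_closed (f : Y → Y) (p : Y) : IsClosed (om f p) :=
  isClosed_iInter fun _ => isClosed_closure

theorem om_anti (f : Y → Y) (p : Y) (n : ℕ) :
    closure ((fun n => f^[n] p) '' Ici (n + 1)) ⊆ closure ((fun n => f^[n] p) '' Ici n) :=
  closure_mono (image_mono (Ici_subset_Ici.2 (Nat.le_succ n)))

theorem om_nonempty [CompactSpace Y] (f : Y → Y) (p : Y) : (om f p).Nonempty := by
  refine IsCompact.nonempty_iInter_of_sequence_nonempty_isCompact_isClosed _ (om_anti f p) ?_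
    isClosed_closure.isCompact (fun _ => isClosed_closure)
  intro n
  exact ⟨f^[n] p, subset_closure ⟨n, self_mem_Ici, rfl⟩⟩

theorem om_image [CompactSpace Y] [T2Space Y] {f : Y → Y} (hf : Continuous f) (p : Y) :
    f '' om f p = om f p := by
  apply Subset.antisymm
  · rintro _ ⟨y, hy, rfl⟩
    rw [om, mem_iInter] at hy ⊢
    intro N
    have h1 := hy N
    have h2 : f y ∈ f '' closure ((fun n => f^[n] p) '' Ici N) := ⟨y, h1, rfl⟩
    have h3 := image_closure_subset_closure_image hf h2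
    refine closure_mono ?_ h3
    rintro _ ⟨_, ⟨n, hn, rfl⟩, rfl⟩
    refine ⟨n + 1, le_trans hn (Nat.le_succ n), ?_⟩
    exact Function.iterate_succ_apply' f n p
  · intro z hz
    rw [om, mem_iInter] at hz
    refine MF7.T2x.image_iInter hf (fun n => isClosed_closure.isCompact) (om_anti f p) ?_
    intro n
    have hc : IsClosed (f '' closure ((fun n => f^[n] p) '' Ici n)) :=
      ((isClosed_closure.isCompact).image hf).isClosed
    have h1 : closure ((fun n => f^[n] p) '' Ici (n + 1)) ⊆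
        f '' closure ((fun n => f^[n] p) '' Ici n) := by
      refine closure_minimal ?_ hc
      rintro _ ⟨j, hj, rfl⟩
      obtain ⟨i, rfl⟩ : ∃ i, j = i + 1 := ⟨j - 1, by
        have : n + 1 ≤ j := hj
        omega⟩
      refine ⟨f^[i] p, subset_closure ⟨i, ?_, rfl⟩, (Function.iterate_succ_apply' f i p).symm⟩
      have : n + 1 ≤ i + 1 := hj
      exact Nat.le_of_succ_le_succ this
    exact h1 (hz (n + 1))

theorem om_subseq [FirstCountableTopology Y] {f : Y → Y} {p x : Y} (hx : x ∈ om f p) :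
    ∃ φ : ℕ → ℕ, StrictMono φ ∧ Tendsto (fun n => f^[φ n] p) atTop (𝓝 x) := by
  have h1 : MapClusterPt x atTop (fun n => f^[n] p) := by
    rw [mapClusterPt_iff_frequently]
    intro s hs
    rw [frequently_atTop]
    intro N
    rw [om, mem_iInter] at hx
    obtain ⟨_, hy, n, hn, rfl⟩ := mem_closure_iff_nhds.1 (hx N) s hs
    exact ⟨n, hn, hy⟩
  obtain ⟨φ, hφ, h2⟩ := h1.tendsto_subseq
  exact ⟨φ, hφ, h2⟩

theorem om_subset {f : Y → Y} {p : Y} {C : Set Y} (hC : IsClosed C) {N : ℕ}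
    (h : ∀ n, N ≤ n → f^[n] p ∈ C) : om f p ⊆ C := by
  intro x hx
  rw [om, mem_iInter] at hx
  refine closure_minimal ?_ hC (hx N)
  rintro _ ⟨n, hn, rfl⟩
  exact h n hn

end om

section fatou

variable {E : Type*} [NormedAddCommGroup E] [InnerProductSpace ℂ E]

theorem fatou_absurd [FiniteDimensional ℂ E] (s : HMap E) {U : Set (ℙ ℂ E)}
    (hU : MF7.IsTrapping s.map U) {H : ℂ × ℂ → E} {a : ℂ} {R ρ : ℝ} (hR : 0 ≤ R) (hρ : 1 < ρ)
    (hH : AnalyticOnNhd ℂ H (closedBall a R ×ˢ closedBall 0 ρ)) {S : Set E}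
    (hHU : ∀ q ∈ closedBall a R ×ˢ closedBall (0 : ℂ) ρ, H q ∈ S ∧ H q ≠ 0) {q0 : ℂ × ℂ}
    (hq0 : q0 ∈ closedBall a R ×ˢ closedBall (0 : ℂ) 1) (hT : 0 < ‖q0.2‖) {p : ℙ ℂ E}
    (hp : FatouPt s p) (hpB : p ∉ basin s U) {h0 : H q0 ≠ 0} {φ : ℕ → ℕ} (hφ : StrictMono φ)
    (hφt : Tendsto (fun n => s.map^[φ n] (Projectivization.mk ℂ (H q0) h0)) atTop (𝓝 p))
    (hBo : IsOpen (coneOf (basin s U)))
    (hB : ∀ q ∈ closedBall a R ×ˢ closedBall (0 : ℂ) 1, ‖q.2‖ < ‖q0.2‖ →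
      H q ∈ coneOf (basin s U)) : False := by
  classical
  haveI : CompactSpace (ℙ ℂ E) := compactSpace_proj
  letI := projMetric E
  have hf : Continuous s.map := s.continuous_map
  have hdist : ∀ p q : ℙ ℂ E, dist p q = pdist p q := fun p q => rfl
  obtain ⟨δ, hδ, hpδ⟩ := hp
  have hCc : IsClosed (s.map '' closure U) :=
    ((isClosed_closure.isCompact).image hf).isClosed
  have h1 : p ∈ (s.map '' closure U)ᶜ := fun h => hpB ⟨0, hU.2.2 h⟩
  obtain ⟨ε, hε, hball⟩ := Metric.isOpen_iff.1 hCc.isOpen_compl _ h1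
  obtain ⟨n0, hn0⟩ := (Metric.tendsto_atTop.1 hφt δ hδ)
  have hx1 := hn0 n0 le_rfl
  set N := φ n0 with hN
  obtain ⟨η, hη, heq⟩ := hpδ (s.map^[N] (Projectivization.mk ℂ (H q0) h0)) hx1 (ε / 2)
    (by positivity)
  -- nearby points of the basin
  have hq0' : q0 ∈ closedBall a R ×ˢ closedBall (0 : ℂ) ρ :=
    ⟨hq0.1, closedBall_subset_closedBall hρ.le hq0.2⟩
  have hcont : ContinuousAt (fun τ : ℝ => ((q0.1, (τ : ℂ) * q0.2) : ℂ × ℂ)) 1 := by fun_prop
  have hHat : ContinuousAt H q0 := (hH q0 hq0').continuousAt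
  have hHτ : Tendsto (fun τ : ℝ => s.F^[N] (H (q0.1, (τ : ℂ) * q0.2))) (𝓝 1)
      (𝓝 (s.F^[N] (H q0))) := by
    have h2 : Tendsto (fun τ : ℝ => ((q0.1, (τ : ℂ) * q0.2) : ℂ × ℂ)) (𝓝 1) (𝓝 q0) := by
      have h3 : ((q0.1, ((1 : ℝ) : ℂ) * q0.2) : ℂ × ℂ) = q0 := by simp
      have h4 : Tendsto (fun τ : ℝ => ((q0.1, (τ : ℂ) * q0.2) : ℂ × ℂ)) (𝓝 1)
          (𝓝 (q0.1, ((1 : ℝ) : ℂ) * q0.2)) := hcont
      rwa [h3] at h4
    exact ((s.iter_cont N).tendsto _).comp (hHat.tendsto.comp h2)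
  have hFne : s.F^[N] (H q0) ≠ 0 := s.iter_ne h0 N
  have hsd : Tendsto (fun τ : ℝ => sd (s.F^[N] (H (q0.1, (τ : ℂ) * q0.2))) (s.F^[N] (H q0)))
      (𝓝 1) (𝓝 0) := by
    have h2 := sd_continuousAt (x := s.F^[N] (H q0)) (y := s.F^[N] (H q0)) hFne hFne
    have h3 : Tendsto (fun τ : ℝ => (s.F^[N] (H (q0.1, (τ : ℂ) * q0.2)), s.F^[N] (H q0))) (𝓝 1)
        (𝓝 (s.F^[N] (H q0), s.F^[N] (H q0))) := hHτ.prodMk_nhds tendsto_const_nhds
    have h4 := h2.tendsto.comp h3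
    rw [sd_self hFne] at h4
    exact h4
  have hev : ∀ᶠ τ : ℝ in 𝓝[<] (1 : ℝ),
      sd (s.F^[N] (H (q0.1, (τ : ℂ) * q0.2))) (s.F^[N] (H q0)) < η :=
    (hsd.eventually (gt_mem_nhds hη)).filter_mono nhdsWithin_le_nhds
  have hev2 : ∀ᶠ τ : ℝ in 𝓝[<] (1 : ℝ), 0 < τ :=
    (eventually_gt_nhds one_pos).filter_mono nhdsWithin_le_nhds
  have hev3 : ∀ᶠ τ : ℝ in 𝓝[<] (1 : ℝ), τ < 1 := self_mem_nhdsWithin
  obtain ⟨τ, hτ1, hτ2, hτ3⟩ := (hev.and (hev2.and hev3)).exists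
  have hnorm : ‖(τ : ℂ) * q0.2‖ < ‖q0.2‖ := by
    rw [norm_mul, Complex.norm_real, Real.norm_of_nonneg hτ2.le]
    nlinarith
  have hqP : ((q0.1, (τ : ℂ) * q0.2) : ℂ × ℂ) ∈ closedBall a R ×ˢ closedBall (0 : ℂ) 1 := by
    refine ⟨hq0.1, ?_⟩
    rw [mem_closedBall_zero_iff]
    have : ‖q0.2‖ ≤ 1 := by simpa using hq0.2
    exact hnorm.le.trans this
  obtain ⟨hq, hqB⟩ := hB _ hqP hnorm
  obtain ⟨m2, hm2⟩ := deep_of_trapping s hU (K := {H (q0.1, (τ : ℂ) * q0.2)})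
    (by
      rintro _ rfl
      exact ⟨hq, hqB⟩) isCompact_singleton
  -- the contradiction
  obtain ⟨n1, hn1⟩ := Metric.tendsto_atTop.1 hφt (ε / 2) (by positivity)
  obtain ⟨j, hj1, hj2⟩ : ∃ j, n1 ≤ j ∧ N + m2 ≤ φ j := by
    have h2 := hφ.tendsto_atTop.eventually_ge_atTop (N + m2)
    obtain ⟨j, hj⟩ := (h2.and (eventually_ge_atTop n1)).exists
    exact ⟨j, hj.2, hj.1⟩
  obtain ⟨i, hi⟩ := Nat.exists_eq_add_of_le (le_trans (Nat.le_add_right N m2) hj2)
  have hne : s.F^[N] (H (q0.1, (τ : ℂ) * q0.2)) ≠ 0 := s.iter_ne hq N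
  have h5 := heq (Projectivization.mk ℂ _ hne) (by
    rw [s.iter_map_mk h0, pdist_mk]
    exact hτ1) i
  have h6 : s.map^[i] (s.map^[N] (Projectivization.mk ℂ (H q0) h0)) =
      s.map^[φ j] (Projectivization.mk ℂ (H q0) h0) := by
    rw [← Function.iterate_add_apply, hi, Nat.add_comm]
  rw [h6, ← s.iter_map_mk hq, ← Function.iterate_add_apply] at h5
  have h7 := hn1 j hj1
  have h8 : s.map^[i + N] (Projectivization.mk ℂ _ hq) ∈ s.map '' closure U := by
    obtain ⟨h9, h10⟩ := hm2 (i + N) (by omega) _ rfl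
    rw [s.iter_map_mk hq]
    exact h10
  refine hball ?_ h8
  rw [mem_ball]
  have h9 := dist_triangle (s.map^[i + N] (Projectivization.mk ℂ _ hq))
    (s.map^[φ j] (Projectivization.mk ℂ (H q0) h0)) p
  rw [hdist _ (s.map^[φ j] (Projectivization.mk ℂ (H q0) h0))] at h9
  linarith

end fatou

theorem har_of_lam (E : Type*) [NormedAddCommGroup E] [InnerProductSpace ℂ E]
    [FiniteDimensional ℂ E] (hk : KapStmt E) (hc : CoreStmt E) (s : HMap E)
    (U0 U : Set (ℙ ℂ E)) (hU0 : MF7.IsTrapping s.map U0) (hU : MF7.IsTrapping s.map U)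
    (hthin : ∀ Λ : Set (ℙ ℂ E), IsClosed Λ → Λ.Nonempty → s.map '' Λ = Λ →
      Λ ⊆ (⋂ n : ℕ, s.map^[n] '' U0) \ basin s U →
      ∃ p ∈ Λ, ThinPt (⋂ n : ℕ, s.map^[n] '' U0) p ∨ FatouPt s p) :
    Har (coneOf U0) (coneOf (basin s U)) := by
  classical
  intro H a R ρ hR hρ hH hHU hHs hH0
  by_contra hcon
  push Not at hcon
  obtain ⟨q1, hq1, hq1B⟩ := hcon
  haveI : CompactSpace (ℙ ℂ E) := compactSpace_proj
  haveI : ProperSpace E := FiniteDimensional.proper ℂ E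
  have hf : Continuous s.map := s.continuous_map
  have hBopen : IsOpen (basin s U) := by
    have : basin s U = ⋃ n, (s.map^[n]) ⁻¹' U := by
      ext p
      simp [basin]
    rw [this]
    exact isOpen_iUnion fun n => hU.2.1.preimage (hf.iterate n)
  have hBo : IsOpen (coneOf (basin s U)) := (isOpen_iff_coneOf _).1 hBopen
  have hsub : closedBall a R ×ˢ closedBall (0 : ℂ) 1 ⊆ closedBall a R ×ˢ closedBall (0 : ℂ) ρ :=
    prod_mono le_rfl (closedBall_subset_closedBall hρ.le)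
  have hPc : IsCompact (closedBall a R ×ˢ closedBall (0 : ℂ) ρ) :=
    (isCompact_closedBall a R).prod (isCompact_closedBall 0 ρ)
  have hP1c : IsCompact (closedBall a R ×ˢ closedBall (0 : ℂ) 1) :=
    (isCompact_closedBall a R).prod (isCompact_closedBall 0 1)
  have hHc : ContinuousOn H (closedBall a R ×ˢ closedBall (0 : ℂ) ρ) := hH.continuousOn
  -- the first bad point
  have hZc : IsCompact ((closedBall a R ×ˢ closedBall (0 : ℂ) 1) ∩
      H ⁻¹' (coneOf (basin s U))ᶜ) := by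
    refine hP1c.of_isClosed_subset ?_ inter_subset_left
    exact (hHc.mono hsub).preimage_isClosed_of_isClosed hP1c.isClosed hBo.isClosed_compl
  obtain ⟨q0, hq0Z, hq0min⟩ := hZc.exists_isMinOn ⟨q1, hq1, hq1B⟩
    (continuous_snd.norm.continuousOn)
  have hq0P := hq0Z.1
  have hq0B : H q0 ∉ coneOf (basin s U) := hq0Z.2
  have hq02 : ‖q0.2‖ ≤ 1 := by simpa using hq0P.2
  have hq02ne : q0.2 ≠ 0 := by
    intro h
    apply hq0B
    have := hH0 q0.1 hq0P.1
    rwa [← h] at this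
  have hT : 0 < ‖q0.2‖ := norm_pos_iff.2 hq02ne
  have hq01 : ‖q0.1 - a‖ < R := by
    have h1 : ‖q0.1 - a‖ ≤ R := by
      have := hq0P.1
      rwa [mem_closedBall_iff_norm] at this
    refine lt_of_le_of_ne h1 fun h => hq0B (hHs q0 ⟨?_, (hsub hq0P).2⟩)
    rwa [mem_sphere_iff_norm]
  have hHq0 := hHU q0 (hsub hq0P)
  -- the limit point
  have hxne : ∀ m, s.F^[m] (H q0) ≠ 0 := fun m => s.iter_ne hHq0.2 m
  set c : ℕ → ℂ := fun m => ((‖s.F^[m] (H q0)‖ : ℝ) : ℂ)⁻¹ with hcdef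
  have hcne : ∀ m, c m ≠ 0 := fun m => by
    refine inv_ne_zero ?_
    exact_mod_cast norm_ne_zero_iff.2 (hxne m)
  set y : ℕ → E := fun m => c m • s.F^[m] (H q0) with hydef
  have hy1 : ∀ m, ‖y m‖ = 1 := fun m => by
    simp only [hydef, hcdef, norm_smul, norm_inv, Complex.norm_real, norm_norm]
    exact inv_mul_cancel₀ (norm_ne_zero_iff.2 (hxne m))
  have hymk : ∀ m, ∃ h : y m ≠ 0, Projectivization.mk ℂ (y m) h =
      s.map^[m] (Projectivization.mk ℂ (H q0) hHq0.2) := by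
    intro m
    have h : y m ≠ 0 := smul_ne_zero (hcne m) (hxne m)
    refine ⟨h, ?_⟩
    rw [s.iter_map_mk hHq0.2, Projectivization.mk_eq_mk_iff']
    exact ⟨c m, rfl⟩
  have hnB : ∀ n, s.map^[n] (Projectivization.mk ℂ (H q0) hHq0.2) ∉ basin s U := by
    rintro n ⟨j, hj⟩
    rw [← Function.iterate_add_apply] at hj
    exact hq0B ⟨hHq0.2, j + n, hj⟩
  have hΛc := om_closed s.map (Projectivization.mk ℂ (H q0) hHq0.2)
  have hΛn := om_nonempty s.map (Projectivization.mk ℂ (H q0) hHq0.2)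
  obtain ⟨hΛi, hΛA, ψ, hψ⟩ : s.map '' om s.map (Projectivization.mk ℂ (H q0) hHq0.2) =
        om s.map (Projectivization.mk ℂ (H q0) hHq0.2) ∧
      om s.map (Projectivization.mk ℂ (H q0) hHq0.2) ⊆ (⋂ n : ℕ, s.map^[n] '' U0) ∧
      ∃ ψ : ℙ ℂ E → ℕ → ℕ, ∀ x ∈ om s.map (Projectivization.mk ℂ (H q0) hHq0.2),
        StrictMono (ψ x) ∧ Tendsto (fun n => s.map^[ψ x n] (Projectivization.mk ℂ (H q0) hHq0.2))
          atTop (𝓝 x) := by
    letI := projMetric E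
    refine ⟨om_image hf _, ?_, ?_⟩
    · refine subset_iInter fun N => ?_
      have hC : IsClosed (s.map^[N + 1] '' closure U0) :=
        ((isClosed_closure.isCompact).image (hf.iterate (N + 1))).isClosed
      refine (om_subset hC (N := N + 1) ?_).trans (MF7.T2x.anti_closure hU0.2.2 N)
      intro n hn
      obtain ⟨h3, h4⟩ := hHq0.1
      obtain ⟨j, rfl⟩ := Nat.exists_eq_add_of_le hn
      rw [Function.iterate_add_apply]
      exact ⟨_, subset_closure (trapping_iter s hU0 j _ h4), rfl⟩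
    · have h1 : ∀ x : ℙ ℂ E, ∃ φ : ℕ → ℕ,
          x ∈ om s.map (Projectivization.mk ℂ (H q0) hHq0.2) →
          StrictMono φ ∧ Tendsto (fun n => s.map^[φ n] (Projectivization.mk ℂ (H q0) hHq0.2))
            atTop (𝓝 x) := by
        intro x
        by_cases hx : x ∈ om s.map (Projectivization.mk ℂ (H q0) hHq0.2)
        · obtain ⟨φ, h2, h3⟩ := om_subseq hx
          exact ⟨φ, fun _ => ⟨h2, h3⟩⟩
        · exact ⟨id, fun h => absurd h hx⟩
      choose ψ hψ using h1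
      exact ⟨ψ, hψ⟩
  have hΛB : om s.map (Projectivization.mk ℂ (H q0) hHq0.2) ⊆ (basin s U)ᶜ :=
    om_subset hBopen.isClosed_compl (N := 0) fun n _ => hnB n
  obtain ⟨p, hp, hgood⟩ := hthin _ hΛc hΛn hΛi fun x hx => ⟨hΛA hx, hΛB hx⟩
  obtain ⟨hφ0, hφ0t⟩ := hψ p hp
  rcases hgood with hgood | hgood
  swap
  · -- the Fatou case
    exact fatou_absurd s hU hR.le hρ hH hHU hq0P hT hgood (hΛB hp) hφ0 hφ0t hBo (fun q hq hq2 => by
      by_contra hqB
      have h2 : ‖q0.2‖ ≤ ‖q.2‖ := hq0min ⟨hq, hqB⟩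
      linarith)
  obtain ⟨e, he, ψ1, hψ1, hφe⟩ := (isCompact_sphere (0 : E) 1).tendsto_subseq
    (x := fun n => y (ψ p n)) (fun m => by simpa using hy1 (ψ p m))
  have he1 : ‖e‖ = 1 := by simpa using he
  have he0 : e ≠ 0 := by
    intro h
    rw [h, norm_zero] at he1
    exact zero_ne_one he1
  set φ : ℕ → ℕ := fun n => ψ p (ψ1 n) with hφdef
  have hφt : Tendsto φ atTop atTop := hφ0.tendsto_atTop.comp hψ1.tendsto_atTop
  have hep : Projectivization.mk ℂ e he0 = p := by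
    letI := projMetric E
    have h1 : Tendsto (fun n => s.map^[φ n] (Projectivization.mk ℂ (H q0) hHq0.2)) atTop (𝓝 p) :=
      hφ0t.comp hψ1.tendsto_atTop
    have h2 : Tendsto (fun n => (⟨y (φ n), (hymk (φ n)).1⟩ : {v : E // v ≠ 0})) atTop
        (𝓝 ⟨e, he0⟩) := tendsto_subtype_rng.2 hφe
    have h3 := (continuous_pmk.tendsto (⟨e, he0⟩ : {v : E // v ≠ 0})).comp h2
    have h4 : (fun n => s.map^[φ n] (Projectivization.mk ℂ (H q0) hHq0.2)) =
        ((fun v : {v : E // v ≠ 0} => Projectivization.mk ℂ v.1 v.2) ∘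
          fun n => (⟨y (φ n), (hymk (φ n)).1⟩ : {v : E // v ≠ 0})) := by
      funext n
      exact (hymk (φ n)).2.symm
    rw [h4] at h1
    exact tendsto_nhds_unique h3 h1
  have heB1 : Projectivization.mk ℂ e he0 ∉ basin s U := by
    rw [hep]
    exact hΛB hp
  obtain ⟨r1, hr1, hthin1⟩ := hgood e he0 he1 hep
  -- the distance to the compact set
  obtain ⟨ε, hε, hεC⟩ : ∃ ε : ℝ, 0 < ε ∧ ∀ z ∈ coneOf (s.map '' closure U), ε ≤ sd z e := by
    letI := projMetric E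
    have hCc : IsClosed (s.map '' closure U) :=
      ((isClosed_closure.isCompact).image hf).isClosed
    have h1 : Projectivization.mk ℂ e he0 ∈ (s.map '' closure U)ᶜ := by
      intro h
      exact heB1 ⟨0, hU.2.2 h⟩
    obtain ⟨ε, hε, hball⟩ := Metric.isOpen_iff.1 hCc.isOpen_compl _ h1
    refine ⟨ε, hε, ?_⟩
    rintro z ⟨hz, hzC⟩
    by_contra hlt
    push Not at hlt
    refine hball ?_ hzC
    rw [mem_ball]
    have h2 : dist (Projectivization.mk ℂ z hz) (Projectivization.mk ℂ e he0) = sd z e :=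
      pdist_mk hz he0
    rwa [h2]
  set r : ℝ := min ε (min 1 r1) / 2 with hrdef
  have hmin : 0 < min ε (min 1 r1) := by positivity
  have hr : 0 < r := by positivity
  have hrm : r < min ε (min 1 r1) := by
    rw [hrdef]
    linarith
  have hrε : r < ε := lt_of_lt_of_le hrm (min_le_left _ _)
  have hr1' : r < 1 := lt_of_lt_of_le hrm (le_trans (min_le_right _ _) (min_le_left _ _))
  have hrr1 : r < r1 := lt_of_lt_of_le hrm (le_trans (min_le_right _ _) (min_le_right _ _))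
  obtain ⟨β, γ, t, ht, hβe, hγe, hth1, hth2⟩ := hthin1 r hr hrr1
  obtain ⟨κ, m1, hκ, hkap⟩ := hk s U0 hU0 e r t β γ he1 hr hr1' ht hth1 hth2
  have hρT : 1 < ρ / ‖q0.2‖ := by
    rw [lt_div_iff₀ hT]
    linarith
  obtain ⟨M, hM⟩ := pow_unbounded_of_one_lt (6 / 5 * t / κ) hρT
  obtain ⟨s0, hs0, hs0T, hs0M⟩ := exists_s0 hT M
  -- the compact set which goes into the basin
  have hKc : IsCompact {q : ℂ × ℂ | q ∈ closedBall a R ×ˢ closedBall (0 : ℂ) ρ ∧
      (‖q.1 - a‖ = R ∨ ‖q.2‖ ≤ s0)} := by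
    refine hPc.of_isClosed_subset ?_ (fun q hq => hq.1)
    have hc1 : IsClosed {q : ℂ × ℂ | ‖q.1 - a‖ = R} :=
      isClosed_eq (by fun_prop) continuous_const
    have hc2 : IsClosed {q : ℂ × ℂ | ‖q.2‖ ≤ s0} := isClosed_le (by fun_prop) continuous_const
    exact hPc.isClosed.inter (hc1.union hc2)
  have hKB : H '' {q : ℂ × ℂ | q ∈ closedBall a R ×ˢ closedBall (0 : ℂ) ρ ∧
      (‖q.1 - a‖ = R ∨ ‖q.2‖ ≤ s0)} ⊆ coneOf (basin s U) := by
    rintro _ ⟨q, ⟨hqP, hq⟩, rfl⟩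
    rcases hq with hq | hq
    · exact hHs q ⟨by rwa [mem_sphere_iff_norm], hqP.2⟩
    · by_contra hqB
      have h1 : q ∈ (closedBall a R ×ˢ closedBall (0 : ℂ) 1) ∩
          H ⁻¹' (coneOf (basin s U))ᶜ := by
        refine ⟨⟨hqP.1, ?_⟩, hqB⟩
        rw [mem_closedBall_zero_iff]
        linarith
      have h2 : ‖q0.2‖ ≤ ‖q.2‖ := hq0min h1
      linarith
  obtain ⟨m2, hm2⟩ := deep_of_trapping s hU hKB
    (hKc.image_of_continuousOn (hHc.mono fun q hq => hq.1))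
  -- the choice of `m`
  have hinner : ContinuousAt (fun z : E => ‖(inner ℂ e z : ℂ)‖) e := by fun_prop
  have hie : (inner ℂ e e : ℂ) = 1 := by
    rw [inner_self_eq_norm_sq_to_K, he1]
    simp
  have ev1 : ∀ᶠ z in 𝓝 e, sd z e < r := by
    have h1 := sd_continuousAt (x := e) (y := e) he0 he0
    have h2 : ContinuousAt (fun z : E => sd z e) e :=
      ContinuousAt.comp (f := fun z : E => (z, e)) (g := fun t : E × E => sd t.1 t.2) h1
        (by fun_prop)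
    refine h2.eventually_lt continuousAt_const ?_
    rwa [sd_self he0]
  have ev2 : ∀ᶠ z in 𝓝 e, ‖γ z‖ < κ * ‖(inner ℂ e z : ℂ)‖ := by
    refine ContinuousAt.eventually_lt (γ.continuous.norm.continuousAt)
      (continuousAt_const.mul hinner) ?_
    rw [hγe, hie, norm_zero, norm_one, mul_one]
    exact hκ
  have ev3 : ∀ᶠ z in 𝓝 e, ‖β z‖ < t / 10 * ‖(inner ℂ e z : ℂ)‖ := by
    refine ContinuousAt.eventually_lt (β.continuous.norm.continuousAt)
      (continuousAt_const.mul hinner) ?_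
    rw [hβe, hie, norm_zero, norm_one, mul_one]
    positivity
  have ev := hφe.eventually (ev1.and (ev2.and ev3))
  obtain ⟨n, ⟨hn1, hn2, hn3⟩, hn4, hn5⟩ :=
    (ev.and ((hφt.eventually_ge_atTop m1).and (hφt.eventually_ge_atTop m2))).exists
  set m := φ n with hmdef
  have hcm : 0 < ‖c m‖ := norm_pos_iff.2 (hcne m)
  have hyx : ∀ z, (y ∘ φ) n = z → z = c m • s.F^[m] (H q0) := fun z hz => hz.symm
  have hn1' : sd (s.F^[m] (H q0)) e < r := by
    have h1 : sd (c m • s.F^[m] (H q0)) e < r := hn1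
    rwa [sd_smul_left (hcne m)] at h1
  have hn2' : ‖γ (s.F^[m] (H q0))‖ ≤ κ * ‖(inner ℂ e (s.F^[m] (H q0)) : ℂ)‖ := by
    have h1 : ‖γ (c m • s.F^[m] (H q0))‖ <
      κ * ‖(inner ℂ e (c m • s.F^[m] (H q0)) : ℂ)‖ := hn2
    rw [map_smul, norm_smul, inner_smul_right, norm_mul, mul_left_comm] at h1
    exact (le_of_mul_le_mul_left h1.le hcm)
  have hn3' : ‖β (s.F^[m] (H q0))‖ ≤ t / 10 * ‖(inner ℂ e (s.F^[m] (H q0)) : ℂ)‖ := by
    have h1 : ‖β (c m • s.F^[m] (H q0))‖ <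
      t / 10 * ‖(inner ℂ e (c m • s.F^[m] (H q0)) : ℂ)‖ := hn3
    rw [map_smul, norm_smul, inner_smul_right, norm_mul, mul_left_comm] at h1
    exact (le_of_mul_le_mul_left h1.le hcm)
  refine hc (fun q => s.F^[m] (H q)) a R ρ s0 r κ t e β γ q0 M hs0 hr hr1' hκ ht he1 ?_ ?_ ?_ ?_
    hq01 hs0T (by linarith) hn1' hn2' hn3' hM hs0M
  · exact (s.iter_an m).comp hH (fun _ _ => mem_univ _)
  · intro q hq
    exact s.iter_ne (hHU q hq).2 m
  · intro q hq hq'
    have h1 := hm2 m hn5 (H q) ⟨q, ⟨hq, hq'⟩, rfl⟩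
    exact lt_of_lt_of_le hrε (hεC _ h1)
  · intro q hq
    obtain ⟨⟨h1, h2⟩, h3⟩ := hHU q hq
    have h4 : s.F^[m] (H q) ∈ coneOf (s.map^[m] '' U0) := by
      refine ⟨s.iter_ne h3 m, _, h2, ?_⟩
      rw [s.iter_map_mk]
    exact hkap m hn4 _ h4

end MFE
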