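import Pool.Agent.Lib.MFE.HProps
import Pool.Agent.Lib.MFE.Sd
import Pool.Agent.Lib.MFE.Proj
import Pool.Agent.Lib.MFE.BasinT

/-!
# Row F2a of theorem F: the compactness argument
-/

set_option autoImplicit false

open Set Metric Filter Topology MeasureTheory
open scoped LinearAlgebra.Projectivization

namespace MFE

/-- the closed sets of the compactness argument -/
def kapSet {E : Type*} [NormedAddCommGroup E] [InnerProductSpace ℂ E] (s : HMap E)
    (U0 : Set (ℙ ℂ E)) (e : E) (r t : ℝ) (β γ : E →L[ℂ] ℂ) (n : ℕ) : Set E :=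
  (((sphere (0 : E) 1 ∩ (coneOf (s.map^[n] '' closure U0)ᶜ)ᶜ) ∩
    {x | ‖x - inner ℂ e x • e‖ ≤ r}) ∩ {x | ‖γ x‖ ≤ 1 / ((n : ℝ) + 1) * ‖inner ℂ e x‖}) ∩
    (({x | ‖x - inner ℂ e x • e‖ = r} ∩ {x | ‖β x‖ ≤ 7 / 2 * t * ‖inner ℂ e x‖}) ∪
      {x | ‖β x - (t : ℂ) * inner ℂ e x‖ ≤ 1 / ((n : ℝ) + 1) * ‖inner ℂ e x‖})

theorem kap (E : Type*) [NormedAddCommGroup E] [InnerProductSpace ℂ E] [FiniteDimensional ℂ E] :
    KapStmt E := by
  intro s U0 hU e r t β γ he hr0 hr1 ht hA hB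
  by_contra hcon
  push Not at hcon
  haveI : CompactSpace (ℙ ℂ E) := compactSpace_proj
  haveI : ProperSpace E := FiniteDimensional.proper ℂ E
  letI := projMetric E
  have hf : Continuous s.map := s.continuous_map
  have hβ : Continuous β := β.continuous
  have hγ : Continuous γ := γ.continuous
  -- the sets decrease
  have hmono : ∀ n : ℕ, 1 / (((n + 1 : ℕ) : ℝ) + 1) ≤ 1 / ((n : ℝ) + 1) := by
    intro n
    apply one_div_le_one_div_of_le
    · positivity
    · push_cast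
      linarith
  have hanti : Antitone fun n : ℕ => s.map^[n] '' closure U0 := MF7.antitone_image_closure hU
  have hd : ∀ n : ℕ, kapSet s U0 e r t β γ (n + 1) ⊆ kapSet s U0 e r t β γ n := by
    intro n x hx
    obtain ⟨⟨⟨⟨h1, h2⟩, h3⟩, h4⟩, h5⟩ := hx
    refine ⟨⟨⟨⟨h1, ?_⟩, h3⟩, ?_⟩, ?_⟩
    · intro h
      refine h2 (coneOf_subset ?_ h)
      exact compl_subset_compl.2 (hanti (Nat.le_succ n))
    · exact le_trans h4 (mul_le_mul_of_nonneg_right (hmono n) (norm_nonneg _))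
    · rcases h5 with h5 | h5
      · exact Or.inl h5
      · exact Or.inr (le_trans h5 (mul_le_mul_of_nonneg_right (hmono n) (norm_nonneg _)))
  -- they are closed
  have hcl : ∀ n : ℕ, IsClosed (kapSet s U0 e r t β γ n) := by
    intro n
    have hS : IsClosed (s.map^[n] '' closure U0) :=
      (MF7.isCompact_image_closure hf U0 n).isClosed
    refine (((isClosed_sphere.inter ?_).inter ?_).inter ?_).inter ((IsClosed.inter ?_ ?_).union ?_)
    · exact ((isOpen_iff_coneOf _).1 hS.isOpen_compl).isClosed_compl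
    · exact isClosed_le (by fun_prop) continuous_const
    · exact isClosed_le (by fun_prop) (by fun_prop)
    · exact isClosed_eq (by fun_prop) continuous_const
    · exact isClosed_le (by fun_prop) (by fun_prop)
    · exact isClosed_le (by fun_prop) (by fun_prop)
  have hcp : IsCompact (kapSet s U0 e r t β γ 0) :=
    (isCompact_sphere (0 : E) 1).of_isClosed_subset (hcl 0) fun x hx => hx.1.1.1.1
  -- they are not empty
  have hne : ∀ n : ℕ, (kapSet s U0 e r t β γ n).Nonempty := by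
    intro n
    have hκ : (0 : ℝ) < 1 / ((n : ℝ) + 1) := by positivity
    obtain ⟨m, hm, y, hy, hyr, hyγ, hyc⟩ := hcon (1 / ((n : ℝ) + 1)) n hκ
    have hy0 : y ≠ 0 := hy.1
    have hn : 0 < ‖y‖ := norm_pos_iff.2 hy0
    have hc0 : ((‖y‖ : ℂ)⁻¹) ≠ 0 := inv_ne_zero (by exact_mod_cast hn.ne')
    have hcn : ‖((‖y‖ : ℂ)⁻¹)‖ = ‖y‖⁻¹ := by
      rw [norm_inv, Complex.norm_real, norm_norm]
    set c : ℂ := (‖y‖ : ℂ)⁻¹ with hc
    have hx0 : c • y ≠ 0 := smul_ne_zero hc0 hy0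
    have hx1 : ‖c • y‖ = 1 := by
      rw [norm_smul, hcn, inv_mul_cancel₀ hn.ne']
    have hα : ‖inner ℂ e (c • y)‖ = ‖y‖⁻¹ * ‖inner ℂ e y‖ := by
      rw [inner_smul_right, norm_mul, hcn]
    have hsd : sd (c • y) e = sd y e := sd_smul_left hc0 y e
    have hsd' : ‖c • y - inner ℂ e (c • y) • e‖ = sd y e := by
      rw [← norm_mul_sd hx0 he, hx1, one_mul, hsd]
    have hi : 0 < ‖y‖⁻¹ := inv_pos.2 hn
    refine ⟨c • y, ⟨⟨⟨⟨?_, ?_⟩, ?_⟩, ?_⟩, ?_⟩⟩
    · rw [mem_sphere_zero_iff_norm]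
      exact hx1
    · rintro ⟨h1, h2⟩
      apply h2
      have h3 : c • y ∈ coneOf (s.map^[m] '' U0) := (isCone_coneOf _).2 c hc0 y hy
      obtain ⟨_, h4⟩ := h3
      exact hanti hm (image_mono subset_closure h4)
    · rw [mem_setOf_eq, hsd']
      exact hyr
    · rw [mem_setOf_eq, hα, map_smul, smul_eq_mul, norm_mul, hcn]
      calc ‖y‖⁻¹ * ‖γ y‖ ≤ ‖y‖⁻¹ * (1 / ((n : ℝ) + 1) * ‖inner ℂ e y‖) :=
            mul_le_mul_of_nonneg_left hyγ hi.le
        _ = _ := by ring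
    · by_cases hcase : sd y e = r ∧ ‖β y‖ ≤ 7 / 2 * t * ‖inner ℂ e y‖
      · left
        refine ⟨?_, ?_⟩
        · rw [mem_setOf_eq, hsd']
          exact hcase.1
        · rw [mem_setOf_eq, hα, map_smul, smul_eq_mul, norm_mul, hcn]
          calc ‖y‖⁻¹ * ‖β y‖ ≤ ‖y‖⁻¹ * (7 / 2 * t * ‖inner ℂ e y‖) :=
                mul_le_mul_of_nonneg_left hcase.2 hi.le
            _ = _ := by ring
      · right
        have h1 : sd y e = r → 7 / 2 * t * ‖inner ℂ e y‖ < ‖β y‖ := by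
          intro h
          by_contra h2
          exact hcase ⟨h, not_lt.1 h2⟩
        have h2 := hyc h1
        rw [mem_setOf_eq, hα, map_smul, smul_eq_mul, inner_smul_right]
        have h3 : c * β y - (t : ℂ) * (c * inner ℂ e y) = c * (β y - (t : ℂ) * inner ℂ e y) := by
          ring
        rw [h3, norm_mul, hcn]
        calc ‖y‖⁻¹ * ‖β y - (t : ℂ) * inner ℂ e y‖
            ≤ ‖y‖⁻¹ * (1 / ((n : ℝ) + 1) * ‖inner ℂ e y‖) :=
              mul_le_mul_of_nonneg_left h2 hi.le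
          _ = _ := by ring
  obtain ⟨x, hx⟩ := IsCompact.nonempty_iInter_of_sequence_nonempty_isCompact_isClosed _ hd hne
    hcp hcl
  rw [mem_iInter] at hx
  -- the limit point
  have hx1 : ‖x‖ = 1 := mem_sphere_zero_iff_norm.1 (hx 0).1.1.1.1
  have hx0 : x ≠ 0 := by
    intro h
    rw [h, norm_zero] at hx1
    exact zero_ne_one hx1
  have hsd : ‖x - inner ℂ e x • e‖ = sd x e := by
    rw [← norm_mul_sd hx0 he, hx1, one_mul]
  have hxr : sd x e ≤ r := by
    rw [← hsd]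
    exact (hx 0).1.1.2
  have hxA : x ∈ coneOf (⋂ n : ℕ, s.map^[n] '' U0) := by
    rw [mk_mem_iff hx0, MF7.attr_eq hU, mem_iInter]
    intro n
    by_contra h
    exact (hx n).1.1.1.2 ⟨hx0, h⟩
  have hα : 0 < ‖inner ℂ e x‖ := by
    have h1 := norm_sub_proj_sq he x
    rw [hsd, hx1] at h1
    have h2 : sd x e ^ 2 ≤ r ^ 2 := pow_le_pow_left₀ (sd_nonneg _ _) hxr 2
    have h3 : r ^ 2 < 1 := by nlinarith
    have h4 : 0 < ‖inner ℂ e x‖ ^ 2 := by nlinarith
    by_contra h5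
    have h6 : ‖inner ℂ e x‖ = 0 := le_antisymm (not_lt.1 h5) (norm_nonneg _)
    rw [h6] at h4
    norm_num at h4
  -- a small multiple argument
  have hsmall : ∀ a : ℝ, (∀ n : ℕ, a ≤ 1 / ((n : ℝ) + 1) * ‖inner ℂ e x‖) → a ≤ 0 := by
    intro a ha
    have h1 : Tendsto (fun n : ℕ => 1 / ((n : ℝ) + 1) * ‖inner ℂ e x‖) atTop
        (𝓝 (0 * ‖inner ℂ e x‖)) :=
      tendsto_one_div_add_atTop_nhds_zero_nat.mul_const _
    rw [zero_mul] at h1
    exact ge_of_tendsto' h1 ha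
  have hγ0 : γ x = 0 := by
    have h1 := hsmall ‖γ x‖ fun n => (hx n).1.2
    exact norm_le_zero_iff.1 h1
  by_cases hcase : ∀ n : ℕ, ‖β x - (t : ℂ) * inner ℂ e x‖ ≤ 1 / ((n : ℝ) + 1) * ‖inner ℂ e x‖
  · have h1 := hsmall _ hcase
    have h2 : β x - (t : ℂ) * inner ℂ e x = 0 := norm_le_zero_iff.1 h1
    exact hB x hxA hxr hγ0 (sub_eq_zero.1 h2)
  · push Not at hcase
    obtain ⟨n, hn⟩ := hcase
    rcases (hx n).2 with h | h
    · have h1 : sd x e = r := by
        rw [← hsd]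
        exact h.1
      have h2 : 4 * t * ‖inner ℂ e x‖ ≤ ‖β x‖ := hA x hxA h1 hγ0
      have h3 : ‖β x‖ ≤ 7 / 2 * t * ‖inner ℂ e x‖ := h.2
      have h4 : 0 < t * ‖inner ℂ e x‖ := mul_pos ht hα
      nlinarith
    · exact absurd h (not_le.2 hn)

end MFE
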