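import Pool.Agent.Lib.MFE.HProps

/-!
# The peak lemma on an analytic curve (row F03 of theorem F)
-/

set_option autoImplicit false

open Set Metric Filter Topology

namespace MFE

namespace Pk

/-- squared Euclidean norm on the plane -/
noncomputable def nn (x : ℂ × ℂ) : ℝ := ‖x.1‖ ^ 2 + ‖x.2‖ ^ 2

/-- the hermitian product as a complex linear form -/
noncomputable def hl (a y : ℂ × ℂ) : ℂ := (starRingEnd ℂ) a.1 * y.1 + (starRingEnd ℂ) a.2 * y.2

theorem nn_add (a y : ℂ × ℂ) : nn (a + y) = nn a + 2 * (hl a y).re + nn y := by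
  simp only [nn, hl, Prod.fst_add, Prod.snd_add, ← Complex.normSq_eq_norm_sq, Complex.normSq_apply,
    Complex.add_re, Complex.add_im, Complex.mul_re, Complex.conj_re, Complex.conj_im]
  ring

theorem nn_nonneg (x : ℂ × ℂ) : 0 ≤ nn x := by unfold nn; positivity

theorem nn_zero : nn (0 : ℂ × ℂ) = 0 := by simp [nn]

theorem eq_zero_of_nn {x : ℂ × ℂ} (h : nn x ≤ 0) : x = 0 := by
  unfold nn at h
  have h1 : ‖x.1‖ ^ 2 = 0 := by nlinarith [sq_nonneg ‖x.1‖, sq_nonneg ‖x.2‖]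
  have h2 : ‖x.2‖ ^ 2 = 0 := by nlinarith [sq_nonneg ‖x.1‖, sq_nonneg ‖x.2‖]
  ext
  · simpa using h1
  · simpa using h2

theorem continuous_nn : Continuous nn := by unfold nn; fun_prop

theorem norm_lt_of_nn {x : ℂ × ℂ} {r : ℝ} (hr : 0 < r) (h : nn x < r ^ 2) : ‖x‖ < r := by
  unfold nn at h
  rw [Prod.norm_def, max_lt_iff]
  constructor
  · exact lt_of_pow_lt_pow_left₀ 2 hr.le (by nlinarith [sq_nonneg ‖x.2‖])
  · exact lt_of_pow_lt_pow_left₀ 2 hr.le (by nlinarith [sq_nonneg ‖x.1‖])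

theorem norm_le_of_nn {x : ℂ × ℂ} {r : ℝ} (hr : 0 < r) (h : nn x ≤ r ^ 2) : ‖x‖ ≤ r := by
  unfold nn at h
  rw [Prod.norm_def, max_le_iff]
  constructor
  · exact le_of_sq_le_sq (by nlinarith [sq_nonneg ‖x.2‖]) hr.le
  · exact le_of_sq_le_sq (by nlinarith [sq_nonneg ‖x.1‖]) hr.le

/-- a disc on which `|q| exp (ε N)` has a local maximum is constant -/
theorem disc_const (g : ℂ → ℂ × ℂ) (q : ℂ × ℂ → ℂ) (ε : ℝ) (hε : 0 < ε) (hg : AnalyticAt ℂ g 0)
    (hq : AnalyticAt ℂ q (g 0)) (h0 : q (g 0) ≠ 0)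
    (hm : ∀ᶠ z in 𝓝 (0 : ℂ), ‖q (g z)‖ * Real.exp (ε * nn (g z)) ≤
      ‖q (g 0)‖ * Real.exp (ε * nn (g 0))) : ∀ᶠ z in 𝓝 (0 : ℂ), g z = g 0 := by
  set h : ℂ → ℂ := fun z => q (g z) / q (g 0) * Complex.exp (2 * ε * hl (g 0) (g z - g 0)) with hh
  have hq0 : 0 < ‖q (g 0)‖ := norm_pos_iff.2 h0
  have hgd : ∀ᶠ z in 𝓝 (0 : ℂ), DifferentiableAt ℂ g z :=
    hg.eventually_analyticAt.mono fun z hz => hz.differentiableAt
  have hqd : ∀ᶠ z in 𝓝 (0 : ℂ), DifferentiableAt ℂ (fun z => q (g z)) z :=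
    (hq.comp hg).eventually_analyticAt.mono fun z hz => hz.differentiableAt
  have hd : ∀ᶠ z in 𝓝 (0 : ℂ), DifferentiableAt ℂ h z := by
    filter_upwards [hgd, hqd] with z hz1 hz2
    have e1 : DifferentiableAt ℂ (fun z => hl (g 0) (g z - g 0)) z := by
      unfold hl
      have a1 : DifferentiableAt ℂ (fun z => (g z - g 0).1) z := (hz1.sub_const _).fst
      have a2 : DifferentiableAt ℂ (fun z => (g z - g 0).2) z := (hz1.sub_const _).snd
      exact (a1.const_mul _).add (a2.const_mul _)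
    exact (hz2.div_const _).mul (e1.const_mul _).cexp
  have hb : ∀ᶠ z in 𝓝 (0 : ℂ), ‖h z‖ ≤ Real.exp (-(ε * nn (g z - g 0))) := by
    filter_upwards [hm] with z hz
    have e1 : ‖h z‖ = ‖q (g z)‖ / ‖q (g 0)‖ * Real.exp (2 * ε * (hl (g 0) (g z - g 0)).re) := by
      simp only [hh, norm_mul, norm_div, Complex.norm_exp]
      congr 2
      have : (2 * (ε : ℂ) * hl (g 0) (g z - g 0)) = ((2 * ε : ℝ) : ℂ) * hl (g 0) (g z - g 0) := by
        push_cast; ring
      rw [this, Complex.re_ofReal_mul]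
    have e2 : nn (g z) = nn (g 0) + 2 * (hl (g 0) (g z - g 0)).re + nn (g z - g 0) := by
      rw [← nn_add]; congr 1; abel
    rw [e1, div_mul_eq_mul_div, div_le_iff₀ hq0]
    have e3 : Real.exp (2 * ε * (hl (g 0) (g z - g 0)).re) =
        Real.exp (ε * nn (g z)) * Real.exp (-(ε * nn (g 0)) ) *
          Real.exp (-(ε * nn (g z - g 0))) := by
      rw [← Real.exp_add, ← Real.exp_add]; congr 1; rw [e2]; ring
    have e4 : ‖q (g z)‖ * Real.exp (ε * nn (g z)) * Real.exp (-(ε * nn (g 0))) ≤ ‖q (g 0)‖ := by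
      calc _ ≤ ‖q (g 0)‖ * Real.exp (ε * nn (g 0)) * Real.exp (-(ε * nn (g 0))) := by gcongr
        _ = ‖q (g 0)‖ := by rw [mul_assoc, ← Real.exp_add]; simp
    calc _ = ‖q (g z)‖ * Real.exp (ε * nn (g z)) * Real.exp (-(ε * nn (g 0))) *
          Real.exp (-(ε * nn (g z - g 0))) := by rw [e3]; ring
      _ ≤ ‖q (g 0)‖ * Real.exp (-(ε * nn (g z - g 0))) := by gcongr
      _ = _ := mul_comm _ _
  have hh0 : h 0 = 1 := by simp [hh, hl, h0]
  have hmax : IsLocalMax (norm ∘ h) 0 := by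
    filter_upwards [hb] with z hz
    simp only [Function.comp, hh0, norm_one]
    refine hz.trans (Real.exp_le_one_iff.2 ?_)
    have := nn_nonneg (g z - g 0)
    nlinarith [mul_nonneg hε.le this]
  have hc := Complex.eventually_eq_of_isLocalMax_norm hd hmax
  filter_upwards [hc, hb] with z hz1 hz2
  rw [hz1, hh0, norm_one] at hz2
  have h3 : nn (g z - g 0) ≤ 0 := by
    have h4 := Real.one_le_exp_iff.1 hz2
    by_contra h5
    push Not at h5
    nlinarith [mul_pos hε h5]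
  exact sub_eq_zero.1 (eq_zero_of_nn h3)

end Pk

open Pk

theorem peak (hp : PertStmt) (hd : DiscStmt) : PeakStmt := by
  intro G q ε hε hG hq hG0 hq0 H
  -- a common ball
  obtain ⟨ρ0, hρ0, hball⟩ : ∃ ρ0 : ℝ, 0 < ρ0 ∧ ∀ x ∈ ball (0 : ℂ × ℂ) ρ0,
      AnalyticAt ℂ G x ∧ AnalyticAt ℂ q x ∧
        (G x = 0 → ‖q x‖ ≤ Real.exp (-(ε * nn x))) := by
    have := (hG.eventually_analyticAt.and (hq.eventually_analyticAt.and H))
    obtain ⟨r, hr, hr2⟩ := Metric.eventually_nhds_iff_ball.1 this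
    exact ⟨r, hr, fun x hx => hr2 x hx⟩
  have h00 : (0 : ℂ × ℂ) ∈ ball (0 : ℂ × ℂ) ρ0 := mem_ball_self hρ0
  set l : ℂ → ℂ × ℂ := fun z => (z, 0) with hl
  have hlan : ∀ z, AnalyticAt ℂ l z := fun z => analyticAt_id.prod analyticAt_const
  have hl0 : l 0 = 0 := rfl
  have hnl : ∀ z, ‖l z‖ = ‖z‖ := fun z => by simp [hl]
  have hGl : AnalyticAt ℂ (fun z => G (l z)) 0 := AnalyticAt.comp (by rw [hl0]; exact hG) (hlan 0)
  rcases hGl.eventually_eq_zero_or_eventually_ne_zero with hA | hB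
  · have hc := disc_const l q ε hε (hlan 0) (by rw [hl0]; exact hq) (by rw [hl0, hq0]; simp) (by
      have hin : ∀ᶠ z in 𝓝 (0 : ℂ), l z ∈ ball (0 : ℂ × ℂ) ρ0 := by
        filter_upwards [Metric.ball_mem_nhds (0 : ℂ) hρ0] with z hz
        simpa [hnl] using hz
      filter_upwards [hA, hin] with z hz hz2
      have h1 := (hball _ hz2).2.2 hz
      rw [hl0, hq0, nn_zero]
      simp only [norm_one, mul_zero, Real.exp_zero, mul_one]
      calc _ ≤ Real.exp (-(ε * nn (l z))) * Real.exp (ε * nn (l z)) := by gcongr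
        _ = 1 := by rw [← Real.exp_add]; simp)
    have h3 : ∀ᶠ z in 𝓝[≠] (0 : ℂ), l z = l 0 := hc.filter_mono nhdsWithin_le_nhds
    have h4 : ∀ᶠ z in 𝓝[≠] (0 : ℂ), False := by
      filter_upwards [h3, self_mem_nhdsWithin] with z hz hz2
      exact hz2 (by simpa [hl] using hz)
    have : (𝓝[≠] (0 : ℂ)).NeBot := NormedField.nhdsNE_neBot 0
    exact h4.exists.elim fun _ h => h
  · -- parameters
    set ρ' : ℝ := ρ0 / 2 with hρ'
    have hρp : 0 < ρ' := by positivity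
    have hsub : ∀ x : ℂ × ℂ, nn x ≤ ρ' ^ 2 → x ∈ ball (0 : ℂ × ℂ) ρ0 := fun x hx => by
      have := norm_le_of_nn hρp hx
      simp only [mem_ball, dist_zero_right]; linarith
    set κ : ℝ := (1 - Real.exp (-(ε * ρ' ^ 2))) / 3 with hκ
    have hex1 : Real.exp (-(ε * ρ' ^ 2)) < 1 := 
      Real.exp_lt_one_iff.2 (by have := mul_pos hε (pow_pos hρp 2); linarith)
    have hκ0 : 0 < κ := by rw [hκ]; linarith
    have hκ1 : κ < 1 / 3 := by rw [hκ]; have := Real.exp_pos (-(ε * ρ' ^ 2)); linarith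
    have hκe : Real.exp (-(ε * ρ' ^ 2)) = 1 - 3 * κ := by rw [hκ]; ring
    -- the circle
    obtain ⟨s1, hs1, hs1ρ, hs1G, hs1q⟩ : ∃ s1 : ℝ, 0 < s1 ∧ s1 < ρ' ∧
        (∀ z : ℂ, ‖z‖ ≤ s1 → z ≠ 0 → G (l z) ≠ 0) ∧ (∀ z : ℂ, ‖z‖ ≤ s1 → 1 - κ < ‖q (l z)‖) := by
      have h1 : ∀ᶠ z in 𝓝 (0 : ℂ), z ≠ 0 → G (l z) ≠ 0 := by
        rw [eventually_nhdsWithin_iff] at hB; exact hB
      have h2 : ∀ᶠ z in 𝓝 (0 : ℂ), 1 - κ < ‖q (l z)‖ := by
        have hc : ContinuousAt (fun z => ‖q (l z)‖) 0 :=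
          (ContinuousAt.comp (f := l) (g := q) (by rw [hl0]; exact hq.continuousAt)
            (hlan 0).continuousAt).norm
        have h3 : (fun z => ‖q (l z)‖) 0 = 1 := by simp only [hl0, hq0, norm_one]
        exact hc.eventually_const_lt (by rw [h3]; linarith)
      obtain ⟨r, hr, hr2⟩ := Metric.eventually_nhds_iff_ball.1 (h1.and h2)
      refine ⟨min (r / 2) (ρ' / 2), by positivity, ?_, ?_, ?_⟩
      · exact (min_le_right _ _).trans_lt (by linarith)
      · intro z hz hz0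
        exact (hr2 z (by simp only [mem_ball, dist_zero_right]; exact (hz.trans (min_le_left _ _)).trans_lt (by linarith))).1 hz0
      · intro z hz
        exact (hr2 z (by simp only [mem_ball, dist_zero_right]; exact (hz.trans (min_le_left _ _)).trans_lt (by linarith))).2
    have hlin : ∀ z : ℂ, ‖z‖ ≤ s1 → nn (l z) ≤ ρ' ^ 2 := fun z hz => by
      have : nn (l z) = ‖z‖ ^ 2 := by simp [nn, hl]
      rw [this]; exact pow_le_pow_left₀ (norm_nonneg _) (hz.trans hs1ρ.le) 2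
    have hGlc : ContinuousOn (fun z => G (l z)) (closedBall (0 : ℂ) s1) := fun z hz =>
      (ContinuousAt.comp (f := l) (g := G) ((hball _ (hsub _ (hlin z (by simpa using hz)))).1.continuousAt)
        (hlan z).continuousAt).continuousWithinAt
    obtain ⟨μ1, hμ1, hμ1G⟩ : ∃ μ1 : ℝ, 0 < μ1 ∧ ∀ z ∈ sphere (0 : ℂ) s1, μ1 ≤ ‖G (l z)‖ := by
      have hcomp : IsCompact (sphere (0 : ℂ) s1) := isCompact_sphere _ _
      have hne : (sphere (0 : ℂ) s1).Nonempty := NormedSpace.sphere_nonempty.2 hs1.le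
      obtain ⟨z0, hz0, hmin⟩ := hcomp.exists_isMinOn hne
        ((hGlc.mono sphere_subset_closedBall).norm)
      refine ⟨‖G (l z0)‖, norm_pos_iff.2 (hs1G z0 (by simpa using (mem_sphere_zero_iff_norm.1 hz0).le) ?_),
        fun z hz => hmin hz⟩
      intro h
      rw [h] at hz0
      simp at hz0
      linarith
    -- the compact sphere
    have hK0 : IsCompact {x : ℂ × ℂ | nn x ≤ ρ' ^ 2} := by
      refine Metric.isCompact_of_isClosed_isBounded (isClosed_le continuous_nn continuous_const) ?_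
      refine (Metric.isBounded_ball (x := (0 : ℂ × ℂ)) (r := ρ0)).subset fun x hx => hsub x hx
    have hqc : ContinuousOn q {x : ℂ × ℂ | nn x ≤ ρ' ^ 2} := fun x hx =>
      (hball x (hsub x hx)).2.1.continuousAt.continuousWithinAt
    have hGc : ContinuousOn G {x : ℂ × ℂ | nn x ≤ ρ' ^ 2} := fun x hx =>
      (hball x (hsub x hx)).1.continuousAt.continuousWithinAt
    obtain ⟨μ2, hμ2, hμ2G⟩ : ∃ μ2 : ℝ, 0 < μ2 ∧ ∀ x : ℂ × ℂ, nn x = ρ' ^ 2 → 1 - 2 * κ ≤ ‖q x‖ →
        μ2 ≤ ‖G x‖ := by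
      set S : Set (ℂ × ℂ) := {x : ℂ × ℂ | nn x ≤ ρ' ^ 2} ∩ (({x : ℂ × ℂ | nn x ≤ ρ' ^ 2} ∩
        {x | 1 - 2 * κ ≤ ‖q x‖}) ∩ {x | nn x = ρ' ^ 2}) with hS
      have hcl : IsClosed ({x : ℂ × ℂ | nn x ≤ ρ' ^ 2} ∩ {x | 1 - 2 * κ ≤ ‖q x‖}) := by
        have := hqc.norm.preimage_isClosed_of_isClosed
          (isClosed_le continuous_nn continuous_const) (isClosed_Ici (a := 1 - 2 * κ))
        exact this
      have hScomp : IsCompact S := hK0.inter_right (hcl.inter (isClosed_eq continuous_nn continuous_const))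
      rcases S.eq_empty_or_nonempty with hSe | hSn
      · refine ⟨1, one_pos, fun x hx hx2 => ?_⟩
        exfalso
        have : x ∈ S := ⟨hx.le, ⟨hx.le, hx2⟩, hx⟩
        rw [hSe] at this; exact this
      · obtain ⟨x0, hx0, hmin⟩ := hScomp.exists_isMinOn hSn ((hGc.mono fun x hx => hx.1).norm)
        refine ⟨‖G x0‖, norm_pos_iff.2 fun h => ?_, fun x hx hx2 => hmin ⟨hx.le, ⟨hx.le, hx2⟩, hx⟩⟩
        have h1 := (hball x0 (hsub x0 hx0.1)).2.2 h
        have h2 : nn x0 = ρ' ^ 2 := hx0.2.2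
        rw [h2, hκe] at h1
        have h3 : 1 - 2 * κ ≤ ‖q x0‖ := hx0.2.1.2
        linarith
    -- perturbation
    set δ : ℝ := min (μ1 / 2) μ2 / (2 * (1 + ρ0)) with hδ
    have hmn : 0 < min (μ1 / 2) μ2 := lt_min (by positivity) hμ2
    have hδ0 : 0 < δ := by positivity
    obtain ⟨v, c, hv, hc, hreg⟩ := hp G ρ0 δ hδ0 (fun x hx => (hball x hx).1)
    have hsmall : ∀ x ∈ ball (0 : ℂ × ℂ) ρ0, ‖c + v x‖ < min (μ1 / 2) μ2 := fun x hx => by
      have hxn : ‖x‖ < ρ0 := by simpa using hx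
      have h1 : ‖v x‖ ≤ δ * ρ0 := (v.le_opNorm x).trans
        (mul_le_mul hv.le hxn.le (norm_nonneg _) hδ0.le)
      have h2 : δ * (2 * (1 + ρ0)) = min (μ1 / 2) μ2 := by rw [hδ]; field_simp
      calc ‖c + v x‖ ≤ ‖c‖ + ‖v x‖ := norm_add_le _ _
        _ ≤ δ + δ * ρ0 := add_le_add hc.le h1
        _ < min (μ1 / 2) μ2 := by nlinarith [mul_pos hδ0 hρ0]
    set G' : ℂ × ℂ → ℂ := fun x => G x - (c + v x) with hG'
    have hG'an : ∀ x ∈ ball (0 : ℂ × ℂ) ρ0, AnalyticAt ℂ G' x := fun x hx =>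
      (hball x hx).1.sub (analyticAt_const.add (v.analyticAt x))
    -- a zero on the line
    obtain ⟨ξ, hξ, hξ0⟩ : ∃ ξ : ℂ, ‖ξ‖ ≤ s1 ∧ G' (l ξ) = 0 := by
      by_contra hno
      push Not at hno
      set f : ℂ → ℂ := fun z => (G' (l z))⁻¹ with hf
      have hfa : ∀ z ∈ closedBall (0 : ℂ) s1, AnalyticAt ℂ f z := fun z hz => by
        have hz' : ‖z‖ ≤ s1 := by simpa using hz
        exact (AnalyticAt.comp (f := l) (g := G') (hG'an _ (hsub _ (hlin z hz'))) (hlan z)).inv (hno z hz')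
      have hdc : DiffContOnCl ℂ f (ball (0 : ℂ) s1) := by
        apply DifferentiableOn.diffContOnCl
        intro z hz
        exact (hfa z (closure_ball_subset_closedBall hz)).differentiableAt.differentiableWithinAt
      have hfr : ∀ z ∈ frontier (ball (0 : ℂ) s1), ‖f z‖ ≤ 2 / μ1 := fun z hz => by
        rw [frontier_ball _ hs1.ne'] at hz
        have hz' : ‖z‖ ≤ s1 := by simpa using (mem_sphere_zero_iff_norm.1 hz).le
        have h1 := hμ1G z hz
        have h2 := (hsmall _ (hsub _ (hlin z hz'))).trans_le (min_le_left _ _)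
        have h3 : μ1 / 2 ≤ ‖G' (l z)‖ := by
          have := norm_sub_norm_le (G (l z)) (c + v (l z))
          simp only [hG']; linarith
        simp only [hf, norm_inv]
        rw [show 2 / μ1 = (μ1 / 2)⁻¹ by field_simp]
        exact inv_anti₀ (by positivity) h3
      have h0 := Complex.norm_le_of_forall_mem_frontier_norm_le Metric.isBounded_ball hdc hfr
        (subset_closure (mem_ball_self hs1))
      have h1 : ‖G' (l 0)‖ < μ1 / 2 := by
        have := (hsmall _ h00).trans_le (min_le_left _ _)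
        simp only [hG', hl0, hG0, zero_sub, norm_neg]; exact this
      have h2 : G' (l 0) ≠ 0 := hno 0 (by simpa using hs1.le)
      have h3 : 0 < ‖G' (l 0)‖ := norm_pos_iff.2 h2
      simp only [hf, norm_inv] at h0
      rw [inv_le_comm₀ h3 (by positivity)] at h0
      rw [inv_div] at h0
      linarith
    -- the maximum
    set K : Set (ℂ × ℂ) := {x : ℂ × ℂ | nn x ≤ ρ' ^ 2} ∩ {x | G' x = 0} with hK
    have hG'c : ContinuousOn G' {x : ℂ × ℂ | nn x ≤ ρ' ^ 2} := fun x hx =>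
      (hG'an x (hsub x hx)).continuousAt.continuousWithinAt
    have hKcl : IsClosed K := hG'c.preimage_isClosed_of_isClosed
      (isClosed_le continuous_nn continuous_const) (isClosed_singleton (x := (0 : ℂ)))
    have hKc : IsCompact K := by
      have := hK0.inter_right hKcl
      rwa [inter_eq_right.2 inter_subset_left] at this
    have hlξ : l ξ ∈ K := ⟨hlin ξ hξ, hξ0⟩
    set ε2 : ℝ := Real.log ((1 - κ) / (1 - 2 * κ)) / ρ' ^ 2 with hε2
    have h12 : 0 < 1 - 2 * κ := by linarith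
    have hrat : 1 < (1 - κ) / (1 - 2 * κ) := by rw [one_lt_div h12]; linarith
    have hε20 : 0 < ε2 := div_pos (Real.log_pos hrat) (by positivity)
    have hε2e : Real.exp (ε2 * ρ' ^ 2) = (1 - κ) / (1 - 2 * κ) := by
      rw [hε2, div_mul_cancel₀ _ (by positivity), Real.exp_log (by linarith)]
    have hφc : ContinuousOn (fun x => ‖q x‖ * Real.exp (ε2 * nn x)) K :=
      ((hqc.mono inter_subset_left).norm).mul
        (Real.continuous_exp.comp (continuous_const.mul continuous_nn)).continuousOn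
    obtain ⟨x2, hx2K, hx2max⟩ := hKc.exists_isMaxOn ⟨_, hlξ⟩ hφc
    have hmax : ∀ x ∈ K, ‖q x‖ * Real.exp (ε2 * nn x) ≤ ‖q x2‖ * Real.exp (ε2 * nn x2) :=
      fun x hx => hx2max hx
    have hbig : 1 - κ < ‖q x2‖ * Real.exp (ε2 * nn x2) := by
      refine lt_of_lt_of_le (hs1q ξ hξ) (le_trans ?_ (hmax _ hlξ))
      have : 1 ≤ Real.exp (ε2 * nn (l ξ)) :=
        Real.one_le_exp (mul_nonneg hε20.le (nn_nonneg _))
      exact le_mul_of_one_le_right (norm_nonneg _) this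
    have hint : nn x2 < ρ' ^ 2 := by
      refine lt_of_le_of_ne hx2K.1 fun heq => ?_
      have h1 : ‖q x2‖ < 1 - 2 * κ := by
        by_contra h
        push Not at h
        have h2 := hμ2G x2 heq h
        have h3 : G x2 = c + v x2 := sub_eq_zero.1 hx2K.2
        have h4 := (hsmall x2 (hsub x2 hx2K.1)).trans_le (min_le_right _ _)
        rw [h3] at h2
        linarith
      rw [heq, hε2e] at hbig
      have h5 : ‖q x2‖ * ((1 - κ) / (1 - 2 * κ)) ≤ (1 - 2 * κ) * ((1 - κ) / (1 - 2 * κ)) :=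
        mul_le_mul_of_nonneg_right h1.le (by linarith)
      rw [mul_div_cancel₀ _ h12.ne'] at h5
      linarith
    have hx2b : x2 ∈ ball (0 : ℂ × ℂ) ρ0 := hsub x2 hx2K.1
    have hqx2 : q x2 ≠ 0 := by
      intro h
      rw [h] at hbig
      simp at hbig
      linarith
    have hfd : fderiv ℂ G' x2 ≠ 0 := by
      have h1 : fderiv ℂ G' x2 = fderiv ℂ G x2 - v := by
        have e1 : HasFDerivAt G (fderiv ℂ G x2) x2 := (hball x2 hx2b).1.differentiableAt.hasFDerivAt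
        have e2 : HasFDerivAt (fun x => c + v x) v x2 := v.hasFDerivAt.const_add c
        exact (e1.sub e2).fderiv
      rw [h1]
      exact sub_ne_zero.2 (hreg x2 hx2b (sub_eq_zero.1 hx2K.2))
    obtain ⟨g, hga, hg0, hgG, hgn⟩ := hd G' x2 (hG'an x2 hx2b) hx2K.2 hfd
    apply hgn
    have hev := disc_const g q ε2 hε20 hga (by rw [hg0]; exact (hball x2 hx2b).2.1)
      (by rw [hg0]; exact hqx2) (by
        have hin : ∀ᶠ z in 𝓝 (0 : ℂ), nn (g z) < ρ' ^ 2 := by
          have hcg : ContinuousAt (fun z => nn (g z)) 0 :=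
            ContinuousAt.comp (f := g) (g := nn) continuous_nn.continuousAt hga.continuousAt
          exact hcg.eventually_lt_const (by simp only [hg0]; exact hint)
        filter_upwards [hgG, hin] with z hz1 hz2
        rw [hg0]
        exact hmax _ ⟨hz2.le, hz1⟩)
    rwa [hg0] at hev

end MFE
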