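import Pool.Agent.Lib.MFE.HProps

/-!
# Row F1a: a small affine perturbation without critical zeros
-/

set_option autoImplicit false

open Set Metric Filter Topology MeasureTheory Module

namespace MFE

theorem finrank_pert : finrank ℝ ((ℂ × ℂ →L[ℂ] ℂ) × ℂ) = 6 := by
  have h1 : finrank ℂ (ℂ × ℂ →L[ℂ] ℂ) = 2 := by
    have e : (ℂ × ℂ →ₗ[ℂ] ℂ) ≃ₗ[ℂ] (ℂ × ℂ →L[ℂ] ℂ) := LinearMap.toContinuousLinearMap
    rw [← e.finrank_eq, Module.finrank_linearMap]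
    simp
  have h2 : finrank ℂ ((ℂ × ℂ →L[ℂ] ℂ) × ℂ) = 3 := by
    rw [Module.finrank_prod, h1]
    simp
  have h3 := Module.finrank_mul_finrank ℝ ℂ ((ℂ × ℂ →L[ℂ] ℂ) × ℂ)
  rw [h2, Complex.finrank_real_complex] at h3
  rw [← h3]

theorem pert : PertStmt := by
  intro G ρ δ hδ hG
  set f : ℂ × ℂ → (ℂ × ℂ →L[ℂ] ℂ) × ℂ := fun x => (fderiv ℂ G x, G x - fderiv ℂ G x x) with hf
  have hfa : AnalyticOnNhd ℂ f (ball 0 ρ) := by
    have h1 : AnalyticOnNhd ℂ (fun x => fderiv ℂ G x) (ball 0 ρ) := hG.fderiv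
    have h2 : AnalyticOnNhd ℂ (fun x => fderiv ℂ G x x) (ball 0 ρ) := by
      intro x hx
      have h3 := ((ContinuousLinearMap.id ℂ (ℂ × ℂ →L[ℂ] ℂ)).analyticAt_bilinear
        (fderiv ℂ G x, x)).comp_of_eq (f := fun x => (fderiv ℂ G x, x)) ((h1 x hx).prod
          analyticAt_id) rfl
      exact h3
    exact h1.prod (hG.sub h2)
  have hfc : ContDiffOn ℝ 1 f (ball 0 ρ) := by
    have h1 : ContDiffOn ℂ 1 f (ball 0 ρ) := fun x hx => (hfa x hx).contDiffAt.contDiffWithinAt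
    exact h1.restrict_scalars ℝ
  have hdim : dimH (ball (0 : ℂ × ℂ) ρ) < finrank ℝ ((ℂ × ℂ →L[ℂ] ℂ) × ℂ) := by
    calc dimH (ball (0 : ℂ × ℂ) ρ) ≤ dimH (univ : Set (ℂ × ℂ)) := dimH_mono (subset_univ _)
      _ = finrank ℝ (ℂ × ℂ) := Real.dimH_univ_eq_finrank _
      _ < finrank ℝ ((ℂ × ℂ →L[ℂ] ℂ) × ℂ) := by
        rw [finrank_pert]
        have : finrank ℝ (ℂ × ℂ) = 4 := by
          rw [Module.finrank_prod]
          simp [Complex.finrank_real_complex]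
        rw [this]
        norm_num
  have hd := hfc.dense_compl_image_of_dimH_lt_finrank (convex_ball 0 ρ) (Subset.refl _) hdim
  obtain ⟨y, hy1, hy2⟩ := hd.exists_dist_lt (0 : (ℂ × ℂ →L[ℂ] ℂ) × ℂ) hδ
  rw [dist_zero_left, Prod.norm_def, max_lt_iff] at hy2
  refine ⟨y.1, y.2, hy2.1, hy2.2, fun x hx hGx hfd => hy1 ⟨x, hx, ?_⟩⟩
  refine Prod.ext hfd ?_
  show G x - fderiv ℂ G x x = y.2
  rw [hfd, hGx]
  ring

end MFE
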