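import Pool.Agent.Lib.MFE.HProps

/-!
# Row F09: rotation of a pair of linear forms
-/

set_option autoImplicit false

open Set Metric Filter Topology
open scoped ComplexConjugate

namespace MFE

theorem lagrange_id (z1 z2 w1 w2 : ℂ) :
    ‖conj z1 * w1 + conj z2 * w2‖ ^ 2 + ‖z1 * w2 - z2 * w1‖ ^ 2 =
      (‖z1‖ ^ 2 + ‖z2‖ ^ 2) * (‖w1‖ ^ 2 + ‖w2‖ ^ 2) := by
  simp only [Complex.sq_norm, Complex.normSq_apply, Complex.add_re, Complex.add_im,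
    Complex.mul_re, Complex.mul_im, Complex.sub_re, Complex.sub_im, Complex.conj_re,
    Complex.conj_im]
  ring

theorem rot (E : Type*) [NormedAddCommGroup E] [InnerProductSpace ℂ E] : RotStmt E := by
  intro A e r b1 b2 k1 hb1 hb2 hk h1 h2
  obtain ⟨z1, z2, hz0, hzd, hz⟩ := h2 (k1 ^ 2 / 16) (by positivity)
  set t : ℝ := Real.sqrt (‖z1‖ ^ 2 + ‖z2‖ ^ 2) with ht
  have ht0 : 0 < t := Real.sqrt_pos.2 hz0
  have ht2 : t ^ 2 = ‖z1‖ ^ 2 + ‖z2‖ ^ 2 := Real.sq_sqrt hz0.le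
  have htc : (t : ℂ) ≠ 0 := by exact_mod_cast ht0.ne'
  have ht2c : (t : ℂ) ^ 2 = z1 * conj z1 + z2 * conj z2 := by
    rw [Complex.mul_conj', Complex.mul_conj']
    exact_mod_cast congrArg (fun x : ℝ => (x : ℂ)) ht2
  let β : E →L[ℂ] ℂ := (t : ℂ)⁻¹ • (conj z1 • b1 + conj z2 • b2)
  let γ : E →L[ℂ] ℂ := (t : ℂ)⁻¹ • (z1 • b2 - z2 • b1)
  have hβ : ∀ x, β x = (t : ℂ)⁻¹ * (conj z1 * b1 x + conj z2 * b2 x) := fun x => rfl
  have hγ : ∀ x, γ x = (t : ℂ)⁻¹ * (z1 * b2 x - z2 * b1 x) := fun x => rfl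
  have hγ0 : ∀ x, γ x = 0 → z1 * b2 x - z2 * b1 x = 0 := by
    intro x hx
    rw [hγ] at hx
    exact (mul_eq_zero.1 hx).resolve_left (inv_ne_zero htc)
  refine ⟨β, γ, t, ht0, by rw [hβ, hb1, hb2]; simp, by rw [hγ, hb1, hb2]; simp, ?_, ?_⟩
  · intro x hxA hxr hx
    have e1 := lagrange_id z1 z2 (b1 x) (b2 x)
    rw [hγ0 x hx, norm_zero, ← ht2] at e1
    have e2 : ‖β x‖ ^ 2 = ‖b1 x‖ ^ 2 + ‖b2 x‖ ^ 2 := by
      rw [hβ, norm_mul, norm_inv, Complex.norm_real, Real.norm_of_nonneg ht0.le, mul_pow]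
      have : ‖conj z1 * b1 x + conj z2 * b2 x‖ ^ 2 = t ^ 2 * (‖b1 x‖ ^ 2 + ‖b2 x‖ ^ 2) := by
        linarith
      rw [this, inv_pow]
      field_simp
    have e3 := h1 x hxA hxr
    rw [← e2] at e3
    have e4 : (4 * t * ‖inner ℂ e x‖) ^ 2 ≤ ‖β x‖ ^ 2 := by
      refine le_trans ?_ e3
      have e5 : 16 * t ^ 2 ≤ k1 ^ 2 := by rw [ht2]; linarith
      calc (4 * t * ‖inner ℂ e x‖) ^ 2 = 16 * t ^ 2 * ‖inner ℂ e x‖ ^ 2 := by ring
        _ ≤ k1 ^ 2 * ‖inner ℂ e x‖ ^ 2 := mul_le_mul_of_nonneg_right e5 (sq_nonneg _)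
    exact (pow_le_pow_iff_left₀ (by positivity) (norm_nonneg _) two_ne_zero).1 e4
  · intro x hxA hxr hx hβx
    apply hz x hxA hxr
    have e1 := hγ0 x hx
    rw [hβ] at hβx
    have e2 : conj z1 * b1 x + conj z2 * b2 x = (t : ℂ) ^ 2 * inner ℂ e x := by
      have : conj z1 * b1 x + conj z2 * b2 x =
          (t : ℂ) * ((t : ℂ)⁻¹ * (conj z1 * b1 x + conj z2 * b2 x)) := by
        rw [← mul_assoc, mul_inv_cancel₀ htc, one_mul]
      rw [this, hβx]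
      ring
    have ht2c0 : (t : ℂ) ^ 2 ≠ 0 := pow_ne_zero 2 htc
    constructor
    · refine mul_left_cancel₀ ht2c0 ?_
      rw [ht2c]
      rw [ht2c] at e2
      linear_combination z1 * e2 - conj z2 * e1
    · refine mul_left_cancel₀ ht2c0 ?_
      rw [ht2c]
      rw [ht2c] at e2
      linear_combination z2 * e2 + conj z1 * e1

end MFE
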