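import Pool.Agent.Lib.MFE.HProps
import Pool.Agent.Lib.MFE.Sd
import Pool.Agent.Lib.MFE.Proj

/-!
# Row F08: thinness in the projective plane
-/

set_option autoImplicit false

open Set Metric Filter Topology
open scoped LinearAlgebra.Projectivization

namespace MFE

variable {E : Type*} [NormedAddCommGroup E] [InnerProductSpace ℂ E]

/-- balls of the chordal metric are open -/
theorem isOpen_punct (p0 : ℙ ℂ E) (c : ℝ) : IsOpen {p : ℙ ℂ E | 0 < pdist p p0 ∧ pdist p p0 < c} := by
  letI : MetricSpace (ℙ ℂ E) := projMetric E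
  have hc : Continuous fun p : ℙ ℂ E => dist p p0 := continuous_id.dist continuous_const
  exact (isOpen_lt continuous_const hc).inter (isOpen_lt hc continuous_const)

/-- balls of the chordal metric are open -/
theorem isOpen_cball (p0 : ℙ ℂ E) (c : ℝ) : IsOpen {p : ℙ ℂ E | pdist p p0 < c} := by
  letI : MetricSpace (ℙ ℂ E) := projMetric E
  have hc : Continuous fun p : ℙ ℂ E => dist p p0 := continuous_id.dist continuous_const
  exact isOpen_lt hc continuous_const

/-- neighbourhoods contain balls of the chordal metric -/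
theorem exists_ball {S : Set (ℙ ℂ E)} (hS : IsOpen S) {p0 : ℙ ℂ E} (hp : p0 ∈ S) :
    ∃ ε : ℝ, 0 < ε ∧ ∀ p, pdist p p0 < ε → p ∈ S := by
  letI : MetricSpace (ℙ ℂ E) := projMetric E
  obtain ⟨ε, hε, h⟩ := Metric.isOpen_iff.1 hS p0 hp
  exact ⟨ε, hε, fun p hp => h hp⟩

/-- an orthonormal pair in a 3-dimensional space is completed by a vector -/
theorem exists_third [FiniteDimensional ℂ E] (hE : Module.finrank ℂ E = 3) {e y : E} (he : ‖e‖ = 1)
    (hy : ‖y‖ = 1) (hey : inner ℂ e y = (0 : ℂ)) :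
    ∃ g : E, inner ℂ g e = (0 : ℂ) ∧ ∀ x : E, inner ℂ g x = (0 : ℂ) →
      x = inner ℂ e x • e + inner ℂ y x • y := by
  have ho : Orthonormal ℂ ![e, y] := by
    rw [orthonormal_iff_ite]
    intro i j
    fin_cases i <;> fin_cases j <;>
      simp [hey, inner_eq_zero_symm.1 hey, inner_self_eq_norm_sq_to_K, he, hy]
  let W : Submodule ℂ E := Submodule.span ℂ (Set.range ![e, y])
  have hW : Module.finrank ℂ W = 2 := by
    have := finrank_span_eq_card ho.linearIndependent
    simpa using this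
  have hW' : Module.finrank ℂ Wᗮ = 1 := by
    have := Submodule.finrank_add_finrank_orthogonal W
    omega
  obtain ⟨g, hg0, hg⟩ := finrank_eq_one_iff'.1 hW'
  have heW : e ∈ W := Submodule.subset_span ⟨0, rfl⟩
  have hyW : y ∈ W := Submodule.subset_span ⟨1, rfl⟩
  refine ⟨g, ?_, ?_⟩
  · exact (Submodule.mem_orthogonal' W _).1 g.2 e heW
  · intro x hx
    have hxW : x ∈ Wᗮᗮ := by
      rw [Submodule.mem_orthogonal]
      intro v hv
      obtain ⟨c, hc⟩ := hg ⟨v, hv⟩
      have : v = c • (g : E) := (congrArg Subtype.val hc).symm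
      rw [this, inner_smul_left, hx, mul_zero]
    rw [Submodule.orthogonal_orthogonal] at hxW
    obtain ⟨c, hc⟩ := (Submodule.mem_span_range_iff_exists_fun ℂ).1 hxW
    rw [Fin.sum_univ_two] at hc
    simp only [Matrix.cons_val_zero, Matrix.cons_val_one] at hc
    have h1 : inner ℂ e x = c 0 := by
      rw [← hc, inner_add_right, inner_smul_right, inner_smul_right, hey,
        inner_self_eq_norm_sq_to_K, he]
      simp
    have h2 : inner ℂ y x = c 1 := by
      rw [← hc, inner_add_right, inner_smul_right, inner_smul_right, inner_eq_zero_symm.1 hey,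
        inner_self_eq_norm_sq_to_K, hy]
      simp
    rw [h1, h2]
    exact hc.symm

/-- a unit vector perpendicular to `e` -/
theorem exists_perp [FiniteDimensional ℂ E] (hE : Module.finrank ℂ E = 3) (e : E) :
    ∃ y : E, ‖y‖ = 1 ∧ inner ℂ e y = (0 : ℂ) := by
  have h1 : Module.finrank ℂ (Submodule.span ℂ {e}) ≤ 1 := by
    by_cases he : e = 0
    · rw [he, Submodule.span_zero_singleton, finrank_bot]
      exact zero_le_one
    · rw [finrank_span_singleton he]
  have h2 := Submodule.finrank_add_finrank_orthogonal (Submodule.span ℂ {e})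
  have h3 : (Submodule.span ℂ {e})ᗮ ≠ ⊥ := by
    intro h
    rw [h, finrank_bot] at h2
    omega
  obtain ⟨v, hv, hv0⟩ := Submodule.exists_mem_ne_zero_of_ne_bot h3
  refine ⟨((‖v‖ : ℂ)⁻¹) • v, ?_, ?_⟩
  · rw [norm_smul, norm_inv, Complex.norm_real, norm_norm]
    exact inv_mul_cancel₀ (norm_ne_zero_iff.2 hv0)
  · rw [inner_smul_right, (Submodule.mem_orthogonal _ v).1 hv e (Submodule.mem_span_singleton_self e),
      mul_zero]

/-- thinness at `e` from one point near `e` outside `A` -/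
theorem thin_aux [FiniteDimensional ℂ E] (hE : Module.finrank ℂ E = 3) (A : Set (ℙ ℂ E)) {e y : E}
    (he1 : ‖e‖ = 1) {r : ℝ} (hr : 0 < r) (hr2 : r < 1 / 2) (hy0 : y ≠ 0)
    (hyA : Projectivization.mk ℂ y hy0 ∉ A) (hs0 : 0 < sd y e) (hs1 : sd y e < r / 5) :
    ThinAt (coneOf A) e r := by
  set α : ℂ := inner ℂ e y with hα
  have hyn : 0 < ‖y‖ := norm_pos_iff.2 hy0
  have h1 := norm_mul_sd hy0 he1
  have h2 := norm_sub_proj_sq he1 y
  rw [← hα] at h1 h2
  have hss : sd y e ^ 2 ≤ 1 / 100 := by nlinarith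
  have hα2 : ‖α‖ ^ 2 = ‖y‖ ^ 2 * (1 - sd y e ^ 2) := by
    rw [← h1] at h2
    nlinarith
  have hαpos : 0 < ‖α‖ ^ 2 := by
    rw [hα2]
    exact mul_pos (by positivity) (by linarith)
  have hα0 : α ≠ 0 := by
    intro h
    rw [h, norm_zero] at hαpos
    norm_num at hαpos
  have hαn : 0 < ‖α‖ := norm_pos_iff.2 hα0
  set v : E := α⁻¹ • (y - α • e) with hv
  have hvy : y = α • (e + v) := by
    rw [hv, smul_add, smul_smul, mul_inv_cancel₀ hα0, one_smul]
    abel
  have hvn : ‖v‖ = ‖y‖ * sd y e / ‖α‖ := by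
    rw [hv, norm_smul, norm_inv, ← h1, inv_mul_eq_div]
  have hvpos : 0 < ‖v‖ := by rw [hvn]; positivity
  have hvr : 4 * ‖v‖ ≤ r := by
    have : (4 * ‖v‖) ^ 2 ≤ r ^ 2 := by
      rw [hvn, mul_pow, div_pow, mul_pow, hα2]
      have hy2 : 0 < ‖y‖ ^ 2 := by positivity
      have hs2 : 0 < 1 - sd y e ^ 2 := by linarith
      rw [mul_div_mul_left _ _ hy2.ne', ← mul_div_assoc, div_le_iff₀ hs2]
      nlinarith
    exact (pow_le_pow_iff_left₀ (by positivity) hr.le two_ne_zero).1 this
  have hev : inner ℂ e v = (0 : ℂ) := by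
    rw [hv, inner_smul_right, hα, inner_sub_proj he1, mul_zero]
  have hvc : (‖v‖ : ℂ) ≠ 0 := by exact_mod_cast hvpos.ne'
  set y1 : E := ((‖v‖ : ℂ)⁻¹) • v with hy1
  have hy1n : ‖y1‖ = 1 := by
    rw [hy1, norm_smul, norm_inv, Complex.norm_real, norm_norm]
    exact inv_mul_cancel₀ hvpos.ne'
  have hey1 : inner ℂ e y1 = (0 : ℂ) := by rw [hy1, inner_smul_right, hev, mul_zero]
  have hvy1 : v = (‖v‖ : ℂ) • y1 := by rw [hy1, smul_smul, mul_inv_cancel₀ hvc, one_smul]
  obtain ⟨g, hg1, hg⟩ := exists_third hE he1 hy1n hey1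
  refine ⟨innerSL ℂ y1, innerSL ℂ g, ‖v‖, hvpos, ?_, ?_, ?_, ?_⟩
  · simpa using inner_eq_zero_symm.1 hey1
  · simpa using hg1
  · intro x hxA hxr hx
    rw [innerSL_apply_apply] at hx ⊢
    have hxe := hg x hx
    have hx0 : x ≠ 0 := hxA.1
    have e1 := norm_mul_sd hx0 he1
    have e2 : x - inner ℂ e x • e = inner ℂ y1 x • y1 := by
      conv_lhs => rw [hxe]
      have : inner ℂ e (inner ℂ e x • e + inner ℂ y1 x • y1) = inner ℂ e x := by rw [← hxe]
      rw [this]
      abel
    rw [e2, norm_smul, hy1n, mul_one, hxr] at e1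
    rw [← e1]
    have e3 : ‖inner ℂ e x‖ ≤ ‖x‖ := by
      have := norm_inner_le_norm (𝕜 := ℂ) e x
      rwa [he1, one_mul] at this
    calc 4 * ‖v‖ * ‖inner ℂ e x‖ ≤ r * ‖x‖ :=
          mul_le_mul hvr e3 (norm_nonneg _) hr.le
      _ = ‖x‖ * r := mul_comm _ _
  · intro x hxA hxr hx hβ
    rw [innerSL_apply_apply] at hx hβ
    have hxe := hg x hx
    have hx0 : x ≠ 0 := hxA.1
    rw [hβ, mul_comm, mul_smul, ← hvy1, ← smul_add] at hxe
    have hxy : x = (inner ℂ e x * α⁻¹) • y := by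
      conv_rhs => rw [hvy]
      rw [smul_smul, mul_assoc, inv_mul_cancel₀ hα0, mul_one]
      exact hxe
    obtain ⟨h, hh⟩ := hxA
    apply hyA
    have : Projectivization.mk ℂ x h = Projectivization.mk ℂ y hy0 := by
      rw [Projectivization.mk_eq_mk_iff']
      exact ⟨_, hxy.symm⟩
    rwa [this] at hh

theorem thin2loc (E : Type*) [NormedAddCommGroup E] [InnerProductSpace ℂ E] [FiniteDimensional ℂ E]
    (hE : Module.finrank ℂ E = 3) : Thin2LocStmt E := by
  intro A e he he1 heA heI r hr hr2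
  set p0 : ℙ ℂ E := Projectivization.mk ℂ e he with hp0
  have hex : ∃ y : E, ∃ hy : y ≠ 0, Projectivization.mk ℂ y hy ∉ A ∧ sd y e < r / 5 := by
    by_contra hcon
    push Not at hcon
    apply heI
    refine interior_maximal (s := A) (t := {p : ℙ ℂ E | pdist p p0 < r / 5}) ?_
      (isOpen_cball p0 _) ?_
    · intro p hp
      have hpm : p = Projectivization.mk ℂ p.rep p.rep_nonzero := p.mk_rep.symm
      by_contra hpA
      have h1 : pdist p p0 < r / 5 := hp
      rw [hpm] at hpA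
      have := hcon p.rep p.rep_nonzero hpA
      rw [hpm, hp0, pdist_mk] at h1
      linarith
    · show pdist p0 p0 < r / 5
      rw [hp0, pdist_mk, sd_self he]
      positivity
  obtain ⟨y, hy0, hyA, hs1⟩ := hex
  refine thin_aux hE A he1 hr hr2 hy0 hyA ?_ hs1
  rcases (sd_nonneg y e).lt_or_eq with h | h
  · exact h
  · exfalso
    obtain ⟨c, hc⟩ := (sd_eq_zero hy0 he).1 h.symm
    apply hyA
    have : Projectivization.mk ℂ y hy0 = Projectivization.mk ℂ e he := by
      rw [Projectivization.mk_eq_mk_iff']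
      exact ⟨c, hc.symm⟩
    rw [this]
    exact heA

theorem thin2 (E : Type*) [NormedAddCommGroup E] [InnerProductSpace ℂ E] [FiniteDimensional ℂ E]
    (hE : Module.finrank ℂ E = 3) : Thin2Stmt E := by
  intro A Q hQ hA e he he1 heQ
  set p0 : ℙ ℂ E := Projectivization.mk ℂ e he with hp0
  obtain ⟨ε, hε, hball⟩ := exists_ball hQ.isOpen_compl (p0 := p0) heQ
  refine ⟨min ε (1 / 2), by positivity, ?_⟩
  intro r hr hr1
  have hrε : r < ε := hr1.trans_le (min_le_left _ _)
  have hr2 : r < 1 / 2 := hr1.trans_le (min_le_right _ _)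
  -- a point near `e` outside `A`
  have hex : ∃ y : E, ∃ hy : y ≠ 0, Projectivization.mk ℂ y hy ∉ A ∧ 0 < sd y e ∧ sd y e < r / 5 := by
    by_contra hcon
    push Not at hcon
    have hsub : {p : ℙ ℂ E | 0 < pdist p p0 ∧ pdist p p0 < r / 5} ⊆ A \ Q := by
      rintro p ⟨h1, h2⟩
      have hp : p = Projectivization.mk ℂ p.rep p.rep_nonzero := p.mk_rep.symm
      rw [hp, hp0, pdist_mk] at h1 h2
      refine ⟨?_, ?_⟩
      · by_contra hpA
        rw [hp] at hpA
        have := hcon p.rep p.rep_nonzero hpA h1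
        linarith
      · have : pdist p p0 < ε := by
          rw [hp, hp0, pdist_mk]
          linarith
        exact hball p this
    obtain ⟨y1, hy1, hey1⟩ := exists_perp hE e
    have hyn : (e + ((r / 10 : ℝ) : ℂ) • y1) ≠ 0 := by
      intro h
      have h1 : inner ℂ e (e + ((r / 10 : ℝ) : ℂ) • y1) = (1 : ℂ) := by
        rw [inner_add_right, inner_smul_right, hey1, inner_self_eq_norm_sq_to_K, he1]
        simp
      rw [h, inner_zero_right] at h1
      exact zero_ne_one h1
    have hin : inner ℂ e (e + ((r / 10 : ℝ) : ℂ) • y1) = (1 : ℂ) := by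
      rw [inner_add_right, inner_smul_right, hey1, inner_self_eq_norm_sq_to_K, he1]
      simp
    have h1 := norm_mul_sd hyn he1
    rw [hin, one_smul, add_sub_cancel_left, norm_smul, Complex.norm_real, hy1, mul_one,
      Real.norm_of_nonneg (by positivity)] at h1
    have h2 : 1 ≤ ‖e + ((r / 10 : ℝ) : ℂ) • y1‖ := by
      have := norm_inner_le_norm (𝕜 := ℂ) e (e + ((r / 10 : ℝ) : ℂ) • y1)
      rwa [hin, he1, one_mul, norm_one] at this
    have h3 := sd_nonneg (e + ((r / 10 : ℝ) : ℂ) • y1) e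
    have hmem : Projectivization.mk ℂ _ hyn ∈ {p : ℙ ℂ E | 0 < pdist p p0 ∧ pdist p p0 < r / 5} := by
      show 0 < pdist _ p0 ∧ pdist _ p0 < r / 5
      rw [hp0, pdist_mk]
      constructor
      · rcases h3.lt_or_eq with h | h
        · exact h
        · rw [← h, mul_zero] at h1
          linarith
      · nlinarith
    have hint : {p : ℙ ℂ E | 0 < pdist p p0 ∧ pdist p p0 < r / 5} ⊆ interior (A \ Q) :=
      interior_maximal hsub (isOpen_punct p0 _)
    rw [hA] at hint
    exact hint hmem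
  obtain ⟨y, hy0, hyA, hs0, hs1⟩ := hex
  exact thin_aux hE A he1 hr hr2 hy0 hyA hs0 hs1

end MFE
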