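import Pool.Agent.Lib.MFE.HProps
import Pool.Agent.Lib.MFE.Sd
import Pool.Agent.Lib.MFE.Proj

/-!
# Row F4d: thinness from the Hausdorff measure (helper40)
-/

set_option autoImplicit false

open Set Metric Filter Topology MeasureTheory
open scoped LinearAlgebra.Projectivization NNReal ENNReal

namespace MFE

section
variable {E : Type*} [NormedAddCommGroup E] [InnerProductSpace ℂ E]

/-- a small ball around a line outside a closed set -/
theorem exists_sd_notMem {Q : Set (ℙ ℂ E)} (hQ : IsClosed Q) {e : E} (he : e ≠ 0)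
    (h : Projectivization.mk ℂ e he ∉ Q) :
    ∃ ε : ℝ, 0 < ε ∧ ∀ (y : E) (hy : y ≠ 0), sd y e < ε → Projectivization.mk ℂ y hy ∉ Q := by
  have ho : IsOpen Qᶜ := hQ.isOpen_compl
  letI : MetricSpace (ℙ ℂ E) := projMetric E
  obtain ⟨ε, hε, hb⟩ := Metric.isOpen_iff.1 ho _ h
  refine ⟨ε, hε, fun y hy hyε => hb ?_⟩
  rw [mem_ball]
  change pdist _ _ < ε
  rw [pdist_mk]
  exact hyε

/-- the affine chart around `e` -/
noncomputable def chartMap (e : E) (p : ℙ ℂ E) : E := (inner ℂ e p.rep)⁻¹ • p.rep - e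

theorem chartMap_mk {e x : E} (hx : x ≠ 0) :
    chartMap e (Projectivization.mk ℂ x hx) = (inner ℂ e x)⁻¹ • x - e := by
  obtain ⟨c, hc⟩ := Projectivization.exists_smul_eq_mk_rep ℂ x hx
  unfold chartMap
  rw [← hc]
  have hc0 : (c : ℂ) ≠ 0 := c.ne_zero
  rw [Units.smul_def, inner_smul_right, smul_smul, mul_inv, mul_comm (c : ℂ)⁻¹, mul_assoc,
    inv_mul_cancel₀ hc0, mul_one]

theorem th4_null_image {Z : Set (ℙ ℂ E)} (hZ : Thin4 E Z) {f : ℙ ℂ E → E} {K : ℝ≥0}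
    (hf : ∀ p ∈ Z, ∀ q ∈ Z, dist (f p) (f q) ≤ K * pdist p q) :
    (letI : MeasurableSpace E := borel E
     haveI : BorelSpace E := ⟨rfl⟩
     μH[4] (f '' Z) = 0) := by
  letI : MeasurableSpace E := borel E
  haveI : BorelSpace E := ⟨rfl⟩
  unfold Thin4 at hZ
  letI : MetricSpace (ℙ ℂ E) := projMetric E
  letI : MeasurableSpace (ℙ ℂ E) := borel (ℙ ℂ E)
  haveI : BorelSpace (ℙ ℂ E) := ⟨rfl⟩
  have h1 : LipschitzOnWith K f Z := LipschitzOnWith.of_dist_le_mul hf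
  have h2 := h1.hausdorffMeasure_image_le (d := 4) (by norm_num)
  have h3 : μH[4] Z = 0 := hZ
  rw [h3, mul_zero] at h2
  exact le_antisymm h2 zero_le

theorem thin4_mono {Z Z' : Set (ℙ ℂ E)} (h : Z' ⊆ Z) (hZ : Thin4 E Z) : Thin4 E Z' := by
  unfold Thin4 at hZ ⊢
  letI : MetricSpace (ℙ ℂ E) := projMetric E
  letI : MeasurableSpace (ℙ ℂ E) := borel (ℙ ℂ E)
  haveI : BorelSpace (ℙ ℂ E) := ⟨rfl⟩
  exact measure_mono_null h hZ

/-- points of the plane close to the origin and outside a null set -/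
theorem exists_notMem_null {Y : Set E}
    (hY : letI : MeasurableSpace E := borel E
      haveI : BorelSpace E := ⟨rfl⟩
      μH[4] Y = 0) (b : E →L[ℂ] ℂ × ℂ) {δ : ℝ} (hδ : 0 < δ) :
    ∃ z : ℂ × ℂ, 0 < ‖z.1‖ ^ 2 + ‖z.2‖ ^ 2 ∧ ‖z.1‖ ^ 2 + ‖z.2‖ ^ 2 < δ ∧ z ∉ b '' Y := by
  letI : MeasurableSpace E := borel E
  haveI : BorelSpace E := ⟨rfl⟩
  have hY' : μH[4] Y = 0 := hY
  have h1 : μH[4] (b '' Y) = 0 := by
    have h2 := b.lipschitz.hausdorffMeasure_image_le (d := 4) (by norm_num) Y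
    rw [hY', mul_zero] at h2
    exact le_antisymm h2 zero_le
  have hfin : (Module.finrank ℝ (ℂ × ℂ) : ℝ) = 4 := by
    rw [Module.finrank_prod, Complex.finrank_real_complex]
    norm_num
  have hH : (μH[4] : Measure (ℂ × ℂ)).IsAddHaarMeasure := by
    rw [← hfin]
    infer_instance
  set S : Set (ℂ × ℂ) := {z | 0 < ‖z.1‖ ^ 2 + ‖z.2‖ ^ 2 ∧ ‖z.1‖ ^ 2 + ‖z.2‖ ^ 2 < δ} with hS
  have hSo : IsOpen S := by
    have hc : Continuous fun z : ℂ × ℂ => ‖z.1‖ ^ 2 + ‖z.2‖ ^ 2 := by fun_prop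
    exact (isOpen_lt continuous_const hc).inter (isOpen_lt hc continuous_const)
  have hSn : S.Nonempty := by
    refine ⟨((√(δ / 2) : ℝ), 0), ?_, ?_⟩
    · simp only [Complex.norm_real, Real.norm_eq_abs, sq_abs, norm_zero]
      rw [Real.sq_sqrt (by positivity)]
      positivity
    · simp only [Complex.norm_real, Real.norm_eq_abs, sq_abs, norm_zero]
      rw [Real.sq_sqrt (by positivity)]
      norm_num
      linarith
  have hSp : 0 < μH[4] S := hSo.measure_pos _ hSn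
  by_contra hcon
  push Not at hcon
  have hsub : S ⊆ b '' Y := fun z hz => hcon z hz.1 hz.2
  exact (hSp.trans_le (measure_mono hsub)).ne' h1

theorem inner_ne_zero_of_sd {e x : E} (he : ‖e‖ = 1) (hx : x ≠ 0) {r : ℝ} (hr : r < 1)
    (h : sd x e ≤ r) : inner ℂ e x ≠ (0 : ℂ) := by
  intro h0
  have h1 := norm_mul_sd hx he
  rw [h0, zero_smul, sub_zero] at h1
  have hx' : 0 < ‖x‖ := norm_pos_iff.2 hx
  nlinarith

end

theorem thin4loc (E : Type*) [NormedAddCommGroup E] [InnerProductSpace ℂ E]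
    [FiniteDimensional ℂ E] (hr : RotStmt E) (ha : AvoidStmt E) (hc : ChartStmt E) :
    Thin4LocStmt E := by
  intro A hA e he0 ε he hε hthin
  refine ⟨min ε 1, by positivity, fun r hr0 hr1 => ?_⟩
  have hr1' : r < 1 := hr1.trans_le (min_le_right _ _)
  have hrε : r < ε := hr1.trans_le (min_le_left _ _)
  have hr2 : 0 < 1 - r ^ 2 := by nlinarith
  haveI : ProperSpace E := FiniteDimensional.proper ℂ E
  -- the projection
  set P : E →L[ℂ] E := ContinuousLinearMap.id ℂ E - (innerSL ℂ e).smulRight e with hP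
  have hPx : ∀ x, P x = x - inner ℂ e x • e := fun x => by simp [hP]
  have hPe : P e = 0 := by
    rw [hPx, inner_self_eq_norm_sq_to_K, he]
    simp
  -- the chart of the two sets
  set Z2 : Set (ℙ ℂ E) := {p | p ∈ A ∧ sd p.rep e ≤ r} with hZ2
  set Z1 : Set (ℙ ℂ E) := {p | p ∈ A ∧ sd p.rep e = r} with hZ1
  have hZ2sub : Z2 ⊆ A ∩ {p | pdist p (Projectivization.mk ℂ e he0) < ε} := by
    intro p hp
    refine ⟨hp.1, ?_⟩
    have h1 := pdist_mk p.rep_nonzero he0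
    rw [p.mk_rep] at h1
    change pdist p _ < ε
    rw [h1]
    exact hp.2.trans_lt hrε
  have hZ1sub : Z1 ⊆ Z2 := fun p hp => ⟨hp.1, hp.2.le⟩
  have hlip : ∀ p ∈ Z2, ∀ q ∈ Z2, dist (chartMap e p) (chartMap e q) ≤
      (Real.toNNReal (2 / (1 - r ^ 2)) : ℝ≥0) * pdist p q := by
    intro p hp q hq
    rw [Real.coe_toNNReal _ (by positivity), dist_eq_norm]
    have := hc e r p.rep q.rep he hr1' p.rep_nonzero q.rep_nonzero hp.2 hq.2
    unfold chartMap
    rw [sub_sub_sub_cancel_right]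
    exact this
  have hnull2 := th4_null_image (thin4_mono hZ2sub hthin) hlip
  have hnull1 := th4_null_image (thin4_mono (hZ1sub.trans hZ2sub) hthin)
    (fun p hp q hq => hlip p (hZ1sub hp) q (hZ1sub hq))
  have h0 : (0 : E) ∉ chartMap e '' Z1 := by
    rintro ⟨p, hp, h⟩
    unfold chartMap at h
    have hin := inner_ne_zero_of_sd he p.rep_nonzero hr1' hp.2.le
    rw [sub_eq_zero] at h
    have h1 : p.rep = inner ℂ e p.rep • e := by
      have h4 := congrArg (fun v => inner ℂ e p.rep • v) h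
      simp only [smul_smul, mul_inv_cancel₀ hin, one_smul] at h4
      exact h4
    have h2 : sd p.rep e = 0 := (sd_eq_zero p.rep_nonzero he0).2 ⟨_, h1⟩
    have h3 := hp.2
    rw [h2] at h3
    exact hr0.ne h3
  obtain ⟨b, hb⟩ := ha _ h0 hnull1
  set b1 : E →L[ℂ] ℂ := (ContinuousLinearMap.fst ℂ ℂ ℂ).comp (b.comp P) with hb1
  set b2 : E →L[ℂ] ℂ := (ContinuousLinearMap.snd ℂ ℂ ℂ).comp (b.comp P) with hb2
  have hb1x : ∀ x, b1 x = (b (P x)).1 := fun x => rfl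
  have hb2x : ∀ x, b2 x = (b (P x)).2 := fun x => rfl
  -- membership
  have hmk : ∀ (x : E) (hx : x ≠ 0), sd (Projectivization.mk ℂ x hx).rep e = sd x e := by
    intro x hx
    obtain ⟨c, hc'⟩ := Projectivization.exists_smul_eq_mk_rep ℂ x hx
    rw [← hc', Units.smul_def, sd_smul_left c.ne_zero]
  have hPchart : ∀ (x : E) (hx : x ≠ 0), sd x e ≤ r →
      P x = inner ℂ e x • chartMap e (Projectivization.mk ℂ x hx) := by
    intro x hx hxr
    have hin := inner_ne_zero_of_sd he hx hr1' hxr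
    rw [chartMap_mk hx, smul_sub, smul_smul, mul_inv_cancel₀ hin, one_smul, hPx]
  -- the lower bound
  obtain ⟨k1, hk1, hk1b⟩ : ∃ k1 : ℝ, 0 < k1 ∧ ∀ x ∈ coneOf A, sd x e = r →
      k1 ^ 2 * ‖inner ℂ e x‖ ^ 2 ≤ ‖b1 x‖ ^ 2 + ‖b2 x‖ ^ 2 := by
    set K0 : Set E := sphere (0 : E) 1 ∩ ((coneOf Aᶜ)ᶜ ∩ {x | ‖x - inner ℂ e x • e‖ = r}) with hK0
    have hK0c : IsCompact K0 := by
      refine (isCompact_sphere (0 : E) 1).inter_right (IsClosed.inter ?_ ?_)
      · rw [isClosed_compl_iff]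
        exact (isOpen_iff_coneOf Aᶜ).1 hA.isOpen_compl
      · exact isClosed_eq (by fun_prop) continuous_const
    have hK0m : ∀ x ∈ K0, x ≠ 0 ∧ x ∈ coneOf A ∧ sd x e = r := by
      intro x hx
      have hx1 : ‖x‖ = 1 := by simpa using hx.1
      have hx0 : x ≠ 0 := by
        rw [← norm_ne_zero_iff, hx1]
        exact one_ne_zero
      refine ⟨hx0, ⟨hx0, ?_⟩, ?_⟩
      · by_contra hcon
        exact hx.2.1 ⟨hx0, hcon⟩
      · have h1 := norm_mul_sd hx0 he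
        rw [hx1, one_mul] at h1
        rw [h1]
        exact hx.2.2
    have hcont : Continuous fun x => ‖b1 x‖ ^ 2 + ‖b2 x‖ ^ 2 := by fun_prop
    have hpos : ∀ x ∈ K0, 0 < ‖b1 x‖ ^ 2 + ‖b2 x‖ ^ 2 := by
      intro x hx
      obtain ⟨hx0, ⟨_, hxA⟩, hxr⟩ := hK0m x hx
      have hin := inner_ne_zero_of_sd he hx0 hr1' hxr.le
      have hne : b (P x) ≠ 0 := by
        rw [hPchart x hx0 hxr.le, map_smul]
        refine smul_ne_zero hin (hb _ ⟨_, ⟨hxA, ?_⟩, rfl⟩)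
        rw [hmk x hx0]
        exact hxr
      rw [hb1x, hb2x]
      by_contra hcon
      have h1 : (b (P x)).1 = 0 := by
        have : ‖(b (P x)).1‖ ^ 2 = 0 := by
          nlinarith [sq_nonneg ‖(b (P x)).1‖, sq_nonneg ‖(b (P x)).2‖]
        simpa using this
      have h2 : (b (P x)).2 = 0 := by
        have : ‖(b (P x)).2‖ ^ 2 = 0 := by
          nlinarith [sq_nonneg ‖(b (P x)).1‖, sq_nonneg ‖(b (P x)).2‖]
        simpa using this
      exact hne (Prod.ext h1 h2)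
    obtain ⟨m, hm, hmb⟩ : ∃ m : ℝ, 0 < m ∧ ∀ x ∈ K0, m ≤ ‖b1 x‖ ^ 2 + ‖b2 x‖ ^ 2 := by
      rcases K0.eq_empty_or_nonempty with h | h
      · exact ⟨1, one_pos, fun x hx => by rw [h] at hx; exact absurd hx (notMem_empty x)⟩
      · obtain ⟨x0, hx0, hmin⟩ := hK0c.exists_isMinOn h hcont.continuousOn
        exact ⟨_, hpos x0 hx0, fun x hx => hmin hx⟩
    refine ⟨√m, Real.sqrt_pos.2 hm, ?_⟩
    rintro x ⟨hx0, hxA⟩ hxr
    rw [Real.sq_sqrt hm.le]
    have hn : 0 < ‖x‖ := norm_pos_iff.2 hx0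
    have hnc : (‖x‖ : ℂ) ≠ 0 := by exact_mod_cast hn.ne'
    set y : E := (‖x‖ : ℂ)⁻¹ • x with hy
    have hy1 : ‖y‖ = 1 := by
      rw [hy, norm_smul, norm_inv, Complex.norm_real, norm_norm]
      exact inv_mul_cancel₀ hn.ne'
    have hy0 : y ≠ 0 := smul_ne_zero (inv_ne_zero hnc) hx0
    have hyr : sd y e = r := by rw [hy, sd_smul_left (inv_ne_zero hnc)]; exact hxr
    have hyK : y ∈ K0 := by
      refine ⟨by simpa using hy1, ?_, ?_⟩
      · rintro ⟨h1, h2⟩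
        apply h2
        have : Projectivization.mk ℂ y h1 = Projectivization.mk ℂ x hx0 := by
          rw [Projectivization.mk_eq_mk_iff']
          exact ⟨_, rfl⟩
        rw [this]
        exact hxA
      · have h1 := norm_mul_sd hy0 he
        rw [hy1, one_mul, hyr] at h1
        exact h1.symm
    have hxy : x = (‖x‖ : ℂ) • y := by
      rw [hy, smul_smul, mul_inv_cancel₀ hnc, one_smul]
    have h1 := hmb y hyK
    have h2 : ‖b1 x‖ ^ 2 + ‖b2 x‖ ^ 2 = ‖x‖ ^ 2 * (‖b1 y‖ ^ 2 + ‖b2 y‖ ^ 2) := by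
      have e1 : b1 x = (‖x‖ : ℂ) * b1 y := by rw [← smul_eq_mul, ← map_smul, ← hxy]
      have e2 : b2 x = (‖x‖ : ℂ) * b2 y := by rw [← smul_eq_mul, ← map_smul, ← hxy]
      rw [e1, e2, norm_mul, norm_mul, Complex.norm_real, norm_norm]
      ring
    have h3 : ‖inner ℂ e x‖ ≤ ‖x‖ := by
      have := norm_inner_le_norm (𝕜 := ℂ) e x
      rwa [he, one_mul] at this
    have h4 : ‖inner ℂ e x‖ ^ 2 ≤ ‖x‖ ^ 2 := pow_le_pow_left₀ (norm_nonneg _) h3 2
    rw [h2]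
    calc m * ‖inner ℂ e x‖ ^ 2 ≤ m * ‖x‖ ^ 2 := mul_le_mul_of_nonneg_left h4 hm.le
      _ ≤ ‖x‖ ^ 2 * (‖b1 y‖ ^ 2 + ‖b2 y‖ ^ 2) := by
        rw [mul_comm]
        exact mul_le_mul_of_nonneg_left h1 (sq_nonneg _)
  refine hr (coneOf A) e r b1 b2 k1 ?_ ?_ hk1 hk1b ?_
  · rw [hb1x, hPe, map_zero]; rfl
  · rw [hb2x, hPe, map_zero]; rfl
  · intro δ hδ
    obtain ⟨z, hz1, hz2, hz3⟩ := exists_notMem_null hnull2 b hδ
    refine ⟨z.1, z.2, hz1, hz2, ?_⟩
    rintro x ⟨hx0, hxA⟩ hxr ⟨h1, h2⟩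
    apply hz3
    have hin := inner_ne_zero_of_sd he hx0 hr1' hxr
    refine ⟨chartMap e (Projectivization.mk ℂ x hx0), ⟨_, ⟨hxA, ?_⟩, rfl⟩, ?_⟩
    · rw [hmk x hx0]
      exact hxr
    · have h3 : b (P x) = inner ℂ e x • b (chartMap e (Projectivization.mk ℂ x hx0)) := by
        rw [hPchart x hx0 hxr, map_smul]
      rw [hb1x, h3] at h1
      rw [hb2x, h3] at h2
      simp only [Prod.smul_fst, Prod.smul_snd, smul_eq_mul] at h1 h2
      refine Prod.ext ?_ ?_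
      · exact mul_left_cancel₀ hin (by rw [h1, mul_comm])
      · exact mul_left_cancel₀ hin (by rw [h2, mul_comm])

/-- the form with a closed set `Q` -/
theorem thin4 (E : Type*) [NormedAddCommGroup E] [InnerProductSpace ℂ E] [FiniteDimensional ℂ E]
    (hr : RotStmt E) (ha : AvoidStmt E) (hc : ChartStmt E) : Thin4Stmt E := by
  intro A Q hA hQ hthin e he0 he heQ
  obtain ⟨ε, hε, hεQ⟩ := exists_sd_notMem hQ he0 heQ
  refine thin4loc E hr ha hc A hA e he0 ε he hε (thin4_mono ?_ hthin)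
  rintro p ⟨hp, hpε⟩
  refine ⟨hp, ?_⟩
  have h1 := pdist_mk p.rep_nonzero he0
  rw [p.mk_rep] at h1
  have h2 : sd p.rep e < ε := by rw [← h1]; exact hpε
  have := hεQ p.rep p.rep_nonzero h2
  rwa [p.mk_rep] at this

end MFE
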