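import Pool.Agent.Lib.MFE.MainH
import Pool.Agent.Lib.MFE.HarLam
import Pool.Agent.Lib.MFE.Pert
import Pool.Agent.Lib.MFE.Disc
import Pool.Agent.Lib.MFE.Peak
import Pool.Agent.Lib.MFE.Curve
import Pool.Agent.Lib.MFE.Kap
import Pool.Agent.Lib.MFE.Core
import Pool.Agent.Lib.MFE.Thin2
import Pool.Agent.Lib.MFE.Rot
import Pool.Agent.Lib.MFE.Avoid
import Pool.Agent.Lib.MFE.Chart
import Pool.Agent.Lib.MFE.Thin4

/-!
# Minimal quasi-attractors inside thin attracting sets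
-/

set_option autoImplicit false

open Set Metric Filter Topology
open scoped LinearAlgebra.Projectivization

namespace MFE

variable {E : Type*} [NormedAddCommGroup E] [InnerProductSpace ℂ E] [FiniteDimensional ℂ E]

theorem mainThin (s : HMap E) {Q A : Set (ℙ ℂ E)} (hQ : MF7.IsMinimalQuasi s.map Q)
    (hA : MF7.IsAttracting s.map A) (hQA : Q ⊆ A)
    (hΛ : ∀ Λ : Set (ℙ ℂ E), IsClosed Λ → Λ.Nonempty → s.map '' Λ = Λ → Λ ⊆ A \ Q →
      ∃ p ∈ Λ, ThinPt A p ∨ FatouPt s p) : MF7.IsAttracting s.map Q := by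
  obtain ⟨UA, hUA, rfl⟩ := hA
  have hQUA : Q ⊆ UA := fun p hp => by
    have h1 := mem_iInter.1 (hQA hp) 0
    simpa using h1
  refine main_auxH s hQ hUA hQUA fun U0 U hU0 hQU0 hU0A hU hQU => ?_
  refine har_of_lam E (kap E) (core E (curve (peak pert disc))) s U0 U hU0 hU ?_
  intro Λ hΛc hΛn hΛi hΛs
  have hmono : (⋂ n : ℕ, s.map^[n] '' U0) ⊆ ⋂ n : ℕ, s.map^[n] '' UA :=
    iInter_mono fun n => image_mono hU0A
  obtain ⟨p, hp, h⟩ := hΛ Λ hΛc hΛn hΛi fun x hx =>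
    ⟨hmono (hΛs hx).1, fun hxQ => (hΛs hx).2 ⟨0, hQU hxQ⟩⟩
  exact ⟨p, hp, h.imp (fun h => h.mono hmono) id⟩

theorem thinPt_of_notMem_interior (hE : Module.finrank ℂ E = 3) {A : Set (ℙ ℂ E)} {p : ℙ ℂ E}
    (hp : p ∈ A) (hpi : p ∉ interior A) : ThinPt A p := by
  intro e he he1 hep
  subst hep
  exact ⟨1 / 2, by norm_num, thin2loc E hE A e he he1 hp hpi⟩

theorem thinPt_of_null {A : Set (ℙ ℂ E)} (hA : IsClosed A) {p : ℙ ℂ E} {r0 : ℝ} (hr0 : 0 < r0)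
    (h : Thin4 E (A ∩ {q | pdist q p < r0})) : ThinPt A p := by
  intro e he he1 hep
  subst hep
  exact thin4loc E (rot E) (avoid E) (chart E) A hA e he r0 he1 hr0 h

end MFE
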