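import Pool.Agent.Lib.MFE.Props
import Pool.Agent.Lib.MFE.Proj
import Pool.Agent.Lib.MF7_T2

/-!
# Thin attracting sets: definitions and statements of the rows of theorem F
-/

set_option autoImplicit false

open Set Metric Filter Topology MeasureTheory
open scoped LinearAlgebra.Projectivization

namespace MFE

section defs

variable {E : Type*} [NormedAddCommGroup E] [InnerProductSpace ℂ E]

/-- the Hartogs property of the cone `B` inside the cone `U0` -/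
def Har (U0 B : Set E) : Prop := ∀ (H : ℂ × ℂ → E) (a : ℂ) (R ρ : ℝ), 0 < R → 1 < ρ →
  AnalyticOnNhd ℂ H (closedBall a R ×ˢ closedBall 0 ρ) →
  (∀ q ∈ closedBall a R ×ˢ closedBall (0 : ℂ) ρ, H q ∈ U0 ∧ H q ≠ 0) →
  (∀ q ∈ sphere a R ×ˢ closedBall (0 : ℂ) ρ, H q ∈ B) →
  (∀ z ∈ closedBall a R, H (z, 0) ∈ B) →
  ∀ q ∈ closedBall a R ×ˢ closedBall (0 : ℂ) 1, H q ∈ B

/-- thinness of the cone `A` at the point `e`, at radius `r` -/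
def ThinAt (A : Set E) (e : E) (r : ℝ) : Prop :=
  ∃ (β γ : E →L[ℂ] ℂ) (s : ℝ), 0 < s ∧ β e = 0 ∧ γ e = 0 ∧
    (∀ x ∈ A, sd x e = r → γ x = 0 → 4 * s * ‖inner ℂ e x‖ ≤ ‖β x‖) ∧
    (∀ x ∈ A, sd x e ≤ r → γ x = 0 → β x ≠ (s : ℂ) * inner ℂ e x)

/-- the basin of `U` -/
def basin (s : HMap E) (U : Set (ℙ ℂ E)) : Set (ℙ ℂ E) := {p | ∃ n : ℕ, s.map^[n] p ∈ U}

/-- thinness of the attracting set of `U0` at all its points outside the basin of `U` -/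
def ThinOff (s : HMap E) (U0 U : Set (ℙ ℂ E)) : Prop :=
  ∀ (e : E) (he : e ≠ 0), ‖e‖ = 1 →
    Projectivization.mk ℂ e he ∈ (⋂ n : ℕ, s.map^[n] '' U0) →
    Projectivization.mk ℂ e he ∉ basin s U →
    ∃ r1 : ℝ, 0 < r1 ∧ ∀ r : ℝ, 0 < r → r < r1 →
      ThinAt (coneOf (⋂ n : ℕ, s.map^[n] '' U0)) e r

end defs

/-- row F1a: the peak lemma on an analytic curve (at the origin) -/
def PeakStmt : Prop := ∀ (G q : ℂ × ℂ → ℂ) (ε : ℝ), 0 < ε → AnalyticAt ℂ G 0 → AnalyticAt ℂ q 0 →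
  G 0 = 0 → q 0 = 1 →
  ¬ ∀ᶠ x in 𝓝 (0 : ℂ × ℂ), G x = 0 → ‖q x‖ ≤ Real.exp (-(ε * (‖x.1‖ ^ 2 + ‖x.2‖ ^ 2)))

/-- row F1b: the curve lemma -/
def CurveStmt : Prop := ∀ (D : Set (ℂ × ℂ)) (G q : ℂ × ℂ → ℂ), IsOpen D →
  AnalyticOnNhd ℂ G D → AnalyticOnNhd ℂ q D →
  IsCompact {x | x ∈ D ∧ G x = 0 ∧ 1 ≤ ‖q x‖} →
  ∀ x ∈ D, G x = 0 → ‖q x‖ ≤ 1

/-- row F2: the Hartogs lemma from thinness -/
def HarStmt (E : Type*) [NormedAddCommGroup E] [InnerProductSpace ℂ E] : Prop :=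
  ∀ (s : HMap E) (U0 U : Set (ℙ ℂ E)), MF7.IsTrapping s.map U0 → MF7.IsTrapping s.map U →
    ThinOff s U0 U → Har (coneOf U0) (coneOf (basin s U))

/-- row F3: thinness in the plane -/
def Thin2Stmt (E : Type*) [NormedAddCommGroup E] [InnerProductSpace ℂ E] : Prop :=
  ∀ (A Q : Set (ℙ ℂ E)), IsClosed Q → interior (A \ Q) = ∅ → ∀ (e : E) (he : e ≠ 0), ‖e‖ = 1 →
    Projectivization.mk ℂ e he ∉ Q →
    ∃ r1 : ℝ, 0 < r1 ∧ ∀ r : ℝ, 0 < r → r < r1 → ThinAt (coneOf A) e r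

end MFE
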