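import Pool.Agent.Lib.MFE.HDefs

/-!
# Thin attracting sets: statements of the smaller rows of theorem F
-/

set_option autoImplicit false

open Set Metric Filter Topology MeasureTheory
open scoped LinearAlgebra.Projectivization

namespace MFE

/-- row F1a: a small affine perturbation without critical zeros -/
def PertStmt : Prop := ∀ (G : ℂ × ℂ → ℂ) (ρ δ : ℝ), 0 < δ → AnalyticOnNhd ℂ G (ball 0 ρ) →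
  ∃ (v : ℂ × ℂ →L[ℂ] ℂ) (c : ℂ), ‖v‖ < δ ∧ ‖c‖ < δ ∧
    ∀ x ∈ ball (0 : ℂ × ℂ) ρ, G x = c + v x → fderiv ℂ G x ≠ v

/-- row F1b: a holomorphic disc through a regular zero -/
def DiscStmt : Prop := ∀ (G : ℂ × ℂ → ℂ) (x0 : ℂ × ℂ), AnalyticAt ℂ G x0 → G x0 = 0 →
  fderiv ℂ G x0 ≠ 0 →
  ∃ g : ℂ → ℂ × ℂ, AnalyticAt ℂ g 0 ∧ g 0 = x0 ∧ (∀ᶠ z in 𝓝 (0 : ℂ), G (g z) = 0) ∧
    ¬ ∀ᶠ z in 𝓝 (0 : ℂ), g z = x0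

section
variable (E : Type*) [NormedAddCommGroup E] [InnerProductSpace ℂ E]

/-- row F2a: the compactness argument -/
def KapStmt : Prop := ∀ (s : HMap E) (U0 : Set (ℙ ℂ E)), MF7.IsTrapping s.map U0 →
  ∀ (e : E) (r t : ℝ) (β γ : E →L[ℂ] ℂ), ‖e‖ = 1 → 0 < r → r < 1 → 0 < t →
  (∀ x ∈ coneOf (⋂ n : ℕ, s.map^[n] '' U0), sd x e = r → γ x = 0 →
    4 * t * ‖inner ℂ e x‖ ≤ ‖β x‖) →
  (∀ x ∈ coneOf (⋂ n : ℕ, s.map^[n] '' U0), sd x e ≤ r → γ x = 0 →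
    β x ≠ (t : ℂ) * inner ℂ e x) →
  ∃ (κ : ℝ) (m1 : ℕ), 0 < κ ∧ ∀ m : ℕ, m1 ≤ m → ∀ x ∈ coneOf (s.map^[m] '' U0), sd x e ≤ r →
    ‖γ x‖ ≤ κ * ‖inner ℂ e x‖ →
    (sd x e = r → 7 / 2 * t * ‖inner ℂ e x‖ < ‖β x‖) ∧
      κ * ‖inner ℂ e x‖ < ‖β x - (t : ℂ) * inner ℂ e x‖

/-- row F2b: the curve argument in the polydisc -/
def CoreStmt : Prop := ∀ (x : ℂ × ℂ → E) (a : ℂ) (R ρ s0 r κ t : ℝ) (e : E)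
  (β γ : E →L[ℂ] ℂ) (q0 : ℂ × ℂ) (M : ℕ),
  0 < s0 → 0 < r → r < 1 → 0 < κ → 0 < t → ‖e‖ = 1 →
  AnalyticOnNhd ℂ x (closedBall a R ×ˢ closedBall 0 ρ) →
  (∀ q ∈ closedBall a R ×ˢ closedBall (0 : ℂ) ρ, x q ≠ 0) →
  (∀ q ∈ closedBall a R ×ˢ closedBall (0 : ℂ) ρ, (‖q.1 - a‖ = R ∨ ‖q.2‖ ≤ s0) →
    r < sd (x q) e) →
  (∀ q ∈ closedBall a R ×ˢ closedBall (0 : ℂ) ρ, sd (x q) e ≤ r →
    ‖γ (x q)‖ ≤ κ * ‖inner ℂ e (x q)‖ →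
    (sd (x q) e = r → 7 / 2 * t * ‖inner ℂ e (x q)‖ < ‖β (x q)‖) ∧
      κ * ‖inner ℂ e (x q)‖ < ‖β (x q) - (t : ℂ) * inner ℂ e (x q)‖) →
  ‖q0.1 - a‖ < R → s0 < ‖q0.2‖ → ‖q0.2‖ < ρ → sd (x q0) e < r →
  ‖γ (x q0)‖ ≤ κ * ‖inner ℂ e (x q0)‖ → ‖β (x q0)‖ ≤ t / 10 * ‖inner ℂ e (x q0)‖ →
  6 / 5 * t / κ < (ρ / ‖q0.2‖) ^ M → (‖q0.2‖ / s0) ^ M < 2 → False

end

/-! ## The general case -/

section gen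
variable (E : Type*) [NormedAddCommGroup E] [InnerProductSpace ℂ E]

/-- a set of lines whose four-dimensional Hausdorff measure (chordal metric) is zero -/
def Thin4 (Z : Set (ℙ ℂ E)) : Prop :=
  letI : MetricSpace (ℙ ℂ E) := projMetric E
  letI : MeasurableSpace (ℙ ℂ E) := borel (ℙ ℂ E)
  haveI : BorelSpace (ℙ ℂ E) := ⟨rfl⟩
  μH[4] Z = 0

/-- row F4a: rotation of a pair of linear forms -/
def RotStmt : Prop := ∀ (A : Set E) (e : E) (r : ℝ) (b1 b2 : E →L[ℂ] ℂ) (k1 : ℝ),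
  b1 e = 0 → b2 e = 0 → 0 < k1 →
  (∀ x ∈ A, sd x e = r → k1 ^ 2 * ‖inner ℂ e x‖ ^ 2 ≤ ‖b1 x‖ ^ 2 + ‖b2 x‖ ^ 2) →
  (∀ δ : ℝ, 0 < δ → ∃ z1 z2 : ℂ, 0 < ‖z1‖ ^ 2 + ‖z2‖ ^ 2 ∧ ‖z1‖ ^ 2 + ‖z2‖ ^ 2 < δ ∧
    ∀ x ∈ A, sd x e ≤ r → ¬ (b1 x = z1 * inner ℂ e x ∧ b2 x = z2 * inner ℂ e x)) →
  ThinAt A e r

/-- row F4b: a linear map to the plane without zeros on a small set -/
def AvoidStmt : Prop := ∀ (Y : Set E), (0 : E) ∉ Y →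
  (letI : MeasurableSpace E := borel E
   haveI : BorelSpace E := ⟨rfl⟩
   μH[4] Y = 0) →
  ∃ b : E →L[ℂ] ℂ × ℂ, ∀ x ∈ Y, b x ≠ 0

/-- row F4c: the affine chart is Lipschitz -/
def ChartStmt : Prop := ∀ (e : E) (r : ℝ) (x y : E), ‖e‖ = 1 → r < 1 → x ≠ 0 → y ≠ 0 →
  sd x e ≤ r → sd y e ≤ r →
  ‖(inner ℂ e x)⁻¹ • x - (inner ℂ e y)⁻¹ • y‖ ≤ 2 / (1 - r ^ 2) * sd x y

/-- row F4d: thinness from the Hausdorff measure -/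
def Thin4Stmt : Prop := ∀ (A Q : Set (ℙ ℂ E)), IsClosed A → IsClosed Q → Thin4 E (A \ Q) →
  ∀ (e : E) (he : e ≠ 0), ‖e‖ = 1 → Projectivization.mk ℂ e he ∉ Q →
    ∃ r1 : ℝ, 0 < r1 ∧ ∀ r : ℝ, 0 < r → r < r1 → ThinAt (coneOf A) e r

/-- row F12 (local form, use this one): thinness from the Hausdorff measure near one point -/
def Thin4LocStmt : Prop := ∀ (A : Set (ℙ ℂ E)), IsClosed A → ∀ (e : E) (he : e ≠ 0) (r0 : ℝ),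
  ‖e‖ = 1 → 0 < r0 → Thin4 E (A ∩ {p | pdist p (Projectivization.mk ℂ e he) < r0}) →
    ∃ r1 : ℝ, 0 < r1 ∧ ∀ r : ℝ, 0 < r → r < r1 → ThinAt (coneOf A) e r

/-- row F08 (local form, use this one): thinness in the plane at one point -/
def Thin2LocStmt : Prop := ∀ (A : Set (ℙ ℂ E)) (e : E) (he : e ≠ 0), ‖e‖ = 1 →
  Projectivization.mk ℂ e he ∈ A → Projectivization.mk ℂ e he ∉ interior A →
    ∀ r : ℝ, 0 < r → r < 1 / 2 → ThinAt (coneOf A) e r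

end gen

end MFE
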