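import Pool.Agent.Lib.MFE.HProps
import Pool.Agent.Lib.MFE.BasinT

/-!
# Row F07: the Hartogs lemma from thinness
-/

set_option autoImplicit false

open Set Metric Filter Topology MeasureTheory
open scoped LinearAlgebra.Projectivization

namespace MFE

section harthin

variable {E : Type*} [NormedAddCommGroup E] [InnerProductSpace ℂ E]

theorem coneOf_closed_limit {S : Set (ℙ ℂ E)} (hS : IsClosed S) {e : E} (he : e ≠ 0)
    {y : ℕ → E} (hy : Tendsto y atTop (𝓝 e)) (h : ∀ᶠ n in atTop, y n ∈ coneOf S) :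
    e ∈ coneOf S := by
  by_contra hne
  have h1 : IsOpen (coneOf Sᶜ) := (isOpen_iff_coneOf _).1 hS.isOpen_compl
  have h2 : e ∈ coneOf Sᶜ := ⟨he, fun h => hne ⟨he, h⟩⟩
  have h3 := hy.eventually (h1.mem_nhds h2)
  obtain ⟨n, hn, hn'⟩ := (h3.and h).exists
  obtain ⟨h4, h5⟩ := hn
  obtain ⟨h6, h7⟩ := hn'
  exact h5 h7

theorem trapping_iter (s : HMap E) {U : Set (ℙ ℂ E)} (hU : MF7.IsTrapping s.map U) (n : ℕ) :
    ∀ p ∈ U, s.map^[n] p ∈ U := by
  induction n with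
  | zero => exact fun p hp => hp
  | succ n ih =>
    intro p hp
    rw [Function.iterate_succ_apply']
    exact hU.2.2 ⟨_, subset_closure (ih p hp), rfl⟩

theorem limit_attr [FiniteDimensional ℂ E] (s : HMap E) {U0 : Set (ℙ ℂ E)}
    (hU : MF7.IsTrapping s.map U0) {e : E} (he : e ≠ 0) {y : ℕ → E}
    (hy : Tendsto y atTop (𝓝 e)) {m : ℕ → ℕ} (hm : Tendsto m atTop atTop)
    (h : ∀ n, y n ∈ coneOf (s.map^[m n] '' U0)) :
    e ∈ coneOf (⋂ n : ℕ, s.map^[n] '' U0) := by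
  classical
  haveI : CompactSpace (ℙ ℂ E) := compactSpace_proj
  letI := projMetric E
  have hf : Continuous s.map := s.continuous_map
  refine ⟨he, mem_iInter.2 fun N => ?_⟩
  have hC : IsClosed (s.map^[N + 1] '' closure U0) :=
    ((isClosed_closure.isCompact).image (hf.iterate (N + 1))).isClosed
  have h1 : e ∈ coneOf (s.map^[N + 1] '' closure U0) := by
    refine coneOf_closed_limit hC he hy ?_
    filter_upwards [hm.eventually_ge_atTop (N + 1)] with n hn
    obtain ⟨hy0, p, hp, hpe⟩ := h n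
    refine ⟨hy0, ?_⟩
    obtain ⟨j, hj⟩ := Nat.exists_eq_add_of_le hn
    rw [hj, Function.iterate_add_apply] at hpe
    exact ⟨_, subset_closure (trapping_iter s hU j p hp), hpe⟩
  obtain ⟨h2, h3⟩ := h1
  exact MF7.T2x.anti_closure hU.2.2 N h3

theorem deep_of_trapping [FiniteDimensional ℂ E] (s : HMap E) {U : Set (ℙ ℂ E)}
    (hU : MF7.IsTrapping s.map U) {K : Set E} (hK : K ⊆ coneOf (basin s U)) (hKc : IsCompact K) :
    ∃ m0 : ℕ, ∀ m, m0 ≤ m → ∀ x ∈ K, s.F^[m] x ∈ coneOf (s.map '' closure U) := by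
  classical
  have hf : Continuous s.map := s.continuous_map
  have hV : ∀ n, IsOpen (coneOf ((s.map^[n]) ⁻¹' U)) := fun n =>
    (isOpen_iff_coneOf _).1 (hU.2.1.preimage (hf.iterate n))
  have hmono : Monotone fun n => coneOf ((s.map^[n]) ⁻¹' U) := by
    refine monotone_nat_of_le_succ fun n => coneOf_subset ?_
    intro p hp
    rw [mem_preimage, Function.iterate_succ_apply']
    exact trapping_iter s hU 1 _ hp
  have hcov : K ⊆ ⋃ n, coneOf ((s.map^[n]) ⁻¹' U) := by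
    intro x hx
    obtain ⟨hx0, n, hn⟩ := hK hx
    exact mem_iUnion.2 ⟨n, hx0, hn⟩
  obtain ⟨n, hn⟩ := hKc.elim_directed_cover _ hV hcov hmono.directed_le
  refine ⟨n + 1, ?_⟩
  intro m hm x hx
  obtain ⟨hx0, hxn⟩ := hn hx
  refine ⟨s.iter_ne hx0 m, ?_⟩
  rw [← s.iter_map_mk hx0]
  obtain ⟨j, rfl⟩ := Nat.exists_eq_add_of_le hm
  have h1 : n + 1 + j = (j + n) + 1 := by ring
  rw [h1, Function.iterate_succ_apply']
  refine ⟨_, subset_closure ?_, rfl⟩
  rw [Function.iterate_add_apply]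
  exact trapping_iter s hU j _ hxn

theorem exists_s0 {T : ℝ} (hT : 0 < T) (M : ℕ) : ∃ s0 : ℝ, 0 < s0 ∧ s0 < T ∧ (T / s0) ^ M < 2 := by
  have h1 : ContinuousAt (fun x : ℝ => (T / x) ^ M) T :=
    (continuousAt_const.div continuousAt_id hT.ne').pow M
  have h2 : ∀ᶠ x in 𝓝[<] T, (T / x) ^ M < 2 := by
    refine (h1.eventually_lt continuousAt_const ?_).filter_mono nhdsWithin_le_nhds
    simp only [div_self hT.ne', one_pow]
    norm_num
  have h3 : ∀ᶠ x in 𝓝[<] T, 0 < x :=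
    (eventually_gt_nhds hT).filter_mono nhdsWithin_le_nhds
  have h4 : ∀ᶠ x in 𝓝[<] T, x < T := self_mem_nhdsWithin
  obtain ⟨x, hx, hx2, hx3⟩ := (h2.and (h3.and h4)).exists
  exact ⟨x, hx2, hx3, hx⟩

end harthin

theorem har_of_thin (E : Type*) [NormedAddCommGroup E] [InnerProductSpace ℂ E]
    [FiniteDimensional ℂ E] (hk : KapStmt E) (hc : CoreStmt E) : HarStmt E := by
  classical
  intro s U0 U hU0 hU hthin H a R ρ hR hρ hH hHU hHs hH0
  by_contra hcon
  push Not at hcon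
  obtain ⟨q1, hq1, hq1B⟩ := hcon
  haveI : CompactSpace (ℙ ℂ E) := compactSpace_proj
  haveI : ProperSpace E := FiniteDimensional.proper ℂ E
  have hf : Continuous s.map := s.continuous_map
  have hBopen : IsOpen (basin s U) := by
    have : basin s U = ⋃ n, (s.map^[n]) ⁻¹' U := by
      ext p
      simp [basin]
    rw [this]
    exact isOpen_iUnion fun n => hU.2.1.preimage (hf.iterate n)
  have hBo : IsOpen (coneOf (basin s U)) := (isOpen_iff_coneOf _).1 hBopen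
  have hsub : closedBall a R ×ˢ closedBall (0 : ℂ) 1 ⊆ closedBall a R ×ˢ closedBall (0 : ℂ) ρ :=
    prod_mono le_rfl (closedBall_subset_closedBall hρ.le)
  have hPc : IsCompact (closedBall a R ×ˢ closedBall (0 : ℂ) ρ) :=
    (isCompact_closedBall a R).prod (isCompact_closedBall 0 ρ)
  have hP1c : IsCompact (closedBall a R ×ˢ closedBall (0 : ℂ) 1) :=
    (isCompact_closedBall a R).prod (isCompact_closedBall 0 1)
  have hHc : ContinuousOn H (closedBall a R ×ˢ closedBall (0 : ℂ) ρ) := hH.continuousOn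
  -- the first bad point
  have hZc : IsCompact ((closedBall a R ×ˢ closedBall (0 : ℂ) 1) ∩
      H ⁻¹' (coneOf (basin s U))ᶜ) := by
    refine hP1c.of_isClosed_subset ?_ inter_subset_left
    exact (hHc.mono hsub).preimage_isClosed_of_isClosed hP1c.isClosed hBo.isClosed_compl
  obtain ⟨q0, hq0Z, hq0min⟩ := hZc.exists_isMinOn ⟨q1, hq1, hq1B⟩
    (continuous_snd.norm.continuousOn)
  have hq0P := hq0Z.1
  have hq0B : H q0 ∉ coneOf (basin s U) := hq0Z.2
  have hq02 : ‖q0.2‖ ≤ 1 := by simpa using hq0P.2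
  have hq02ne : q0.2 ≠ 0 := by
    intro h
    apply hq0B
    have := hH0 q0.1 hq0P.1
    rwa [← h] at this
  have hT : 0 < ‖q0.2‖ := norm_pos_iff.2 hq02ne
  have hq01 : ‖q0.1 - a‖ < R := by
    have h1 : ‖q0.1 - a‖ ≤ R := by
      have := hq0P.1
      rwa [mem_closedBall_iff_norm] at this
    refine lt_of_le_of_ne h1 fun h => hq0B (hHs q0 ⟨?_, (hsub hq0P).2⟩)
    rwa [mem_sphere_iff_norm]
  have hHq0 := hHU q0 (hsub hq0P)
  -- the limit point
  have hxne : ∀ m, s.F^[m] (H q0) ≠ 0 := fun m => s.iter_ne hHq0.2 m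
  set c : ℕ → ℂ := fun m => ((‖s.F^[m] (H q0)‖ : ℝ) : ℂ)⁻¹ with hcdef
  have hcne : ∀ m, c m ≠ 0 := fun m => by
    refine inv_ne_zero ?_
    exact_mod_cast norm_ne_zero_iff.2 (hxne m)
  set y : ℕ → E := fun m => c m • s.F^[m] (H q0) with hydef
  have hy1 : ∀ m, ‖y m‖ = 1 := fun m => by
    simp only [hydef, hcdef, norm_smul, norm_inv, Complex.norm_real, norm_norm]
    exact inv_mul_cancel₀ (norm_ne_zero_iff.2 (hxne m))
  obtain ⟨e, he, φ, hφ, hφe⟩ := (isCompact_sphere (0 : E) 1).tendsto_subseq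
    (x := y) (fun m => by simpa using hy1 m)
  have he1 : ‖e‖ = 1 := by simpa using he
  have he0 : e ≠ 0 := by
    intro h
    rw [h, norm_zero] at he1
    exact zero_ne_one he1
  have hymk : ∀ m, ∃ h : y m ≠ 0, Projectivization.mk ℂ (y m) h =
      s.map^[m] (Projectivization.mk ℂ (H q0) hHq0.2) := by
    intro m
    have h : y m ≠ 0 := smul_ne_zero (hcne m) (hxne m)
    refine ⟨h, ?_⟩
    rw [s.iter_map_mk hHq0.2, Projectivization.mk_eq_mk_iff']
    exact ⟨c m, rfl⟩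
  have hφt : Tendsto φ atTop atTop := hφ.tendsto_atTop
  have heA : e ∈ coneOf (⋂ n : ℕ, s.map^[n] '' U0) := by
    refine limit_attr s hU0 he0 hφe hφt fun n => ?_
    obtain ⟨h, h2⟩ := hymk (φ n)
    obtain ⟨h3, h4⟩ := hHq0.1
    exact ⟨h, _, h4, h2.symm⟩
  have heB : e ∈ coneOf (basin s U)ᶜ := by
    refine coneOf_closed_limit hBopen.isClosed_compl he0 hφe (Eventually.of_forall fun n => ?_)
    obtain ⟨h, h2⟩ := hymk (φ n)
    refine ⟨h, ?_⟩
    intro h3
    have h4 : Projectivization.mk ℂ (y (φ n)) h ∈ basin s U := h3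
    rw [h2] at h4
    obtain ⟨j, hj⟩ := h4
    rw [← Function.iterate_add_apply] at hj
    exact hq0B ⟨hHq0.2, j + φ n, hj⟩
  obtain ⟨heA0, heA1⟩ := heA
  obtain ⟨heB0, heB1⟩ := heB
  obtain ⟨r1, hr1, hthin1⟩ := hthin e he0 he1 heA1 heB1
  -- the distance to the compact set
  obtain ⟨ε, hε, hεC⟩ : ∃ ε : ℝ, 0 < ε ∧ ∀ z ∈ coneOf (s.map '' closure U), ε ≤ sd z e := by
    letI := projMetric E
    have hCc : IsClosed (s.map '' closure U) :=
      ((isClosed_closure.isCompact).image hf).isClosed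
    have h1 : Projectivization.mk ℂ e he0 ∈ (s.map '' closure U)ᶜ := by
      intro h
      exact heB1 ⟨0, hU.2.2 h⟩
    obtain ⟨ε, hε, hball⟩ := Metric.isOpen_iff.1 hCc.isOpen_compl _ h1
    refine ⟨ε, hε, ?_⟩
    rintro z ⟨hz, hzC⟩
    by_contra hlt
    push Not at hlt
    refine hball ?_ hzC
    rw [mem_ball]
    have h2 : dist (Projectivization.mk ℂ z hz) (Projectivization.mk ℂ e he0) = sd z e :=
      pdist_mk hz he0
    rwa [h2]
  set r : ℝ := min ε (min 1 r1) / 2 with hrdef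
  have hmin : 0 < min ε (min 1 r1) := by positivity
  have hr : 0 < r := by positivity
  have hrm : r < min ε (min 1 r1) := by
    rw [hrdef]
    linarith
  have hrε : r < ε := lt_of_lt_of_le hrm (min_le_left _ _)
  have hr1' : r < 1 := lt_of_lt_of_le hrm (le_trans (min_le_right _ _) (min_le_left _ _))
  have hrr1 : r < r1 := lt_of_lt_of_le hrm (le_trans (min_le_right _ _) (min_le_right _ _))
  obtain ⟨β, γ, t, ht, hβe, hγe, hth1, hth2⟩ := hthin1 r hr hrr1
  obtain ⟨κ, m1, hκ, hkap⟩ := hk s U0 hU0 e r t β γ he1 hr hr1' ht hth1 hth2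
  have hρT : 1 < ρ / ‖q0.2‖ := by
    rw [lt_div_iff₀ hT]
    linarith
  obtain ⟨M, hM⟩ := pow_unbounded_of_one_lt (6 / 5 * t / κ) hρT
  obtain ⟨s0, hs0, hs0T, hs0M⟩ := exists_s0 hT M
  -- the compact set which goes into the basin
  have hKc : IsCompact {q : ℂ × ℂ | q ∈ closedBall a R ×ˢ closedBall (0 : ℂ) ρ ∧
      (‖q.1 - a‖ = R ∨ ‖q.2‖ ≤ s0)} := by
    refine hPc.of_isClosed_subset ?_ (fun q hq => hq.1)
    have hc1 : IsClosed {q : ℂ × ℂ | ‖q.1 - a‖ = R} :=
      isClosed_eq (by fun_prop) continuous_const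
    have hc2 : IsClosed {q : ℂ × ℂ | ‖q.2‖ ≤ s0} := isClosed_le (by fun_prop) continuous_const
    exact hPc.isClosed.inter (hc1.union hc2)
  have hKB : H '' {q : ℂ × ℂ | q ∈ closedBall a R ×ˢ closedBall (0 : ℂ) ρ ∧
      (‖q.1 - a‖ = R ∨ ‖q.2‖ ≤ s0)} ⊆ coneOf (basin s U) := by
    rintro _ ⟨q, ⟨hqP, hq⟩, rfl⟩
    rcases hq with hq | hq
    · exact hHs q ⟨by rwa [mem_sphere_iff_norm], hqP.2⟩
    · by_contra hqB
      have h1 : q ∈ (closedBall a R ×ˢ closedBall (0 : ℂ) 1) ∩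
          H ⁻¹' (coneOf (basin s U))ᶜ := by
        refine ⟨⟨hqP.1, ?_⟩, hqB⟩
        rw [mem_closedBall_zero_iff]
        linarith
      have h2 : ‖q0.2‖ ≤ ‖q.2‖ := hq0min h1
      linarith
  obtain ⟨m2, hm2⟩ := deep_of_trapping s hU hKB
    (hKc.image_of_continuousOn (hHc.mono fun q hq => hq.1))
  -- the choice of `m`
  have hinner : ContinuousAt (fun z : E => ‖(inner ℂ e z : ℂ)‖) e := by fun_prop
  have hie : (inner ℂ e e : ℂ) = 1 := by
    rw [inner_self_eq_norm_sq_to_K, he1]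
    simp
  have ev1 : ∀ᶠ z in 𝓝 e, sd z e < r := by
    have h1 := sd_continuousAt (x := e) (y := e) he0 he0
    have h2 : ContinuousAt (fun z : E => sd z e) e :=
      ContinuousAt.comp (f := fun z : E => (z, e)) (g := fun t : E × E => sd t.1 t.2) h1
        (by fun_prop)
    refine h2.eventually_lt continuousAt_const ?_
    rwa [sd_self he0]
  have ev2 : ∀ᶠ z in 𝓝 e, ‖γ z‖ < κ * ‖(inner ℂ e z : ℂ)‖ := by
    refine ContinuousAt.eventually_lt (γ.continuous.norm.continuousAt)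
      (continuousAt_const.mul hinner) ?_
    rw [hγe, hie, norm_zero, norm_one, mul_one]
    exact hκ
  have ev3 : ∀ᶠ z in 𝓝 e, ‖β z‖ < t / 10 * ‖(inner ℂ e z : ℂ)‖ := by
    refine ContinuousAt.eventually_lt (β.continuous.norm.continuousAt)
      (continuousAt_const.mul hinner) ?_
    rw [hβe, hie, norm_zero, norm_one, mul_one]
    positivity
  have ev := hφe.eventually (ev1.and (ev2.and ev3))
  obtain ⟨n, ⟨hn1, hn2, hn3⟩, hn4, hn5⟩ :=
    (ev.and ((hφt.eventually_ge_atTop m1).and (hφt.eventually_ge_atTop m2))).exists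
  set m := φ n with hmdef
  have hcm : 0 < ‖c m‖ := norm_pos_iff.2 (hcne m)
  have hyx : ∀ z, (y ∘ φ) n = z → z = c m • s.F^[m] (H q0) := fun z hz => hz.symm
  have hn1' : sd (s.F^[m] (H q0)) e < r := by
    have h1 : sd (c m • s.F^[m] (H q0)) e < r := hn1
    rwa [sd_smul_left (hcne m)] at h1
  have hn2' : ‖γ (s.F^[m] (H q0))‖ ≤ κ * ‖(inner ℂ e (s.F^[m] (H q0)) : ℂ)‖ := by
    have h1 : ‖γ (c m • s.F^[m] (H q0))‖ <
      κ * ‖(inner ℂ e (c m • s.F^[m] (H q0)) : ℂ)‖ := hn2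
    rw [map_smul, norm_smul, inner_smul_right, norm_mul, mul_left_comm] at h1
    exact (le_of_mul_le_mul_left h1.le hcm)
  have hn3' : ‖β (s.F^[m] (H q0))‖ ≤ t / 10 * ‖(inner ℂ e (s.F^[m] (H q0)) : ℂ)‖ := by
    have h1 : ‖β (c m • s.F^[m] (H q0))‖ <
      t / 10 * ‖(inner ℂ e (c m • s.F^[m] (H q0)) : ℂ)‖ := hn3
    rw [map_smul, norm_smul, inner_smul_right, norm_mul, mul_left_comm] at h1
    exact (le_of_mul_le_mul_left h1.le hcm)
  refine hc (fun q => s.F^[m] (H q)) a R ρ s0 r κ t e β γ q0 M hs0 hr hr1' hκ ht he1 ?_ ?_ ?_ ?_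
    hq01 hs0T (by linarith) hn1' hn2' hn3' hM hs0M
  · exact (s.iter_an m).comp hH (fun _ _ => mem_univ _)
  · intro q hq
    exact s.iter_ne (hHU q hq).2 m
  · intro q hq hq'
    have h1 := hm2 m hn5 (H q) ⟨q, ⟨hq, hq'⟩, rfl⟩
    exact lt_of_lt_of_le hrε (hεC _ h1)
  · intro q hq
    obtain ⟨⟨h1, h2⟩, h3⟩ := hHU q hq
    have h4 : s.F^[m] (H q) ∈ coneOf (s.map^[m] '' U0) := by
      refine ⟨s.iter_ne h3 m, _, h2, ?_⟩
      rw [s.iter_map_mk]
    exact hkap m hn4 _ h4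

end MFE
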