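import Pool.Agent.Lib.MFE.FinalF

/-!
# Normal families off a hypersurface
-/

set_option autoImplicit false

open Set Metric Filter Topology
open scoped LinearAlgebra.Projectivization

namespace MFE

variable {E : Type*} [NormedAddCommGroup E] [InnerProductSpace ℂ E]

/-- one variable Lipschitz bound -/
theorem lip_disc {G : ℂ → ℂ} {R C : ℝ} (hR : 1 < R) (hC : 0 < C)
    (hG : DifferentiableOn ℂ G (ball 0 R)) (hb : ∀ t ∈ ball (0 : ℂ) R, ‖G t‖ ≤ C) :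
    ‖G 1 - G 0‖ ≤ 3 * C / R := by
  have h0 : (0 : ℂ) ∈ ball (0 : ℂ) R := mem_ball_self (by linarith)
  have h1 : (1 : ℂ) ∈ ball (0 : ℂ) R := by
    rw [mem_ball, dist_zero_right, norm_one]
    exact hR
  have hmaps : MapsTo G (ball 0 R) (ball (G 0) (3 * C)) := by
    intro t ht
    rw [mem_ball, dist_eq_norm]
    have h2 := norm_sub_le (G t) (G 0)
    have h3 := hb t ht
    have h4 := hb 0 h0
    linarith
  have h5 := Complex.dist_le_div_mul_dist_of_mapsTo_ball hG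
    (hmaps.mono_right ball_subset_closedBall) h1
  rw [dist_eq_norm, dist_zero_right, norm_one, mul_one] at h5
  exact h5

/-- a curve along which `h` is not small moves slowly in projective space -/
theorem sd_disc {h : E → ℂ} {μ : ℕ} (hμ : 1 ≤ μ) (hh : AnalyticOnNhd ℂ h univ)
    {M C R : ℝ} (hM : 0 < M) (hC : 0 < C)
    (hhM : ∀ x, ‖h x‖ ≤ M * ‖x‖ ^ μ) (hR : 1 < R) (hR2 : 6 * C * M ≤ R) {y : ℂ → E}
    (hy : AnalyticOnNhd ℂ y univ) (hy0 : ∀ t ∈ ball (0 : ℂ) R, y t ≠ 0)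
    (hyC : ∀ t ∈ ball (0 : ℂ) R, ‖y t‖ ^ μ ≤ C * ‖h (y t)‖) :
    sd (y 1) (y 0) ≤ 6 * C * M / R := by
  have h0 : (0 : ℂ) ∈ ball (0 : ℂ) R := mem_ball_self (by linarith)
  have h1 : (1 : ℂ) ∈ ball (0 : ℂ) R := by
    rw [mem_ball, dist_zero_right, norm_one]
    exact hR
  have hRp : 0 < R := by linarith
  have hne : ∀ t ∈ ball (0 : ℂ) R, h (y t) ≠ 0 := by
    intro t ht h2
    have h3 := hyC t ht
    rw [h2, norm_zero, mul_zero] at h3
    have h4 : 0 < ‖y t‖ ^ μ := pow_pos (norm_pos_iff.2 (hy0 t ht)) _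
    linarith
  obtain ⟨e, he, ⟨c, hc, hec⟩, hsd⟩ := sd_unit (hy0 0 h0)
  rw [hsd]
  set z : E := y 1 with hz
  have hz0 : z ≠ 0 := hy0 1 h1
  set v : E := z - inner ℂ e z • e with hv
  have hsz : ‖z‖ * sd z e = ‖v‖ := norm_mul_sd hz0 he
  have hzp : 0 < ‖z‖ := norm_pos_iff.2 hz0
  have hquot : 0 ≤ 6 * C * M / R := by positivity
  by_cases hv0 : v = 0
  · have h2 : sd z e = 0 := by
      rw [hv0, norm_zero] at hsz
      rcases mul_eq_zero.1 hsz with h3 | h3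
      · exact absurd h3 hzp.ne'
      · exact h3
    rw [h2]
    exact hquot
  have hvp : 0 < ‖v‖ := norm_pos_iff.2 hv0
  set w : E := ((‖v‖ : ℂ)⁻¹) • v with hw
  have hvc : (‖v‖ : ℂ) ≠ 0 := by exact_mod_cast hvp.ne'
  have hw1 : ‖w‖ = 1 := by
    rw [hw, norm_smul, norm_inv, Complex.norm_real, norm_norm]
    exact inv_mul_cancel₀ hvp.ne'
  have hev : inner ℂ e v = (0 : ℂ) := inner_sub_proj he z
  have hve : inner ℂ v e = (0 : ℂ) := inner_eq_zero_symm.1 hev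
  have hwe : inner ℂ w e = (0 : ℂ) := by
    rw [hw, inner_smul_left, hve, mul_zero]
  have hwz : ‖inner ℂ w z‖ = ‖v‖ := by
    have h2 : z = inner ℂ e z • e + v := by rw [hv]; abel
    have h3 : inner ℂ v z = ((‖v‖ ^ 2 : ℝ) : ℂ) := by
      rw [h2, inner_add_right, inner_smul_right, hve, mul_zero, zero_add,
        inner_self_eq_norm_sq_to_K]
      push_cast
      rfl
    rw [hw, inner_smul_left, h3, norm_mul, Complex.norm_real]
    simp only [map_inv₀, Complex.conj_ofReal, norm_inv, Complex.norm_real, norm_norm, norm_pow]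
    field_simp
  -- the two functions
  have hana : ∀ u : E, Differentiable ℂ (fun t : ℂ => inner ℂ u (y t)) := by
    intro u
    have h2 : Differentiable ℂ y := fun t => (hy t (mem_univ _)).differentiableAt
    exact ((innerSL ℂ u).differentiable).comp h2
  have hanh : Differentiable ℂ (fun t : ℂ => h (y t)) := fun t =>
    (hh (y t) (mem_univ _)).differentiableAt.comp t (hy t (mem_univ _)).differentiableAt
  have hbound : ∀ u : E, ‖u‖ = 1 → ∀ t ∈ ball (0 : ℂ) R,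
      ‖inner ℂ e (y t) ^ (μ - 1) * inner ℂ u (y t) / h (y t)‖ ≤ C := by
    intro u hu t ht
    rw [norm_div, norm_mul, norm_pow, div_le_iff₀ (norm_pos_iff.2 (hne t ht))]
    refine le_trans ?_ (hyC t ht)
    have h2 : ‖inner ℂ e (y t)‖ ≤ ‖y t‖ := by
      have := norm_inner_le_norm (𝕜 := ℂ) e (y t)
      rwa [he, one_mul] at this
    have h3 : ‖inner ℂ u (y t)‖ ≤ ‖y t‖ := by
      have := norm_inner_le_norm (𝕜 := ℂ) u (y t)
      rwa [hu, one_mul] at this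
    calc ‖inner ℂ e (y t)‖ ^ (μ - 1) * ‖inner ℂ u (y t)‖ ≤ ‖y t‖ ^ (μ - 1) * ‖y t‖ :=
          mul_le_mul (pow_le_pow_left₀ (norm_nonneg _) h2 _) h3 (norm_nonneg _) (by positivity)
      _ = ‖y t‖ ^ μ := by
          rw [← pow_succ]
          congr 1
          omega
  have hlip : ∀ u : E, ‖u‖ = 1 →
      ‖inner ℂ e (y 1) ^ (μ - 1) * inner ℂ u (y 1) / h (y 1) -
        inner ℂ e (y 0) ^ (μ - 1) * inner ℂ u (y 0) / h (y 0)‖ ≤ 3 * C / R := by
    intro u hu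
    refine lip_disc (G := fun t => inner ℂ e (y t) ^ (μ - 1) * inner ℂ u (y t) / h (y t)) hR hC
      ?_ (hbound u hu)
    refine DifferentiableOn.div ?_ hanh.differentiableOn hne
    exact (((hana e).pow _).mul (hana u)).differentiableOn
  -- values at zero
  have hy0e : y 0 = c⁻¹ • e := by
    rw [hec, smul_smul, inv_mul_cancel₀ hc, one_smul]
  have hw0 : inner ℂ w (y 0) = (0 : ℂ) := by
    rw [hy0e, inner_smul_right, hwe, mul_zero]
  have he0 : inner ℂ e (y 0) = c⁻¹ := by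
    rw [hy0e, inner_smul_right, inner_self_eq_norm_sq_to_K, he]
    simp
  have hG0 : 1 / M ≤ ‖inner ℂ e (y 0) ^ (μ - 1) * inner ℂ e (y 0) / h (y 0)‖ := by
    rw [← pow_succ, he0, norm_div, norm_pow, le_div_iff₀ (norm_pos_iff.2 (hne 0 h0))]
    have h2 := hhM (y 0)
    have h3 : ‖y 0‖ = ‖c⁻¹‖ := by rw [hy0e, norm_smul, he, mul_one]
    rw [h3] at h2
    have h4 : μ - 1 + 1 = μ := by omega
    rw [h4]
    calc 1 / M * ‖h (y 0)‖ ≤ 1 / M * (M * ‖c⁻¹‖ ^ μ) :=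
          mul_le_mul_of_nonneg_left h2 (by positivity)
      _ = ‖c⁻¹‖ ^ μ := by field_simp
  have hl0 := hlip e he
  have hlw := hlip w hw1
  rw [hw0, mul_zero, zero_div, sub_zero] at hlw
  have hR3 : 3 * C / R ≤ 1 / (2 * M) := by
    rw [div_le_div_iff₀ hRp (by positivity)]
    linarith
  have hG1 : 1 / (2 * M) ≤ ‖inner ℂ e (y 1) ^ (μ - 1) * inner ℂ e (y 1) / h (y 1)‖ := by
    have h2 := norm_sub_norm_le (inner ℂ e (y 0) ^ (μ - 1) * inner ℂ e (y 0) / h (y 0))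
      (inner ℂ e (y 1) ^ (μ - 1) * inner ℂ e (y 1) / h (y 1))
    rw [norm_sub_rev] at h2
    have h3 : 1 / M - 1 / (2 * M) = 1 / (2 * M) := by field_simp; norm_num
    linarith
  rw [norm_div, norm_mul] at hG1 hlw
  have hh1 : 0 < ‖h (y 1)‖ := norm_pos_iff.2 (hne 1 h1)
  have hb : 0 < ‖inner ℂ e (y 1) ^ (μ - 1)‖ * ‖inner ℂ e (y 1)‖ := by
    have h2 : 0 < ‖inner ℂ e (y 1) ^ (μ - 1)‖ * ‖inner ℂ e (y 1)‖ / ‖h (y 1)‖ :=
      lt_of_lt_of_le (by positivity) hG1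
    by_contra h3
    push Not at h3
    have h4 := div_nonpos_of_nonpos_of_nonneg h3 hh1.le
    linarith
  have ha0 : 0 < ‖inner ℂ e (y 1) ^ (μ - 1)‖ := by
    rcases (norm_nonneg (inner ℂ e (y 1) ^ (μ - 1))).lt_or_eq with h2 | h2
    · exact h2
    · rw [← h2, zero_mul] at hb
      exact absurd hb (lt_irrefl 0)
  have ha1 : 0 < ‖(inner ℂ e (y 1) : ℂ)‖ := by
    rcases (norm_nonneg (inner ℂ e (y 1) : ℂ)).lt_or_eq with h2 | h2
    · exact h2
    · rw [← h2, mul_zero] at hb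
      exact absurd hb (lt_irrefl 0)
  rw [hwz] at hlw
  have hkey : ‖v‖ ≤ 6 * C * M / R * ‖(inner ℂ e (y 1) : ℂ)‖ := by
    have h2 : ‖inner ℂ e (y 1) ^ (μ - 1)‖ * ‖v‖ ≤ 3 * C / R * ‖h (y 1)‖ :=
      (div_le_iff₀ hh1).1 hlw
    have h3 : ‖h (y 1)‖ ≤ 2 * M * (‖inner ℂ e (y 1) ^ (μ - 1)‖ * ‖(inner ℂ e (y 1) : ℂ)‖) := by
      have h4 := (le_div_iff₀ hh1).1 hG1
      have h5 : 1 / (2 * M) * ‖h (y 1)‖ * (2 * M) = ‖h (y 1)‖ := by field_simp
      nlinarith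
    have h4 : ‖inner ℂ e (y 1) ^ (μ - 1)‖ * ‖v‖ ≤ ‖inner ℂ e (y 1) ^ (μ - 1)‖ *
        (6 * C * M / R * ‖(inner ℂ e (y 1) : ℂ)‖) := by
      calc ‖inner ℂ e (y 1) ^ (μ - 1)‖ * ‖v‖ ≤ 3 * C / R * ‖h (y 1)‖ := h2
        _ ≤ 3 * C / R * (2 * M * (‖inner ℂ e (y 1) ^ (μ - 1)‖ * ‖(inner ℂ e (y 1) : ℂ)‖)) :=
            mul_le_mul_of_nonneg_left h3 (by positivity)
        _ = _ := by ring
    exact le_of_mul_le_mul_left h4 ha0
  have hz1 : ‖(inner ℂ e (y 1) : ℂ)‖ ≤ ‖z‖ := by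
    have := norm_inner_le_norm (𝕜 := ℂ) e (y 1)
    rwa [he, one_mul] at this
  have h9 : ‖z‖ * sd z e ≤ ‖z‖ * (6 * C * M / R) := by
    rw [hsz]
    calc ‖v‖ ≤ 6 * C * M / R * ‖(inner ℂ e (y 1) : ℂ)‖ := hkey
      _ ≤ 6 * C * M / R * ‖z‖ := mul_le_mul_of_nonneg_left hz1 hquot
      _ = _ := by ring
  exact le_of_mul_le_mul_left h9 hzp

end MFE
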