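import Pool.Agent.Lib.MFE.Hyp1

/-!
# Minimal quasi-attractors and hypersurfaces
-/

set_option autoImplicit false

open Set Metric Filter Topology
open scoped LinearAlgebra.Projectivization

namespace MFE

section top

variable {X : Type*} [TopologicalSpace X] [CompactSpace X] [T2Space X] {f : X → X}

/-- A minimal quasi-attractor which meets a trapping region lies in its attracting set. -/
theorem subset_attr_of_meet (hf : Continuous f) {Q : Set X} (hQ : MF7.IsMinimalQuasi f Q)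
    {U : Set X} (hU : MF7.IsTrapping f U) (hQU : (Q ∩ U).Nonempty) :
    Q ⊆ ⋂ n : ℕ, f^[n] '' U := by
  obtain ⟨hcl, hfQ, hnh⟩ := hQ.nhds hf
  set 𝒜 : Set (Set X) := {A | ∃ T, MF7.IsTrapping f T ∧ Q ⊆ T ∧ A = ⋂ n : ℕ, f^[n] '' (T ∩ U)}
    with h𝒜
  have htr : ∀ T, MF7.IsTrapping f T → Q ⊆ T → MF7.IsTrapping f (T ∩ U) := by
    intro T hT hQT
    refine ⟨?_, hT.2.1.inter hU.2.1, ?_⟩
    · obtain ⟨q, hq, hqU⟩ := hQU
      exact ⟨q, hQT hq, hqU⟩
    · rintro _ ⟨x, hx, rfl⟩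
      exact ⟨hT.2.2 ⟨x, closure_mono inter_subset_left hx, rfl⟩,
        hU.2.2 ⟨x, closure_mono inter_subset_right hx, rfl⟩⟩
  have hatt : ∀ A ∈ 𝒜, MF7.IsAttracting f A := by
    rintro A ⟨T, hT, hQT, rfl⟩
    exact ⟨_, htr T hT hQT, rfl⟩
  obtain ⟨T0, hT0, hQT0, -⟩ := hnh univ isOpen_univ (subset_univ Q)
  have hT0𝒜 : (⋂ n : ℕ, f^[n] '' (T0 ∩ U)) ∈ 𝒜 := ⟨T0, hT0, hQT0, rfl⟩
  have hmono : ∀ {V W : Set X}, V ⊆ W → (⋂ n : ℕ, f^[n] '' V) ⊆ ⋂ n : ℕ, f^[n] '' W :=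
    fun h => iInter_mono fun n => image_mono h
  have hne : (⋂₀ 𝒜).Nonempty := by
    have : Nonempty 𝒜 := ⟨⟨_, hT0𝒜⟩⟩
    refine IsCompact.nonempty_sInter_of_directed_nonempty_isCompact_isClosed ?_ ?_ ?_ ?_
    · rintro A ⟨V, hV, hQV, rfl⟩ B ⟨W, hW, hQW, rfl⟩
      obtain ⟨T, hT, hQT, hTVW⟩ := hnh (V ∩ W) (hV.2.1.inter hW.2.1) (subset_inter hQV hQW)
      exact ⟨_, ⟨T, hT, hQT, rfl⟩,
        hmono (inter_subset_inter_left _ (hTVW.trans inter_subset_left)),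
        hmono (inter_subset_inter_left _ (hTVW.trans inter_subset_right))⟩
    · exact fun A hA => (MF7.T2x.attracting_closed hf (hatt A hA)).2
    · exact fun A hA => (MF7.T2x.attracting_closed hf (hatt A hA)).1.isCompact
    · exact fun A hA => (MF7.T2x.attracting_closed hf (hatt A hA)).1
  have hsub : ⋂₀ 𝒜 ⊆ Q := by
    intro x hx
    by_contra hxQ
    obtain ⟨T, hT, hQT, hTx⟩ := hnh {x}ᶜ isOpen_compl_singleton (fun q hq hqx => hxQ (hqx ▸ hq))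
    have h1 : x ∈ ⋂ n : ℕ, f^[n] '' (T ∩ U) := hx _ ⟨T, hT, hQT, rfl⟩
    obtain ⟨y, hy, hyx⟩ := mem_iInter.1 h1 0
    exact hTx hy.1 hyx
  have heq := hQ.2 _ ⟨hne, 𝒜, ⟨_, hT0𝒜⟩, hatt, rfl⟩ hsub
  rw [← heq]
  exact (sInter_subset_of_mem hT0𝒜).trans (hmono inter_subset_right)

end top

variable {E : Type*} [NormedAddCommGroup E] [InnerProductSpace ℂ E]

/-- the zero set of a homogeneous function -/
def Zero (h : E → ℂ) : Set (ℙ ℂ E) := {p | h p.rep = 0}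

theorem mk_mem_zero {h : E → ℂ} {μ : ℕ} (hhom : ∀ (c : ℂ) (x : E), h (c • x) = c ^ μ * h x)
    {x : E} (hx : x ≠ 0) : Projectivization.mk ℂ x hx ∈ Zero h ↔ h x = 0 := by
  obtain ⟨a, ha⟩ := Projectivization.exists_smul_eq_mk_rep ℂ x hx
  have ha' : (a : ℂ) • x = (Projectivization.mk ℂ x hx).rep := ha
  have ha0 : (a : ℂ) ^ μ ≠ 0 := pow_ne_zero _ a.ne_zero
  change h (Projectivization.mk ℂ x hx).rep = 0 ↔ _
  rw [← ha', hhom, mul_eq_zero]
  exact ⟨fun h1 => h1.resolve_left ha0, Or.inr⟩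

theorem isOpen_compl_zero {h : E → ℂ} {μ : ℕ}
    (hhom : ∀ (c : ℂ) (x : E), h (c • x) = c ^ μ * h x) (hc : Continuous h) :
    IsOpen (Zero h)ᶜ := by
  rw [isOpen_iff_coneOf]
  have h1 : coneOf (Zero h)ᶜ = {x : E | x ≠ 0} ∩ {x : E | h x ≠ 0} := by
    ext x
    constructor
    · rintro ⟨hx, h2⟩
      exact ⟨hx, fun h3 => h2 ((mk_mem_zero hhom hx).2 h3)⟩
    · rintro ⟨hx, h2⟩
      exact ⟨hx, fun h3 => h2 ((mk_mem_zero hhom hx).1 h3)⟩
  rw [h1]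
  exact isOpen_ne_zero.inter (isOpen_ne_fun hc continuous_const)

/-- upper bound of a homogeneous function -/
theorem exists_upper [FiniteDimensional ℂ E] {h : E → ℂ} {μ : ℕ} (hμ : 1 ≤ μ)
    (hhom : ∀ (c : ℂ) (x : E), h (c • x) = c ^ μ * h x) (hc : Continuous h) :
    ∃ M : ℝ, 0 < M ∧ ∀ x, ‖h x‖ ≤ M * ‖x‖ ^ μ := by
  haveI : ProperSpace E := FiniteDimensional.proper ℂ E
  obtain ⟨M, hM⟩ := (isCompact_sphere (0 : E) 1).exists_bound_of_continuousOn hc.continuousOn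
  refine ⟨max M 1, by positivity, fun x => ?_⟩
  by_cases hx : x = 0
  · have h1 : h x = 0 := by
      have h2 := hhom 0 x
      rw [zero_smul, zero_pow (by omega), zero_mul] at h2
      rw [hx]
      exact h2
    rw [h1, norm_zero]
    positivity
  · have hxp : 0 < ‖x‖ := norm_pos_iff.2 hx
    have hxc : (‖x‖ : ℂ) ≠ 0 := by exact_mod_cast hxp.ne'
    have h1 : x = (‖x‖ : ℂ) • (((‖x‖ : ℂ)⁻¹) • x) := by
      rw [smul_smul, mul_inv_cancel₀ hxc, one_smul]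
    have h2 : ‖((‖x‖ : ℂ)⁻¹) • x‖ = 1 := by
      rw [norm_smul, norm_inv, Complex.norm_real, norm_norm]
      exact inv_mul_cancel₀ hxp.ne'
    have h3 := hM _ (mem_sphere_zero_iff_norm.2 h2)
    have h4 : ‖h x‖ = ‖x‖ ^ μ * ‖h (((‖x‖ : ℂ)⁻¹) • x)‖ := by
      conv_lhs => rw [h1]
      rw [hhom, norm_mul, norm_pow, Complex.norm_real, norm_norm]
    rw [h4, mul_comm (max M 1)]
    exact mul_le_mul_of_nonneg_left (h3.trans (le_max_left _ _)) (by positivity)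

/-- lower bound of a homogeneous function on a closed set without zeros -/
theorem exists_lower [FiniteDimensional ℂ E] {h : E → ℂ} {μ : ℕ}
    (hhom : ∀ (c : ℂ) (x : E), h (c • x) = c ^ μ * h x) (hc : Continuous h)
    {K : Set (ℙ ℂ E)} (hK : IsClosed K) (hKz : Disjoint K (Zero h)) :
    ∃ C : ℝ, 0 < C ∧ ∀ x ∈ coneOf K, ‖x‖ ^ μ ≤ C * ‖h x‖ := by
  haveI : ProperSpace E := FiniteDimensional.proper ℂ E
  set S : Set E := sphere (0 : E) 1 ∩ (coneOf K ∪ {0}) with hS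
  have hSc : IsCompact S := (isCompact_sphere (0 : E) 1).inter_right (isClosed_cone_zero hK)
  have hSK : ∀ x ∈ S, x ∈ coneOf K := by
    rintro x ⟨h1, h2 | h2⟩
    · exact h2
    · rw [mem_singleton_iff] at h2
      rw [h2, mem_sphere_zero_iff_norm, norm_zero] at h1
      norm_num at h1
  have hne : ∀ x ∈ coneOf K, h x ≠ 0 := by
    rintro x ⟨hx, h1⟩ h2
    exact (disjoint_left.1 hKz) h1 ((mk_mem_zero hhom hx).2 h2)
  have hex : ∃ C : ℝ, 0 < C ∧ ∀ x ∈ S, 1 ≤ C * ‖h x‖ := by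
    rcases S.eq_empty_or_nonempty with h1 | h1
    · exact ⟨1, one_pos, fun x hx => by rw [h1] at hx; exact absurd hx (notMem_empty x)⟩
    · obtain ⟨x0, hx0, hmin⟩ := hSc.exists_isMinOn h1 hc.norm.continuousOn
      have h2 : 0 < ‖h x0‖ := norm_pos_iff.2 (hne x0 (hSK x0 hx0))
      refine ⟨‖h x0‖⁻¹, inv_pos.2 h2, fun x hx => ?_⟩
      have h3 : ‖h x0‖ ≤ ‖h x‖ := hmin hx
      calc (1 : ℝ) = ‖h x0‖⁻¹ * ‖h x0‖ := (inv_mul_cancel₀ h2.ne').symm
        _ ≤ _ := mul_le_mul_of_nonneg_left h3 (inv_nonneg.2 h2.le)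
  obtain ⟨C, hC, h1⟩ := hex
  refine ⟨C, hC, fun x hx => ?_⟩
  have hx0 : x ≠ 0 := hx.1
  have hxp : 0 < ‖x‖ := norm_pos_iff.2 hx0
  have hxc : (‖x‖ : ℂ) ≠ 0 := by exact_mod_cast hxp.ne'
  have h2 : x = (‖x‖ : ℂ) • (((‖x‖ : ℂ)⁻¹) • x) := by
    rw [smul_smul, mul_inv_cancel₀ hxc, one_smul]
  have h3 : ‖((‖x‖ : ℂ)⁻¹) • x‖ = 1 := by
    rw [norm_smul, norm_inv, Complex.norm_real, norm_norm]
    exact inv_mul_cancel₀ hxp.ne'
  have h4 : ((‖x‖ : ℂ)⁻¹) • x ∈ S :=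
    ⟨mem_sphere_zero_iff_norm.2 h3, Or.inl ((isCone_coneOf K).2 _ (inv_ne_zero hxc) x hx)⟩
  have h5 : ‖h x‖ = ‖x‖ ^ μ * ‖h (((‖x‖ : ℂ)⁻¹) • x)‖ := by
    conv_lhs => rw [h2]
    rw [hhom, norm_mul, norm_pow, Complex.norm_real, norm_norm]
  rw [h5]
  calc ‖x‖ ^ μ = ‖x‖ ^ μ * 1 := (mul_one _).symm
    _ ≤ ‖x‖ ^ μ * (C * ‖h (((‖x‖ : ℂ)⁻¹) • x)‖) :=
        mul_le_mul_of_nonneg_left (h1 _ h4) (by positivity)
    _ = _ := by ring

/-- a trapping region whose closure misses a hypersurface lies in the Fatou set -/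
theorem fatou_of_trapping [FiniteDimensional ℂ E] (s : HMap E) {h : E → ℂ} {μ : ℕ} (hμ : 1 ≤ μ)
    (hh : AnalyticOnNhd ℂ h univ) (hhom : ∀ (c : ℂ) (x : E), h (c • x) = c ^ μ * h x)
    {U : Set (ℙ ℂ E)} (hU : MF7.IsTrapping s.map U) (hUz : Disjoint (closure U) (Zero h))
    {p : ℙ ℂ E} (hp : p ∈ U) : FatouPt s p := by
  have hc : Continuous h := continuousOn_univ.1 hh.continuousOn
  obtain ⟨M, hM, hhM⟩ := exists_upper hμ hhom hc
  obtain ⟨C, hC, hhC⟩ := exists_lower hhom hc isClosed_closure hUz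
  obtain ⟨δ, hδ, hδU⟩ := exists_ball hU.2.1 hp
  refine ⟨δ, hδ, fun q hq ε hε => ?_⟩
  have hqU : q ∈ U := hδU q hq
  -- a unit representative of `q`
  obtain ⟨e, he, ⟨c, hc0, hec⟩, -⟩ := sd_unit q.rep_nonzero
  have he0 : e ≠ 0 := by
    intro h1
    rw [h1, norm_zero] at he
    norm_num at he
  have hqe : q = Projectivization.mk ℂ e he0 := by
    rw [← q.mk_rep, Projectivization.mk_eq_mk_iff']
    refine ⟨c⁻¹, ?_⟩
    rw [hec, smul_smul, inv_mul_cancel₀ hc0, one_smul]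
  have hopen : IsOpen (coneOf U) := (isOpen_iff_coneOf U).1 hU.2.1
  have heU : e ∈ coneOf U := ⟨he0, by rw [← hqe]; exact hqU⟩
  obtain ⟨r, hr, hrU⟩ := Metric.isOpen_iff.1 hopen e heU
  set η : ℝ := min (min (r / 2) (r / (6 * C * M + 1))) (min (1 / 2) (ε * r / (6 * C * M + 1)) / 2)
    with hη
  have hK1 : 0 < 6 * C * M + 1 := by positivity
  have hηp : 0 < η := by
    refine lt_min (lt_min (by positivity) (by positivity)) ?_
    have : 0 < min (1 / 2) (ε * r / (6 * C * M + 1)) := lt_min (by norm_num) (by positivity)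
    linarith
  have hη1 : η ≤ r / 2 := (min_le_left _ _).trans (min_le_left _ _)
  have hη2 : η ≤ r / (6 * C * M + 1) := (min_le_left _ _).trans (min_le_right _ _)
  have hη3 : η < 1 / 2 := by
    have h1 : η ≤ min (1 / 2) (ε * r / (6 * C * M + 1)) / 2 := min_le_right _ _
    have h2 : min (1 / 2) (ε * r / (6 * C * M + 1)) ≤ 1 / 2 := min_le_left _ _
    linarith
  have hη4 : η < ε * r / (6 * C * M + 1) := by
    have h1 : η ≤ min (1 / 2) (ε * r / (6 * C * M + 1)) / 2 := min_le_right _ _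
    have h2 : min (1 / 2) (ε * r / (6 * C * M + 1)) ≤ ε * r / (6 * C * M + 1) := min_le_right _ _
    have h3 : 0 < ε * r / (6 * C * M + 1) := by positivity
    linarith
  refine ⟨η, hηp, fun q' hq' m => ?_⟩
  -- a representative of `q'` near `e`
  obtain ⟨a, ha, -⟩ := exists_sd_eq he0 q'.rep_nonzero
  set x : E := a • q'.rep with hx
  have hd : ‖e - x‖ < η := by
    rw [← ha, he, one_mul]
    have h1 : pdist q' q = sd e q'.rep := by
      have h2 := q'.mk_rep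
      rw [hqe, ← h2, pdist_mk q'.rep_nonzero he0, sd_comm, h2]
    rw [← h1]
    exact hq'
  have ha0 : a ≠ 0 := by
    intro h1
    rw [hx, h1, zero_smul, sub_zero, he] at hd
    linarith
  have hx0 : x ≠ 0 := smul_ne_zero ha0 q'.rep_nonzero
  have hqx : q' = Projectivization.mk ℂ x hx0 := by
    conv_lhs => rw [← q'.mk_rep]
    rw [Projectivization.mk_eq_mk_iff']
    refine ⟨a⁻¹, ?_⟩
    rw [hx, smul_smul, inv_mul_cancel₀ ha0, one_smul]
  set R : ℝ := r / η with hR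
  have hR1 : 1 < R := by
    rw [hR, lt_div_iff₀ hηp]
    linarith
  have hR2 : 6 * C * M ≤ R := by
    rw [hR, le_div_iff₀ hηp]
    have h1 : η * (6 * C * M + 1) ≤ r := (le_div_iff₀ hK1).1 hη2
    nlinarith
  have hsmall : 6 * C * M / R < ε := by
    rw [hR, div_div_eq_mul_div, div_lt_iff₀ hr]
    have h1 : η * (6 * C * M + 1) < ε * r := (lt_div_iff₀ hK1).1 hη4
    nlinarith
  have hin : ∀ t ∈ ball (0 : ℂ) R, e + t • (x - e) ∈ coneOf U := by
    intro t ht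
    refine hrU ?_
    rw [mem_ball, dist_eq_norm, add_sub_cancel_left, norm_smul]
    rw [mem_ball, dist_zero_right] at ht
    have h1 : ‖x - e‖ ≤ η := by
      rw [norm_sub_rev]
      exact hd.le
    calc ‖t‖ * ‖x - e‖ ≤ ‖t‖ * η := mul_le_mul_of_nonneg_left h1 (norm_nonneg _)
      _ < R * η := mul_lt_mul_of_pos_right ht hηp
      _ = r := by rw [hR]; field_simp
  have hfwd : ∀ (m : ℕ) (z : ℙ ℂ E), z ∈ U → s.map^[m] z ∈ U := by
    intro m
    induction m with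
    | zero => exact fun z hz => hz
    | succ m ih =>
      intro z hz
      rw [Function.iterate_succ_apply]
      exact ih _ (hU.image_subset ⟨z, hz, rfl⟩)
  have hy0 : ∀ t ∈ ball (0 : ℂ) R, s.F^[m] (e + t • (x - e)) ≠ 0 := fun t ht =>
    s.iter_ne (hin t ht).1 m
  have hyC : ∀ t ∈ ball (0 : ℂ) R, ‖s.F^[m] (e + t • (x - e))‖ ^ μ ≤
      C * ‖h (s.F^[m] (e + t • (x - e)))‖ := by
    intro t ht
    refine hhC _ ⟨hy0 t ht, subset_closure ?_⟩
    have h1 := hfwd m _ (hin t ht).2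
    rwa [s.iter_map_mk (hin t ht).1 m] at h1
  have hfin := sd_disc hμ hh hM hC hhM hR1 hR2 (y := fun t : ℂ => s.F^[m] (e + t • (x - e)))
    (analytic_disc s m e (x - e)) hy0 hyC
  simp only [one_smul, zero_smul, add_zero, add_sub_cancel] at hfin
  rw [hqx, hqe, s.iter_map_mk hx0 m, s.iter_map_mk he0 m, pdist_mk]
  exact hfin.trans_lt hsmall

/-- a minimal quasi-attractor which misses a hypersurface is an attracting set -/
theorem attracting_of_miss [FiniteDimensional ℂ E] (s : HMap E) {h : E → ℂ} {μ : ℕ} (hμ : 1 ≤ μ)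
    (hh : AnalyticOnNhd ℂ h univ) (hhom : ∀ (c : ℂ) (x : E), h (c • x) = c ^ μ * h x)
    {Q : Set (ℙ ℂ E)} (hQ : MF7.IsMinimalQuasi s.map Q) (hQz : Disjoint Q (Zero h)) :
    MF7.IsAttracting s.map Q := by
  have hc : Continuous h := continuousOn_univ.1 hh.continuousOn
  haveI : CompactSpace (ℙ ℂ E) := compactSpace_proj
  letI := projMetric E
  obtain ⟨hcl, hfQ, hnh⟩ := hQ.nhds s.continuous_map
  obtain ⟨G, hG, hQG, hGz⟩ := normal_exists_closure_subset hcl (isOpen_compl_zero hhom hc)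
    (fun q hq hqz => (disjoint_left.1 hQz) hq hqz)
  obtain ⟨T, hT, hQT, hTG⟩ := hnh G hG hQG
  have hTz : Disjoint (closure T) (Zero h) :=
    disjoint_left.2 fun z hz hzz => hGz (closure_mono hTG hz) hzz
  refine mainThin s hQ ⟨T, hT, rfl⟩ (subset_attr s.continuous_map hQ hT hQT) ?_
  intro Λ _ hΛn _ hΛs
  obtain ⟨p, hp⟩ := hΛn
  exact ⟨p, hp, Or.inr (fatou_of_trapping s hμ hh hhom hT hTz (attr_subset (hΛs hp).1))⟩

/-- towers of attracting sets cut out by hypersurfaces -/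
theorem subset_tower [FiniteDimensional ℂ E] (s : HMap E) {r : ℕ}
    {A : ℕ → Set (ℙ ℂ E)} {h : ℕ → E → ℂ} {μ : ℕ → ℕ} (h0 : A 0 = univ)
    (hA : ∀ i < r, 1 ≤ μ i ∧ AnalyticOnNhd ℂ (h i) univ ∧
      (∀ (c : ℂ) (x : E), h i (c • x) = c ^ μ i * h i x) ∧
      ∃ U, MF7.IsTrapping s.map U ∧ A (i + 1) = (⋂ k : ℕ, s.map^[k] '' U) ∧
        ∀ p ∈ A i ∩ Zero (h i), ∃ k : ℕ, s.map^[k] p ∈ U)
    {Q : Set (ℙ ℂ E)} (hQ : MF7.IsMinimalQuasi s.map Q) (hna : ¬ MF7.IsAttracting s.map Q) :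
    ∀ i ≤ r, Q ⊆ A i := by
  haveI : CompactSpace (ℙ ℂ E) := compactSpace_proj
  letI := projMetric E
  intro i
  induction i with
  | zero =>
    intro _
    rw [h0]
    exact subset_univ Q
  | succ i ih =>
    intro hi
    obtain ⟨h2, h3, h4, U, hU, hUA, h5⟩ := hA i (by omega)
    have hmeet : ¬ Disjoint Q (Zero (h i)) := fun hdis =>
      hna (attracting_of_miss s h2 h3 h4 hQ hdis)
    obtain ⟨q, hq, hqz⟩ := not_disjoint_iff.1 hmeet
    obtain ⟨k, hk⟩ := h5 q ⟨ih (by omega) hq, hqz⟩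
    have hfQ := (hQ.nhds s.continuous_map).2.1
    have hit : ∀ k : ℕ, s.map^[k] q ∈ Q := by
      intro k
      induction k with
      | zero => exact hq
      | succ k ih =>
        rw [Function.iterate_succ_apply']
        exact hfQ _ ih
    rw [hUA]
    exact subset_attr_of_meet s.continuous_map hQ hU ⟨_, hit k, hk⟩

/-- towers ending in a thin attracting set -/
theorem attracting_of_tower [FiniteDimensional ℂ E] (s : HMap E) {r : ℕ} (hr : 1 ≤ r)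
    {A : ℕ → Set (ℙ ℂ E)} {h : ℕ → E → ℂ} {μ : ℕ → ℕ} (h0 : A 0 = univ)
    (hA : ∀ i < r, 1 ≤ μ i ∧ AnalyticOnNhd ℂ (h i) univ ∧
      (∀ (c : ℂ) (x : E), h i (c • x) = c ^ μ i * h i x) ∧
      ∃ U, MF7.IsTrapping s.map U ∧ A (i + 1) = (⋂ k : ℕ, s.map^[k] '' U) ∧
        ∀ p ∈ A i ∩ Zero (h i), ∃ k : ℕ, s.map^[k] p ∈ U)
    (hΛ : ∀ Λ : Set (ℙ ℂ E), IsClosed Λ → Λ.Nonempty → s.map '' Λ = Λ → Λ ⊆ A r →
      ∃ p ∈ Λ, ThinPt (A r) p ∨ FatouPt s p) {Q : Set (ℙ ℂ E)}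
    (hQ : MF7.IsMinimalQuasi s.map Q) : MF7.IsAttracting s.map Q := by
  by_contra hna
  have hr1 : r - 1 + 1 = r := by omega
  obtain ⟨-, -, -, U, hU, hUA, -⟩ := hA (r - 1) (by omega)
  rw [hr1] at hUA
  refine hna (mainThin s hQ ⟨U, hU, hUA⟩ (subset_tower s h0 hA hQ hna r le_rfl) ?_)
  intro Λ h1 h2 h3 h4
  exact hΛ Λ h1 h2 h3 (h4.trans diff_subset)

end MFE
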