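import Pool.Agent.Lib.MFE.Hyp2

/-!
# Maps with a flag of super-attracting subspaces
-/

set_option autoImplicit false

open Set Metric Filter Topology
open scoped LinearAlgebra.Projectivization

namespace MFE

/-- thinness of a subset of a projective line -/
theorem thinPt_of_line {E : Type*} [NormedAddCommGroup E] [InnerProductSpace ℂ E]
    {A : Set (ℙ ℂ E)} {W : Set E} (a b : E →L[ℂ] ℂ)
    (hW : ∀ x ∈ W, ∀ y ∈ W, ∀ c : ℂ, x - c • y ∈ W)
    (hab : ∀ x ∈ W, a x = 0 → b x = 0 → x = 0) (hA : coneOf A ⊆ W) {p : ℙ ℂ E} (hp : p ∈ A) :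
    ThinPt A p := by
  intro e he he1 hep
  refine ⟨1, one_pos, fun r hr _ => ?_⟩
  have heA : e ∈ coneOf A := ⟨he, by rw [hep]; exact hp⟩
  have heW := hA heA
  have hkey : ∀ x ∈ W, b e * a x - a e * b x = 0 → ∃ c : ℂ, x = c • e := by
    intro x hx h
    by_cases ha : a e = 0
    · have hb : b e ≠ 0 := fun hb => he (hab e heW ha hb)
      refine ⟨b x / b e, ?_⟩
      have h1 : a x = 0 := by
        rw [ha, zero_mul, sub_zero] at h
        exact (mul_eq_zero.1 h).resolve_left hb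
      refine sub_eq_zero.1 (hab _ (hW x hx e heW _) ?_ ?_)
      · rw [map_sub, map_smul, ha, h1, smul_zero, sub_zero]
      · rw [map_sub, map_smul, smul_eq_mul, div_mul_cancel₀ _ hb, sub_self]
    · refine ⟨a x / a e, ?_⟩
      refine sub_eq_zero.1 (hab _ (hW x hx e heW _) ?_ ?_)
      · rw [map_sub, map_smul, smul_eq_mul, div_mul_cancel₀ _ ha, sub_self]
      · rw [map_sub, map_smul, smul_eq_mul]
        field_simp
        linear_combination -h
  refine ⟨0, b e • a - a e • b, 1, one_pos, rfl, ?_, ?_, ?_⟩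
  · simp [mul_comm]
  · intro x hx hr1 hγ
    exfalso
    have h1 : b e * a x - a e * b x = 0 := by simpa using hγ
    obtain ⟨c, hc⟩ := hkey x (hA hx) h1
    have h2 : sd x e = 0 := (sd_eq_zero hx.1 he).2 ⟨c, hc⟩
    rw [h2] at hr1
    exact absurd hr1 hr.ne
  · intro x hx _ hγ h2
    have h1 : b e * a x - a e * b x = 0 := by simpa using hγ
    obtain ⟨c, hc⟩ := hkey x (hA hx) h1
    have h3 : c = 0 := by
      have h4 : inner ℂ e x = c := by
        rw [hc, inner_smul_right, inner_self_eq_norm_sq_to_K, he1]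
        simp
      have h5 : (0 : ℂ) = (1 : ℝ) * inner ℂ e x := h2
      rw [h4] at h5
      simpa using h5.symm
    exact hx.1 (by rw [hc, h3, zero_smul])

section flag

variable {n : ℕ}

/-- the subspace where the coordinates of index at least `j` vanish -/
def PW (n j : ℕ) : Set (ℙ ℂ (EuclideanSpace ℂ (Fin n))) :=
  {p | ∀ i : Fin n, j ≤ (i : ℕ) → p.rep i = 0}

/-- relative size of a coordinate -/
noncomputable def gc (i : Fin n) (p : ℙ ℂ (EuclideanSpace ℂ (Fin n))) : ℝ :=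
  ‖p.rep i‖ / ‖p.rep‖

theorem gc_mk (i : Fin n) {x : EuclideanSpace ℂ (Fin n)} (hx : x ≠ 0) :
    gc i (Projectivization.mk ℂ x hx) = ‖x i‖ / ‖x‖ := by
  obtain ⟨a, ha⟩ := Projectivization.exists_smul_eq_mk_rep ℂ x hx
  have ha' : (a : ℂ) • x = (Projectivization.mk ℂ x hx).rep := ha
  have ha0 : ‖(a : ℂ)‖ ≠ 0 := norm_ne_zero_iff.2 a.ne_zero
  unfold gc
  rw [← ha', norm_smul, PiLp.smul_apply, norm_smul]
  exact mul_div_mul_left _ _ ha0

theorem mk_mem_PW {j : ℕ} {x : EuclideanSpace ℂ (Fin n)} (hx : x ≠ 0) :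
    Projectivization.mk ℂ x hx ∈ PW n j ↔ ∀ i : Fin n, j ≤ (i : ℕ) → x i = 0 := by
  obtain ⟨a, ha⟩ := Projectivization.exists_smul_eq_mk_rep ℂ x hx
  have ha' : (a : ℂ) • x = (Projectivization.mk ℂ x hx).rep := ha
  have ha0 : (a : ℂ) ≠ 0 := a.ne_zero
  change (∀ i : Fin n, j ≤ (i : ℕ) → (Projectivization.mk ℂ x hx).rep i = 0) ↔ _
  rw [← ha']
  refine forall_congr' fun i => forall_congr' fun _ => ?_
  rw [PiLp.smul_apply, smul_eq_mul, mul_eq_zero]
  exact ⟨fun h => h.resolve_left ha0, Or.inr⟩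

theorem continuous_gc (i : Fin n) : Continuous (gc i) := by
  refine continuous_coinduced_dom.2 ?_
  have h1 : (gc i ∘ fun v : {v : EuclideanSpace ℂ (Fin n) // v ≠ 0} =>
      Projectivization.mk ℂ v.1 v.2) = fun v => ‖v.1 i‖ / ‖v.1‖ := by
    ext v
    exact gc_mk i v.2
  rw [h1]
  refine Continuous.div ?_ continuous_subtype_val.norm fun v => norm_ne_zero_iff.2 v.2
  exact (((EuclideanSpace.proj (𝕜 := ℂ) i).continuous).comp continuous_subtype_val).norm

theorem gc_nonneg (i : Fin n) (p : ℙ ℂ (EuclideanSpace ℂ (Fin n))) : 0 ≤ gc i p := by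
  unfold gc
  positivity

theorem gc_le_one (i : Fin n) (p : ℙ ℂ (EuclideanSpace ℂ (Fin n))) : gc i p ≤ 1 := by
  unfold gc
  rw [div_le_one (norm_pos_iff.2 p.rep_nonzero)]
  exact PiLp.norm_apply_le _ _

theorem gc_eq_zero (i : Fin n) (p : ℙ ℂ (EuclideanSpace ℂ (Fin n))) :
    gc i p = 0 ↔ p.rep i = 0 := by
  unfold gc
  rw [div_eq_zero_iff, norm_eq_zero, norm_eq_zero]
  exact ⟨fun h => h.resolve_right p.rep_nonzero, Or.inl⟩

theorem isClosed_PW (j : ℕ) : IsClosed (PW n j) := by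
  have h1 : PW n j = ⋂ i : Fin n, ⋂ _ : j ≤ (i : ℕ), {p | gc i p = 0} := by
    ext p
    simp only [PW, mem_setOf_eq, mem_iInter, gc_eq_zero]
  rw [h1]
  exact isClosed_iInter fun i => isClosed_iInter fun _ =>
    isClosed_eq (continuous_gc i) continuous_const

/-- lower bound for the map -/
theorem exists_lowerF {E : Type*} [NormedAddCommGroup E] [InnerProductSpace ℂ E]
    [FiniteDimensional ℂ E] (s : HMap E) :
    ∃ m : ℝ, 0 < m ∧ ∀ x, m * ‖x‖ ^ s.d ≤ ‖s.F x‖ := by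
  haveI : ProperSpace E := FiniteDimensional.proper ℂ E
  have hex : ∃ m : ℝ, 0 < m ∧ ∀ x ∈ sphere (0 : E) 1, m ≤ ‖s.F x‖ := by
    rcases (sphere (0 : E) 1).eq_empty_or_nonempty with h1 | h1
    · exact ⟨1, one_pos, fun x hx => by rw [h1] at hx; exact absurd hx (notMem_empty x)⟩
    · obtain ⟨x0, hx0, hmin⟩ := (isCompact_sphere (0 : E) 1).exists_isMinOn h1
        s.continuous_F.norm.continuousOn
      have h2 : x0 ≠ 0 := by
        intro h3
        rw [h3, mem_sphere_zero_iff_norm, norm_zero] at hx0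
        norm_num at hx0
      exact ⟨‖s.F x0‖, norm_pos_iff.2 (s.ne _ h2), fun x hx => hmin hx⟩
  obtain ⟨m, hm, h1⟩ := hex
  refine ⟨m, hm, fun x => ?_⟩
  by_cases hx : x = 0
  · have hd : s.d ≠ 0 := by
      have := s.pos
      omega
    rw [hx, norm_zero, zero_pow hd, mul_zero]
    exact norm_nonneg _
  · have hxp : 0 < ‖x‖ := norm_pos_iff.2 hx
    have hxc : (‖x‖ : ℂ) ≠ 0 := by exact_mod_cast hxp.ne'
    have h2 : x = (‖x‖ : ℂ) • (((‖x‖ : ℂ)⁻¹) • x) := by
      rw [smul_smul, mul_inv_cancel₀ hxc, one_smul]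
    have h3 : ‖((‖x‖ : ℂ)⁻¹) • x‖ = 1 := by
      rw [norm_smul, norm_inv, Complex.norm_real, norm_norm]
      exact inv_mul_cancel₀ hxp.ne'
    have h4 := h1 _ (mem_sphere_zero_iff_norm.2 h3)
    have h5 : ‖s.F x‖ = ‖x‖ ^ s.d * ‖s.F (((‖x‖ : ℂ)⁻¹) • x)‖ := by
      conv_lhs => rw [h2]
      rw [s.hom, norm_smul, norm_pow, Complex.norm_real, norm_norm]
    rw [h5, mul_comm m]
    exact mul_le_mul_of_nonneg_left h4 (by positivity)

/-- the coordinate `i` shrinks on the subspace -/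
theorem gc_map_le (s : HMap (EuclideanSpace ℂ (Fin n))) {m : ℝ} (hm : 0 < m)
    (hmF : ∀ x, m * ‖x‖ ^ s.d ≤ ‖s.F x‖) (hd : 2 ≤ s.d) {i : Fin n} {c : ℝ} (hc0 : 0 ≤ c)
    (hc : ∀ v : EuclideanSpace ℂ (Fin n), (∀ l : Fin n, i < l → v l = 0) →
      ‖s.F v i‖ ≤ c * (‖v i‖ ^ 2 * ‖v‖ ^ (s.d - 2)))
    {p : ℙ ℂ (EuclideanSpace ℂ (Fin n))} (hp : p ∈ PW n (i + 1)) :
    gc i (s.map p) ≤ c / m * gc i p ^ 2 := by
  have hx0 : p.rep ≠ 0 := p.rep_nonzero
  have hxp : 0 < ‖p.rep‖ := norm_pos_iff.2 hx0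
  have h1 : gc i (s.map p) = ‖s.F p.rep i‖ / ‖s.F p.rep‖ := gc_mk i (s.ne _ hx0)
  have h2 : ‖s.F p.rep i‖ ≤ c * (‖p.rep i‖ ^ 2 * ‖p.rep‖ ^ (s.d - 2)) := hc _ fun l hl => hp l (by
    have := Fin.lt_def.1 hl
    omega)
  have hFp : 0 < ‖s.F p.rep‖ := norm_pos_iff.2 (s.ne _ hx0)
  rw [h1, div_le_iff₀ hFp]
  refine h2.trans ?_
  have h4 : ‖p.rep i‖ = gc i p * ‖p.rep‖ := by
    unfold gc
    field_simp
  have h5 := hmF p.rep
  have h6 : ‖p.rep‖ ^ 2 * ‖p.rep‖ ^ (s.d - 2) = ‖p.rep‖ ^ s.d := by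
    rw [← pow_add]
    congr 1
    omega
  rw [h4, mul_pow, mul_assoc (gc i p ^ 2), h6]
  have h7 : 0 ≤ c / m * gc i p ^ 2 := by
    have := gc_nonneg i p
    positivity
  calc c * (gc i p ^ 2 * ‖p.rep‖ ^ s.d) = c / m * gc i p ^ 2 * (m * ‖p.rep‖ ^ s.d) := by
        field_simp
    _ ≤ c / m * gc i p ^ 2 * ‖s.F p.rep‖ := mul_le_mul_of_nonneg_left h5 h7

/-- the statement about trapping regions of the subspace -/
def TS (s : HMap (EuclideanSpace ℂ (Fin n))) (j : ℕ) : Prop :=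
  ∀ N : Set (ℙ ℂ (EuclideanSpace ℂ (Fin n))), IsOpen N → PW n j ⊆ N →
    ∃ U, MF7.IsTrapping s.map U ∧ PW n j ⊆ U ∧ U ⊆ N ∧ (⋂ k : ℕ, s.map^[k] '' U) ⊆ PW n j

theorem PW_nonempty {j : ℕ} (hn : 0 < n) (hj : 0 < j) : (PW n j).Nonempty := by
  have h0 : EuclideanSpace.single (⟨0, hn⟩ : Fin n) (1 : ℂ) ≠ 0 := by
    intro h
    have h1 := congrArg (fun v : EuclideanSpace ℂ (Fin n) => v ⟨0, hn⟩) h
    simp at h1
  refine ⟨Projectivization.mk ℂ _ h0, (mk_mem_PW h0).2 fun i hi => ?_⟩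
  have : i ≠ ⟨0, hn⟩ := by
    intro h
    rw [h] at hi
    simp at hi
    omega
  simp [this]

theorem ts_step (s : HMap (EuclideanSpace ℂ (Fin n))) (hd : 2 ≤ s.d) {j : ℕ} (hj : 0 < j)
    (hjn : j < n) {c : ℝ} (hc0 : 0 ≤ c) (hc : ∀ v : EuclideanSpace ℂ (Fin n),
      (∀ l : Fin n, (⟨j, hjn⟩ : Fin n) < l → v l = 0) →
        ‖s.F v ⟨j, hjn⟩‖ ≤ c * (‖v ⟨j, hjn⟩‖ ^ 2 * ‖v‖ ^ (s.d - 2)))
    (h : TS s (j + 1)) : TS s j := by
  intro N hN hPN
  haveI : CompactSpace (ℙ ℂ (EuclideanSpace ℂ (Fin n))) := compactSpace_proj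
  letI := projMetric (EuclideanSpace ℂ (Fin n))
  set i : Fin n := ⟨j, hjn⟩ with hi
  obtain ⟨m, hm, hmF⟩ := exists_lowerF s
  have hmap : ∀ p ∈ PW n (j + 1), gc i (s.map p) ≤ c / m * gc i p ^ 2 := fun p hp =>
    gc_map_le s hm hmF hd hc0 hc hp
  have hmono : PW n j ⊆ PW n (j + 1) := fun p hp l hl => hp l (by omega)
  have hback : ∀ p ∈ PW n (j + 1), gc i p = 0 → p ∈ PW n j := by
    intro p hp h0 l hl
    rcases Nat.lt_or_ge j l with h1 | h1
    · exact hp l h1
    · have h2 : l = i := Fin.ext (by simp only [hi]; omega)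
      rw [h2]
      exact (gc_eq_zero i p).1 h0
  -- choice of the radius
  obtain ⟨δ1, hδ1, hδN⟩ : ∃ δ : ℝ, 0 < δ ∧ ∀ p ∈ PW n (j + 1), gc i p ≤ δ → p ∈ N := by
    have hK : IsCompact (PW n (j + 1) \ N) := ((isClosed_PW (j + 1)).isCompact).diff hN
    rcases (PW n (j + 1) \ N).eq_empty_or_nonempty with h1 | h1
    · refine ⟨1, one_pos, fun p hp _ => ?_⟩
      by_contra h2
      have h3 : p ∈ PW n (j + 1) \ N := ⟨hp, h2⟩
      rw [h1] at h3
      exact h3
    · obtain ⟨p0, hp0, hmin⟩ := hK.exists_isMinOn h1 (continuous_gc i).continuousOn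
      have h2 : 0 < gc i p0 := by
        rcases (gc_nonneg i p0).lt_or_eq with h3 | h3
        · exact h3
        · exact absurd (hPN (hback p0 hp0.1 h3.symm)) hp0.2
      refine ⟨gc i p0 / 2, half_pos h2, fun p hp hle => ?_⟩
      by_contra h3
      have h4 : gc i p0 ≤ gc i p := hmin ⟨hp, h3⟩
      linarith
  set a : ℝ := c / m with ha
  have ha0 : 0 ≤ a := by positivity
  set δ : ℝ := min δ1 (1 / (4 * (a + 1))) with hδ
  have hδp : 0 < δ := lt_min hδ1 (by positivity)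
  have haδ : a * δ ≤ 1 / 4 := by
    have h1 : δ ≤ 1 / (4 * (a + 1)) := min_le_right _ _
    have h2 : δ * (4 * (a + 1)) ≤ 1 := by
      rwa [le_div_iff₀ (by positivity)] at h1
    nlinarith
  have hshr : ∀ p ∈ PW n (j + 1), gc i p ≤ δ → gc i (s.map p) ≤ gc i p / 4 := by
    intro p hp hle
    refine (hmap p hp).trans ?_
    have h1 := gc_nonneg i p
    have h2 : a * gc i p ≤ 1 / 4 := (mul_le_mul_of_nonneg_left hle ha0).trans haδ
    nlinarith
  set O : Set (ℙ ℂ (EuclideanSpace ℂ (Fin n))) :=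
    {p | δ < gc i p} ∪ ({p | gc i (s.map p) < δ / 2} ∩ N) with hO
  have hOo : IsOpen O := (isOpen_lt continuous_const (continuous_gc i)).union
    ((isOpen_lt ((continuous_gc i).comp s.continuous_map) continuous_const).inter hN)
  have hPO : PW n (j + 1) ⊆ O := by
    intro p hp
    rcases lt_or_ge δ (gc i p) with h1 | h1
    · exact Or.inl h1
    · refine Or.inr ⟨?_, hδN p hp (h1.trans (min_le_left _ _))⟩
      have h2 := hshr p hp h1
      change gc i (s.map p) < δ / 2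
      linarith
  obtain ⟨N', hN', hPN', hcl⟩ := normal_exists_closure_subset (isClosed_PW (j + 1)) hOo hPO
  obtain ⟨V, hV, hPV, hVN, hVA⟩ := h N' hN' hPN'
  refine ⟨V ∩ {p | gc i p < δ}, ⟨?_, ?_, ?_⟩, ?_, ?_, ?_⟩
  · obtain ⟨p, hp⟩ := PW_nonempty (n := n) (by omega) hj
    exact ⟨p, hPV (hmono hp), by
      change gc i p < δ
      rw [(gc_eq_zero i p).2 (hp i le_rfl)]
      exact hδp⟩
  · exact hV.2.1.inter (isOpen_lt (continuous_gc i) continuous_const)
  · rintro _ ⟨p, hp, rfl⟩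
    have h1 : p ∈ closure V := closure_mono inter_subset_left hp
    have h2 : gc i p ≤ δ := by
      have h3 : closure {p | gc i p < δ} ⊆ {p | gc i p ≤ δ} :=
        closure_lt_subset_le (continuous_gc i) continuous_const
      exact h3 (closure_mono inter_subset_right hp)
    refine ⟨hV.2.2 ⟨p, h1, rfl⟩, ?_⟩
    rcases hcl (closure_mono hVN h1) with h4 | h4
    · exact absurd h4 (not_lt.2 h2)
    · have h5 : gc i (s.map p) < δ / 2 := h4.1
      change gc i (s.map p) < δ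
      linarith
  · intro p hp
    refine ⟨hPV (hmono hp), ?_⟩
    change gc i p < δ
    rw [(gc_eq_zero i p).2 (hp i le_rfl)]
    exact hδp
  · rintro p ⟨hp, hpδ⟩
    rcases hcl (subset_closure (hVN hp)) with h4 | h4
    · have h5 : gc i p < δ := hpδ
      exact absurd h4 (not_lt.2 h5.le)
    · exact h4.2
  · have hU : MF7.IsTrapping s.map (V ∩ {p | gc i p < δ}) := by
      refine ⟨?_, hV.2.1.inter (isOpen_lt (continuous_gc i) continuous_const), ?_⟩
      · obtain ⟨p, hp⟩ := PW_nonempty (n := n) (by omega) hj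
        exact ⟨p, hPV (hmono hp), by
          change gc i p < δ
          rw [(gc_eq_zero i p).2 (hp i le_rfl)]
          exact hδp⟩
      · rintro _ ⟨p, hp, rfl⟩
        have h1 : p ∈ closure V := closure_mono inter_subset_left hp
        have h2 : gc i p ≤ δ := by
          have h3 : closure {p | gc i p < δ} ⊆ {p | gc i p ≤ δ} :=
            closure_lt_subset_le (continuous_gc i) continuous_const
          exact h3 (closure_mono inter_subset_right hp)
        refine ⟨hV.2.2 ⟨p, h1, rfl⟩, ?_⟩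
        rcases hcl (closure_mono hVN h1) with h4 | h4
        · exact absurd h4 (not_lt.2 h2)
        · have h5 : gc i (s.map p) < δ / 2 := h4.1
          change gc i (s.map p) < δ
          linarith
    intro x hx
    have hsub : (⋂ k : ℕ, s.map^[k] '' (V ∩ {p | gc i p < δ})) ⊆ PW n (j + 1) :=
      (iInter_mono fun k => image_mono inter_subset_left).trans hVA
    have hstep : ∀ y ∈ (⋂ k : ℕ, s.map^[k] '' (V ∩ {p | gc i p < δ})), ∀ k : ℕ,
        gc i (s.map^[k] y) ≤ (1 / 4) ^ k := by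
      intro y hy k
      have hall : ∀ k : ℕ, s.map^[k] y ∈ (⋂ k : ℕ, s.map^[k] '' (V ∩ {p | gc i p < δ})) := by
        intro k
        induction k with
        | zero => exact hy
        | succ k ih =>
          rw [Function.iterate_succ_apply']
          exact MF7.attr_forward hU ih
      induction k with
      | zero => simpa using gc_le_one i y
      | succ k ih =>
        have h1 := hall k
        have h2 : gc i (s.map^[k] y) < δ := (attr_subset h1).2
        rw [Function.iterate_succ_apply']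
        have h3 := hshr _ (hsub h1) h2.le
        rw [pow_succ]
        linarith
    refine hback x (hsub hx) ?_
    refine le_antisymm ?_ (gc_nonneg i x)
    have hlim : Tendsto (fun k : ℕ => ((1 : ℝ) / 4) ^ k) atTop (𝓝 0) :=
      tendsto_pow_atTop_nhds_zero_of_lt_one (by norm_num) (by norm_num)
    refine ge_of_tendsto' hlim fun k => ?_
    obtain ⟨b, hb, hbx⟩ := exists_preimage_iter s.continuous_map hU hx k
    rw [← hbx]
    exact hstep b hb k

theorem ts_all (s : HMap (EuclideanSpace ℂ (Fin n))) (hd : 2 ≤ s.d) (hn : 2 ≤ n)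
    (hflag : ∀ i : Fin n, 2 ≤ (i : ℕ) → ∃ c : ℝ, 0 ≤ c ∧ ∀ v : EuclideanSpace ℂ (Fin n),
      (∀ l : Fin n, i < l → v l = 0) → ‖s.F v i‖ ≤ c * (‖v i‖ ^ 2 * ‖v‖ ^ (s.d - 2))) :
    ∀ k : ℕ, k ≤ n - 2 → TS s (n - k) := by
  intro k
  induction k with
  | zero =>
    intro _ N _ hPN
    have h1 : PW n (n - 0) = univ := by
      refine eq_univ_of_forall fun p i hi => ?_
      have := i.2
      omega
    rw [h1] at hPN ⊢
    obtain ⟨p, hp⟩ := PW_nonempty (n := n) (j := 1) (by omega) one_pos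
    exact ⟨univ, ⟨⟨p, mem_univ p⟩, isOpen_univ, subset_univ _⟩, subset_univ _, hPN,
      subset_univ _⟩
  | succ k ih =>
    intro hk
    have h1 : n - (k + 1) + 1 = n - k := by omega
    have hjn : n - (k + 1) < n := by omega
    obtain ⟨c, hc0, hc⟩ := hflag ⟨n - (k + 1), hjn⟩ (by simp only; omega)
    refine ts_step s hd (by omega) hjn hc0 hc ?_
    rw [h1]
    exact ih (by omega)

/-- maps with a flag of super-attracting subspaces down to a line -/
theorem attracting_of_flag (s : HMap (EuclideanSpace ℂ (Fin n))) (hd : 2 ≤ s.d) (hn : 2 ≤ n)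
    (hflag : ∀ i : Fin n, 2 ≤ (i : ℕ) → ∃ c : ℝ, 0 ≤ c ∧ ∀ v : EuclideanSpace ℂ (Fin n),
      (∀ l : Fin n, i < l → v l = 0) → ‖s.F v i‖ ≤ c * (‖v i‖ ^ 2 * ‖v‖ ^ (s.d - 2)))
    {Q : Set (ℙ ℂ (EuclideanSpace ℂ (Fin n)))} (hQ : MF7.IsMinimalQuasi s.map Q) :
    MF7.IsAttracting s.map Q := by
  by_contra hna
  haveI : CompactSpace (ℙ ℂ (EuclideanSpace ℂ (Fin n))) := compactSpace_proj
  letI := projMetric (EuclideanSpace ℂ (Fin n))
  have hTS := ts_all s hd hn hflag
  have hsub : ∀ k : ℕ, k ≤ n - 2 → Q ⊆ PW n (n - k) := by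
    intro k
    induction k with
    | zero =>
      intro _ p _ i hi
      have := i.2
      omega
    | succ k ih =>
      intro hk
      have hQk := ih (by omega)
      have hjn : n - (k + 1) < n := by omega
      set i : Fin n := ⟨n - (k + 1), hjn⟩ with hi
      have hmeet : ¬ Disjoint Q (Zero (fun v : EuclideanSpace ℂ (Fin n) => v i)) := by
        intro hdis
        refine hna (attracting_of_miss s (μ := 1) le_rfl
          ((EuclideanSpace.proj (𝕜 := ℂ) i).analyticOnNhd univ) ?_ hQ hdis)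
        intro c x
        simp
      obtain ⟨q, hq, hqz⟩ := not_disjoint_iff.1 hmeet
      have hqz' : q.rep i = 0 := hqz
      have hqP : q ∈ PW n (n - (k + 1)) := by
        intro l hl
        rcases Nat.lt_or_ge (n - (k + 1)) l with h1 | h1
        · exact hQk hq l (by omega)
        · have h2 : l = i := Fin.ext (by simp only [hi]; omega)
          rw [h2]
          exact hqz'
      obtain ⟨U, hU, hPU, -, hUA⟩ := hTS (k + 1) hk univ isOpen_univ (subset_univ _)
      exact (subset_attr_of_meet s.continuous_map hQ hU ⟨q, hq, hPU hqP⟩).trans hUA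
  have hQ2 : Q ⊆ PW n 2 := by
    have h1 := hsub (n - 2) le_rfl
    have h2 : n - (n - 2) = 2 := by omega
    rwa [h2] at h1
  have hT2 : TS s 2 := by
    have h1 := hTS (n - 2) le_rfl
    have h2 : n - (n - 2) = 2 := by omega
    rwa [h2] at h1
  obtain ⟨U, hU, hPU, -, hUA⟩ := hT2 univ isOpen_univ (subset_univ _)
  have hQA := subset_attr s.continuous_map hQ hU (hQ2.trans hPU)
  refine hna (mainThin s hQ ⟨U, hU, rfl⟩ hQA ?_)
  intro Λ _ hΛn _ hΛs
  obtain ⟨p, hp⟩ := hΛn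
  refine ⟨p, hp, Or.inl ?_⟩
  set i0 : Fin n := ⟨0, by omega⟩ with hi0
  set i1 : Fin n := ⟨1, by omega⟩ with hi1
  refine thinPt_of_line (W := {x : EuclideanSpace ℂ (Fin n) | ∀ i : Fin n, 2 ≤ (i : ℕ) → x i = 0})
    (EuclideanSpace.proj (𝕜 := ℂ) i0) (EuclideanSpace.proj (𝕜 := ℂ) i1) ?_ ?_ ?_ (hΛs hp).1
  · intro x hx y hy c l hl
    simp [hx l hl, hy l hl]
  · intro x hx h0 h1
    have h0' : x i0 = 0 := h0
    have h1' : x i1 = 0 := h1
    ext l
    rcases Nat.lt_or_ge (l : ℕ) 2 with h2 | h2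
    · rcases Nat.lt_or_ge (l : ℕ) 1 with h3 | h3
      · have h4 : l = i0 := Fin.ext (by simp only [hi0]; omega)
        rw [h4, h0']
        rfl
      · have h4 : l = i1 := Fin.ext (by simp only [hi1]; omega)
        rw [h4, h1']
        rfl
    · rw [hx l h2]
      rfl
  · rintro x ⟨hx, hxA⟩
    exact (mk_mem_PW hx).1 (hUA hxA)

end flag

end MFE
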