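import Pool.Agent.Lib.MFE.Props

/-!
# Row R2b: the pointwise identity
-/

set_option autoImplicit false

open Set Metric Filter Topology

namespace MFE

namespace IdentAux

/-- `u` is real differentiable at `q` and its four Wirtinger derivatives are `a`, `b`, `c`, `d` -/
structure W4 (u : ℂ × ℂ → ℂ) (q : ℂ × ℂ) (a b c d : ℂ) : Prop where
  diff : DifferentiableAt ℝ u q
  z : wz u q = a
  zb : wzb u q = b
  t : wt u q = c
  tb : wtb u q = d

variable {u v : ℂ × ℂ → ℂ} {q : ℂ × ℂ} {a b c d a' b' c' d' : ℂ}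

lemma W4.mul (hu : W4 u q a b c d) (hv : W4 v q a' b' c' d') :
    W4 (fun p => u p * v p) q (a * v q + u q * a') (b * v q + u q * b') (c * v q + u q * c')
      (d * v q + u q * d') where
  diff := hu.diff.mul hv.diff
  z := by
    rw [← hu.z, ← hv.z]
    unfold wz
    rw [fderiv_fun_mul hu.diff hv.diff]
    simp
    ring
  zb := by
    rw [← hu.zb, ← hv.zb]
    unfold wzb
    rw [fderiv_fun_mul hu.diff hv.diff]
    simp
    ring
  t := by
    rw [← hu.t, ← hv.t]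
    unfold wt
    rw [fderiv_fun_mul hu.diff hv.diff]
    simp
    ring
  tb := by
    rw [← hu.tb, ← hv.tb]
    unfold wtb
    rw [fderiv_fun_mul hu.diff hv.diff]
    simp
    ring

lemma W4.congr (hu : W4 u q a b c d) (h : ∀ p, v p = u p) : W4 v q a b c d := by
  have : v = u := funext h
  rw [this]
  exact hu

lemma fderiv_ofReal {r : ℂ × ℂ → ℝ} (hr : DifferentiableAt ℝ r q) (p : ℂ × ℂ) :
    fderiv ℝ (fun p => ((r p : ℝ) : ℂ)) q p = ((fderiv ℝ r q p : ℝ) : ℂ) := by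
  have h := (Complex.ofRealCLM.hasFDerivAt (x := r q)).comp q hr.hasFDerivAt
  have h2 : (fun p => ((r p : ℝ) : ℂ)) = (Complex.ofRealCLM ∘ r) := rfl
  rw [h2, h.fderiv]
  rfl

lemma diff_of_ofReal {r : ℂ × ℂ → ℝ} (hr : DifferentiableAt ℝ (fun p => ((r p : ℝ) : ℂ)) q) :
    DifferentiableAt ℝ r q := by
  have h := (Complex.reCLM.differentiableAt (x := ((r q : ℝ) : ℂ))).comp q hr
  exact h

lemma W4.real_comp {r : ℂ × ℂ → ℝ} {f : ℝ → ℝ} {f' : ℝ} (hf : HasDerivAt f f' (r q))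
    (hr : W4 (fun p => ((r p : ℝ) : ℂ)) q a b c d) :
    W4 (fun p => ((f (r p) : ℝ) : ℂ)) q (f' * a) (f' * b) (f' * c) (f' * d) := by
  have hd : DifferentiableAt ℝ r q := diff_of_ofReal hr.diff
  have h1 : HasFDerivAt (fun p => f (r p)) (f' • fderiv ℝ r q) q := hf.comp_hasFDerivAt q hd.hasFDerivAt
  have h2 : ∀ p, fderiv ℝ (fun p => ((f (r p) : ℝ) : ℂ)) q p = (f' : ℂ) * ((fderiv ℝ r q p : ℝ) : ℂ) := by
    intro p
    rw [fderiv_ofReal h1.differentiableAt, h1.fderiv]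
    simp
  refine ⟨?_, ?_, ?_, ?_, ?_⟩
  · exact (Complex.ofRealCLM.differentiableAt).comp q h1.differentiableAt
  · rw [← hr.z]; unfold wz; simp only [h2, fderiv_ofReal hd]; ring
  · rw [← hr.zb]; unfold wzb; simp only [h2, fderiv_ofReal hd]; ring
  · rw [← hr.t]; unfold wt; simp only [h2, fderiv_ofReal hd]; ring
  · rw [← hr.tb]; unfold wtb; simp only [h2, fderiv_ofReal hd]; ring

section inner

variable {E : Type*} [NormedAddCommGroup E] [InnerProductSpace ℂ E]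

lemma fderiv_real_apply {f : ℂ × ℂ → E} (hf : DifferentiableAt ℂ f q) (p : ℂ × ℂ) :
    fderiv ℝ f q p = fderiv ℂ f q p := by
  have h := hf.hasFDerivAt.restrictScalars ℝ
  rw [h.fderiv]
  rfl

lemma w4_inner {f g : ℂ × ℂ → E} (hf : DifferentiableAt ℂ f q) (hg : DifferentiableAt ℂ g q) :
    W4 (fun p => inner ℂ (f p) (g p)) q (inner ℂ (f q) (dz g q)) (inner ℂ (dz f q) (g q))
      (inner ℂ (f q) (dt g q)) (inner ℂ (dt f q) (g q)) := by
  have hfr : DifferentiableAt ℝ f q := hf.restrictScalars ℝ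
  have hgr : DifferentiableAt ℝ g q := hg.restrictScalars ℝ
  have h1 : ∀ p, fderiv ℝ (fun p => inner ℂ (f p) (g p)) q p =
      inner ℂ (f q) (fderiv ℂ g q p) + inner ℂ (fderiv ℂ f q p) (g q) := by
    intro p
    rw [fderiv_inner_apply ℂ hfr hgr, fderiv_real_apply hf, fderiv_real_apply hg]
  have hI : ∀ (h : ℂ × ℂ → E), fderiv ℂ h q (Complex.I, 0) = Complex.I • fderiv ℂ h q (1, 0) := by
    intro h
    rw [← map_smul]
    simp
  have hI2 : ∀ (h : ℂ × ℂ → E), fderiv ℂ h q (0, Complex.I) = Complex.I • fderiv ℂ h q (0, 1) := by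
    intro h
    rw [← map_smul]
    simp
  have hII : Complex.I * Complex.I = -1 := Complex.I_mul_I
  refine ⟨hfr.inner ℂ hgr, ?_, ?_, ?_, ?_⟩
  · unfold wz dz
    rw [h1, h1, hI, hI, inner_smul_left, inner_smul_right, Complex.conj_I]
    linear_combination (-(1/2) * inner ℂ (f q) ((fderiv ℂ g q) (1, 0)) +
      (1/2) * inner ℂ ((fderiv ℂ f q) (1, 0)) (g q)) * hII
  · unfold wzb dz
    rw [h1, h1, hI, hI, inner_smul_left, inner_smul_right, Complex.conj_I]
    linear_combination ((1/2) * inner ℂ (f q) ((fderiv ℂ g q) (1, 0)) -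
      (1/2) * inner ℂ ((fderiv ℂ f q) (1, 0)) (g q)) * hII
  · unfold wt dt
    rw [h1, h1, hI2, hI2, inner_smul_left, inner_smul_right, Complex.conj_I]
    linear_combination (-(1/2) * inner ℂ (f q) ((fderiv ℂ g q) (0, 1)) +
      (1/2) * inner ℂ ((fderiv ℂ f q) (0, 1)) (g q)) * hII
  · unfold wtb dt
    rw [h1, h1, hI2, hI2, inner_smul_left, inner_smul_right, Complex.conj_I]
    linear_combination ((1/2) * inner ℂ (f q) ((fderiv ℂ g q) (0, 1)) -
      (1/2) * inner ℂ ((fderiv ℂ f q) (0, 1)) (g q)) * hII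

lemma w4_normSq {f : ℂ × ℂ → E} (hf : DifferentiableAt ℂ f q) :
    W4 (fun p => ((‖f p‖ ^ 2 : ℝ) : ℂ)) q (inner ℂ (f q) (dz f q)) (inner ℂ (dz f q) (f q))
      (inner ℂ (f q) (dt f q)) (inner ℂ (dt f q) (f q)) := by
  refine (w4_inner hf hf).congr (fun p => ?_)
  rw [inner_self_eq_norm_sq_to_K]
  norm_cast

end inner

lemma hasDerivAt_max_pow (n : ℕ) (y : ℝ) :
    HasDerivAt (fun y : ℝ => (max y 0) ^ (n + 2)) ((n + 2 : ℝ) * (max y 0) ^ (n + 1)) y := by
  rcases lt_trichotomy y 0 with h | h | h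
  · have h1 : (fun y : ℝ => (max y 0) ^ (n + 2)) =ᶠ[𝓝 y] fun _ => 0 := by
      filter_upwards [gt_mem_nhds h] with z hz
      rw [max_eq_right hz.le]
      simp
    rw [max_eq_right h.le]
    simpa using (hasDerivAt_const y (0 : ℝ)).congr_of_eventuallyEq h1
  · subst h
    have h1 : HasDerivAt (fun y : ℝ => y ^ (n + 2)) 0 0 := by
      have := hasDerivAt_pow (n + 2) (0 : ℝ)
      simpa using this
    have h2 : (fun y : ℝ => (max y 0) ^ (n + 2)) =O[𝓝 0] (fun y : ℝ => y ^ (n + 2)) := by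
      refine Asymptotics.IsBigO.of_bound 1 (Filter.Eventually.of_forall (fun y => ?_))
      rw [one_mul, norm_pow, norm_pow]
      refine pow_le_pow_left₀ (norm_nonneg _) ?_ _
      rw [Real.norm_eq_abs, Real.norm_eq_abs, abs_of_nonneg (le_max_right _ _)]
      exact max_le (le_abs_self _) (abs_nonneg _)
    have h3 : HasDerivAt (fun y : ℝ => (max y 0) ^ (n + 2)) 0 0 := by
      rw [hasDerivAt_iff_isLittleO] at h1 ⊢
      simp at h1 ⊢
      exact h2.trans_isLittleO h1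
    simpa using h3
  · have h1 : (fun y : ℝ => (max y 0) ^ (n + 2)) =ᶠ[𝓝 y] fun y => y ^ (n + 2) := by
      filter_upwards [lt_mem_nhds h] with z hz
      rw [max_eq_left hz.le]
    rw [max_eq_left h.le]
    have := (hasDerivAt_pow (n + 2) y).congr_of_eventuallyEq h1
    simpa using this

lemma hasDerivAt_K0 (x : ℝ) : HasDerivAt K0 (K1 x) x := by
  have h1 : HasDerivAt (fun x : ℝ => 1 - x) (-1) x := by
    simpa using (hasDerivAt_id x).const_sub 1
  have h := (hasDerivAt_max_pow 1 (1 - x)).comp x h1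
  have h2 : K0 = (fun y : ℝ => (max y 0) ^ (1 + 2)) ∘ (fun x : ℝ => 1 - x) := by
    funext x
    simp [K0]
  rw [h2]
  refine h.congr_deriv ?_
  unfold K1
  norm_num

lemma hasDerivAt_K1 (x : ℝ) : HasDerivAt K1 (K2 x) x := by
  have h1 : HasDerivAt (fun x : ℝ => 1 - x) (-1) x := by
    simpa using (hasDerivAt_id x).const_sub 1
  have h := ((hasDerivAt_max_pow 0 (1 - x)).comp x h1).const_mul (-3)
  have h2 : K1 = fun x => -3 * ((fun y : ℝ => (max y 0) ^ (0 + 2)) ∘ (fun x : ℝ => 1 - x)) x := by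
    funext x
    simp [K1]
  rw [h2]
  refine h.congr_deriv ?_
  unfold K2
  norm_num
  ring

lemma w4_T (c0 : ℂ) : W4 (fun p : ℂ × ℂ => p.2 - c0) q 0 0 1 0 := by
  have hd : HasFDerivAt (fun p : ℂ × ℂ => p.2 - c0) (ContinuousLinearMap.snd ℝ ℂ ℂ) q :=
    (ContinuousLinearMap.snd ℝ ℂ ℂ).hasFDerivAt.sub_const c0
  refine ⟨hd.differentiableAt, ?_, ?_, ?_, ?_⟩
  · unfold wz; rw [hd.fderiv]; simp
  · unfold wzb; rw [hd.fderiv]; simp
  · unfold wt; rw [hd.fderiv]; simp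
  · unfold wtb; rw [hd.fderiv]; simp

lemma w4_x (c0 : ℂ) : W4 (fun p : ℂ × ℂ => ((‖p.2 - c0‖ ^ 2 : ℝ) : ℂ)) q 0 0
    ((starRingEnd ℂ) (q.2 - c0)) (q.2 - c0) := by
  have hd : HasFDerivAt (fun p : ℂ × ℂ => p.2 - c0) (ContinuousLinearMap.snd ℂ ℂ ℂ) q :=
    (ContinuousLinearMap.snd ℂ ℂ ℂ).hasFDerivAt.sub_const c0
  have h := w4_normSq (E := ℂ) hd.differentiableAt
  have h1 : dz (fun p : ℂ × ℂ => p.2 - c0) q = 0 := by
    unfold dz; rw [hd.fderiv]; simp
  have h2 : dt (fun p : ℂ × ℂ => p.2 - c0) q = 1 := by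
    unfold dt; rw [hd.fderiv]; simp
  rw [h1, h2] at h
  simpa using h

end IdentAux

open IdentAux in
theorem ident (E : Type*) [NormedAddCommGroup E] [InnerProductSpace ℂ E] [FiniteDimensional ℂ E] :
    IdentStmt E := by
  intro Ω w l l1 l2 c hΩ hw hl hl1 q hq
  have : CompleteSpace E := FiniteDimensional.complete ℂ E
  have hwq : DifferentiableAt ℂ w q := (hw q hq).differentiableAt
  have hf : AnalyticOnNhd ℂ (fderiv ℂ w) Ω := hw.fderiv
  have hfq : DifferentiableAt ℂ (fderiv ℂ w) q := (hf q hq).differentiableAt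
  have hz : DifferentiableAt ℂ (dz w) q := hfq.clm_apply (differentiableAt_const _)
  have ht : DifferentiableAt ℂ (dt w) q := hfq.clm_apply (differentiableAt_const _)
  have hz2 : dt (dz w) q = fderiv ℂ (fderiv ℂ w) q (0, 1) (1, 0) := by
    unfold dt dz
    rw [fderiv_clm_apply hfq (differentiableAt_const _)]
    simp
  have ht2 : dz (dt w) q = fderiv ℂ (fderiv ℂ w) q (1, 0) (0, 1) := by
    unfold dt dz
    rw [fderiv_clm_apply hfq (differentiableAt_const _)]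
    simp
  have hsymm : dz (dt w) q = dt (dz w) q := by
    rw [hz2, ht2]
    exact (hw q hq).contDiffAt.isSymmSndFDerivAt (n := ⊤) (by simp) _ _
  have X := w4_x (q := q) c
  have T := w4_T (q := q) c
  have G := w4_normSq hwq
  have A := w4_normSq hz
  have B := w4_normSq ht
  have L := X.real_comp (hl _)
  have L1 := X.real_comp (hl1 _)
  have k0 := G.real_comp (hasDerivAt_K0 _)
  have k1 := G.real_comp (hasDerivAt_K1 _)
  have V1 := (((L1.mul k0).mul A).mul T).congr (v := v1 w l1 c) (fun p => by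
    unfold v1; push_cast; ring)
  have V2 := (((L.mul k1).mul A).mul (w4_inner hwq ht)).congr (v := v2 w l c) (fun p => by
    unfold v2; push_cast; ring)
  have V3 := (((L1.mul k0).mul T).mul (w4_inner hz ht)).congr (v := v3 w l1 c) (fun p => by
    unfold v3; push_cast; ring)
  have V4 := (((L.mul k1).mul (w4_inner hwq hz)).mul (w4_inner hz ht)).congr (v := v4 w l c) (fun p => by
    unfold v4; push_cast; ring)
  have V5 := (((L.mul k1).mul (w4_inner hwq ht)).mul (w4_inner ht hz)).congr (v := v5 w l c) (fun p => by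
    unfold v5; push_cast; ring)
  have V6 := (((L.mul k1).mul B).mul (w4_inner hwq hz)).congr (v := v6 w l c) (fun p => by
    unfold v6; push_cast; ring)
  rw [V1.t, V2.tb, V3.z, V4.tb, V5.zb, V6.zb, hsymm]
  have eA : inner ℂ (dz w q) (dz w q) = ((‖dz w q‖ ^ 2 : ℝ) : ℂ) := by
    rw [inner_self_eq_norm_sq_to_K]; norm_cast
  have eB : inner ℂ (dt w q) (dt w q) = ((‖dt w q‖ ^ 2 : ℝ) : ℂ) := by
    rw [inner_self_eq_norm_sq_to_K]; norm_cast
  have eX : ((‖q.2 - c‖ ^ 2 : ℝ) : ℂ) = (starRingEnd ℂ) (q.2 - c) * (q.2 - c) := by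
    rw [← Complex.normSq_eq_conj_mul_self, Complex.normSq_eq_norm_sq]
  have eG : ((‖inner ℂ (dz w q) (dt w q)‖ ^ 2 : ℝ) : ℂ) = inner ℂ (dt w q) (dz w q) * inner ℂ (dz w q) (dt w q) := by
    rw [← Complex.normSq_eq_norm_sq, Complex.normSq_eq_conj_mul_self, inner_conj_symm]
  have eN : ((‖inner ℂ (w q) (dt w q) • dz w q - inner ℂ (w q) (dz w q) • dt w q‖ ^ 2 : ℝ) : ℂ) =
      inner ℂ (dt w q) (w q) * inner ℂ (w q) (dt w q) * ((‖dz w q‖ ^ 2 : ℝ) : ℂ) -
      inner ℂ (dt w q) (w q) * inner ℂ (w q) (dz w q) * inner ℂ (dz w q) (dt w q) -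
      inner ℂ (dz w q) (w q) * inner ℂ (w q) (dt w q) * inner ℂ (dt w q) (dz w q) +
      inner ℂ (dz w q) (w q) * inner ℂ (w q) (dz w q) * ((‖dt w q‖ ^ 2 : ℝ) : ℂ) := by
    have h0 : ∀ v : E, ((‖v‖ ^ 2 : ℝ) : ℂ) = inner ℂ v v := by
      intro v
      rw [inner_self_eq_norm_sq_to_K]; norm_cast
    rw [h0 (_ - _), inner_sub_left, inner_sub_right, inner_sub_right, inner_smul_left, inner_smul_left,
      inner_smul_left, inner_smul_left, inner_smul_right, inner_smul_right, inner_smul_right, inner_smul_right,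
      inner_conj_symm, inner_conj_symm, eA, eB]
    ring
  rw [eA, eB]
  simp only [G2]
  push_cast at eX eG eN ⊢
  linear_combination (-(l2 (‖q.2 - c‖ ^ 2) : ℂ) * (K0 (‖w q‖ ^ 2) : ℂ) * (‖dz w q‖ : ℂ) ^ 2) * eX +
    ((l (‖q.2 - c‖ ^ 2) : ℂ) * (K2 (‖w q‖ ^ 2) : ℂ)) * eN -
    (2 * (l (‖q.2 - c‖ ^ 2) : ℂ) * (K1 (‖w q‖ ^ 2) : ℂ)) * eG

end MFE
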