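import Pool.Agent.Lib.MFE.HDefs

/-!
# Lemma B from the Hartogs property (after helper10)
-/

set_option autoImplicit false

open Set Metric Filter Topology

namespace MFE

theorem lemmaBH {E : Type*} [NormedAddCommGroup E] [InnerProductSpace ℂ E]
    [FiniteDimensional ℂ E] {U0 B N : Set E} {r0 : ℝ} (h : Har U0 B) (hop : IsOpen B)
    (hcn : IsCone B) (hN : Thick U0 B N r0) (ψ : ℂ → E) (a : ℂ) (hψ : AnalyticOnNhd ℂ ψ (ball 0 1))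
    (hψN : ∀ z ∈ ball (0 : ℂ) 1, ψ z ∈ N) (ha : a ∈ ball (0 : ℂ) 1)
    (hlt : infDist (ψ a) Bᶜ < r0 * ‖ψ a‖) : LS (fun z => (infDist (ψ z) Bᶜ)⁻¹) a := by
  have hprop : ProperSpace E := FiniteDimensional.proper ℂ E
  -- the distance to the complement of the basin
  have hcl : IsClosed Bᶜ := hop.isClosed_compl
  have hne : (Bᶜ).Nonempty := ⟨0, hcn.1⟩
  have hpos : ∀ x ∈ B, 0 < infDist x Bᶜ := fun x hx =>
    (hcl.notMem_iff_infDist_pos hne).1 fun h => h hx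
  have hball : ∀ x y : E, ‖y - x‖ < infDist x Bᶜ → y ∈ B := by
    intro x y hxy
    by_contra hy
    have h1 := infDist_le_dist_of_mem (x := x) (show y ∈ Bᶜ from hy)
    rw [dist_comm, dist_eq_norm] at h1
    exact absurd hxy (not_lt.2 h1)
  have hρc : Continuous fun x : E => infDist x Bᶜ := continuous_infDist_pt _
  have hψc : ContinuousOn ψ (ball 0 1) := hψ.continuousOn
  have hψa : ContinuousAt ψ a := hψc.continuousAt (isOpen_ball.mem_nhds ha)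
  have hψB : ∀ z ∈ ball (0 : ℂ) 1, ψ z ∈ B := fun z hz => hN.sub (hψN z hz)
  set ρ0 : ℝ := infDist (ψ a) Bᶜ with hρ0
  have hρ0p : 0 < ρ0 := hpos _ (hψB a ha)
  -- the constant `η`
  obtain ⟨η, hη0, hη⟩ : ∃ η : ℝ, 0 < η ∧ (1 + η) ^ 2 * ρ0 < r0 * ‖ψ a‖ := by
    have h1 : ContinuousAt (fun η : ℝ => (1 + η) ^ 2 * ρ0) 0 := by fun_prop
    have h2 : ∀ᶠ η : ℝ in 𝓝 0, (1 + η) ^ 2 * ρ0 < r0 * ‖ψ a‖ := by
      apply h1.eventually (gt_mem_nhds _)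
      simpa using hlt
    obtain ⟨δ, hδ, hδs⟩ := Metric.eventually_nhds_iff.1 h2
    refine ⟨δ / 2, half_pos hδ, hδs ?_⟩
    rw [Real.dist_eq, sub_zero, abs_of_pos (half_pos hδ)]
    exact half_lt_self hδ
  -- the radius
  have hev : ∀ᶠ z in 𝓝 a, z ∈ ball (0 : ℂ) 1 ∧ (1 + η) ^ 2 * ρ0 < r0 * ‖ψ z‖ ∧
      infDist (ψ z) Bᶜ < (1 + η) * ρ0 := by
    have h0 : ∀ᶠ z in 𝓝 a, z ∈ ball (0 : ℂ) 1 := isOpen_ball.mem_nhds ha
    refine h0.and (Eventually.and ?_ ?_)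
    · exact (continuousAt_const.mul hψa.norm).eventually (lt_mem_nhds hη)
    · refine (hρc.continuousAt.comp hψa).eventually (gt_mem_nhds ?_)
      change ρ0 < (1 + η) * ρ0
      nlinarith
  obtain ⟨R0, hR0, hR0s⟩ := Metric.eventually_nhds_iff.1 hev
  refine ⟨R0, hR0, fun R hR hRR0 k R' hRR' hk hk0 hkW => ?_⟩
  by_contra hcon
  rw [not_lt] at hcon
  have hin : ∀ z ∈ closedBall a R, z ∈ ball (0 : ℂ) 1 ∧ (1 + η) ^ 2 * ρ0 < r0 * ‖ψ z‖ ∧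
      infDist (ψ z) Bᶜ < (1 + η) * ρ0 := fun z hz =>
    hR0s (lt_of_le_of_lt (mem_closedBall.1 hz) hRR0)
  have hk' : ∀ z ∈ closedBall a R, z ∈ ball a R' := fun z hz =>
    lt_of_le_of_lt (mem_closedBall.1 hz) hRR'
  have hkne : ∀ z ∈ closedBall a R, k z ≠ 0 := fun z hz => hk0 z (hk' z hz)
  have hsph : ∀ z ∈ sphere a R, z ∈ closedBall a R := fun z hz => sphere_subset_closedBall hz
  -- `‖k a‖ ρ0 ≤ 1`
  have hka : ‖k a‖ * ρ0 ≤ 1 := by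
    have h1 : ‖k a‖ ≤ ρ0⁻¹ := hcon
    calc ‖k a‖ * ρ0 ≤ ρ0⁻¹ * ρ0 := mul_le_mul_of_nonneg_right h1 hρ0p.le
      _ = 1 := inv_mul_cancel₀ hρ0p.ne'
  -- on the circle
  have hcirc : ∀ z ∈ sphere a R, 1 < infDist (ψ z) Bᶜ * ‖k z‖ := by
    intro z hz
    have h1 := hkW z hz
    have h2 := hpos _ (hψB z (hin z (hsph z hz)).1)
    change (infDist (ψ z) Bᶜ)⁻¹ < ‖k z‖ at h1
    calc (1 : ℝ) = infDist (ψ z) Bᶜ * (infDist (ψ z) Bᶜ)⁻¹ := (mul_inv_cancel₀ h2.ne').symm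
      _ < infDist (ψ z) Bᶜ * ‖k z‖ := mul_lt_mul_of_pos_left h1 h2
  have hkc : ContinuousOn k (closedBall a R) := hk.continuousOn.mono fun z hz => hk' z hz
  have hfc : ContinuousOn (fun z => infDist (ψ z) Bᶜ * ‖k z‖) (sphere a R) := by
    refine ContinuousOn.mul (hρc.comp_continuousOn (hψc.mono fun z hz => (hin z (hsph z hz)).1)) ?_
    exact (hkc.mono fun z hz => hsph z hz).norm
  have hsne : (sphere a R).Nonempty := NormedSpace.sphere_nonempty.2 hR.le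
  obtain ⟨z1, hz1, hz1m⟩ := (isCompact_sphere a R).exists_isMinOn hsne hfc
  set m : ℝ := infDist (ψ z1) Bᶜ * ‖k z1‖ with hm
  have hm1 : 1 < m := hcirc z1 hz1
  have hmle : ∀ z ∈ sphere a R, m ≤ infDist (ψ z) Bᶜ * ‖k z‖ := fun z hz => hz1m hz
  obtain ⟨ρ1, hρ1, hρ1m⟩ := exists_between (lt_min hm1 (show (1 : ℝ) < 1 + η by linarith))
  have hρ1m' : ρ1 < m := hρ1m.trans_le (min_le_left _ _)
  have hρ1η : ρ1 < 1 + η := hρ1m.trans_le (min_le_right _ _)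
  -- the maximum principle for `1 / k`
  have hmax : ∀ z ∈ closedBall a R, ‖(k z)⁻¹‖ ≤ (1 + η) * ρ0 := by
    intro z hz
    have hd : DiffContOnCl ℂ (fun z => (k z)⁻¹) (ball a R) := by
      apply DifferentiableOn.diffContOnCl
      rw [closure_ball a hR.ne']
      exact (hk.mono fun z hz => hk' z hz).inv hkne
    refine Complex.norm_le_of_forall_mem_frontier_norm_le isBounded_ball hd (fun w hw => ?_)
      (z := z) (by rw [closure_ball a hR.ne']; exact hz)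
    rw [frontier_ball a hR.ne'] at hw
    have h1 := hkW w hw
    have h2 := hpos _ (hψB w (hin w (hsph w hw)).1)
    change (infDist (ψ w) Bᶜ)⁻¹ < ‖k w‖ at h1
    rw [norm_inv]
    have h3 : ‖k w‖⁻¹ ≤ infDist (ψ w) Bᶜ := by
      rw [inv_le_comm₀ (lt_trans (inv_pos.2 h2) h1) h2]
      exact h1.le
    exact h3.trans (hin w (hsph w hw)).2.2.le
  -- the point of the complement
  obtain ⟨z0, hz0, hz0d⟩ := hcl.exists_infDist_eq_dist hne (ψ a)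
  have hz0n : ‖z0 - ψ a‖ = ρ0 := by
    rw [hρ0, hz0d, dist_comm, dist_eq_norm]
  -- the map
  set H : ℂ × ℂ → E := fun q => ψ q.1 + (q.2 * (k a * (k q.1)⁻¹)) • (z0 - ψ a) with hH
  have hHn : ∀ q : ℂ × ℂ, ‖H q - ψ q.1‖ = ‖q.2‖ * (‖k a‖ * ρ0) * ‖(k q.1)⁻¹‖ := by
    intro q
    rw [hH]
    simp only [add_sub_cancel_left]
    rw [norm_smul, norm_mul, norm_mul, hz0n]
    ring
  have hHle : ∀ q : ℂ × ℂ, q.2 ∈ closedBall (0 : ℂ) ρ1 →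
      ‖H q - ψ q.1‖ ≤ ρ1 * ‖(k q.1)⁻¹‖ := by
    intro q hq
    rw [hHn]
    have h1 : ‖q.2‖ ≤ ρ1 := by simpa using hq
    have h2 : ‖q.2‖ * (‖k a‖ * ρ0) ≤ ρ1 * 1 :=
      mul_le_mul h1 hka (by positivity) (by linarith)
    rw [mul_one] at h2
    exact mul_le_mul_of_nonneg_right h2 (norm_nonneg _)
  have hnear : ∀ q ∈ closedBall a R ×ˢ closedBall (0 : ℂ) ρ1,
      ‖H q - ψ q.1‖ < r0 * ‖ψ q.1‖ := by
    rintro ⟨ζ, t⟩ ⟨hζ, ht⟩
    have h1 := hHle (ζ, t) ht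
    have h2 := hmax ζ hζ
    have h3 : ρ1 * ‖(k ζ)⁻¹‖ ≤ (1 + η) * ((1 + η) * ρ0) :=
      mul_le_mul hρ1η.le h2 (norm_nonneg _) (by linarith)
    have h4 := (hin ζ hζ).2.1
    calc ‖H (ζ, t) - ψ ζ‖ ≤ ρ1 * ‖(k ζ)⁻¹‖ := h1
      _ ≤ (1 + η) ^ 2 * ρ0 := by rw [pow_two, mul_assoc]; exact h3
      _ < r0 * ‖ψ ζ‖ := h4
  have key := h H a R ρ1 hR hρ1 ?_ ?_ ?_ ?_ (a, 1)
    ⟨mem_closedBall_self hR.le, by simp⟩
  · apply hz0
    have h1 : H (a, 1) = z0 := by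
      rw [hH]
      simp only [one_mul]
      rw [mul_inv_cancel₀ (hkne a (mem_closedBall_self hR.le)), one_smul]
      abel
    rwa [h1] at key
  · -- analyticity
    rintro ⟨ζ, t⟩ ⟨hζ, ht⟩
    have h1 : AnalyticAt ℂ ψ ζ := hψ ζ (hin ζ hζ).1
    have h2 : AnalyticAt ℂ k ζ := hk.analyticAt (isOpen_ball.mem_nhds (hk' ζ hζ))
    have h3 : AnalyticAt ℂ (fun q : ℂ × ℂ => ψ q.1) (ζ, t) :=
      AnalyticAt.comp (f := fun q : ℂ × ℂ => q.1) h1 analyticAt_fst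
    have h4 : AnalyticAt ℂ (fun q : ℂ × ℂ => (k q.1)⁻¹) (ζ, t) := by
      have h5 : AnalyticAt ℂ (fun z => (k z)⁻¹) ζ := h2.inv (hkne ζ hζ)
      exact AnalyticAt.comp (g := fun z => (k z)⁻¹) (f := fun q : ℂ × ℂ => q.1) (x := (ζ, t)) h5
        analyticAt_fst
    exact h3.add ((analyticAt_snd.mul (analyticAt_const.mul h4)).smul analyticAt_const)
  · rintro ⟨ζ, t⟩ ⟨hζ, ht⟩
    have h1 := hnear (ζ, t) ⟨hζ, ht⟩
    refine ⟨hN.thick (ψ ζ) (hψN ζ (hin ζ hζ).1) _ h1, fun h0 => ?_⟩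
    rw [h0, zero_sub, norm_neg] at h1
    have h2 : 0 ≤ ‖ψ ζ‖ := norm_nonneg _
    have h3 := hN.lt
    change ‖ψ ζ‖ < r0 * ‖ψ ζ‖ at h1
    nlinarith
  · rintro ⟨ζ, t⟩ ⟨hζ, ht⟩
    refine hball (ψ ζ) _ ((hHle (ζ, t) ht).trans_lt ?_)
    have h1 := hmle ζ hζ
    have h2 : 0 < ‖k ζ‖ := norm_pos_iff.2 (hkne ζ (hsph ζ hζ))
    change ρ1 * ‖(k ζ)⁻¹‖ < _
    rw [norm_inv, ← div_eq_mul_inv, div_lt_iff₀ h2]
    exact hρ1m'.trans_le h1
  · intro z hz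
    have h1 : H (z, 0) = ψ z := by
      rw [hH]
      simp
    rw [h1]
    exact hψB z (hin z hz).1

end MFE
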