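import Pool.Agent.Lib.MFE.Props
import Pool.Agent.Lib.MFE.Proj

/-!
# Row R12: rigidity on projective space
-/

set_option autoImplicit false

open Set Metric Filter Topology
open scoped LinearAlgebra.Projectivization

namespace MFE

variable {E : Type*} [NormedAddCommGroup E] [InnerProductSpace ℂ E]

/-- the function `r` -/
noncomputable def rfun (B : Set (ℙ ℂ E)) (p : ℙ ℂ E) : ℝ := infDist p.rep (coneOf B)ᶜ / ‖p.rep‖

theorem rfun_mk (B : Set (ℙ ℂ E)) {y : E} (hy : y ≠ 0) :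
    rfun B (Projectivization.mk ℂ y hy) = infDist y (coneOf B)ᶜ / ‖y‖ := by
  unfold rfun
  obtain ⟨a, ha⟩ := Projectivization.exists_smul_eq_mk_rep ℂ y hy
  have ha' : (a : ℂ) • y = (Projectivization.mk ℂ y hy).rep := ha
  have h1 : ‖(a : ℂ)‖ ≠ 0 := norm_ne_zero_iff.2 a.ne_zero
  rw [← ha', infDist_smul (isCone_coneOf B), norm_smul, mul_div_mul_left _ _ h1]

/-- linear discs -/
theorem exists_disc (a x : ℙ ℂ E) {ε : ℝ} (hε : 0 < ε) (hε1 : ε ≤ 1)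
    (h : pdist x a < 1 / 20 * ε) : ∃ v u : E, ∃ hv : v ≠ 0, ‖v‖ = 1 ∧
      Projectivization.mk ℂ v hv = a ∧
      (∀ ζ : ℂ, ‖ζ‖ < 1 → ∃ h0 : v + ζ • u ≠ 0,
        pdist (Projectivization.mk ℂ (v + ζ • u) h0) a < ε) ∧
      ∃ h5 : v + (1 / 5 : ℂ) • u ≠ 0, Projectivization.mk ℂ (v + (1 / 5 : ℂ) • u) h5 = x := by
  obtain ⟨e, he, ⟨c', hc', hce⟩, hsd⟩ := sd_unit a.rep_nonzero
  have he0 : e ≠ 0 := by
    intro h0
    rw [h0, norm_zero] at he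
    exact zero_ne_one he
  have hea : Projectivization.mk ℂ e he0 = a := by
    conv_rhs => rw [← a.mk_rep]
    rw [Projectivization.mk_eq_mk_iff']
    exact ⟨c', hce.symm⟩
  have hy := x.rep_nonzero
  have hy' : 0 < ‖x.rep‖ := norm_pos_iff.2 hy
  have hs : sd x.rep e < 1 / 20 * ε := by
    rw [← hsd]
    exact h
  have hs0 := sd_nonneg x.rep e
  have h1 := norm_mul_sd hy he
  have h2 := norm_sub_proj_sq he x.rep
  set c := inner ℂ e x.rep with hc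
  have hcn : ‖x.rep‖ / 2 ≤ ‖c‖ := by
    rw [← h1] at h2
    have h3 : sd x.rep e ^ 2 ≤ 1 / 4 := by nlinarith
    have h4 : ‖c‖ ^ 2 = ‖x.rep‖ ^ 2 * (1 - sd x.rep e ^ 2) := by linarith
    have h5 : (‖x.rep‖ / 2) ^ 2 ≤ ‖c‖ ^ 2 := by
      rw [h4]
      nlinarith [sq_nonneg ‖x.rep‖]
    exact (pow_le_pow_iff_left₀ (by positivity) (norm_nonneg _) two_ne_zero).1 h5
  have hcpos : 0 < ‖c‖ := lt_of_lt_of_le (by positivity) hcn
  have hc0 : c ≠ 0 := norm_pos_iff.1 hcpos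
  have hu : ‖c⁻¹ • x.rep - e‖ ≤ ε / 10 := by
    have h3 : c⁻¹ • x.rep - e = c⁻¹ • (x.rep - c • e) := by
      rw [smul_sub, smul_smul, inv_mul_cancel₀ hc0, one_smul]
    rw [h3, norm_smul, norm_inv, ← h1, inv_mul_le_iff₀ hcpos]
    nlinarith
  refine ⟨e, (5 : ℂ) • (c⁻¹ • x.rep - e), he0, he, hea, ?_, ?_⟩
  · intro ζ hζ
    have h3 : ‖ζ • (5 : ℂ) • (c⁻¹ • x.rep - e)‖ < ε / 2 := by
      rw [norm_smul, norm_smul]
      have h5 : ‖(5 : ℂ)‖ = 5 := by simp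
      rw [h5]
      have h6 : 0 ≤ ‖c⁻¹ • x.rep - e‖ := norm_nonneg _
      have h7 : ‖ζ‖ * (5 * ‖c⁻¹ • x.rep - e‖) ≤ ‖ζ‖ * (ε / 2) :=
        mul_le_mul_of_nonneg_left (by linarith) (norm_nonneg _)
      have h8 : ‖ζ‖ * (ε / 2) < 1 * (ε / 2) := mul_lt_mul_of_pos_right hζ (by positivity)
      linarith
    set z := ζ • (5 : ℂ) • (c⁻¹ • x.rep - e) with hz
    have h4 : 1 / 2 < ‖e + z‖ := by
      have h5 := norm_sub_le (e + z) z
      rw [add_sub_cancel_right, he] at h5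
      linarith
    have h0 : e + z ≠ 0 := by
      intro h0
      rw [h0, norm_zero] at h4
      linarith
    refine ⟨h0, ?_⟩
    rw [← hea, pdist_mk h0 he0]
    have h5 := sd_le h0 he0 1
    rw [one_smul, add_sub_cancel_left] at h5
    have h6 := sd_nonneg (e + z) e
    nlinarith
  · have h3 : e + (1 / 5 : ℂ) • (5 : ℂ) • (c⁻¹ • x.rep - e) = c⁻¹ • x.rep := by
      rw [smul_smul]
      norm_num
    have h4 : c⁻¹ • x.rep ≠ 0 := smul_ne_zero (inv_ne_zero hc0) hy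
    refine ⟨by rw [h3]; exact h4, ?_⟩
    conv_rhs => rw [← x.mk_rep]
    rw [Projectivization.mk_eq_mk_iff']
    exact ⟨c⁻¹, h3.symm⟩

theorem analytic_disc (s : HMap E) (k : ℕ) (v u : E) :
    AnalyticOnNhd ℂ (fun ζ : ℂ => s.F^[k] (v + ζ • u)) univ := by
  have h1 : AnalyticOnNhd ℂ (fun ζ : ℂ => v + ζ • u) univ := fun z _ =>
    analyticAt_const.add (analyticAt_id.smul analyticAt_const)
  exact (s.iter_an k).comp h1 (mapsTo_univ _ _)

theorem rig_proj [FiniteDimensional ℂ E] (h : RigidStmt E) (s : HMap E) {U0 : Set E}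
    (hU : Contr s U0) {B N : Set (ℙ ℂ E)} (hB : Basin s (coneOf B)) {r0 μ0 : ℝ}
    (hN : Thick U0 (coneOf B) (coneOf N) r0) (hμ : 0 < μ0) (hμ0 : μ0 < r0) :
    Rig pdist s.map (fun p => infDist p.rep (coneOf B)ᶜ / ‖p.rep‖) N μ0 (1 / 20) := by
  intro c hc
  obtain ⟨τ, hτ, H⟩ := h s U0 (coneOf B) (coneOf N) r0 μ0 hU hB hN hμ hμ0 c hc
  refine ⟨τ, hτ, ?_⟩
  intro ε hε hε1 k a μ hμpos hμle hx hra x hxa
  obtain ⟨v, u, hv, -, hva, hd, h5, hxv⟩ := exists_disc a x hε hε1 hxa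
  have hr : ∀ p, infDist p.rep (coneOf B)ᶜ / ‖p.rep‖ = rfun B p := fun p => rfl
  have hball : ∀ z ∈ ball (0 : ℂ) 1, ∃ h0 : v + z • u ≠ 0,
      s.F^[k] (v + z • u) ∈ coneOf N ∧
        μ * ‖s.F^[k] (v + z • u)‖ ≤ τ * infDist (s.F^[k] (v + z • u)) (coneOf B)ᶜ := by
    intro z hz
    obtain ⟨h0, hlt⟩ := hd z (by simpa using hz)
    obtain ⟨h1, h2⟩ := hx _ hlt
    rw [s.iter_map_mk h0] at h1
    simp only [hr] at h2
    rw [s.iter_map_mk h0, rfun_mk] at h2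
    have hpos : 0 < ‖s.F^[k] (v + z • u)‖ := norm_pos_iff.2 (s.iter_ne h0 k)
    refine ⟨h0, ⟨_, h1⟩, ?_⟩
    rwa [← mul_div_assoc, le_div_iff₀ hpos] at h2
  have h0r : infDist (s.F^[k] (v + (0 : ℂ) • u)) (coneOf B)ᶜ ≤
      τ * μ * ‖s.F^[k] (v + (0 : ℂ) • u)‖ := by
    have hv0 : v + (0 : ℂ) • u = v := by simp
    rw [hv0]
    simp only [hr] at hra
    rw [← hva, s.iter_map_mk hv, rfun_mk] at hra
    have hpos : 0 < ‖s.F^[k] v‖ := norm_pos_iff.2 (s.iter_ne hv k)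
    rwa [div_le_iff₀ hpos] at hra
  have hfin := H (fun ζ : ℂ => s.F^[k] (v + ζ • u)) μ
    (fun z _ => analytic_disc s k v u z (mem_univ _)) (fun z hz => (hball z hz).2.1) hμpos hμle
    (fun z hz => (hball z hz).2.2) h0r (1 / 5) (by simp)
  have hv0 : v + (0 : ℂ) • u = v := by simp
  simp only [hv0] at hfin
  rw [← hxv, ← hva, s.iter_map_mk h5, s.iter_map_mk hv, pdist_mk]
  exact hfin

end MFE
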