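import Pool.Agent.Lib.MFE.Defs
import Pool.Agent.Lib.MF7_T2

/-!
# R11: the topological end of the proof (helper10)
-/

set_option autoImplicit false

open Set Metric Filter Topology

namespace MFE

section attr

variable {X : Type*} [TopologicalSpace X] [CompactSpace X] [T2Space X] {f : X → X}

/-- A minimal quasi-attractor lies in the attracting set of every trapping region around it. -/
theorem subset_attr (hf : Continuous f) {Q : Set X} (hQ : MF7.IsMinimalQuasi f Q) {U : Set X}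
    (hU : MF7.IsTrapping f U) (hQU : Q ⊆ U) : Q ⊆ ⋂ n : ℕ, f^[n] '' U := by
  obtain ⟨hcl, hfQ, hnh⟩ := hQ.nhds hf
  set 𝒜 : Set (Set X) := {A | ∃ U, MF7.IsTrapping f U ∧ Q ⊆ U ∧ A = ⋂ n : ℕ, f^[n] '' U} with h𝒜
  have hatt : ∀ A ∈ 𝒜, MF7.IsAttracting f A := by
    rintro A ⟨U, hU, _, rfl⟩
    exact ⟨U, hU, rfl⟩
  have hU𝒜 : (⋂ n : ℕ, f^[n] '' U) ∈ 𝒜 := ⟨U, hU, hQU, rfl⟩
  have hmono : ∀ {V W : Set X}, V ⊆ W → (⋂ n : ℕ, f^[n] '' V) ⊆ ⋂ n : ℕ, f^[n] '' W :=
    fun h => iInter_mono fun n => image_mono h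
  have hne : (⋂₀ 𝒜).Nonempty := by
    have : Nonempty 𝒜 := ⟨⟨_, hU𝒜⟩⟩
    refine IsCompact.nonempty_sInter_of_directed_nonempty_isCompact_isClosed ?_ ?_ ?_ ?_
    · rintro A ⟨V, hV, hQV, rfl⟩ B ⟨W, hW, hQW, rfl⟩
      obtain ⟨T, hT, hQT, hTVW⟩ := hnh (V ∩ W) (hV.2.1.inter hW.2.1) (subset_inter hQV hQW)
      exact ⟨_, ⟨T, hT, hQT, rfl⟩, hmono (hTVW.trans inter_subset_left),
        hmono (hTVW.trans inter_subset_right)⟩
    · exact fun A hA => (MF7.T2x.attracting_closed hf (hatt A hA)).2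
    · exact fun A hA => (MF7.T2x.attracting_closed hf (hatt A hA)).1.isCompact
    · exact fun A hA => (MF7.T2x.attracting_closed hf (hatt A hA)).1
  have hsub : ⋂₀ 𝒜 ⊆ Q := by
    intro x hx
    by_contra hxQ
    obtain ⟨T, hT, hQT, hTx⟩ := hnh {x}ᶜ isOpen_compl_singleton (fun q hq hqx => hxQ (hqx ▸ hq))
    have h1 : x ∈ ⋂ n : ℕ, f^[n] '' T := hx _ ⟨T, hT, hQT, rfl⟩
    have h2 := mem_iInter.1 h1 0
    obtain ⟨y, hy, hyx⟩ := h2
    exact hTx hy hyx
  have heq := hQ.2 _ ⟨hne, 𝒜, ⟨_, hU𝒜⟩, hatt, rfl⟩ hsub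
  rw [← heq]
  exact sInter_subset_of_mem hU𝒜

omit [TopologicalSpace X] [CompactSpace X] [T2Space X] in
theorem attr_subset {U : Set X} : (⋂ n : ℕ, f^[n] '' U) ⊆ U := by
  intro x hx
  obtain ⟨y, hy, hyx⟩ := mem_iInter.1 hx 0
  rw [← hyx]
  exact hy

/-- The map is onto on an attracting set. -/
theorem exists_preimage (hf : Continuous f) {U : Set X} (hU : MF7.IsTrapping f U) {y : X}
    (hy : y ∈ ⋂ n : ℕ, f^[n] '' U) : ∃ b ∈ ⋂ n : ℕ, f^[n] '' U, f b = y := by
  rw [MF7.attr_eq hU] at hy ⊢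
  have h1 := MF7.T2x.image_iInter hf (K := fun n : ℕ => f^[n] '' closure U)
    (fun n => MF7.isCompact_image_closure hf U n)
    (fun n => MF7.antitone_image_closure hU (Nat.le_succ n)) (z := y) (fun n => by
      have h2 := mem_iInter.1 hy (n + 1)
      rwa [Function.iterate_succ', image_comp] at h2)
  obtain ⟨b, hb, hby⟩ := h1
  exact ⟨b, hb, hby⟩

theorem exists_preimage_iter (hf : Continuous f) {U : Set X} (hU : MF7.IsTrapping f U) {y : X}
    (hy : y ∈ ⋂ n : ℕ, f^[n] '' U) (m : ℕ) : ∃ b ∈ ⋂ n : ℕ, f^[n] '' U, f^[m] b = y := by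
  induction m with
  | zero => exact ⟨y, hy, rfl⟩
  | succ m ih =>
    obtain ⟨b, hb, hby⟩ := ih
    obtain ⟨b', hb', hbb⟩ := exists_preimage hf hU hb
    exact ⟨b', hb', by rw [Function.iterate_succ_apply, hbb, hby]⟩

/-- The forward images of a trapping region enter every neighbourhood of its attracting set. -/
theorem exists_image_subset (hf : Continuous f) {U : Set X} (hU : MF7.IsTrapping f U) {G : Set X}
    (hG : IsOpen G) (h : (⋂ n : ℕ, f^[n] '' U) ⊆ G) :
    ∃ n0 : ℕ, ∀ n, n0 ≤ n → f^[n] '' closure U ⊆ G := by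
  rw [MF7.attr_eq hU] at h
  have hanti := MF7.antitone_image_closure hU
  obtain ⟨n0, hn0⟩ := exists_subset_nhds_of_isCompact' (V := fun n : ℕ => f^[n] '' closure U)
    (fun a b => ⟨max a b, hanti (le_max_left a b), hanti (le_max_right a b)⟩)
    (fun n => MF7.isCompact_image_closure hf U n)
    (fun n => (MF7.isCompact_image_closure hf U n).isClosed)
    (fun x hx => hG.mem_nhds (h hx))
  exact ⟨n0, fun n hn => (hanti hn).trans hn0⟩

end attr

theorem t_main {X : Type*} [MetricSpace X] [CompactSpace X] {f : X → X} (hf : Continuous f)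
    {Q : Set X} (hQ : MF7.IsMinimalQuasi f Q) {r : X → ℝ} (hr : Continuous r) {N : Set X}
    (hN : IsOpen N) (hQN : Q ⊆ N) {μ0 : ℝ} (hμ : IsLeast (r '' Q) μ0) (hμ0 : 0 < μ0) {θ c0 : ℝ}
    (hθ : 0 < θ) (hθ1 : θ ≤ 1) (hc0 : 0 < c0) (hR : Rig dist f r N μ0 θ) (hV : Vit dist f c0 θ) :
    MF7.IsAttracting f Q := by
  obtain ⟨hcl, hfQ, hnh⟩ := hQ.nhds hf
  have hfiQ : ∀ i : ℕ, ∀ q ∈ Q, f^[i] q ∈ Q := by
    intro i
    induction i with
    | zero => exact fun q hq => hq
    | succ i ih =>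
      intro q hq
      rw [Function.iterate_succ_apply]
      exact ih _ (hfQ q hq)
  have hrQ : ∀ q ∈ Q, μ0 ≤ r q := fun q hq => hμ.2 ⟨q, hq, rfl⟩
  obtain ⟨q0, hq0, hq0r⟩ := hμ.1
  obtain ⟨τ0, hτ0, hRτ0⟩ := hR c0 hc0
  have hτ0p : 0 < τ0 := lt_trans one_pos hτ0
  -- the first trapping region
  have hdiv : ∀ {μ τ : ℝ}, 0 < μ → 1 < τ → μ / τ < μ := fun hμ hτ => div_lt_self hμ hτ
  obtain ⟨U1, hU1, hQU1, hU1N⟩ := hnh (N ∩ {x | μ0 / τ0 < r x})
    (hN.inter (isOpen_lt continuous_const hr))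
    (subset_inter hQN fun q hq => (hdiv hμ0 hτ0).trans_le (hrQ q hq))
  have hU1f : ∀ i : ℕ, ∀ x ∈ U1, f^[i] x ∈ U1 := by
    intro i
    induction i with
    | zero => exact fun x hx => hx
    | succ i ih =>
      intro x hx
      rw [Function.iterate_succ_apply]
      exact ih _ (hU1.image_subset ⟨x, hx, rfl⟩)
  obtain ⟨δ0, hδ0, hδ0U⟩ := hcl.isCompact.exists_thickening_subset_open hU1.2.1 hQU1
  set ε0 : ℝ := min (δ0 / 2) 1 with hε0
  have hε0p : 0 < ε0 := lt_min (half_pos hδ0) one_pos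
  have hε01 : ε0 ≤ 1 := min_le_right _ _
  have hε0δ : 2 * ε0 ≤ δ0 := by
    have := min_le_left (δ0 / 2) 1
    linarith
  -- the second trapping region and its attracting set
  have hθε : 0 < θ * (θ * ε0) := by positivity
  obtain ⟨U2, hU2, hQU2, hU2N⟩ := hnh (thickening (θ * (θ * ε0)) Q ∩ (N ∩ {x | 0 < r x}))
    (isOpen_thickening.inter (hN.inter (isOpen_lt continuous_const hr)))
    (subset_inter (self_subset_thickening hθε Q)
      (subset_inter hQN fun q hq => hμ0.trans_le (hrQ q hq)))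
  set A : Set X := ⋂ n : ℕ, f^[n] '' U2 with hA
  have hQA : Q ⊆ A := subset_attr hf hQ hU2 hQU2
  have hAU2 : A ⊆ U2 := attr_subset
  have hAcl : IsClosed A := MF7.attr_isClosed hf hU2
  have hAf : ∀ i : ℕ, ∀ x ∈ A, f^[i] x ∈ A := by
    intro i
    induction i with
    | zero => exact fun x hx => hx
    | succ i ih =>
      intro x hx
      rw [Function.iterate_succ_apply]
      exact ih _ (MF7.attr_forward hU2 hx)
  -- the minimum of `r` on `A`
  obtain ⟨y, hyA, hymin⟩ := hAcl.isCompact.exists_isMinOn ⟨q0, hQA hq0⟩ hr.continuousOn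
  have hymin' : ∀ x ∈ A, r y ≤ r x := fun x hx => hymin hx
  set μ : ℝ := r y with hμdef
  have hμp : 0 < μ := (hU2N (hAU2 hyA)).2.2
  have hμle : μ ≤ μ0 := by
    rw [← hq0r]
    exact hymin' q0 (hQA hq0)
  obtain ⟨δ1, hδ1, hδ1U⟩ := hAcl.isCompact.exists_thickening_subset_open hU2.2.1 hAU2
  set ε : ℝ := min δ1 1 with hε
  have hεp : 0 < ε := lt_min hδ1 one_pos
  have hε1 : ε ≤ 1 := min_le_right _ _
  set ε1 : ℝ := θ * ε / 2 with hε1def
  have hε1p : 0 < ε1 := by positivity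
  -- the backward limit set of `y`
  set α : Set X := {a | ∀ η > 0, ∀ K : ℕ, ∃ m, K ≤ m ∧ ∃ b ∈ A, dist a b < η ∧ f^[m] b = y}
    with hα
  -- (1)
  have key : ∀ a ∈ α, ∀ c > 0, ∀ K : ℕ, ∃ m, K ≤ m ∧ ∀ x, dist x a < ε1 → dist (f^[m] x) y < c := by
    intro a ha c hc K
    obtain ⟨τ, hτ, hRτ⟩ := hR c hc
    have hτp : 0 < τ := lt_trans one_pos hτ
    obtain ⟨m1, hm1⟩ := exists_image_subset hf hU2 (G := N ∩ {x | μ / τ < r x})
      (hN.inter (isOpen_lt continuous_const hr))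
      (fun x hx => ⟨(hU2N (hAU2 hx)).2.1, (hdiv hμp hτ).trans_le (hymin' x hx)⟩)
    obtain ⟨m, hm, b, hbA, hab, hfb⟩ := ha ε1 hε1p (max K m1)
    refine ⟨m, (le_max_left _ _).trans hm, fun x hx => ?_⟩
    have h1 := hRτ ε hεp hε1 m b μ hμp hμle (fun z hz => by
      have hzU : z ∈ U2 := hδ1U (mem_thickening_iff.2 ⟨b, hbA, hz.trans_le (min_le_left _ _)⟩)
      have h2 := hm1 m ((le_max_right _ _).trans hm) ⟨z, subset_closure hzU, rfl⟩
      refine ⟨h2.1, ?_⟩
      have h3 : μ / τ < r (f^[m] z) := h2.2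
      rw [div_lt_iff₀ hτp] at h3
      linarith) (by
        rw [hfb]
        change μ ≤ τ * μ
        nlinarith) x (by
        have h4 := dist_triangle x a b
        have h5 : θ * ε = ε1 + ε1 := by rw [hε1def]; ring
        linarith)
    rwa [hfb] at h1
  -- `α` is nonempty
  have hαne : ∃ a, a ∈ α := by
    choose b hbA hb using fun m : ℕ => exists_preimage_iter hf hU2 hyA m
    obtain ⟨a, _, φ, hφ, ha⟩ := hAcl.isCompact.tendsto_subseq hbA
    refine ⟨a, fun η hη K => ?_⟩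
    have h1 : ∀ᶠ j in atTop, dist ((b ∘ φ) j) a < η := (tendsto_iff_dist_tendsto_zero.1 ha).eventually
      (gt_mem_nhds hη)
    obtain ⟨j, hj1, hj2⟩ := (h1.and (eventually_ge_atTop K)).exists
    exact ⟨φ j, hj2.trans (hφ.id_le j), b (φ j), hbA _, by rw [dist_comm]; exact hj1, hb _⟩
  -- `α` is forward invariant
  have hαf : ∀ a ∈ α, f a ∈ α := by
    intro a ha η hη K
    obtain ⟨δ, hδ, hδf⟩ := Metric.continuous_iff.1 hf a η hη
    obtain ⟨m, hm, b, hbA, hab, hfb⟩ := ha δ hδ (K + 1)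
    obtain ⟨m', rfl⟩ : ∃ m', m = m' + 1 := ⟨m - 1, by omega⟩
    refine ⟨m', by omega, f b, MF7.attr_forward hU2 hbA, ?_, ?_⟩
    · rw [dist_comm]
      exact hδf b (by rw [dist_comm]; exact hab)
    · rw [← hfb, Function.iterate_succ_apply]
  have hαfi : ∀ i : ℕ, ∀ a ∈ α, f^[i] a ∈ α := by
    intro i
    induction i with
    | zero => exact fun a ha => ha
    | succ i ih =>
      intro a ha
      rw [Function.iterate_succ_apply]
      exact ih _ (hαf a ha)
  -- `y` is in `α`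
  have hyα : y ∈ α := by
    obtain ⟨a, ha⟩ := hαne
    intro η hη K
    obtain ⟨m, _, hm⟩ := key a ha (η / 2) (half_pos hη) 0
    have h1 := hm a (by rw [dist_self]; exact hε1p)
    obtain ⟨m', hm', b, hbA, hab, hfb⟩ := hαfi m a ha (η / 2) (half_pos hη) K
    refine ⟨m', hm', b, hbA, ?_, hfb⟩
    have h2 := dist_triangle y (f^[m] a) b
    rw [dist_comm y (f^[m] a)] at h2
    linarith
  -- the period
  obtain ⟨m, hm1, hm⟩ := key y hyα (ε1 / 4) (by positivity) 1
  set W : Set X := ball y (ε1 / 2) with hW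
  have hWcl : ∀ x ∈ closure W, dist x y < ε1 := fun x hx => by
    have h1 := closure_ball_subset_closedBall hx
    rw [mem_closedBall] at h1
    linarith
  have hWW : f^[m] '' closure W ⊆ W := by
    rintro _ ⟨x, hx, rfl⟩
    have h1 := hm x (hWcl x hx)
    rw [hW, mem_ball]
    linarith
  have hfy : f^[m] y = y := by
    apply eq_of_forall_dist_le
    intro c hc
    obtain ⟨δ, hδ, hδf⟩ := Metric.continuous_iff.1 (hf.iterate m) y (c / 2) (half_pos hc)
    obtain ⟨m', _, hm'⟩ := key y hyα (min δ (c / 2)) (lt_min hδ (half_pos hc)) 0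
    have h1 := hm' y (by rw [dist_self]; exact hε1p)
    have h2 := hδf _ (h1.trans_le (min_le_left _ _))
    have h3 := hm' (f^[m] y) (by
      have := hm y (by rw [dist_self]; exact hε1p)
      linarith)
    have h4 : f^[m] (f^[m'] y) = f^[m'] (f^[m] y) := by
      rw [← Function.iterate_add_apply, ← Function.iterate_add_apply, add_comm]
    rw [h4] at h2
    have h5 := dist_triangle (f^[m] y) (f^[m'] (f^[m] y)) y
    have h6 := h3.trans_le (min_le_right _ _)
    rw [dist_comm] at h2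
    linarith
  have hfky : ∀ k : ℕ, f^[k * m] y = y := by
    intro k
    induction k with
    | zero => rw [Nat.zero_mul]; rfl
    | succ k ih => rw [Nat.succ_mul, Function.iterate_add_apply, hfy, ih]
  have hWk : ∀ k : ℕ, ∀ x ∈ closure W, f^[k * m] x ∈ closure W := by
    intro k
    induction k with
    | zero => intro x hx; rw [Nat.zero_mul]; exact hx
    | succ k ih =>
      intro x hx
      rw [Nat.succ_mul, Function.iterate_add_apply]
      exact ih _ (subset_closure (hWW ⟨x, hx, rfl⟩))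
  -- uniform convergence on `W`
  have hunif : ∀ c > 0, ∃ k0 : ℕ, ∀ k, k0 ≤ k → ∀ x ∈ closure W, dist (f^[k * m] x) y < c := by
    intro c hc
    have huc : ∃ δ > 0, ∀ j, j ≤ m → ∀ a b : X, dist a b < δ → dist (f^[j] a) (f^[j] b) < c := by
      have h1 : ∀ M : ℕ, ∃ δ > 0, ∀ j, j ≤ M → ∀ a b : X, dist a b < δ →
          dist (f^[j] a) (f^[j] b) < c := by
        intro M
        induction M with
        | zero =>
          refine ⟨c, hc, fun j hj a b hab => ?_⟩
          obtain rfl : j = 0 := by omega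
          exact hab
        | succ M ih =>
          obtain ⟨δ, hδ, h⟩ := ih
          obtain ⟨δ', hδ', h'⟩ := Metric.uniformContinuous_iff.1
            (CompactSpace.uniformContinuous_of_continuous (hf.iterate (M + 1))) c hc
          refine ⟨min δ δ', lt_min hδ hδ', fun j hj a b hab => ?_⟩
          rcases Nat.lt_or_ge j (M + 1) with hjM | hjM
          · exact h j (by omega) a b (hab.trans_le (min_le_left _ _))
          · obtain rfl : j = M + 1 := by omega
            exact h' (hab.trans_le (min_le_right _ _))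
      exact h1 m
    obtain ⟨δ, hδ, hδf⟩ := huc
    obtain ⟨m', _, hm'⟩ := key y hyα (δ / 2) (half_pos hδ) 0
    have hmod := Nat.div_add_mod m' m
    have hlt := Nat.mod_lt m' (show 0 < m by omega)
    have hk : (m' / m + 1) * m = (m - m' % m) + m' := by
      have h1 : (m' / m + 1) * m = m * (m' / m) + m := by ring
      omega
    have hone : ∀ x ∈ closure W, dist (f^[(m' / m + 1) * m] x) y < c := by
      intro x hx
      have h1 := hm' x (hWcl x hx)
      have h2 := hm' y (by rw [dist_self]; exact hε1p)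
      have h3 : dist (f^[m'] x) (f^[m'] y) < δ := by
        have h4 := dist_triangle (f^[m'] x) y (f^[m'] y)
        rw [dist_comm y (f^[m'] y)] at h4
        linarith
      have h5 := hδf (m - m' % m) (Nat.sub_le _ _) _ _ h3
      rw [← Function.iterate_add_apply, ← Function.iterate_add_apply, ← hk, hfky] at h5
      exact h5
    refine ⟨m' / m + 1, fun k hk x hx => ?_⟩
    obtain ⟨i, rfl⟩ := Nat.exists_eq_add_of_le hk
    rw [Nat.add_mul, Function.iterate_add_apply]
    exact hone _ (hWk i x hx)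
  -- step II
  obtain ⟨q1, hq1, hyq1⟩ := mem_thickening_iff.1 (hU2N (hAU2 hyA)).1
  have hθε0 : θ * ε0 ≤ ε0 := by nlinarith
  have hθθ : θ * (θ * ε0) ≤ θ * ε0 := by nlinarith
  have hstep : ∀ k : ℕ, ∀ x, dist x y < θ * ε0 → dist (f^[k * m] x) y < c0 := by
    intro k x hx
    have h1 := hRτ0 ε0 hε0p hε01 (k * m) y μ0 hμ0 le_rfl (fun z hz => by
      have hzU : z ∈ U1 := hδ0U (mem_thickening_iff.2 ⟨q1, hq1, by
        have h2 := dist_triangle z y q1
        linarith⟩)
      have h3 := hU1N (hU1f (k * m) z hzU)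
      refine ⟨h3.1, ?_⟩
      have h4 : μ0 / τ0 < r (f^[k * m] z) := h3.2
      rw [div_lt_iff₀ hτ0p] at h4
      linarith) (by
        rw [hfky]
        change μ ≤ τ0 * μ0
        nlinarith) x hx
    rwa [hfky] at h1
  have htend : Tendsto (fun k => dist (f^[k * m] q1) y) atTop (𝓝 0) := by
    refine hV (θ * ε0) (by positivity) (hθε0.trans hε01) y m hfy
      ⟨0, fun k _ x hx => hstep k x hx⟩ ⟨ε1 / 2, by positivity, fun x hx => ?_⟩ q1
      (by rw [dist_comm]; exact hyq1)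
    rw [Metric.tendsto_atTop]
    intro c hc
    obtain ⟨k0, hk0⟩ := hunif c hc
    refine ⟨k0, fun k hk => ?_⟩
    rw [Real.dist_eq, sub_zero, abs_of_nonneg dist_nonneg]
    exact hk0 k hk x (subset_closure hx)
  have hyQ : y ∈ Q := by
    refine hcl.mem_of_tendsto (tendsto_iff_dist_tendsto_zero.2 htend)
      (Eventually.of_forall fun k => hfiQ _ q1 hq1)
  refine hQ.attracting_of_iter hf (p := m) hm1 (B := W) isOpen_ball
    ⟨y, mem_ball_self (by positivity)⟩ hWW fun z hz => ?_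
  have hzy : z = y := by
    apply eq_of_forall_dist_le
    intro c hc
    obtain ⟨k0, hk0⟩ := hunif c hc
    obtain ⟨w, hw, rfl⟩ := hz k0
    exact (hk0 k0 le_rfl w (subset_closure hw)).le
  rw [hzy]
  exact hyQ

end MFE
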