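import Pool.Agent.Lib.MFE.RigP

/-!
# Row R13: propagation of convergence on projective space
-/

set_option autoImplicit false

open Set Metric Filter Topology
open scoped LinearAlgebra.Projectivization

namespace MFE

variable {E : Type*} [NormedAddCommGroup E] [InnerProductSpace ℂ E]

/-- the affine coordinate near `v` -/
noncomputable def aff (v x : E) : E := (inner ℂ v x)⁻¹ • x - v

theorem inner_ne_of_sd {v x : E} (hv : ‖v‖ = 1) (hx : x ≠ 0) (h : sd x v < 1 / 20) :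
    ‖x‖ / 2 ≤ ‖inner ℂ v x‖ := by
  have h1 := norm_mul_sd hx hv
  have h2 := norm_sub_proj_sq hv x
  rw [← h1] at h2
  have hs0 := sd_nonneg x v
  have h3 : sd x v ^ 2 ≤ 1 / 4 := by nlinarith
  have h4 : ‖inner ℂ v x‖ ^ 2 = ‖x‖ ^ 2 * (1 - sd x v ^ 2) := by linarith
  have h5 : (‖x‖ / 2) ^ 2 ≤ ‖inner ℂ v x‖ ^ 2 := by
    rw [h4]
    nlinarith [sq_nonneg ‖x‖]
  exact (pow_le_pow_iff_left₀ (by positivity) (norm_nonneg _) two_ne_zero).1 h5

theorem norm_aff {v x : E} (hv : ‖v‖ = 1) (hx : x ≠ 0) (h : sd x v < 1 / 20) :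
    ‖aff v x‖ ≤ 2 * sd x v ∧ sd x v ≤ ‖aff v x‖ := by
  have h1 := norm_mul_sd hx hv
  have h2 := inner_ne_of_sd hv hx h
  have hx' : 0 < ‖x‖ := norm_pos_iff.2 hx
  have hc : 0 < ‖inner ℂ v x‖ := lt_of_lt_of_le (by positivity) h2
  have hc0 : inner ℂ v x ≠ 0 := norm_pos_iff.1 hc
  have h3 : aff v x = (inner ℂ v x)⁻¹ • (x - inner ℂ v x • v) := by
    rw [aff, smul_sub, smul_smul, inv_mul_cancel₀ hc0, one_smul]
  have h4 : ‖aff v x‖ = ‖x‖ * sd x v / ‖inner ℂ v x‖ := by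
    rw [h3, norm_smul, norm_inv, ← h1, inv_mul_eq_div]
  have hs0 := sd_nonneg x v
  have h5 : ‖inner ℂ v x‖ ≤ ‖x‖ := by
    have := norm_inner_le_norm (𝕜 := ℂ) v x
    rwa [hv, one_mul] at this
  rw [h4]
  constructor
  · rw [div_le_iff₀ hc]
    nlinarith
  · rw [le_div_iff₀ hc]
    nlinarith

theorem vit_proj [FiniteDimensional ℂ E] (s : HMap E) :
    Vit pdist s.map (1 / 20) (1 / 20) := by
  intro ε hε hε1 y q hyq hk hδ x hx
  obtain ⟨k0, hk0⟩ := hk
  obtain ⟨δ, hδ, hbas⟩ := hδ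
  obtain ⟨v, u, hv, hv1, hvy, hd, h5, hxv⟩ := exists_disc y x hε hε1 hx
  -- the discs
  set G : ℕ → ℂ → E := fun k ζ => s.F^[k * q] (v + ζ • u) with hG
  have hGan : ∀ k, AnalyticOnNhd ℂ (G k) univ := fun k => analytic_disc s (k * q) v u
  have hG0 : ∀ k, ∀ ζ ∈ ball (0 : ℂ) 1, G k ζ ≠ 0 := by
    intro k ζ hζ
    obtain ⟨h0, -⟩ := hd ζ (by simpa using hζ)
    exact s.iter_ne h0 _
  have hmap : ∀ k, ∀ ζ ∈ ball (0 : ℂ) 1, ∀ h0 : v + ζ • u ≠ 0,
      pdist (s.map^[k * q] (Projectivization.mk ℂ (v + ζ • u) h0)) y = sd (G k ζ) v := by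
    intro k ζ hζ h0
    rw [s.iter_map_mk h0, ← hvy, pdist_mk]
  have hGk : ∀ k, k0 ≤ k → ∀ ζ ∈ ball (0 : ℂ) 1, sd (G k ζ) v < 1 / 20 := by
    intro k hk ζ hζ
    obtain ⟨h0, hlt⟩ := hd ζ (by simpa using hζ)
    have := hk0 k hk _ hlt
    rwa [hmap k ζ hζ h0] at this
  have hGcont : ∀ k, ∀ ζ ∈ ball (0 : ℂ) 1, ContinuousAt (fun ζ => sd (G k ζ) v) ζ := by
    intro k ζ hζ
    have h1 := sd_continuousAt (hG0 k ζ hζ) hv
    have h2 : ContinuousAt (fun ζ : ℂ => (G k ζ, v)) ζ :=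
      ((hGan k ζ (mem_univ _)).continuousAt).prodMk continuousAt_const
    exact ContinuousAt.comp (f := fun ζ : ℂ => (G k ζ, v)) (g := fun t : E × E => sd t.1 t.2) h1 h2
  -- the affine coordinates
  have hha : ∀ k, k0 ≤ k → DifferentiableOn ℂ (fun ζ => aff v (G k ζ)) (ball 0 1) := by
    intro k hk ζ hζ
    have h1 : DifferentiableAt ℂ (G k) ζ := (hGan k ζ (mem_univ _)).differentiableAt
    have h2 : DifferentiableAt ℂ (fun ζ => inner ℂ v (G k ζ)) ζ :=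
      ((innerSL ℂ v).differentiableAt).comp ζ h1
    have h3 : inner ℂ v (G k ζ) ≠ 0 := by
      have h4 := inner_ne_of_sd hv1 (hG0 k ζ hζ) (hGk k hk ζ hζ)
      have h5 : 0 < ‖G k ζ‖ := norm_pos_iff.2 (hG0 k ζ hζ)
      exact norm_pos_iff.1 (lt_of_lt_of_le (by positivity) h4)
    exact (((h2.inv h3).smul h1).sub_const v).differentiableWithinAt
  have hhb : ∀ k, k0 ≤ k → ∀ ζ ∈ ball (0 : ℂ) 1, ‖aff v (G k ζ)‖ ≤ 1 / 10 := by
    intro k hk ζ hζ
    have h1 := (norm_aff hv1 (hG0 k ζ hζ) (hGk k hk ζ hζ)).1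
    have h2 := hGk k hk ζ hζ
    linarith
  have hlip : ∀ k, k0 ≤ k → ∀ ζ ∈ ball (0 : ℂ) (1 / 2), ∀ ζ' ∈ ball ζ (1 / 2),
      ‖aff v (G k ζ') - aff v (G k ζ)‖ ≤ ‖ζ' - ζ‖ := by
    intro k hk ζ hζ ζ' hζ'
    have hsub : ball ζ (1 / 2) ⊆ ball (0 : ℂ) 1 := by
      intro z hz
      rw [mem_ball, dist_eq_norm] at hz
      rw [mem_ball_zero_iff] at hζ ⊢
      have := norm_add_le (z - ζ) ζ
      rw [sub_add_cancel] at this
      linarith
    have hζ1 : ζ ∈ ball (0 : ℂ) 1 := hsub (mem_ball_self (by norm_num))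
    have h1 := Complex.dist_le_div_mul_dist_of_mapsTo_ball (f := fun ζ => aff v (G k ζ))
      (c := ζ) (R₁ := 1 / 2) (R₂ := 1 / 2) (z := ζ') ((hha k hk).mono hsub) (by
        intro z hz
        rw [mem_closedBall, dist_eq_norm]
        have h2 := norm_sub_le (aff v (G k z)) (aff v (G k ζ))
        have h3 := hhb k hk z (hsub hz)
        have h4 := hhb k hk ζ hζ1
        linarith) hζ'
    rw [dist_eq_norm, dist_eq_norm] at h1
    simpa using h1
  -- the clopen argument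
  have hT : ∀ ζ ∈ ball (0 : ℂ) 1, (Tendsto (fun k => sd (G k ζ) v) atTop (𝓝 0) ↔
      Tendsto (fun k => ‖aff v (G k ζ)‖) atTop (𝓝 0)) := by
    intro ζ hζ
    constructor
    · intro h
      have h2 : Tendsto (fun k => 2 * sd (G k ζ) v) atTop (𝓝 0) := by
        simpa using h.const_mul 2
      refine squeeze_zero' (Eventually.of_forall fun k => norm_nonneg _) ?_ h2
      filter_upwards [eventually_ge_atTop k0] with k hk
      exact (norm_aff hv1 (hG0 k ζ hζ) (hGk k hk ζ hζ)).1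
    · intro h
      refine squeeze_zero' (Eventually.of_forall fun k => sd_nonneg _ _) ?_ h
      filter_upwards [eventually_ge_atTop k0] with k hk
      exact (norm_aff hv1 (hG0 k ζ hζ) (hGk k hk ζ hζ)).2
  have hhalf : ball (0 : ℂ) (1 / 2) ⊆ ball 0 1 := ball_subset_ball (by norm_num)
  set A : Set ℂ := {ζ | ζ ∈ ball (0 : ℂ) (1 / 2) ∧ Tendsto (fun k => sd (G k ζ) v) atTop (𝓝 0)}
    with hA
  set B : Set ℂ := {ζ | ζ ∈ ball (0 : ℂ) (1 / 2) ∧ ¬ Tendsto (fun k => sd (G k ζ) v) atTop (𝓝 0)}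
    with hB
  have hAo : IsOpen A := by
    rw [isOpen_iff_mem_nhds]
    rintro ζ ⟨hζ, ht⟩
    obtain ⟨k1, hk1⟩ := (ht.eventually (gt_mem_nhds hδ)).exists
    have h1 : ∀ᶠ ζ' in 𝓝 ζ, sd (G k1 ζ') v < δ :=
      (hGcont k1 ζ (hhalf hζ)).eventually_lt continuousAt_const hk1
    filter_upwards [h1, isOpen_ball.mem_nhds hζ] with ζ' h2 h3
    refine ⟨h3, ?_⟩
    obtain ⟨h0, -⟩ := hd ζ' (by simpa using hhalf h3)
    have h4 := hbas (s.map^[k1 * q] (Projectivization.mk ℂ (v + ζ' • u) h0)) (by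
      rw [hmap k1 ζ' (hhalf h3) h0]
      exact h2)
    have h5 : (fun k => pdist (s.map^[k * q] (s.map^[k1 * q]
        (Projectivization.mk ℂ (v + ζ' • u) h0))) y) = fun k => sd (G (k + k1) ζ') v := by
      funext k
      rw [← Function.iterate_add_apply, ← add_mul, hmap (k + k1) ζ' (hhalf h3) h0]
    rw [h5] at h4
    exact (tendsto_add_atTop_iff_nat k1).1 h4
  have hBo : IsOpen B := by
    rw [isOpen_iff_mem_nhds]
    rintro ζ ⟨hζ, ht⟩
    rw [hT ζ (hhalf hζ)] at ht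
    have h1 : ∃ η > 0, ∀ K, ∃ k ≥ K, η ≤ ‖aff v (G k ζ)‖ := by
      by_contra hcon
      push Not at hcon
      apply ht
      rw [Metric.tendsto_atTop]
      intro η hη
      obtain ⟨K, hK⟩ := hcon η hη
      refine ⟨K, fun k hk => ?_⟩
      have := hK k hk
      simpa using this
    obtain ⟨η, hη, hfr⟩ := h1
    have h2 : ball ζ (min (η / 2) (1 / 2)) ∈ 𝓝 ζ := ball_mem_nhds _ (by positivity)
    filter_upwards [h2, isOpen_ball.mem_nhds hζ] with ζ' h3 h4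
    refine ⟨h4, ?_⟩
    rw [hT ζ' (hhalf h4)]
    intro ht'
    obtain ⟨K, hK⟩ := (ht'.eventually (gt_mem_nhds (half_pos hη))).exists_forall_of_atTop
    obtain ⟨k, hk, hkη⟩ := hfr (max K k0)
    have h5 := hK k (le_trans (le_max_left _ _) hk)
    have h6 := hlip k (le_trans (le_max_right _ _) hk) ζ hζ ζ'
      (ball_subset_ball (min_le_right _ _) h3)
    rw [mem_ball, dist_eq_norm] at h3
    have h7 := h3.trans_le (min_le_left _ _)
    have h8 := norm_sub_norm_le (aff v (G k ζ)) (aff v (G k ζ'))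
    rw [norm_sub_rev] at h8
    linarith
  have hdisj : Disjoint A B := by
    rw [Set.disjoint_left]
    rintro ζ ⟨-, h1⟩ ⟨-, h2⟩
    exact h2 h1
  have hcov : ball (0 : ℂ) (1 / 2) ⊆ A ∪ B := by
    intro ζ hζ
    by_cases h : Tendsto (fun k => sd (G k ζ) v) atTop (𝓝 0)
    · exact Or.inl ⟨hζ, h⟩
    · exact Or.inr ⟨hζ, h⟩
  have h0A : (ball (0 : ℂ) (1 / 2) ∩ A).Nonempty := by
    have h0 : (0 : ℂ) ∈ ball (0 : ℂ) (1 / 2) := mem_ball_self (by norm_num)
    refine ⟨0, h0, h0, ?_⟩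
    have h1 := hbas y (by
      have : pdist y y = 0 := sd_self y.rep_nonzero
      rw [this]
      exact hδ)
    obtain ⟨h00, -⟩ := hd 0 (by simp)
    have h2 : Projectivization.mk ℂ (v + (0 : ℂ) • u) h00 = y := by
      rw [← hvy]
      congr 1
      simp
    have h3 : (fun k => pdist (s.map^[k * q] y) y) = fun k => sd (G k 0) v := by
      funext k
      rw [← hmap k 0 (hhalf h0) h00, h2]
    rwa [h3] at h1
  have hsub := IsPreconnected.subset_left_of_subset_union hAo hBo hdisj hcov h0A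
    (convex_ball (0 : ℂ) (1 / 2)).isPreconnected
  have h15 : (1 / 5 : ℂ) ∈ ball (0 : ℂ) (1 / 2) := by
    rw [mem_ball_zero_iff]
    norm_num
  have hfin := (hsub h15).2
  have h6 : (fun k => pdist (s.map^[k * q] x) y) = fun k => sd (G k (1 / 5)) v := by
    funext k
    rw [← hmap k (1 / 5) (hhalf h15) h5, hxv]
  rw [h6]
  exact hfin

end MFE
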