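import Pool.Agent.Lib.MFE.BasinT
import Pool.Agent.Lib.MFE.RigP
import Pool.Agent.Lib.MFE.VitP
import Pool.Agent.Lib.MFE.Data
import Pool.Agent.Lib.MFE.TMain

/-!
# Row R16: area-contracting minimal quasi-attractors are attracting, assembly
-/

set_option autoImplicit false

open Set Metric Filter Topology
open scoped LinearAlgebra.Projectivization

namespace MFE

variable {E : Type*} [NormedAddCommGroup E] [InnerProductSpace ℂ E]

theorem isClosed_cone_zero {Q : Set (ℙ ℂ E)} (hQ : IsClosed Q) : IsClosed (coneOf Q ∪ {0}) := by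
  rw [← isOpen_compl_iff]
  have h : (coneOf Q ∪ {0})ᶜ = coneOf Qᶜ := by
    ext x
    by_cases hx : x = 0
    · constructor
      · intro h
        exact absurd (Or.inr hx) h
      · rintro ⟨h, -⟩
        exact absurd hx h
    · rw [mk_mem_iff hx, mem_compl_iff, mem_union, mk_mem_iff hx, mem_singleton_iff, mem_compl_iff]
      tauto
  rw [h]
  exact (isOpen_iff_coneOf _).1 hQ.isOpen_compl

theorem rep_mem_coneOf {S : Set (ℙ ℂ E)} {p : ℙ ℂ E} : p.rep ∈ coneOf S ↔ p ∈ S := by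
  rw [mk_mem_iff p.rep_nonzero, p.mk_rep]

/-- the set of points of a cone -/
theorem coneOf_setOf_rep {G : Set E} (hG : IsCone G) : coneOf {p : ℙ ℂ E | p.rep ∈ G} = G := by
  ext x
  constructor
  · rintro ⟨hx, h⟩
    obtain ⟨a, ha⟩ := Projectivization.exists_smul_eq_mk_rep ℂ x hx
    have ha' : (a : ℂ) • x = (Projectivization.mk ℂ x hx).rep := ha
    have h1 : (a : ℂ) • x ∈ G := by
      rw [ha']
      exact h
    have h2 := hG.2 (a : ℂ)⁻¹ (inv_ne_zero a.ne_zero) _ h1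
    rwa [smul_smul, inv_mul_cancel₀ a.ne_zero, one_smul] at h2
  · intro h
    have hx : x ≠ 0 := by
      intro h0
      rw [h0] at h
      exact hG.1 h
    refine ⟨hx, ?_⟩
    obtain ⟨a, ha⟩ := Projectivization.exists_smul_eq_mk_rep ℂ x hx
    have ha' : (a : ℂ) • x = (Projectivization.mk ℂ x hx).rep := ha
    change (Projectivization.mk ℂ x hx).rep ∈ G
    rw [← ha']
    exact hG.2 _ a.ne_zero _ h

theorem main_aux [FiniteDimensional ℂ E] (hRig : RigidStmt E)
    (hCon : ∀ (s : HMap E) {Q : Set (ℙ ℂ E)}, IsClosed (coneOf Q ∪ {0}) → AreaContr s Q →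
      ∃ G : Set E, IsOpen G ∧ coneOf Q ⊆ G ∧ IsCone G ∧
        ∀ U : Set E, U ⊆ G → (∀ x ∈ U, s.F x ∈ U) → Contr s U)
    (s : HMap E) {Q : Set (ℙ ℂ E)} (hQ : MF7.IsMinimalQuasi s.map Q) (hA : AreaContr s Q) :
    MF7.IsAttracting s.map Q := by
  classical
  by_contra hna
  haveI : CompactSpace (ℙ ℂ E) := compactSpace_proj
  letI := projMetric E
  have hf : Continuous s.map := s.continuous_map
  obtain ⟨hQc, hfQ, hnb⟩ := hQ.nhds hf
  have hQne : Q.Nonempty := hQ.1.1
  obtain ⟨G, hGo, hQG, hGc, hG⟩ := hCon s (isClosed_cone_zero hQc) hA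
  -- the region of contraction
  have hGp : IsOpen {p : ℙ ℂ E | p.rep ∈ G} := by
    rw [isOpen_iff_coneOf, coneOf_setOf_rep hGc]
    exact hGo
  obtain ⟨U0, hU0, hQU0, hU0G⟩ := hnb _ hGp (fun p hp => hQG (rep_mem_coneOf.2 hp))
  have hContr : Contr s (coneOf U0) := by
    refine hG (coneOf U0) ?_ ?_
    · have h1 := coneOf_subset hU0G
      rwa [coneOf_setOf_rep hGc] at h1
    · rintro x ⟨hx, hxU⟩
      refine ⟨s.ne x hx, ?_⟩
      rw [← s.map_mk hx]
      exact hU0.2.2 ⟨_, subset_closure hxU, rfl⟩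
  obtain ⟨δ, hδ, hδU⟩ := hQc.isCompact.exists_thickening_subset_open hU0.2.1 hQU0
  set r0 : ℝ := min (δ / 2) (1 / 2) with hr0
  have hr0pos : 0 < r0 := by positivity
  have hr0lt : r0 < 1 := lt_of_le_of_lt (min_le_right _ _) (by norm_num)
  have hr0δ : 2 * r0 ≤ δ := by
    have := min_le_left (δ / 2) (1 / 2 : ℝ)
    linarith
  obtain ⟨U, z0, hU, hQU, hz0, hz0Q⟩ := data_exists hf hQ hna hr0pos
  set B : Set (ℙ ℂ E) := {p | ∃ n, s.map^[n] p ∈ U} with hBdef
  have hB : Basin s (coneOf B) := basin_of_trapping s hU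
  have hBo : IsOpen B := (isOpen_iff_coneOf _).2 hB.op
  have hQB : Q ⊆ B := fun p hp => ⟨0, hQU hp⟩
  have hz0B : z0.rep ∉ coneOf B := by
    rw [rep_mem_coneOf]
    rintro ⟨n, hn⟩
    exact hz0 n hn
  have hne : ((coneOf B)ᶜ).Nonempty := ⟨_, hz0B⟩
  -- the function r
  set r : ℙ ℂ E → ℝ := fun p => infDist p.rep (coneOf B)ᶜ / ‖p.rep‖ with hr
  have hrlip : ∀ p q : ℙ ℂ E, r p ≤ r q + dist p q := fun p q =>
    infDist_div_le (isCone_coneOf B) p.rep_nonzero q.rep_nonzero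
  have hrcont : Continuous r := by
    have h1 : LipschitzWith 1 r := LipschitzWith.of_le_add hrlip
    exact h1.continuous
  obtain ⟨q0, hq0, hmin⟩ := hQc.isCompact.exists_isMinOn hQne hrcont.continuousOn
  have hleast : IsLeast (r '' Q) (r q0) := by
    refine ⟨⟨q0, hq0, rfl⟩, ?_⟩
    rintro _ ⟨p, hp, rfl⟩
    exact hmin hp
  have hμ0 : 0 < r q0 := by
    have h1 : q0.rep ∉ (coneOf B)ᶜ := fun h => h (rep_mem_coneOf.2 (hQB hq0))
    have h2 : 0 < infDist q0.rep (coneOf B)ᶜ :=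
      (hB.op.isClosed_compl.notMem_iff_infDist_pos hne).1 h1
    exact div_pos h2 (norm_pos_iff.2 q0.rep_nonzero)
  have hμlt : r q0 < r0 := by
    obtain ⟨q, hq, hqz⟩ := (infDist_lt_iff hQne).1 hz0Q
    have h1 : r q0 ≤ r q := hmin hq
    have h2 : infDist q.rep (coneOf B)ᶜ ≤ ‖q.rep‖ * sd q.rep z0.rep :=
      infDist_le_sd (isCone_coneOf B) q.rep_nonzero z0.rep_nonzero hz0B
    have h3 : 0 < ‖q.rep‖ := norm_pos_iff.2 q.rep_nonzero
    have h4 : r q ≤ sd q.rep z0.rep := by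
      change infDist q.rep (coneOf B)ᶜ / ‖q.rep‖ ≤ _
      rwa [div_le_iff₀' h3]
    have h5 : sd q.rep z0.rep < r0 := by
      rw [sd_comm]
      exact hqz
    linarith
  -- the neighbourhood N
  set N : Set (ℙ ℂ E) := B ∩ thickening r0 Q with hN
  have hNo : IsOpen N := hBo.inter isOpen_thickening
  have hQN : Q ⊆ N := fun p hp => ⟨hQB hp, self_subset_thickening hr0pos Q hp⟩
  have hThick : Thick (coneOf U0) (coneOf B) (coneOf N) r0 := by
    refine ⟨hr0pos, hr0lt, coneOf_subset inter_subset_left, ?_⟩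
    rintro x ⟨hx, hxN⟩ y hy
    have hx' : 0 < ‖x‖ := norm_pos_iff.2 hx
    have hy0 : y ≠ 0 := by
      intro h0
      rw [h0, zero_sub, norm_neg] at hy
      nlinarith
    refine ⟨hy0, ?_⟩
    obtain ⟨q, hq, hxq⟩ := mem_thickening_iff.1 hxN.2
    apply hδU
    rw [mem_thickening_iff]
    refine ⟨q, hq, ?_⟩
    have h1 := sd_le hx hy0 1
    rw [one_smul, norm_sub_rev] at h1
    have h2 : sd x y < r0 := by
      have : ‖x‖ * sd x y < ‖x‖ * r0 := by
        rw [mul_comm ‖x‖ r0]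
        exact lt_of_le_of_lt h1 hy
      exact lt_of_mul_lt_mul_left this hx'.le
    have h3 : dist (Projectivization.mk ℂ y hy0) (Projectivization.mk ℂ x hx) = sd y x :=
      pdist_mk hy0 hx
    have h4 := dist_triangle (Projectivization.mk ℂ y hy0) (Projectivization.mk ℂ x hx) q
    rw [h3, sd_comm] at h4
    linarith
  have hrig := rig_proj hRig s hContr hB hThick hμ0 hμlt
  have hvit := vit_proj s
  exact hna (t_main hf hQ hrcont hNo hQN hleast hμ0 (θ := 1 / 20) (c0 := 1 / 20) (by norm_num)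
    (by norm_num) (by norm_num) hrig hvit)

end MFE
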