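import Pool.Agent.Lib.MFE.Main
import Pool.Agent.Lib.MFE.RigidH

/-!
# Theorem F, assembly
-/

set_option autoImplicit false

open Set Metric Filter Topology
open scoped LinearAlgebra.Projectivization

namespace MFE

variable {E : Type*} [NormedAddCommGroup E] [InnerProductSpace ℂ E]

theorem rig_projH [FiniteDimensional ℂ E] (s : HMap E) {U0 : Set E}
    {B N : Set (ℙ ℂ E)} (h : Har U0 (coneOf B)) (hB : IsOpen (coneOf B)) {r0 μ0 : ℝ}
    (hN : Thick U0 (coneOf B) (coneOf N) r0) (hμ : 0 < μ0) (hμ0 : μ0 < r0) :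
    Rig pdist s.map (fun p => infDist p.rep (coneOf B)ᶜ / ‖p.rep‖) N μ0 (1 / 20) := by
  intro c hc
  obtain ⟨τ, hτ, H⟩ := rigidH h hB (isCone_coneOf B) hN hμ hμ0 c hc
  refine ⟨τ, hτ, ?_⟩
  intro ε hε hε1 k a μ hμpos hμle hx hra x hxa
  obtain ⟨v, u, hv, -, hva, hd, h5, hxv⟩ := exists_disc a x hε hε1 hxa
  have hr : ∀ p, infDist p.rep (coneOf B)ᶜ / ‖p.rep‖ = rfun B p := fun p => rfl
  have hball : ∀ z ∈ ball (0 : ℂ) 1, ∃ h0 : v + z • u ≠ 0,
      s.F^[k] (v + z • u) ∈ coneOf N ∧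
        μ * ‖s.F^[k] (v + z • u)‖ ≤ τ * infDist (s.F^[k] (v + z • u)) (coneOf B)ᶜ := by
    intro z hz
    obtain ⟨h0, hlt⟩ := hd z (by simpa using hz)
    obtain ⟨h1, h2⟩ := hx _ hlt
    rw [s.iter_map_mk h0] at h1
    simp only [hr] at h2
    rw [s.iter_map_mk h0, rfun_mk] at h2
    have hpos : 0 < ‖s.F^[k] (v + z • u)‖ := norm_pos_iff.2 (s.iter_ne h0 k)
    refine ⟨h0, ⟨_, h1⟩, ?_⟩
    rwa [← mul_div_assoc, le_div_iff₀ hpos] at h2
  have h0r : infDist (s.F^[k] (v + (0 : ℂ) • u)) (coneOf B)ᶜ ≤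
      τ * μ * ‖s.F^[k] (v + (0 : ℂ) • u)‖ := by
    have hv0 : v + (0 : ℂ) • u = v := by simp
    rw [hv0]
    simp only [hr] at hra
    rw [← hva, s.iter_map_mk hv, rfun_mk] at hra
    have hpos : 0 < ‖s.F^[k] v‖ := norm_pos_iff.2 (s.iter_ne hv k)
    rwa [div_le_iff₀ hpos] at hra
  have hfin := H (fun ζ : ℂ => s.F^[k] (v + ζ • u)) μ
    (fun z _ => analytic_disc s k v u z (mem_univ _)) (fun z hz => (hball z hz).2.1) hμpos hμle
    (fun z hz => (hball z hz).2.2) h0r (1 / 5) (by simp)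
  have hv0 : v + (0 : ℂ) • u = v := by simp
  simp only [hv0] at hfin
  rw [← hxv, ← hva, s.iter_map_mk h5, s.iter_map_mk hv, pdist_mk]
  exact hfin

theorem main_auxH [FiniteDimensional ℂ E] (s : HMap E) {Q UA : Set (ℙ ℂ E)}
    (hQ : MF7.IsMinimalQuasi s.map Q) (hUA : MF7.IsTrapping s.map UA) (hQUA : Q ⊆ UA)
    (hHar : ∀ U0 U : Set (ℙ ℂ E), MF7.IsTrapping s.map U0 → Q ⊆ U0 → U0 ⊆ UA →
      MF7.IsTrapping s.map U → Q ⊆ U → Har (coneOf U0) (coneOf (basin s U))) :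
    MF7.IsAttracting s.map Q := by
  classical
  by_contra hna
  haveI : CompactSpace (ℙ ℂ E) := compactSpace_proj
  letI := projMetric E
  have hf : Continuous s.map := s.continuous_map
  obtain ⟨hQc, hfQ, hnb⟩ := hQ.nhds hf
  have hQne : Q.Nonempty := hQ.1.1
  obtain ⟨U0, hU0, hQU0, hU0A⟩ := hnb _ hUA.2.1 hQUA
  obtain ⟨δ, hδ, hδU⟩ := hQc.isCompact.exists_thickening_subset_open hU0.2.1 hQU0
  set r0 : ℝ := min (δ / 2) (1 / 2) with hr0
  have hr0pos : 0 < r0 := by positivity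
  have hr0lt : r0 < 1 := lt_of_le_of_lt (min_le_right _ _) (by norm_num)
  have hr0δ : 2 * r0 ≤ δ := by
    have := min_le_left (δ / 2) (1 / 2 : ℝ)
    linarith
  obtain ⟨U, z0, hU, hQU, hz0, hz0Q⟩ := data_exists hf hQ hna hr0pos
  have hHU := hHar U0 U hU0 hQU0 hU0A hU hQU
  set B : Set (ℙ ℂ E) := basin s U with hBdef
  have hB : Basin s (coneOf B) := basin_of_trapping s hU
  have hBo : IsOpen B := (isOpen_iff_coneOf _).2 hB.op
  have hQB : Q ⊆ B := fun p hp => ⟨0, hQU hp⟩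
  have hz0B : z0.rep ∉ coneOf B := by
    rw [rep_mem_coneOf]
    rintro ⟨n, hn⟩
    exact hz0 n hn
  have hne : ((coneOf B)ᶜ).Nonempty := ⟨_, hz0B⟩
  -- the function r
  set r : ℙ ℂ E → ℝ := fun p => infDist p.rep (coneOf B)ᶜ / ‖p.rep‖ with hr
  have hrlip : ∀ p q : ℙ ℂ E, r p ≤ r q + dist p q := fun p q =>
    infDist_div_le (isCone_coneOf B) p.rep_nonzero q.rep_nonzero
  have hrcont : Continuous r := by
    have h1 : LipschitzWith 1 r := LipschitzWith.of_le_add hrlip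
    exact h1.continuous
  obtain ⟨q0, hq0, hmin⟩ := hQc.isCompact.exists_isMinOn hQne hrcont.continuousOn
  have hleast : IsLeast (r '' Q) (r q0) := by
    refine ⟨⟨q0, hq0, rfl⟩, ?_⟩
    rintro _ ⟨p, hp, rfl⟩
    exact hmin hp
  have hμ0 : 0 < r q0 := by
    have h1 : q0.rep ∉ (coneOf B)ᶜ := fun h => h (rep_mem_coneOf.2 (hQB hq0))
    have h2 : 0 < infDist q0.rep (coneOf B)ᶜ :=
      (hB.op.isClosed_compl.notMem_iff_infDist_pos hne).1 h1
    exact div_pos h2 (norm_pos_iff.2 q0.rep_nonzero)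
  have hμlt : r q0 < r0 := by
    obtain ⟨q, hq, hqz⟩ := (infDist_lt_iff hQne).1 hz0Q
    have h1 : r q0 ≤ r q := hmin hq
    have h2 : infDist q.rep (coneOf B)ᶜ ≤ ‖q.rep‖ * sd q.rep z0.rep :=
      infDist_le_sd (isCone_coneOf B) q.rep_nonzero z0.rep_nonzero hz0B
    have h3 : 0 < ‖q.rep‖ := norm_pos_iff.2 q.rep_nonzero
    have h4 : r q ≤ sd q.rep z0.rep := by
      change infDist q.rep (coneOf B)ᶜ / ‖q.rep‖ ≤ _
      rwa [div_le_iff₀' h3]
    have h5 : sd q.rep z0.rep < r0 := by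
      rw [sd_comm]
      exact hqz
    linarith
  -- the neighbourhood N
  set N : Set (ℙ ℂ E) := B ∩ thickening r0 Q with hN
  have hNo : IsOpen N := hBo.inter isOpen_thickening
  have hQN : Q ⊆ N := fun p hp => ⟨hQB hp, self_subset_thickening hr0pos Q hp⟩
  have hThick : Thick (coneOf U0) (coneOf B) (coneOf N) r0 := by
    refine ⟨hr0pos, hr0lt, coneOf_subset inter_subset_left, ?_⟩
    rintro x ⟨hx, hxN⟩ y hy
    have hx' : 0 < ‖x‖ := norm_pos_iff.2 hx
    have hy0 : y ≠ 0 := by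
      intro h0
      rw [h0, zero_sub, norm_neg] at hy
      nlinarith
    refine ⟨hy0, ?_⟩
    obtain ⟨q, hq, hxq⟩ := mem_thickening_iff.1 hxN.2
    apply hδU
    rw [mem_thickening_iff]
    refine ⟨q, hq, ?_⟩
    have h1 := sd_le hx hy0 1
    rw [one_smul, norm_sub_rev] at h1
    have h2 : sd x y < r0 := by
      have : ‖x‖ * sd x y < ‖x‖ * r0 := by
        rw [mul_comm ‖x‖ r0]
        exact lt_of_le_of_lt h1 hy
      exact lt_of_mul_lt_mul_left this hx'.le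
    have h3 : dist (Projectivization.mk ℂ y hy0) (Projectivization.mk ℂ x hx) = sd y x :=
      pdist_mk hy0 hx
    have h4 := dist_triangle (Projectivization.mk ℂ y hy0) (Projectivization.mk ℂ x hx) q
    rw [h3, sd_comm] at h4
    linarith
  have hrig := rig_projH s hHU hB.op hThick hμ0 hμlt
  have hvit := vit_proj s
  exact hna (t_main hf hQ hrcont hNo hQN hleast hμ0 (θ := 1 / 20) (c0 := 1 / 20) (by norm_num)
    (by norm_num) (by norm_num) hrig hvit)

end MFE
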