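import Pool.Agent.Lib.MFE.Defs

/-!
# Area-contracting minimal quasi-attractors: statements of the analytic rows
-/

set_option autoImplicit false

open Set Metric Filter Topology MeasureTheory
open scoped LinearAlgebra.Projectivization

namespace MFE

variable (E : Type*) [NormedAddCommGroup E] [InnerProductSpace ℂ E]

/-- row LEL: a lower bound for the weighted area of a disc through the centre of the ball -/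
def LelStmt : Prop := ∀ (O : Set ℂ) (w : ℂ → E) (z0 : ℂ), IsOpen O → AnalyticOnNhd ℂ w O →
  z0 ∈ O → w z0 = 0 → IsCompact {z | z ∈ O ∧ ‖w z‖ ≤ 1} →
  Real.pi / 32 ≤ ∫ z in {z | z ∈ O ∧ ‖w z‖ < 1}, (1 - ‖w z‖ ^ 2) ^ 3 * ‖deriv w z‖ ^ 2

/-- row Ident: the pointwise identity behind row Weak -/
def IdentStmt : Prop := ∀ (Ω : Set (ℂ × ℂ)) (w : ℂ × ℂ → E) (l l1 l2 : ℝ → ℝ) (c : ℂ),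
  IsOpen Ω → AnalyticOnNhd ℂ w Ω → (∀ x, HasDerivAt l (l1 x) x) → (∀ x, HasDerivAt l1 (l2 x) x) →
  ∀ q ∈ Ω, wt (v1 w l1 c) q - wtb (v2 w l c) q - wz (v3 w l1 c) q + wtb (v4 w l c) q
      + wzb (v5 w l c) q - wzb (v6 w l c) q =
    (((l1 (‖q.2 - c‖ ^ 2) + ‖q.2 - c‖ ^ 2 * l2 (‖q.2 - c‖ ^ 2)) *
        (K0 (‖w q‖ ^ 2) * ‖dz w q‖ ^ 2) -
      l (‖q.2 - c‖ ^ 2) * (2 * K1 (‖w q‖ ^ 2) * G2 (dz w q) (dt w q) + K2 (‖w q‖ ^ 2) *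
        ‖inner ℂ (w q) (dt w q) • dz w q - inner ℂ (w q) (dz w q) • dt w q‖ ^ 2) : ℝ) : ℂ)

/-- row Weak: the weak Laplacian of the area function -/
def WeakStmt : Prop := ∀ (Ω : Set (ℂ × ℂ)) (w : ℂ × ℂ → E) (l l1 l2 : ℝ → ℝ) (c : ℂ) (b : ℝ),
  IsOpen Ω → AnalyticOnNhd ℂ w Ω → (∀ x, HasDerivAt l (l1 x) x) → (∀ x, HasDerivAt l1 (l2 x) x) →
  Continuous l2 → (∀ x, b ≤ x → l x = 0) →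
  IsCompact {q | q ∈ Ω ∧ ‖w q‖ ≤ 1 ∧ ‖q.2 - c‖ ^ 2 ≤ b} →
  |∫ q in {q | q ∈ Ω ∧ ‖w q‖ < 1}, (l1 (‖q.2 - c‖ ^ 2) + ‖q.2 - c‖ ^ 2 * l2 (‖q.2 - c‖ ^ 2)) *
      ((1 - ‖w q‖ ^ 2) ^ 3 * ‖dz w q‖ ^ 2)| ≤
    12 * ∫ q in {q | q ∈ Ω ∧ ‖w q‖ < 1}, |l (‖q.2 - c‖ ^ 2)| * G2 (dz w q) (dt w q)

/-- row Harnack -/
def HarnackStmt : Prop := ∀ (ρ s0 : ℝ) (t0 : ℂ), 1 < ρ → 0 < s0 → ‖t0‖ ≤ 1 →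
  ∃ C : ℝ, 0 ≤ C ∧ ∀ (a : ℂ → ℝ) (ε : ℝ), 0 ≤ ε → ContinuousOn a (ball 0 ρ) →
    (∀ t ∈ ball (0 : ℂ) ρ, 0 ≤ a t) → (∀ t, ‖t‖ ≤ s0 → a t = 0) →
    (∀ (l l1 l2 : ℝ → ℝ) (c : ℂ) (b : ℝ), (∀ x, HasDerivAt l (l1 x) x) →
      (∀ x, HasDerivAt l1 (l2 x) x) → Continuous l2 → 0 < b → (∀ x, b ≤ x → l x = 0) →
      ‖c‖ + Real.sqrt b < ρ →
      |∫ t : ℂ, (l1 (‖t - c‖ ^ 2) + ‖t - c‖ ^ 2 * l2 (‖t - c‖ ^ 2)) * a t| ≤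
        ε * ∫ t : ℂ, |l (‖t - c‖ ^ 2)|) →
    a t0 ≤ C * ε

/-- row Gram: the pointwise estimate -/
def GramStmt : Prop := ∀ (x : ℂ × ℂ → E) (q : ℂ × ℂ) (e : E) (lam : ℝ), ‖e‖ = 1 → 0 < lam →
  DifferentiableAt ℂ x q → inner ℂ e (x q) ≠ 0 →
  ‖(lam : ℂ) • ((inner ℂ e (x q))⁻¹ • x q - e)‖ < 1 →
  ‖x q‖ ^ 6 * G2 (dz (fun q => (lam : ℂ) • ((inner ℂ e (x q))⁻¹ • x q - e)) q)
      (dt (fun q => (lam : ℂ) • ((inner ℂ e (x q))⁻¹ • x q - e)) q) ≤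
    lam ^ 4 * (1 + 1 / lam ^ 2) ^ 3 * G3 (x q) (dz x q) (dt x q)

/-- row Local: the Hartogs type lemma -/
def LocalStmt : Prop := ∀ (s : HMap E) (U0 B : Set E) (H : ℂ × ℂ → E) (a : ℂ) (R ρ : ℝ),
  Contr s U0 → Basin s B → 0 < R → 1 < ρ →
  AnalyticOnNhd ℂ H (closedBall a R ×ˢ closedBall 0 ρ) →
  (∀ q ∈ closedBall a R ×ˢ closedBall (0 : ℂ) ρ, H q ∈ U0 ∧ H q ≠ 0) →
  (∀ q ∈ sphere a R ×ˢ closedBall (0 : ℂ) ρ, H q ∈ B) →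
  (∀ z ∈ closedBall a R, H (z, 0) ∈ B) →
  ∀ q ∈ closedBall a R ×ˢ closedBall (0 : ℂ) 1, H q ∈ B

/-- row B -/
def BStmt : Prop := ∀ (s : HMap E) (U0 B N : Set E) (r0 : ℝ), Contr s U0 → Basin s B →
  Thick U0 B N r0 → ∀ (ψ : ℂ → E) (a : ℂ), AnalyticOnNhd ℂ ψ (ball 0 1) →
  (∀ z ∈ ball (0 : ℂ) 1, ψ z ∈ N) → a ∈ ball (0 : ℂ) 1 → infDist (ψ a) Bᶜ < r0 * ‖ψ a‖ →
  LS (fun z => (infDist (ψ z) Bᶜ)⁻¹) a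

/-- row Rigid -/
def RigidStmt : Prop := ∀ (s : HMap E) (U0 B N : Set E) (r0 μ0 : ℝ), Contr s U0 → Basin s B →
  Thick U0 B N r0 → 0 < μ0 → μ0 < r0 → ∀ c : ℝ, 0 < c → ∃ τ : ℝ, 1 < τ ∧ ∀ (ψ : ℂ → E) (μ : ℝ),
    AnalyticOnNhd ℂ ψ (ball 0 1) → (∀ z ∈ ball (0 : ℂ) 1, ψ z ∈ N) → 0 < μ → μ ≤ μ0 →
    (∀ z ∈ ball (0 : ℂ) 1, μ * ‖ψ z‖ ≤ τ * infDist (ψ z) Bᶜ) →
    infDist (ψ 0) Bᶜ ≤ τ * μ * ‖ψ 0‖ → ∀ z : ℂ, ‖z‖ ≤ 1 / 5 → sd (ψ z) (ψ 0) < c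

end MFE
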