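import Pool.Agent.Lib.MFE.Props
import Pool.Agent.Lib.MFE.Wirt
import Pool.Agent.Lib.MFE.Ident

/-!
# Row R2c: the weak inequality
-/

set_option autoImplicit false

open Set Metric Filter Topology MeasureTheory

namespace MFE

namespace WeakAux

open IdentAux

lemma contDiff_of_hasDerivAt {f f' : ℝ → ℝ} (h : ∀ x, HasDerivAt f (f' x) x) (hc : Continuous f') :
    ContDiff ℝ 1 f := by
  rw [contDiff_one_iff_deriv]
  refine ⟨fun x => (h x).differentiableAt, ?_⟩
  have : deriv f = f' := funext fun x => (h x).deriv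
  rw [this]
  exact hc

lemma continuous_K2 : Continuous K2 := by
  unfold K2
  fun_prop

lemma continuous_K1 : Continuous K1 := by
  unfold K1
  fun_prop

lemma contDiff_K0 : ContDiff ℝ 1 K0 := contDiff_of_hasDerivAt hasDerivAt_K0 continuous_K1

lemma contDiff_K1 : ContDiff ℝ 1 K1 := contDiff_of_hasDerivAt hasDerivAt_K1 continuous_K2

lemma K0_zero {x : ℝ} (h : 1 ≤ x) : K0 x = 0 := by
  unfold K0
  rw [max_eq_right (by linarith)]
  norm_num

lemma K1_zero {x : ℝ} (h : 1 ≤ x) : K1 x = 0 := by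
  unfold K1
  rw [max_eq_right (by linarith)]
  norm_num

lemma K2_zero {x : ℝ} (h : 1 ≤ x) : K2 x = 0 := by
  unfold K2
  rw [max_eq_right (by linarith)]
  norm_num

lemma deriv_zero_of_gt {l l1 : ℝ → ℝ} {b : ℝ} (h : ∀ x, HasDerivAt l (l1 x) x) (hb : ∀ x, b ≤ x → l x = 0)
    {x : ℝ} (hx : b < x) : l1 x = 0 := by
  have h1 : l =ᶠ[𝓝 x] fun _ => 0 := by
    filter_upwards [lt_mem_nhds hx] with y hy
    exact hb y hy.le
  have h2 := (hasDerivAt_const x (0 : ℝ)).congr_of_eventuallyEq h1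
  exact (h x).unique h2

variable {E : Type*} [NormedAddCommGroup E] [InnerProductSpace ℂ E]

section smooth

variable {w : ℂ × ℂ → E} {l l1 l2 : ℝ → ℝ} {c : ℂ} {q : ℂ × ℂ}

lemma smooth_T : ContDiffAt ℝ 1 (fun q : ℂ × ℂ => q.2 - c) q := by
  fun_prop

lemma smooth_lX {f : ℝ → ℝ} (h : ContDiff ℝ 1 f) :
    ContDiffAt ℝ 1 (fun q : ℂ × ℂ => f (‖q.2 - c‖ ^ 2)) q :=
  h.contDiffAt.comp q ((smooth_T (c := c)).norm_sq ℝ)

lemma smooth_fg {f : ℝ → ℝ} (h : ContDiff ℝ 1 f) (hw : ContDiffAt ℝ 1 w q) :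
    ContDiffAt ℝ 1 (fun q : ℂ × ℂ => f (‖w q‖ ^ 2)) q :=
  h.contDiffAt.comp q (hw.norm_sq ℂ)

lemma smooth_coe {f : ℂ × ℂ → ℝ} (h : ContDiffAt ℝ 1 f q) :
    ContDiffAt ℝ 1 (fun q : ℂ × ℂ => ((f q : ℝ) : ℂ)) q :=
  Complex.ofRealCLM.contDiff.contDiffAt.comp q h

lemma v1_smooth (hl1 : ContDiff ℝ 1 l1) (hw : ContDiffAt ℝ 1 w q) (hz : ContDiffAt ℝ 1 (dz w) q) :
    ContDiffAt ℝ 1 (v1 w l1 c) q :=
  (smooth_coe (((smooth_lX hl1).mul (smooth_fg contDiff_K0 hw)).mul (hz.norm_sq ℂ))).mul smooth_T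

lemma v2_smooth (hl : ContDiff ℝ 1 l) (hw : ContDiffAt ℝ 1 w q) (hz : ContDiffAt ℝ 1 (dz w) q)
    (ht : ContDiffAt ℝ 1 (dt w) q) : ContDiffAt ℝ 1 (v2 w l c) q :=
  (smooth_coe (((smooth_lX hl).mul (smooth_fg contDiff_K1 hw)).mul (hz.norm_sq ℂ))).mul (hw.inner ℂ ht)

lemma v3_smooth (hl1 : ContDiff ℝ 1 l1) (hw : ContDiffAt ℝ 1 w q) (hz : ContDiffAt ℝ 1 (dz w) q)
    (ht : ContDiffAt ℝ 1 (dt w) q) : ContDiffAt ℝ 1 (v3 w l1 c) q :=
  ((smooth_coe ((smooth_lX hl1).mul (smooth_fg contDiff_K0 hw))).mul smooth_T).mul (hz.inner ℂ ht)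

lemma v4_smooth (hl : ContDiff ℝ 1 l) (hw : ContDiffAt ℝ 1 w q) (hz : ContDiffAt ℝ 1 (dz w) q)
    (ht : ContDiffAt ℝ 1 (dt w) q) : ContDiffAt ℝ 1 (v4 w l c) q :=
  ((smooth_coe ((smooth_lX hl).mul (smooth_fg contDiff_K1 hw))).mul (hw.inner ℂ hz)).mul (hz.inner ℂ ht)

lemma v5_smooth (hl : ContDiff ℝ 1 l) (hw : ContDiffAt ℝ 1 w q) (hz : ContDiffAt ℝ 1 (dz w) q)
    (ht : ContDiffAt ℝ 1 (dt w) q) : ContDiffAt ℝ 1 (v5 w l c) q :=
  ((smooth_coe ((smooth_lX hl).mul (smooth_fg contDiff_K1 hw))).mul (hw.inner ℂ ht)).mul (ht.inner ℂ hz)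

lemma v6_smooth (hl : ContDiff ℝ 1 l) (hw : ContDiffAt ℝ 1 w q) (hz : ContDiffAt ℝ 1 (dz w) q)
    (ht : ContDiffAt ℝ 1 (dt w) q) : ContDiffAt ℝ 1 (v6 w l c) q :=
  (smooth_coe (((smooth_lX hl).mul (smooth_fg contDiff_K1 hw)).mul (ht.norm_sq ℂ))).mul (hw.inner ℂ hz)

end smooth

/-- the integral of an extended field and its integrability -/
lemma ext_field {Ω K : Set (ℂ × ℂ)} (hΩ : IsOpen Ω) (hK : IsCompact K) (hKΩ : K ⊆ Ω) {u : ℂ × ℂ → ℂ}
    (hu : ∀ q ∈ Ω, ContDiffAt ℝ 1 u q) (h0 : ∀ x ∈ Ω, x ∉ K → u x = 0) :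
    ContDiff ℝ 1 (Ω.indicator u) ∧ HasCompactSupport (Ω.indicator u) ∧
    (∀ q ∈ Ω, fderiv ℝ (Ω.indicator u) q = fderiv ℝ u q) ∧ ∀ q, q ∉ Ω → fderiv ℝ (Ω.indicator u) q = 0 :=
  ⟨contDiff_indicator hΩ hK hKΩ (fun q hq => (hu q hq).contDiffWithinAt) h0,
    hasCompactSupport_indicator hK h0, fun _ hq => fderiv_indicator hΩ hq,
    fun _ hq => fderiv_indicator_of_notMem hK h0 (fun h => hq (hKΩ h))⟩

end WeakAux

open WeakAux IdentAux in
theorem weak (E : Type*) [NormedAddCommGroup E] [InnerProductSpace ℂ E] [FiniteDimensional ℂ E]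
    (h : IdentStmt E)
    (hc : ∀ w a b : E, ‖inner ℂ w b • a - inner ℂ w a • b‖ ^ 2 ≤ ‖w‖ ^ 2 * G2 a b)
    (hG : ∀ a b : E, 0 ≤ G2 a b) : WeakStmt E := by
  intro Ω w l l1 l2 c b hΩ hw hl hl1 hl2 hb hK
  have : CompleteSpace E := FiniteDimensional.complete ℂ E
  set K : Set (ℂ × ℂ) := {q | q ∈ Ω ∧ ‖w q‖ ≤ 1 ∧ ‖q.2 - c‖ ^ 2 ≤ b} with hKdef
  have hKΩ : K ⊆ Ω := fun q hq => hq.1
  have hf : AnalyticOnNhd ℂ (fderiv ℂ w) Ω := hw.fderiv
  have sw : ∀ q ∈ Ω, ContDiffAt ℝ 1 w q := fun q hq => ((hw q hq).contDiffAt (n := 1)).restrict_scalars ℝ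
  have sz : ∀ q ∈ Ω, ContDiffAt ℝ 1 (dz w) q := fun q hq =>
    (((hf q hq).contDiffAt (n := 1)).clm_apply contDiffAt_const).restrict_scalars ℝ
  have st : ∀ q ∈ Ω, ContDiffAt ℝ 1 (dt w) q := fun q hq =>
    (((hf q hq).contDiffAt (n := 1)).clm_apply contDiffAt_const).restrict_scalars ℝ
  have cl1 : ContDiff ℝ 1 l1 := contDiff_of_hasDerivAt hl1 hl2
  have cl : ContDiff ℝ 1 l := contDiff_of_hasDerivAt hl cl1.continuous
  have hl1b : ∀ x, b < x → l1 x = 0 := fun x hx => deriv_zero_of_gt hl hb hx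
  have hl2b : ∀ x, b < x → l2 x = 0 := by
    intro x hx
    have h1 : l1 =ᶠ[𝓝 x] fun _ => 0 := by
      filter_upwards [lt_mem_nhds hx] with y hy
      exact hl1b y hy
    exact (hl1 x).unique ((hasDerivAt_const x (0 : ℝ)).congr_of_eventuallyEq h1)
  -- outside `K`
  have off : ∀ q ∈ Ω, q ∉ K → (1 ≤ ‖w q‖ ^ 2) ∨ b < ‖q.2 - c‖ ^ 2 := by
    intro q hq hqK
    by_contra hn
    push Not at hn
    apply hqK
    refine ⟨hq, ?_, hn.2⟩
    by_contra h1
    push Not at h1
    nlinarith [hn.1]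
  obtain ⟨a1, b1, d1, e1⟩ := ext_field hΩ hK hKΩ (u := v1 w l1 c)
    (fun q hq => v1_smooth cl1 (sw q hq) (sz q hq)) (by
      intro q hq hqK
      unfold v1
      rcases off q hq hqK with h1 | h1
      · simp [K0_zero h1]
      · simp [hl1b _ h1])
  obtain ⟨a2, b2, d2, e2⟩ := ext_field hΩ hK hKΩ (u := v2 w l c)
    (fun q hq => v2_smooth cl (sw q hq) (sz q hq) (st q hq)) (by
      intro q hq hqK
      unfold v2
      rcases off q hq hqK with h1 | h1
      · simp [K1_zero h1]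
      · simp [hb _ h1.le])
  obtain ⟨a3, b3, d3, e3⟩ := ext_field hΩ hK hKΩ (u := v3 w l1 c)
    (fun q hq => v3_smooth cl1 (sw q hq) (sz q hq) (st q hq)) (by
      intro q hq hqK
      unfold v3
      rcases off q hq hqK with h1 | h1
      · simp [K0_zero h1]
      · simp [hl1b _ h1])
  obtain ⟨a4, b4, d4, e4⟩ := ext_field hΩ hK hKΩ (u := v4 w l c)
    (fun q hq => v4_smooth cl (sw q hq) (sz q hq) (st q hq)) (by
      intro q hq hqK
      unfold v4
      rcases off q hq hqK with h1 | h1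
      · simp [K1_zero h1]
      · simp [hb _ h1.le])
  obtain ⟨a5, b5, d5, e5⟩ := ext_field hΩ hK hKΩ (u := v5 w l c)
    (fun q hq => v5_smooth cl (sw q hq) (sz q hq) (st q hq)) (by
      intro q hq hqK
      unfold v5
      rcases off q hq hqK with h1 | h1
      · simp [K1_zero h1]
      · simp [hb _ h1.le])
  obtain ⟨a6, b6, d6, e6⟩ := ext_field hΩ hK hKΩ (u := v6 w l c)
    (fun q hq => v6_smooth cl (sw q hq) (sz q hq) (st q hq)) (by
      intro q hq hqK
      unfold v6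
      rcases off q hq hqK with h1 | h1
      · simp [K1_zero h1]
      · simp [hb _ h1.le])
  -- the two real functions
  set P : ℂ × ℂ → ℝ := fun q => (l1 (‖q.2 - c‖ ^ 2) + ‖q.2 - c‖ ^ 2 * l2 (‖q.2 - c‖ ^ 2)) *
        (K0 (‖w q‖ ^ 2) * ‖dz w q‖ ^ 2) with hP
  set R : ℂ × ℂ → ℝ := fun q => l (‖q.2 - c‖ ^ 2) * (2 * K1 (‖w q‖ ^ 2) * G2 (dz w q) (dt w q) + K2 (‖w q‖ ^ 2) *
        ‖inner ℂ (w q) (dt w q) • dz w q - inner ℂ (w q) (dz w q) • dt w q‖ ^ 2) with hR
  have key : ∀ q, wt (Ω.indicator (v1 w l1 c)) q - wtb (Ω.indicator (v2 w l c)) q -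
      wz (Ω.indicator (v3 w l1 c)) q + wtb (Ω.indicator (v4 w l c)) q + wzb (Ω.indicator (v5 w l c)) q -
      wzb (Ω.indicator (v6 w l c)) q = ((Ω.indicator P q - Ω.indicator R q : ℝ) : ℂ) := by
    intro q
    by_cases hq : q ∈ Ω
    · rw [indicator_of_mem hq, indicator_of_mem hq]
      have := h Ω w l l1 l2 c hΩ hw hl hl1 q hq
      rw [← this]
      unfold wt wtb wz wzb
      rw [d1 q hq, d2 q hq, d3 q hq, d4 q hq, d5 q hq, d6 q hq]
    · rw [indicator_of_notMem hq, indicator_of_notMem hq]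
      unfold wt wtb wz wzb
      rw [e1 q hq, e2 q hq, e3 q hq, e4 q hq, e5 q hq, e6 q hq]
      simp
  have int0 : ∫ q, ((Ω.indicator P q - Ω.indicator R q : ℝ) : ℂ) = 0 := by
    simp_rw [← key]
    rw [integral_sub, integral_add, integral_add, integral_sub, integral_sub,
      integral_wt a1 b1, integral_wtb a2 b2, integral_wz a3 b3, integral_wtb a4 b4, integral_wzb a5 b5,
      integral_wzb a6 b6]
    · simp
    · exact integrable_wt a1 b1
    · exact integrable_wtb a2 b2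
    · exact (integrable_wt a1 b1).sub (integrable_wtb a2 b2)
    · exact integrable_wz a3 b3
    · exact ((integrable_wt a1 b1).sub (integrable_wtb a2 b2)).sub (integrable_wz a3 b3)
    · exact integrable_wtb a4 b4
    · exact (((integrable_wt a1 b1).sub (integrable_wtb a2 b2)).sub (integrable_wz a3 b3)).add
        (integrable_wtb a4 b4)
    · exact integrable_wzb a5 b5
    · exact ((((integrable_wt a1 b1).sub (integrable_wtb a2 b2)).sub (integrable_wz a3 b3)).add
        (integrable_wtb a4 b4)).add (integrable_wzb a5 b5)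
    · exact integrable_wzb a6 b6
  -- continuity and integrability
  have cw : ContinuousOn w Ω := fun q hq => (sw q hq).continuousAt.continuousWithinAt
  have cz : ContinuousOn (dz w) Ω := fun q hq => (sz q hq).continuousAt.continuousWithinAt
  have ct : ContinuousOn (dt w) Ω := fun q hq => (st q hq).continuousAt.continuousWithinAt
  have cX : Continuous (fun q : ℂ × ℂ => ‖q.2 - c‖ ^ 2) := by fun_prop
  have cg : ContinuousOn (fun q => ‖w q‖ ^ 2) Ω := cw.norm.pow 2
  have cG : ContinuousOn (fun q => G2 (dz w q) (dt w q)) Ω := by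
    unfold G2
    exact ((cz.norm.pow 2).mul (ct.norm.pow 2)).sub ((cz.inner (𝕜 := ℂ) ct).norm.pow 2)
  have cP : ContinuousOn P Ω := by
    refine ContinuousOn.mul ?_ ?_
    · exact ((cl1.continuous.comp cX).add (cX.mul (hl2.comp cX))).continuousOn
    · exact (contDiff_K0.continuous.comp_continuousOn cg).mul (cz.norm.pow 2)
  have cR : ContinuousOn R Ω := by
    refine ContinuousOn.mul (cl.continuous.comp cX).continuousOn ?_
    refine ContinuousOn.add ?_ ?_
    · exact ((continuousOn_const.mul (continuous_K1.comp_continuousOn cg))).mul cG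
    · exact (continuous_K2.comp_continuousOn cg).mul
        ((((cw.inner (𝕜 := ℂ) ct).smul cz).sub ((cw.inner (𝕜 := ℂ) cz).smul ct)).norm.pow 2)
  have offP : ∀ q ∈ Ω, q ∉ K → P q = 0 := by
    intro q hq hqK
    simp only [hP]
    rcases off q hq hqK with h1 | h1
    · rw [K0_zero h1]; ring
    · rw [hl1b _ h1, hl2b _ h1]; ring
  have offR : ∀ q ∈ Ω, q ∉ K → R q = 0 := by
    intro q hq hqK
    simp only [hR]
    rcases off q hq hqK with h1 | h1
    · rw [K1_zero h1, K2_zero h1]; ring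
    · rw [hb _ h1.le]; ring
  have iP : Integrable (Ω.indicator P) :=
    (contDiff_zero.1 (contDiff_indicator (n := 0) hΩ hK hKΩ (contDiffOn_zero.2 cP) offP)).integrable_of_hasCompactSupport
      (hasCompactSupport_indicator hK offP)
  have iR : Integrable (Ω.indicator R) :=
    (contDiff_zero.1 (contDiff_indicator (n := 0) hΩ hK hKΩ (contDiffOn_zero.2 cR) offR)).integrable_of_hasCompactSupport
      (hasCompactSupport_indicator hK offR)
  have eqPR : ∫ q, Ω.indicator P q = ∫ q, Ω.indicator R q := by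
    rw [integral_complex_ofReal] at int0
    have h1 : ∫ q, (Ω.indicator P q - Ω.indicator R q) = 0 := by exact_mod_cast int0
    rw [integral_sub iP iR] at h1
    linarith
  -- the set
  set S : Set (ℂ × ℂ) := {q | q ∈ Ω ∧ ‖w q‖ < 1} with hS
  have hSo : IsOpen S := by
    have := cw.norm.isOpen_inter_preimage hΩ (isOpen_Iio (a := (1 : ℝ)))
    exact this
  have hSm : MeasurableSet S := hSo.measurableSet
  have hSΩ : S ⊆ Ω := fun q hq => hq.1
  have gS : ∀ q ∈ S, ‖w q‖ ^ 2 < 1 := by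
    intro q hq
    have := hq.2
    nlinarith [norm_nonneg (w q)]
  have gS' : ∀ q ∈ Ω, q ∉ S → 1 ≤ ‖w q‖ ^ 2 := by
    intro q hq hqS
    have : 1 ≤ ‖w q‖ := by
      by_contra hn
      push Not at hn
      exact hqS ⟨hq, hn⟩
    nlinarith
  have eL : ∫ q in S, (l1 (‖q.2 - c‖ ^ 2) + ‖q.2 - c‖ ^ 2 * l2 (‖q.2 - c‖ ^ 2)) *
      ((1 - ‖w q‖ ^ 2) ^ 3 * ‖dz w q‖ ^ 2) = ∫ q, Ω.indicator P q := by
    rw [← integral_indicator hSm]
    congr 1
    funext q
    by_cases hq : q ∈ Ω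
    · rw [indicator_of_mem hq]
      by_cases hqS : q ∈ S
      · rw [indicator_of_mem hqS]
        simp only [hP]
        unfold K0
        rw [max_eq_left (by linarith [gS q hqS])]
      · rw [indicator_of_notMem hqS]
        simp only [hP]
        rw [K0_zero (gS' q hq hqS)]
        ring
    · rw [indicator_of_notMem hq, indicator_of_notMem (fun hh => hq (hSΩ hh))]
  have cB : ContinuousOn (fun q : ℂ × ℂ => |l (‖q.2 - c‖ ^ 2)| * G2 (dz w q) (dt w q)) Ω :=
    ((cl.continuous.comp cX).abs.continuousOn).mul cG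
  have iB : IntegrableOn (fun q : ℂ × ℂ => |l (‖q.2 - c‖ ^ 2)| * G2 (dz w q) (dt w q)) S := by
    have h1 : IntegrableOn (fun q : ℂ × ℂ => |l (‖q.2 - c‖ ^ 2)| * G2 (dz w q) (dt w q)) (S ∩ K) :=
      ((cB.mono hKΩ).integrableOn_compact hK).mono_set inter_subset_right
    have h2 : IntegrableOn (fun q : ℂ × ℂ => |l (‖q.2 - c‖ ^ 2)| * G2 (dz w q) (dt w q)) (S \ K) := by
      refine (integrableOn_zero (s := S \ K)).congr_fun (fun q hq => ?_) (hSm.diff hK.isClosed.measurableSet)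
      have : b < ‖q.2 - c‖ ^ 2 := by
        rcases off q hq.1.1 hq.2 with h1 | h1
        · exact absurd h1 (not_le.2 (gS q hq.1))
        · exact h1
      simp [hb _ this.le]
    have := h1.union h2
    rwa [inter_union_sdiff] at this
  rw [eL, eqPR]
  calc |∫ q, Ω.indicator R q| ≤ ∫ q, |Ω.indicator R q| := abs_integral_le_integral_abs
    _ ≤ ∫ q, S.indicator (fun q => 12 * (|l (‖q.2 - c‖ ^ 2)| * G2 (dz w q) (dt w q))) q := by
        refine integral_mono iR.abs ?_ (fun q => ?_)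
        · rw [integrable_indicator_iff hSm]
          exact iB.const_mul 12
        · by_cases hqS : q ∈ S
          · rw [indicator_of_mem hqS, indicator_of_mem (hSΩ hqS)]
            simp only [hR]
            rw [abs_mul]
            have hk1 : |K1 (‖w q‖ ^ 2)| ≤ 3 := by
              unfold K1
              rw [max_eq_left (by linarith [gS q hqS]), abs_mul, abs_neg, abs_of_nonneg (by norm_num : (0 : ℝ) ≤ 3),
                abs_of_nonneg (by positivity)]
              have h1 := gS q hqS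
              have h2 := sq_nonneg (‖w q‖)
              nlinarith
            have hk2 : |K2 (‖w q‖ ^ 2)| ≤ 6 := by
              unfold K2
              have h1 := gS q hqS
              have h2 := sq_nonneg (‖w q‖)
              rw [max_eq_left (by linarith), abs_of_nonneg (by nlinarith)]
              nlinarith
            have hg := hG (dz w q) (dt w q)
            have hN := hc (w q) (dz w q) (dt w q)
            have hN2 : ‖inner ℂ (w q) (dt w q) • dz w q - inner ℂ (w q) (dz w q) • dt w q‖ ^ 2 ≤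
                G2 (dz w q) (dt w q) := hN.trans (by
                  have h1 := gS q hqS
                  nlinarith)
            have : |2 * K1 (‖w q‖ ^ 2) * G2 (dz w q) (dt w q) + K2 (‖w q‖ ^ 2) *
                ‖inner ℂ (w q) (dt w q) • dz w q - inner ℂ (w q) (dz w q) • dt w q‖ ^ 2| ≤
                12 * G2 (dz w q) (dt w q) := by
              refine (abs_add_le _ _).trans ?_
              rw [abs_mul, abs_mul, abs_mul, abs_of_nonneg hg, abs_of_nonneg (sq_nonneg ‖_‖),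
                abs_of_nonneg (by norm_num : (0 : ℝ) ≤ 2)]
              have h3 : |K1 (‖w q‖ ^ 2)| * G2 (dz w q) (dt w q) ≤ 3 * G2 (dz w q) (dt w q) :=
                mul_le_mul_of_nonneg_right hk1 hg
              have h4 : |K2 (‖w q‖ ^ 2)| *
                ‖inner ℂ (w q) (dt w q) • dz w q - inner ℂ (w q) (dz w q) • dt w q‖ ^ 2 ≤
                6 * G2 (dz w q) (dt w q) := mul_le_mul hk2 hN2 (sq_nonneg _) (by norm_num)
              nlinarith
            calc _ ≤ |l (‖q.2 - c‖ ^ 2)| * (12 * G2 (dz w q) (dt w q)) :=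
                  mul_le_mul_of_nonneg_left this (abs_nonneg _)
              _ = _ := by ring
          · rw [indicator_of_notMem hqS]
            by_cases hq : q ∈ Ω
            · rw [indicator_of_mem hq]
              simp only [hR]
              rw [K1_zero (gS' q hq hqS), K2_zero (gS' q hq hqS)]
              simp
            · rw [indicator_of_notMem hq]
              simp
    _ = 12 * ∫ q in S, |l (‖q.2 - c‖ ^ 2)| * G2 (dz w q) (dt w q) := by
        rw [integral_indicator hSm, integral_const_mul]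

end MFE
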